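import Pool.Agent.ISO.Bridge
import Pool.Agent.CLU.Pencil

/-!
# ISO / Final: the isotriviality theorem for pencils of cubic surfaces

PROOF.  `Pen (toT f0) (toT f1)` by the Bridge lemmas (`DoublePoint` = gradient zero and Hessian of
rank `≥ 2`; rank `≤ 1` gives vanishing `2 × 2` minors, e.g. `Matrix.rank` of a `2 × 2` submatrix, or the
contrapositive).  Then `main2`, `finite_sing` via `main1`/`exists_smooth_pair`, `of_fermat`.
-/

set_option autoImplicit false

noncomputable section

namespace Pool.Agent.ISO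

open MvPolynomial Matrix Pool.Agent.CLU

/-- Smooth surfaces. -/
def SmoothForm (F : S4) : Prop := ∀ p : Fin 4 → ℂ, p ≠ 0 → ∃ i, eval p (pderiv i F) ≠ 0

/-- The base locus `f0 = f1 = 0` is a smooth complete intersection curve. -/
def SmoothBase (f0 f1 : S4) : Prop :=
  ∀ p : Fin 4 → ℂ, p ≠ 0 → eval p f0 = 0 → eval p f1 = 0 →
    LinearIndependent ℂ ![fun i => eval p (pderiv i f0), fun i => eval p (pderiv i f1)]

/-- a matrix of rank at most one has vanishing minors -/
private theorem minor_zero {M : Matrix (Fin 4) (Fin 4) ℂ} (h : ¬ 2 ≤ M.rank) (i j k l : Fin 4) :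
    M i k * M j l = M i l * M j k := by
  by_contra hne
  apply h
  have h1 : (M.submatrix ![i, j] ![k, l]).det ≠ 0 := by
    rw [Matrix.det_fin_two]
    simp only [Matrix.submatrix_apply, Matrix.cons_val_zero, Matrix.cons_val_one]
    intro h2
    exact hne (sub_eq_zero.1 h2)
  have h2 : (M.submatrix ![i, j] ![k, l]).rank = 2 := by
    have h3 := Matrix.rank_of_isUnit _ ((Matrix.isUnit_iff_isUnit_det _).2 (isUnit_iff_ne_zero.2 h1))
    rw [h3, Fintype.card_fin]
  rw [← h2]
  exact Matrix.rank_submatrix_le M _ _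

private theorem homog_lin (f0 f1 : S4) (h0 : f0.IsHomogeneous 3) (h1 : f1.IsHomogeneous 3)
    (a b : ℂ) : (C a * f0 + C b * f1).IsHomogeneous 3 := by
  have e0 : (C a * f0).IsHomogeneous 3 := by
    have := (isHomogeneous_C (Fin 4) a).mul h0
    simpa using this
  have e1 : (C b * f1).IsHomogeneous 3 := by
    have := (isHomogeneous_C (Fin 4) b).mul h1
    simpa using this
  exact e0.add e1

private theorem toT_lin (f0 f1 : S4) (a b : ℂ) :
    toT (C a * f0 + C b * f1) = a • toT f0 + b • toT f1 := by
  rw [toT_add, toT_C_mul, toT_C_mul]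

private theorem hess_toT (F : S4) (hF : F.IsHomogeneous 3) (p : Fin 4 → ℂ) (j k : Fin 4) :
    hess F p j k = 6 * pol (toT F) p j k := pol_toT F hF p j k

private theorem grad_zero_iff (F : S4) (hF : F.IsHomogeneous 3) (p : Fin 4 → ℂ) :
    (∀ j, eval p (pderiv j F) = 0) ↔ grad (toT F) p = 0 := by
  constructor
  · intro h
    funext k
    have h1 := h k
    rw [grad_toT F hF] at h1
    exact (mul_eq_zero.1 h1).resolve_left (by norm_num)
  · intro h k
    rw [grad_toT F hF, h]
    simp

/-- smooth forms and smooth tensors -/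
private theorem smooth_iff (F : S4) (hF : F.IsHomogeneous 3) : SmoothForm F ↔ Sm (toT F) := by
  constructor
  · intro h
    refine ⟨isSym_toT F, fun p hp => ?_⟩
    obtain ⟨i, hi⟩ := h p hp
    refine ⟨i, fun h0 => hi ?_⟩
    rw [grad_toT F hF, h0, mul_zero]
  · intro h p hp
    obtain ⟨i, hi⟩ := h.2 p hp
    refine ⟨i, fun h0 => hi ?_⟩
    rw [grad_toT F hF] at h0
    exact (mul_eq_zero.1 h0).resolve_left (by norm_num)

theorem pen_toT (f0 f1 : S4) (h0 : f0.IsHomogeneous 3) (h1 : f1.IsHomogeneous 3)
    (hC : SmoothBase f0 f1)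
    (hA : ∀ a b : ℂ, (a, b) ≠ (0, 0) → ∀ p, ¬ DoublePoint (C a * f0 + C b * f1) p)
    (hK : ∀ a b : ℂ, (a, b) ≠ (0, 0) → ∀ p : Fin 4 → ℂ, p ≠ 0 →
      (∀ j, eval p (pderiv j (C a * f0 + C b * f1)) = 0) → hess (C a * f0 + C b * f1) p ≠ 0) :
    Pen (toT f0) (toT f1) := by
  refine ⟨isSym_toT f0, isSym_toT f1, ?_, ?_, ?_⟩
  · intro v hv e0 e1
    rw [ev_toT f0 h0] at e0
    rw [ev_toT f1 h1] at e1
    have h2 := hC v hv e0 e1
    rw [LinearIndependent.pair_iff] at h2 ⊢
    intro s t hst
    refine h2 s t ?_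
    funext i
    have h3 := congrFun hst i
    simp only [Pi.add_apply, Pi.smul_apply, smul_eq_mul, Pi.zero_apply] at h3 ⊢
    rw [grad_toT f0 h0, grad_toT f1 h1]
    linear_combination 3 * h3
  · intro a b hab p hp hg i j k l
    have hF := homog_lin f0 f1 h0 h1 a b
    rw [← toT_lin] at hg ⊢
    have h2 : ¬ 2 ≤ (hess (C a * f0 + C b * f1) p).rank := fun h3 =>
      hA a b hab p ⟨(grad_zero_iff _ hF p).2 hg, h3⟩
    have h4 := minor_zero h2 i j k l
    rw [hess_toT _ hF, hess_toT _ hF, hess_toT _ hF, hess_toT _ hF] at h4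
    linear_combination h4 / 36
  · intro a b hab p hp hg h2
    have hF := homog_lin f0 f1 h0 h1 a b
    rw [← toT_lin] at hg h2
    refine hK a b hab p hp ((grad_zero_iff _ hF p).2 hg) ?_
    ext j k
    rw [hess_toT _ hF, h2]
    simp

theorem iso (f0 f1 : S4) (h0 : f0.IsHomogeneous 3) (h1 : f1.IsHomogeneous 3)
    (hC : SmoothBase f0 f1)
    (hA : ∀ a b : ℂ, (a, b) ≠ (0, 0) → ∀ p, ¬ DoublePoint (C a * f0 + C b * f1) p)
    (hK : ∀ a b : ℂ, (a, b) ≠ (0, 0) → ∀ p : Fin 4 → ℂ, p ≠ 0 →
      (∀ j, eval p (pderiv j (C a * f0 + C b * f1)) = 0) → hess (C a * f0 + C b * f1) p ≠ 0) :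
    {t : ℂ | ¬ SmoothForm (f0 + C t * f1)}.Finite ∧
    (∀ a b : ℂ, SmoothForm (C a * f0 + C b * f1) →
      ∃ l : Fin 4 → S4, (∀ i, (l i).IsHomogeneous 1) ∧ LinearIndependent ℂ l ∧
        C a * f0 + C b * f1 = ∑ i, l i ^ 3) := by
  have hP := pen_toT f0 f1 h0 h1 hC hA hK
  constructor
  · obtain ⟨⟨a, b, a', b', hd, hs, hs'⟩, -⟩ := exists_smooth_pair hP
    obtain ⟨-, hfin, -, -⟩ := main1 (hP.change a b a' b' hd) hs hs'
    have hd' : a * b' - a' * b ≠ 0 := hd
    refine (hfin.image (fun s => (b + s * b') / (a + s * a'))).subset ?_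
    intro t ht
    have hF : (f0 + C t * f1).IsHomogeneous 3 := by
      have := homog_lin f0 f1 h0 h1 1 t
      simpa using this
    have hT : toT (f0 + C t * f1) = toT f0 + t • toT f1 := by
      rw [toT_add, toT_C_mul]
    have hbad : ¬ Sm (toT f0 + t • toT f1) := by
      intro h2
      apply ht
      rw [smooth_iff _ hF, hT]
      exact h2
    have hq : b' - t * a' ≠ 0 := by
      intro hq
      apply hbad
      have hc : (t * a - b) / (a * b' - a' * b) ≠ 0 := by
        refine div_ne_zero (fun h3 => hd' ?_) hd'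
        linear_combination a * hq + a' * h3
      have e : toT f0 + t • toT f1 =
          ((t * a - b) / (a * b' - a' * b)) • (a' • toT f0 + b' • toT f1) := by
        rw [smul_add, smul_smul, smul_smul]
        have e1 : (t * a - b) / (a * b' - a' * b) * a' = 1 := by
          rw [div_mul_eq_mul_div, div_eq_one_iff_eq hd']
          linear_combination (-a) * hq
        have e2 : (t * a - b) / (a * b' - a' * b) * b' = t := by
          rw [div_mul_eq_mul_div, div_eq_iff hd']
          linear_combination (-b) * hq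
        rw [e1, e2, one_smul]
      rw [e]
      exact sm_smul hs' _ hc
    refine ⟨(t * a - b) / (b' - t * a'), ?_, ?_⟩
    · intro h2
      apply hbad
      have e : toT f0 + t • toT f1 = ((b' - t * a') / (a * b' - a' * b)) •
          ((a • toT f0 + b • toT f1) +
            ((t * a - b) / (b' - t * a')) • (a' • toT f0 + b' • toT f1)) := by
        rw [smul_add, smul_smul, smul_add, smul_add, smul_smul, smul_smul, smul_smul, smul_smul]
        have e0 : (b' - t * a') / (a * b' - a' * b) * ((t * a - b) / (b' - t * a')) =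
            (t * a - b) / (a * b' - a' * b) := by
          field_simp
        rw [e0]
        have e1 : toT f0 = ((b' - t * a') / (a * b' - a' * b) * a +
            (t * a - b) / (a * b' - a' * b) * a') • toT f0 := by
          have : (b' - t * a') / (a * b' - a' * b) * a +
              (t * a - b) / (a * b' - a' * b) * a' = 1 := by
            rw [div_mul_eq_mul_div, div_mul_eq_mul_div, ← add_div, div_eq_iff hd']
            ring
          rw [this, one_smul]
        have e2 : t • toT f1 = ((b' - t * a') / (a * b' - a' * b) * b +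
            (t * a - b) / (a * b' - a' * b) * b') • toT f1 := by
          have : (b' - t * a') / (a * b' - a' * b) * b +
              (t * a - b) / (a * b' - a' * b) * b' = t := by
            rw [div_mul_eq_mul_div, div_mul_eq_mul_div, ← add_div, div_eq_iff hd']
            ring
          rw [this]
        conv_lhs => rw [e1, e2]
        rw [add_smul, add_smul]
        abel
      rw [e]
      exact sm_smul h2 _ (div_ne_zero hq hd')
    · change (b + (t * a - b) / (b' - t * a') * b') / (a + (t * a - b) / (b' - t * a') * a') = t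
      have e1 : b + (t * a - b) / (b' - t * a') * b' =
          t * ((a * b' - a' * b) / (b' - t * a')) := by
        field_simp
        ring
      have e2 : a + (t * a - b) / (b' - t * a') * a' = (a * b' - a' * b) / (b' - t * a') := by
        field_simp
        ring
      rw [e1, e2]
      exact mul_div_cancel_right₀ _ (div_ne_zero hd' hq)
  · intro a b hs
    have hF := homog_lin f0 f1 h0 h1 a b
    have h2 := (smooth_iff _ hF).1 hs
    rw [toT_lin] at h2
    obtain ⟨x, hx, h3⟩ := main2 hP a b h2
    rw [← toT_lin] at h3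
    exact of_fermat _ hF x hx h3

end Pool.Agent.ISO
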