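import Pool.Agent.ISO.Stab

/-!
# ISO / Unif: uniform stability on compact sets of smooth forms

PROOF of `unif`.  If `K` is empty take `c = 1`.  Otherwise consider the compact set
`K × {U | IsU U} × {r | ∑ r = 0, ‖r‖ = 1}` (the unitary group is closed and bounded; `‖r‖` is the sup
norm of `Fin 4 → ℝ`) and the continuous function
`f (T, U, r) = max over i j k of min ‖act T U i j k‖ (r i + r j + r k)` (a finite supremum).  It is
positive by `stab` applied to the smooth form `act T U` (`sm_act`), so it has a positive minimum `c`.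
(If the compact set is empty, any `c` works.)

PROOF of `unif_scaled`: for `r ≠ 0` apply `unif` to `r / ‖r‖`; for `r = 0` the claim
`c ≤ ‖act T U i j k‖` for some `i j k` follows from the case of any `r` with `‖r‖ = 1`.

PROOF of `sm_open`: by compactness of the unit sphere (sup norm) of `Fin 4 → ℂ`: the continuous
function `max_k ‖grad T p k‖` has a positive minimum on the sphere, and `grad` depends continuously
on `T` uniformly for `p` in the sphere; then scale `p`.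
-/

set_option autoImplicit false

noncomputable section

namespace Pool.Agent.ISO

open Matrix Filter Topology

theorem isCompact_unitary : IsCompact {U : M4 | IsU U} := by
  have hc : IsClosed {U : M4 | IsU U} := by
    have h1 : {U : M4 | IsU U} = {U : M4 | U * star U = 1} := by
      ext U
      exact Matrix.mem_unitaryGroup_iff
    rw [h1]
    exact isClosed_eq (continuous_id.mul continuous_star) continuous_const
  have hb : IsCompact (Set.pi Set.univ fun _ : Fin 4 =>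
      Set.pi Set.univ fun _ : Fin 4 => Metric.closedBall (0 : ℂ) 1) :=
    isCompact_univ_pi fun _ => isCompact_univ_pi fun _ => isCompact_closedBall 0 1
  refine hb.of_isClosed_subset hc ?_
  intro U hU i _ j _
  rw [mem_closedBall_zero_iff]
  exact entry_norm_bound_of_unitary hU i j

/-- The set of the normalised weights. -/
private def wts : Set (Fin 4 → ℝ) := {r | ∑ i, r i = 0 ∧ ‖r‖ = 1}

private theorem isCompact_wts : IsCompact wts := by
  have h1 : IsClosed wts := by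
    have h2 : wts = {r : Fin 4 → ℝ | ∑ i, r i = 0} ∩ {r : Fin 4 → ℝ | ‖r‖ = 1} := rfl
    rw [h2]
    exact (isClosed_eq (continuous_finsetSum _ fun i _ => continuous_apply i)
      continuous_const).inter (isClosed_eq continuous_norm continuous_const)
  refine (isCompact_closedBall (0 : Fin 4 → ℝ) 1).of_isClosed_subset h1 ?_
  intro r hr
  rw [mem_closedBall_zero_iff, hr.2]

/-- The function to be minimised. -/
private def fmin (x : (T3 × M4) × (Fin 4 → ℝ)) : ℝ :=
  (Finset.univ : Finset (Fin 4 × Fin 4 × Fin 4)).sup' ⟨(0, 0, 0), Finset.mem_univ _⟩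
    (fun q => min ‖act x.1.1 x.1.2 q.1 q.2.1 q.2.2‖ (x.2 q.1 + x.2 q.2.1 + x.2 q.2.2))

private theorem continuous_fmin : Continuous fmin := by
  unfold fmin
  refine Continuous.finset_sup'_apply _ fun q _ => ?_
  have h1 : Continuous fun x : (T3 × M4) × (Fin 4 → ℝ) => act x.1.1 x.1.2 q.1 q.2.1 q.2.2 :=
    (continuous_apply q.2.2).comp ((continuous_apply q.2.1).comp ((continuous_apply q.1).comp
      (continuous_act.comp continuous_fst)))
  have h2 : ∀ i : Fin 4, Continuous fun x : (T3 × M4) × (Fin 4 → ℝ) => x.2 i := fun i =>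
    (continuous_apply i).comp continuous_snd
  exact h1.norm.min (((h2 _).add (h2 _)).add (h2 _))

private theorem le_fmin_iff (x : (T3 × M4) × (Fin 4 → ℝ)) (c : ℝ) (h : c ≤ fmin x) :
    ∃ i j k, c ≤ ‖act x.1.1 x.1.2 i j k‖ ∧ c ≤ x.2 i + x.2 j + x.2 k := by
  unfold fmin at h
  rw [Finset.le_sup'_iff] at h
  obtain ⟨q, -, hq⟩ := h
  exact ⟨q.1, q.2.1, q.2.2, le_trans hq (min_le_left _ _), le_trans hq (min_le_right _ _)⟩

private theorem det_ne_zero_of_isU {U : M4} (hU : IsU U) : U.det ≠ 0 := by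
  have h1 : U * star U = 1 := Matrix.mem_unitaryGroup_iff.1 hU
  have h2 : U.det * (star U).det = 1 := by
    rw [← Matrix.det_mul, h1, Matrix.det_one]
  exact left_ne_zero_of_mul_eq_one h2

theorem unif (K : Set T3) (hK : IsCompact K) (hs : ∀ T ∈ K, Sm T) :
    ∃ c : ℝ, 0 < c ∧ ∀ T ∈ K, ∀ U : M4, IsU U → ∀ r : Fin 4 → ℝ, ∑ i, r i = 0 → ‖r‖ = 1 →
      ∃ i j k, c ≤ ‖act T U i j k‖ ∧ c ≤ r i + r j + r k := by
  have hcomp : IsCompact ((K ×ˢ {U : M4 | IsU U}) ×ˢ wts) :=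
    (hK.prod isCompact_unitary).prod isCompact_wts
  rcases ((K ×ˢ {U : M4 | IsU U}) ×ˢ wts).eq_empty_or_nonempty with he | hne
  · refine ⟨1, one_pos, fun T hT U hU r hr hr1 => ?_⟩
    exfalso
    have : ((T, U), r) ∈ ((K ×ˢ {U : M4 | IsU U}) ×ˢ wts) := ⟨⟨hT, hU⟩, ⟨hr, hr1⟩⟩
    rw [he] at this
    exact this
  · obtain ⟨x, hx, hmin⟩ := hcomp.exists_isMinOn hne continuous_fmin.continuousOn
    refine ⟨fmin x, ?_, fun T hT U hU r hr hr1 => ?_⟩
    · obtain ⟨⟨hx1, hx2⟩, hx3, hx4⟩ := hx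
      have h0 : x.2 ≠ 0 := by
        intro h0
        rw [h0, norm_zero] at hx4
        exact zero_ne_one hx4
      obtain ⟨i, j, k, h1, h2⟩ := stab (sm_act (hs _ hx1) x.1.2 (det_ne_zero_of_isU hx2)) x.2 hx3 h0
      have h3 : min ‖act x.1.1 x.1.2 i j k‖ (x.2 i + x.2 j + x.2 k) ≤ fmin x := by
        unfold fmin
        exact Finset.le_sup' (fun q : Fin 4 × Fin 4 × Fin 4 =>
          min ‖act x.1.1 x.1.2 q.1 q.2.1 q.2.2‖ (x.2 q.1 + x.2 q.2.1 + x.2 q.2.2))
          (Finset.mem_univ (i, j, k))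
      exact lt_of_lt_of_le (lt_min (norm_pos_iff.2 h1) h2) h3
    · have h1 : ((T, U), r) ∈ ((K ×ˢ {U : M4 | IsU U}) ×ˢ wts) := ⟨⟨hT, hU⟩, ⟨hr, hr1⟩⟩
      exact le_fmin_iff ((T, U), r) _ (hmin h1)

theorem unif_scaled (K : Set T3) (hK : IsCompact K) (hs : ∀ T ∈ K, Sm T) :
    ∃ c : ℝ, 0 < c ∧ ∀ T ∈ K, ∀ U : M4, IsU U → ∀ r : Fin 4 → ℝ, ∑ i, r i = 0 →
      ∃ i j k, c ≤ ‖act T U i j k‖ ∧ c * ‖r‖ ≤ r i + r j + r k := by
  obtain ⟨c, hc, h⟩ := unif K hK hs
  refine ⟨c, hc, fun T hT U hU r hr => ?_⟩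
  by_cases hr0 : r = 0
  · have h1 : ∑ i, (![1, -1, 0, 0] : Fin 4 → ℝ) i = 0 := by
      simp [Fin.sum_univ_four]
    have h2 : ‖(![1, -1, 0, 0] : Fin 4 → ℝ)‖ = 1 := by
      apply le_antisymm
      · rw [pi_norm_le_iff_of_nonneg zero_le_one]
        intro i
        fin_cases i <;> simp
      · have := norm_le_pi_norm (![1, -1, 0, 0] : Fin 4 → ℝ) 0
        simpa using this
    obtain ⟨i, j, k, h3, -⟩ := h T hT U hU _ h1 h2
    refine ⟨i, j, k, h3, ?_⟩
    rw [hr0]
    simp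
  · have hn : 0 < ‖r‖ := norm_pos_iff.2 hr0
    have h1 : ∑ i, ((‖r‖⁻¹ • r : Fin 4 → ℝ)) i = 0 := by
      simp only [Pi.smul_apply, smul_eq_mul]
      rw [← Finset.mul_sum, hr, mul_zero]
    have h2 : ‖(‖r‖⁻¹ • r : Fin 4 → ℝ)‖ = 1 := by
      rw [norm_smul, norm_inv, norm_norm, inv_mul_cancel₀ hn.ne']
    obtain ⟨i, j, k, h3, h4⟩ := h T hT U hU _ h1 h2
    refine ⟨i, j, k, h3, ?_⟩
    simp only [Pi.smul_apply, smul_eq_mul] at h4
    have h5 : ‖r‖⁻¹ * r i + ‖r‖⁻¹ * r j + ‖r‖⁻¹ * r k = (r i + r j + r k) / ‖r‖ := by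
      field_simp
    rw [h5, le_div_iff₀ hn] at h4
    exact h4

private theorem continuous_grad (k : Fin 4) :
    Continuous fun x : T3 × (Fin 4 → ℂ) => grad x.1 x.2 k := by
  unfold grad
  refine continuous_finsetSum _ fun a _ => continuous_finsetSum _ fun b _ => ?_
  have hT : Continuous fun x : T3 × (Fin 4 → ℂ) => x.1 a b k :=
    (continuous_apply k).comp ((continuous_apply b).comp ((continuous_apply a).comp continuous_fst))
  have hp : ∀ u : Fin 4, Continuous fun x : T3 × (Fin 4 → ℂ) => x.2 u := fun u =>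
    (continuous_apply u).comp continuous_snd
  exact (hT.mul (hp a)).mul (hp b)

private theorem grad_smul_point (T : T3) (s : ℂ) (p : Fin 4 → ℂ) (k : Fin 4) :
    grad T (s • p) k = s ^ 2 * grad T p k := by
  simp only [grad, Pi.smul_apply, smul_eq_mul, Finset.mul_sum]
  refine Finset.sum_congr rfl fun a _ => Finset.sum_congr rfl fun b _ => ?_
  ring

/-- Smoothness is an open condition (on symmetric tensors). -/
theorem sm_open {T : T3} (h : Sm T) : ∀ᶠ T' in 𝓝 T, IsSym T' → Sm T' := by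
  have hS : IsCompact (Metric.sphere (0 : Fin 4 → ℂ) 1) := isCompact_sphere 0 1
  have h1 : ∀ p ∈ Metric.sphere (0 : Fin 4 → ℂ) 1,
      ∀ᶠ z in 𝓝 T ×ˢ 𝓝 p, ∃ k, grad z.1 z.2 k ≠ 0 := by
    intro p hp
    have hp0 : p ≠ 0 := by
      intro h0
      rw [h0, mem_sphere_zero_iff_norm, norm_zero] at hp
      exact zero_ne_one hp
    obtain ⟨k, hk⟩ := h.2 p hp0
    rw [← nhds_prod_eq]
    have h2 : ∀ᶠ z : T3 × (Fin 4 → ℂ) in 𝓝 (T, p), grad z.1 z.2 k ≠ 0 :=
      (continuous_grad k).continuousAt.eventually_ne hk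
    exact h2.mono fun z hz => ⟨k, hz⟩
  have h2 : ∀ᶠ T' in 𝓝 T, ∀ p ∈ Metric.sphere (0 : Fin 4 → ℂ) 1, ∃ k, grad T' p k ≠ 0 := by
    refine hS.eventually_forall_of_forall_eventually fun p hp => ?_
    rw [nhds_prod_eq]
    exact h1 p hp
  refine h2.mono fun T' hT' hsym => ⟨hsym, fun p hp => ?_⟩
  have hn : 0 < ‖p‖ := norm_pos_iff.2 hp
  have hn' : ((‖p‖ : ℝ) : ℂ) ≠ 0 := by exact_mod_cast hn.ne'
  have h3 : ((((‖p‖ : ℝ) : ℂ)⁻¹) • p) ∈ Metric.sphere (0 : Fin 4 → ℂ) 1 := by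
    rw [mem_sphere_zero_iff_norm, norm_smul, norm_inv, Complex.norm_real, norm_norm,
      inv_mul_cancel₀ hn.ne']
  obtain ⟨k, hk⟩ := hT' _ h3
  refine ⟨k, ?_⟩
  rw [grad_smul_point] at hk
  exact right_ne_zero_of_mul hk

end Pool.Agent.ISO
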