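import Pool.Agent.ISO.LieInj
import Pool.Agent.ISO.Unif

/-!
# ISO / Orb: a pencil which is everywhere tangent to the orbits stays in one orbit

PROOF of `orbit_step`.  For small `t` let `X t` be a matrix with `T1 = lie (T0 + t T1) (X t)`; it is
unique by `lie_inj` (and `lie_add_right`, `lie_smul_right`).  `L t Y := lie (T0 + t T1) Y` is linear in
`Y` and injective at `t = 0`, so `‖L 0 Y‖ ≥ 2 a ‖Y‖` with `a > 0` (finite dimension) and
`‖L t Y‖ ≥ a ‖Y‖` for small `t`.  So `‖X t‖ ≤ ‖T1‖ / a` and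
`a ‖X t - X t'‖ ≤ ‖L t (X t - X t')‖ = ‖L t' (X t') - L t (X t')‖ = ‖(t' - t) lie T1 (X t')‖`, so
`X` is Lipschitz near `0`.  Fix a small `t`; on `[0, 1]` solve the linear equation
`g' s = g s * (t • X (s t))`, `g 0 = 1` (Picard-Lindelöf in Mathlib, `IsPicardLindelof`; for small `t` the
norm of the coefficient is small, so the solution exists on `[0, 1]` and stays in the ball
`‖g - 1‖ ≤ 1/100` (entrywise), where `det g ≠ 0`).  Then `A s = act T0 (g s)` satisfies
`A' s = lie (A s) (t • X (s t))` (derivative of `act`: `act_act`, product rule), and so does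
`B s = T0 + (s t) • T1` (`B' s = t T1 = lie (B s) (t X (s t))`), `A 0 = B 0`.  Uniqueness of
solutions (`ODE_solution_unique`) gives `A 1 = B 1`.

PROOF of `orbit_all`.  On the connected set `ℂ \ Z` the relation
`∃ x, det x ≠ 0 ∧ T0 + t' T1 = act (T0 + t T1) x` is an equivalence relation with open classes
(`orbit_step` at every point), so there is one class (e.g. `IsPreconnected.induction₂`, or clopen
sets).
-/

set_option autoImplicit false

noncomputable section

namespace Pool.Agent.ISO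

open Matrix Filter Topology

section abs

variable {E F : Type*} [NormedAddCommGroup E] [NormedSpace ℂ E] [FiniteDimensional ℂ E]
  [NormedAddCommGroup F] [NormedSpace ℂ F]

private theorem orb_sol (L0 L1 : E →ₗ[ℂ] F) (h0 : LinearMap.ker L0 = ⊥) (y : F) (ε : ℝ)
    (hε : 0 < ε) (hX : ∀ t : ℂ, ‖t‖ < ε → ∃ X : E, y = L0 X + t • L1 X) :
    ∃ δ : ℝ, 0 < δ ∧ ∃ X : ℂ → E, ∃ C : ℝ, 0 < C ∧
      (∀ t : ℂ, ‖t‖ < δ → y = L0 (X t) + t • L1 (X t) ∧ ‖X t‖ ≤ C) ∧
      ∀ t t' : ℂ, ‖t‖ < δ → ‖t'‖ < δ → ‖X t - X t'‖ ≤ C * ‖t - t'‖ := by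
  classical
  obtain ⟨K, hK, hanti⟩ := L0.exists_antilipschitzWith h0
  have hK0 : (0 : ℝ) < K := by exact_mod_cast hK
  have ha : ∀ Z : E, ‖Z‖ ≤ K * ‖L0 Z‖ := by
    intro Z
    have := hanti.le_mul_dist Z 0
    rwa [map_zero, dist_zero_right, dist_zero_right] at this
  set b : ℝ := ‖LinearMap.toContinuousLinearMap L1‖ + 1 with hb
  have hb0 : 0 < b := by positivity
  have hb1 : ∀ Z : E, ‖L1 Z‖ ≤ b * ‖Z‖ := by
    intro Z
    have h1 := (LinearMap.toContinuousLinearMap L1).le_opNorm Z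
    have h2 : (LinearMap.toContinuousLinearMap L1) Z = L1 Z := rfl
    rw [h2] at h1
    refine h1.trans (mul_le_mul_of_nonneg_right (by rw [hb]; linarith) (norm_nonneg _))
  set δ : ℝ := min ε (1 / (2 * K * b)) with hδ
  have hδ0 : 0 < δ := lt_min hε (by positivity)
  have hlow : ∀ t : ℂ, ‖t‖ < δ → ∀ Z : E, ‖Z‖ ≤ 2 * K * ‖L0 Z + t • L1 Z‖ := by
    intro t ht Z
    have h1 : ‖t‖ * (2 * K * b) ≤ 1 := by
      have := (ht.le.trans (min_le_right _ _))
      rwa [le_div_iff₀ (by positivity)] at this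
    have h2 : ‖L0 Z‖ ≤ ‖L0 Z + t • L1 Z‖ + ‖t‖ * (b * ‖Z‖) := by
      have e : L0 Z = (L0 Z + t • L1 Z) - t • L1 Z := by abel
      calc ‖L0 Z‖ = ‖(L0 Z + t • L1 Z) - t • L1 Z‖ := by rw [← e]
        _ ≤ ‖L0 Z + t • L1 Z‖ + ‖t • L1 Z‖ := norm_sub_le _ _
        _ ≤ _ := by
            rw [norm_smul]
            have := mul_le_mul_of_nonneg_left (hb1 Z) (norm_nonneg t)
            linarith
    have h3 := ha Z
    have h4 : (K : ℝ) * ‖L0 Z‖ ≤ K * (‖L0 Z + t • L1 Z‖ + ‖t‖ * (b * ‖Z‖)) :=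
      mul_le_mul_of_nonneg_left h2 hK0.le
    have h5 : ‖t‖ * (2 * K * b) * ‖Z‖ ≤ 1 * ‖Z‖ :=
      mul_le_mul_of_nonneg_right h1 (norm_nonneg _)
    nlinarith
  have hX' : ∀ t : ℂ, ∃ X : E, ‖t‖ < ε → y = L0 X + t • L1 X := by
    intro t
    by_cases ht : ‖t‖ < ε
    · obtain ⟨X, hXt⟩ := hX t ht
      exact ⟨X, fun _ => hXt⟩
    · exact ⟨0, fun h => absurd h ht⟩
  choose X hXX using hX'
  have hX1 : ∀ t : ℂ, ‖t‖ < δ → y = L0 (X t) + t • L1 (X t) := fun t ht =>
    hXX t (ht.trans_le (min_le_left _ _))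
  set C1 : ℝ := 2 * K * ‖y‖ with hC1
  have hC10 : 0 ≤ C1 := by positivity
  have hX2 : ∀ t : ℂ, ‖t‖ < δ → ‖X t‖ ≤ C1 := by
    intro t ht
    have := hlow t ht (X t)
    rwa [← hX1 t ht] at this
  refine ⟨δ, hδ0, X, C1 + 2 * K * b * C1 + 1, by positivity, ?_, ?_⟩
  · intro t ht
    refine ⟨hX1 t ht, (hX2 t ht).trans ?_⟩
    have : 0 ≤ 2 * K * b * C1 := by positivity
    linarith
  · intro t t' ht ht'
    have h1 := hlow t ht (X t - X t')
    have e : L0 (X t - X t') + t • L1 (X t - X t') = (t' - t) • L1 (X t') := by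
      have h2 := hX1 t ht
      have h3 := hX1 t' ht'
      have e1 : L0 (X t - X t') + t • L1 (X t - X t') =
          (L0 (X t) + t • L1 (X t)) - (L0 (X t') + t • L1 (X t')) := by
        rw [map_sub, map_sub, smul_sub]
        abel
      rw [e1, ← h2, sub_smul]
      nth_rewrite 1 [h3]
      abel
    rw [e, norm_smul] at h1
    have h4 : ‖L1 (X t')‖ ≤ b * C1 :=
      (hb1 _).trans (mul_le_mul_of_nonneg_left (hX2 t' ht') hb0.le)
    have h5 : ‖t' - t‖ = ‖t - t'‖ := norm_sub_rev _ _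
    rw [h5] at h1
    have h6 : 0 ≤ ‖t - t'‖ := norm_nonneg _
    calc ‖X t - X t'‖ ≤ 2 * K * (‖t - t'‖ * ‖L1 (X t')‖) := h1
      _ ≤ 2 * K * (‖t - t'‖ * (b * C1)) := by gcongr
      _ = (2 * K * b * C1) * ‖t - t'‖ := by ring
      _ ≤ _ := by
          apply mul_le_mul_of_nonneg_right _ h6
          linarith

private theorem orb_bil_abs {G : Type*} [NormedAddCommGroup G] [NormedSpace ℂ G]
    [FiniteDimensional ℂ G] (Q : E →ₗ[ℂ] G →ₗ[ℂ] F) :
    ∃ c : ℝ, 0 < c ∧ ∀ (x : E) (y : G), ‖Q x y‖ ≤ c * ‖x‖ * ‖y‖ := by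
  let Φ : E →ₗ[ℂ] (G →L[ℂ] F) :=
    { toFun := fun x => LinearMap.toContinuousLinearMap (Q x)
      map_add' := fun x x' => by
        ext1 y
        change Q (x + x') y = Q x y + Q x' y
        rw [map_add, LinearMap.add_apply]
      map_smul' := fun s x => by
        ext1 y
        change Q (s • x) y = s • Q x y
        rw [map_smul, LinearMap.smul_apply] }
  refine ⟨‖LinearMap.toContinuousLinearMap Φ‖ + 1, by positivity, fun x y => ?_⟩
  have h1 : ‖Φ x‖ ≤ ‖LinearMap.toContinuousLinearMap Φ‖ * ‖x‖ :=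
    (LinearMap.toContinuousLinearMap Φ).le_opNorm x
  have h2 : ‖Q x y‖ ≤ ‖Φ x‖ * ‖y‖ := (Φ x).le_opNorm y
  refine h2.trans (mul_le_mul_of_nonneg_right (h1.trans ?_) (norm_nonneg _))
  apply mul_le_mul_of_nonneg_right _ (norm_nonneg _)
  linarith

end abs

section ode

variable {B : Type*} [NormedRing B] [NormedAlgebra ℝ B] [NormOneClass B] [CompleteSpace B]

private theorem orb_deriv {E : Type*} [NormedAddCommGroup E] [NormedSpace ℝ E] {f : ℝ → E}
    {f' : E} {s : ℝ} (hs : s ∈ Set.Ico (0 : ℝ) 1) (h : HasDerivWithinAt f f' (Set.Icc 0 1) s) :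
    HasDerivWithinAt f f' (Set.Ici s) s :=
  h.mono_of_mem_nhdsWithin (Icc_mem_nhdsGE_of_mem hs)

private theorem orb_lin (M : ℝ → B) (hc : ContinuousOn M (Set.Icc 0 1))
    (hb : ∀ s ∈ Set.Icc (0 : ℝ) 1, ‖M s‖ ≤ 1 / 2) :
    ∃ g : ℝ → B, g 0 = 1 ∧
      (∀ s ∈ Set.Icc (0 : ℝ) 1, HasDerivWithinAt g (g s * M s) (Set.Icc 0 1) s) ∧
      ‖1 - g 1‖ < 1 := by
  have hP : IsPicardLindelof (fun (s : ℝ) (x : B) => x * M s)
      (tmin := 0) (tmax := 1) (⟨0, by simp⟩ : Set.Icc (0 : ℝ) 1) (1 : B) 1 0 1 (1 / 2) := by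
    refine ⟨?_, ?_, ?_, ?_⟩
    · intro s hs
      refine LipschitzWith.lipschitzOnWith (LipschitzWith.of_dist_le_mul fun x y => ?_)
      rw [dist_eq_norm, dist_eq_norm, ← sub_mul]
      have h1 := norm_mul_le (x - y) (M s)
      have h2 := mul_le_mul_of_nonneg_left (hb s hs) (norm_nonneg (x - y))
      have e : (((1 / 2 : NNReal)) : ℝ) = 1 / 2 := by push_cast; ring
      rw [e]
      linarith
    · intro x _
      exact continuousOn_const.mul hc
    · intro s hs x hx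
      rw [Metric.mem_closedBall, dist_eq_norm] at hx
      have h1 : ‖x‖ ≤ 2 := by
        have e : x = (x - 1) + 1 := by abel
        have h2 : ‖x‖ ≤ ‖x - 1‖ + ‖(1 : B)‖ := by
          calc ‖x‖ = ‖(x - 1) + 1‖ := by rw [← e]
            _ ≤ _ := norm_add_le _ _
        rw [norm_one] at h2
        have e1 : ((1 : NNReal) : ℝ) = 1 := NNReal.coe_one
        rw [e1] at hx
        linarith
      have e1 : ((1 : NNReal) : ℝ) = 1 := NNReal.coe_one
      rw [e1]
      calc ‖x * M s‖ ≤ ‖x‖ * ‖M s‖ := norm_mul_le _ _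
        _ ≤ 2 * (1 / 2) := mul_le_mul h1 (hb s hs) (norm_nonneg _) (by norm_num)
        _ = 1 := by norm_num
    · simp
  obtain ⟨g, hg0, hg⟩ := hP.exists_eq_forall_mem_Icc_hasDerivWithinAt₀
  have hg0' : g 0 = 1 := hg0
  refine ⟨g, hg0', hg, ?_⟩
  have hcont : ContinuousOn (fun s => g s - 1) (Set.Icc 0 1) := by
    intro s hs
    exact (hg s hs).continuousWithinAt.sub continuousWithinAt_const
  have key := norm_le_gronwallBound_of_norm_deriv_right_le (f := fun s => g s - 1)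
    (f' := fun s => g s * M s) (δ := 0) (K := 1 / 2) (ε := 1 / 2) (a := 0) (b := 1) hcont
    (fun s hs => (orb_deriv hs (hg s (Set.Ico_subset_Icc_self hs))).sub_const 1)
    (by rw [hg0', sub_self, norm_zero]) (by
      intro s hs
      have h1 := hb s (Set.Ico_subset_Icc_self hs)
      have h2 : ‖g s‖ ≤ ‖g s - 1‖ + 1 := by
        calc ‖g s‖ = ‖(g s - 1) + 1‖ := by rw [sub_add_cancel]
          _ ≤ ‖g s - 1‖ + ‖(1 : B)‖ := norm_add_le _ _
          _ = _ := by rw [norm_one]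
      calc ‖g s * M s‖ ≤ ‖g s‖ * ‖M s‖ := norm_mul_le _ _
        _ ≤ (‖g s - 1‖ + 1) * (1 / 2) := mul_le_mul h2 h1 (norm_nonneg _) (by positivity)
        _ = _ := by ring) 1 (by simp)
  rw [gronwallBound_of_K_ne_0 (by norm_num)] at key
  have h3 : Real.exp (1 / 2) < 2 := by
    have h4 := Real.exp_one_lt_d9
    have h5 : Real.exp (1 / 2) * Real.exp (1 / 2) = Real.exp 1 := by
      rw [← Real.exp_add]
      norm_num
    nlinarith [Real.exp_pos (1 / 2 : ℝ)]
  rw [norm_sub_rev]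
  refine lt_of_le_of_lt key ?_
  have e : (0 : ℝ) * Real.exp (1 / 2 * (1 - 0)) + 1 / 2 / (1 / 2) *
      (Real.exp (1 / 2 * (1 - 0)) - 1) = Real.exp (1 / 2) - 1 := by
    norm_num
  show (0 : ℝ) * Real.exp (1 / 2 * (1 - 0)) + 1 / 2 / (1 / 2) *
      (Real.exp (1 / 2 * (1 - 0)) - 1) < 1
  rw [e]
  linarith

end ode

private theorem orb_alg (T : T3) (g M : M4) (i j k : Fin 4) :
    lie (act T g) M i j k = ∑ a, ∑ b, ∑ c,
      (((T a b c * (g * M) a i) * g b j + T a b c * g a i * (g * M) b j) * g c k +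
        T a b c * g a i * g b j * (g * M) c k) := by
  have h1 : ∑ l, act T g l j k * M l i =
      ∑ a, ∑ b, ∑ c, T a b c * (g * M) a i * g b j * g c k := by
    unfold act
    simp only [Matrix.mul_apply, Finset.mul_sum, Finset.sum_mul]
    rw [Finset.sum_comm]
    refine Finset.sum_congr rfl fun a _ => ?_
    rw [Finset.sum_comm]
    refine Finset.sum_congr rfl fun b _ => ?_
    rw [Finset.sum_comm]
    refine Finset.sum_congr rfl fun c _ => Finset.sum_congr rfl fun l _ => ?_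
    ring
  have h2 : ∑ l, act T g i l k * M l j =
      ∑ a, ∑ b, ∑ c, T a b c * g a i * (g * M) b j * g c k := by
    unfold act
    simp only [Matrix.mul_apply, Finset.mul_sum, Finset.sum_mul]
    rw [Finset.sum_comm]
    refine Finset.sum_congr rfl fun a _ => ?_
    rw [Finset.sum_comm]
    refine Finset.sum_congr rfl fun b _ => ?_
    rw [Finset.sum_comm]
    refine Finset.sum_congr rfl fun c _ => Finset.sum_congr rfl fun l _ => ?_
    ring
  have h3 : ∑ l, act T g i j l * M l k =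
      ∑ a, ∑ b, ∑ c, T a b c * g a i * g b j * (g * M) c k := by
    unfold act
    simp only [Matrix.mul_apply, Finset.mul_sum, Finset.sum_mul]
    rw [Finset.sum_comm]
    refine Finset.sum_congr rfl fun a _ => ?_
    rw [Finset.sum_comm]
    refine Finset.sum_congr rfl fun b _ => ?_
    rw [Finset.sum_comm]
    refine Finset.sum_congr rfl fun c _ => Finset.sum_congr rfl fun l _ => ?_
    ring
  have h4 : lie (act T g) M i j k = ∑ l, act T g l j k * M l i +
      ∑ l, act T g i l k * M l j + ∑ l, act T g i j l * M l k := by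
    unfold lie
    rw [← Finset.sum_add_distrib, ← Finset.sum_add_distrib]
  rw [h4, h1, h2, h3, ← Finset.sum_add_distrib, ← Finset.sum_add_distrib]
  refine Finset.sum_congr rfl fun a _ => ?_
  rw [← Finset.sum_add_distrib, ← Finset.sum_add_distrib]
  refine Finset.sum_congr rfl fun b _ => ?_
  rw [← Finset.sum_add_distrib, ← Finset.sum_add_distrib]
  refine Finset.sum_congr rfl fun c _ => ?_
  ring

open scoped Matrix.Norms.Operator

private theorem orb_act (T : T3) (g : ℝ → M4) (M : M4) (S : Set ℝ) (s : ℝ)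
    (hg : HasDerivWithinAt g (g s * M) S s) :
    HasDerivWithinAt (fun s => act T (g s)) (lie (act T (g s)) M) S s := by
  have hent : ∀ a i, HasDerivWithinAt (fun s => g s a i) ((g s * M) a i) S s := by
    intro a i
    exact (LinearMap.toContinuousLinearMap
      (Matrix.entryLinearMap ℝ ℂ a i)).hasFDerivAt.comp_hasDerivWithinAt s hg
  refine hasDerivWithinAt_pi.2 fun i => hasDerivWithinAt_pi.2 fun j =>
    hasDerivWithinAt_pi.2 fun k => ?_
  rw [orb_alg]
  refine HasDerivWithinAt.fun_sum fun a _ => HasDerivWithinAt.fun_sum fun b _ =>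
    HasDerivWithinAt.fun_sum fun c _ => ?_
  exact (((hent a i).const_mul (T a b c)).mul (hent b j)).mul (hent c k)

private def lieL (T : T3) : M4 →ₗ[ℂ] T3 where
  toFun Z := lie T Z
  map_add' := lie_add_right T
  map_smul' s Z := lie_smul_right s T Z

private theorem orb_bil : ∃ c : ℝ, 0 < c ∧ ∀ (T : T3) (Z : M4), ‖lie T Z‖ ≤ c * ‖T‖ * ‖Z‖ :=
  orb_bil_abs (LinearMap.mk₂ ℂ (fun (T : T3) (Z : M4) => lie T Z) lie_add_left
    (fun s T Z => lie_smul_left s T Z) lie_add_right (fun s T Z => lie_smul_right s T Z))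


theorem orbit_step (T0 T1 : T3) (h0 : Sm T0) (h1 : IsSym T1) (ε : ℝ) (hε : 0 < ε)
    (hX : ∀ t : ℂ, ‖t‖ < ε → Sm (T0 + t • T1) ∧ ∃ X : M4, T1 = lie (T0 + t • T1) X) :
    ∃ δ : ℝ, 0 < δ ∧ ∀ t : ℂ, ‖t‖ < δ → ∃ x : M4, x.det ≠ 0 ∧ T0 + t • T1 = act T0 x := by
  have _ := h1
  have hker : LinearMap.ker (lieL T0) = ⊥ := by
    rw [LinearMap.ker_eq_bot']
    intro Z hZ
    exact lie_inj h0 Z hZ
  obtain ⟨δ, hδ, X, C, hC, hX1, hX2⟩ := orb_sol (lieL T0) (lieL T1) hker T1 ε hε (by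
    intro t ht
    obtain ⟨_, X, hX⟩ := hX t ht
    refine ⟨X, ?_⟩
    rw [lie_add_left, lie_smul_left] at hX
    exact hX)
  obtain ⟨c, hc, hbil⟩ := orb_bil
  refine ⟨min δ (1 / (2 * C)), lt_min hδ (by positivity), ?_⟩
  intro t ht
  have ht1 : ‖t‖ < δ := ht.trans_le (min_le_left _ _)
  have ht2 : ‖t‖ * C ≤ 1 / 2 := by
    have h2 := (ht.trans_le (min_le_right _ _)).le
    rw [le_div_iff₀ (by positivity)] at h2
    linarith
  have hst : ∀ s ∈ Set.Icc (0 : ℝ) 1, ‖(s : ℂ) * t‖ < δ := by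
    intro s hs
    rw [norm_mul, Complex.norm_real, Real.norm_of_nonneg hs.1]
    have := mul_le_mul_of_nonneg_right hs.2 (norm_nonneg t)
    linarith
  set M : ℝ → M4 := fun s => t • X ((s : ℂ) * t) with hM
  have hMb : ∀ s ∈ Set.Icc (0 : ℝ) 1, ‖M s‖ ≤ 1 / 2 := by
    intro s hs
    rw [hM]
    simp only
    rw [norm_smul]
    have h2 := (hX1 _ (hst s hs)).2
    have h3 := mul_le_mul_of_nonneg_left h2 (norm_nonneg t)
    linarith
  have hMc : ContinuousOn M (Set.Icc 0 1) := by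
    have hl : LipschitzOnWith (Real.toNNReal (‖t‖ * (C * ‖t‖))) M (Set.Icc 0 1) := by
      refine LipschitzOnWith.of_dist_le_mul fun s hs s' hs' => ?_
      rw [dist_eq_norm, hM]
      simp only
      rw [← smul_sub, norm_smul, Real.coe_toNNReal _ (by positivity), Real.dist_eq]
      have h2 := hX2 _ _ (hst s hs) (hst s' hs')
      have e : ‖(s : ℂ) * t - (s' : ℂ) * t‖ = |s - s'| * ‖t‖ := by
        rw [← sub_mul, norm_mul, ← Complex.ofReal_sub, Complex.norm_real, Real.norm_eq_abs]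
      rw [e] at h2
      have h3 := mul_le_mul_of_nonneg_left h2 (norm_nonneg t)
      calc _ ≤ ‖t‖ * (C * (|s - s'| * ‖t‖)) := h3
        _ = _ := by ring
    exact hl.continuousOn
  haveI : CompleteSpace M4 := FiniteDimensional.complete ℂ M4
  obtain ⟨g, hg0, hg, hg1⟩ := orb_lin M hMc hMb
  have hdet : (g 1).det ≠ 0 := by
    have h2 : IsUnit (1 - (1 - g 1)) := isUnit_one_sub_of_norm_lt_one hg1
    rw [sub_sub_cancel] at h2
    exact ((Matrix.isUnit_iff_isUnit_det _).1 h2).ne_zero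
  refine ⟨g 1, hdet, ?_⟩
  have hA : ∀ s ∈ Set.Icc (0 : ℝ) 1, HasDerivWithinAt (fun s => act T0 (g s))
      (lie (act T0 (g s)) (M s)) (Set.Icc 0 1) s := fun s hs =>
    orb_act T0 g (M s) _ s (hg s hs)
  have hB : ∀ s ∈ Set.Icc (0 : ℝ) 1, HasDerivWithinAt (fun s : ℝ => T0 + ((s : ℂ) * t) • T1)
      (lie (T0 + ((s : ℂ) * t) • T1) (M s)) (Set.Icc 0 1) s := by
    intro s hs
    have h2 := (hX1 _ (hst s hs)).1
    have h3 : T1 = lie (T0 + ((s : ℂ) * t) • T1) (X ((s : ℂ) * t)) := by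
      rw [lie_add_left, lie_smul_left]
      exact h2
    have h4 : lie (T0 + ((s : ℂ) * t) • T1) (M s) = t • T1 := by
      rw [hM]
      simp only
      rw [lie_smul_right, ← h3]
    rw [h4]
    have h5 : HasDerivAt (fun s : ℝ => (s : ℂ) * t) t s := by
      have := (Complex.ofRealCLM.hasDerivAt (x := s)).mul_const t
      simpa using this
    have h6 : HasDerivAt (fun s : ℝ => T0 + ((s : ℂ) * t) • T1) (t • T1) s :=
      (h5.smul_const T1).const_add T0
    exact h6.hasDerivWithinAt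
  have hlip : ∀ s ∈ Set.Ico (0 : ℝ) 1,
      LipschitzOnWith (Real.toNNReal c) (fun A : T3 => lie A (M s)) Set.univ := by
    intro s hs
    refine LipschitzOnWith.of_dist_le_mul fun A _ A' _ => ?_
    rw [dist_eq_norm, dist_eq_norm, Real.coe_toNNReal _ hc.le]
    have e : lie A (M s) - lie A' (M s) = lie (A - A') (M s) := by
      rw [sub_eq_add_neg, sub_eq_add_neg A, lie_add_left, ← neg_one_smul ℂ A', lie_smul_left,
        neg_one_smul]
    rw [e]
    have h2 := hbil (A - A') (M s)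
    have h3 := hMb s (Set.Ico_subset_Icc_self hs)
    have h4 : c * ‖A - A'‖ * ‖M s‖ ≤ c * ‖A - A'‖ * 1 :=
      mul_le_mul_of_nonneg_left (by linarith) (by positivity)
    linarith
  have huniq := ODE_solution_unique_of_mem_Icc_right (v := fun s A => lie A (M s))
    (s := fun _ => Set.univ) (f := fun s => act T0 (g s))
    (g := fun s : ℝ => T0 + ((s : ℂ) * t) • T1) (a := 0) (b := 1) hlip
    (fun s hs => (hA s hs).continuousWithinAt)
    (fun s hs => orb_deriv hs (hA s (Set.Ico_subset_Icc_self hs))) (fun _ _ => trivial)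
    (fun s hs => (hB s hs).continuousWithinAt)
    (fun s hs => orb_deriv hs (hB s (Set.Ico_subset_Icc_self hs))) (fun _ _ => trivial)
    (by
      show act T0 (g 0) = T0 + (((0 : ℝ) : ℂ) * t) • T1
      rw [hg0, act_one, Complex.ofReal_zero, zero_mul, zero_smul, add_zero])
  have h7 := huniq (show (1 : ℝ) ∈ Set.Icc (0 : ℝ) 1 by simp)
  have h8 : act T0 (g 1) = T0 + (((1 : ℝ) : ℂ) * t) • T1 := h7
  rw [Complex.ofReal_one, one_mul] at h8
  exact h8.symm

theorem orbit_all (T0 T1 : T3) (h0 : IsSym T0) (h1 : IsSym T1) (Z : Finset ℂ)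
    (hZ : ∀ t : ℂ, t ∉ Z → Sm (T0 + t • T1) ∧ ∃ X : M4, T1 = lie (T0 + t • T1) X) (t t' : ℂ)
    (ht : t ∉ Z) (ht' : t' ∉ Z) : ∃ x : M4, x.det ≠ 0 ∧ T0 + t' • T1 = act (T0 + t • T1) x := by
  have _ := h0
  have hconn : IsPreconnected ((Z : Set ℂ)ᶜ) := by
    refine (Set.Countable.isConnected_compl_of_one_lt_rank ?_
      (Finset.countable_toSet Z)).isPreconnected
    rw [Complex.rank_real_complex]
    norm_num
  refine hconn.induction₂ (fun t t' : ℂ => ∃ x : M4, x.det ≠ 0 ∧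
    T0 + t' • T1 = act (T0 + t • T1) x) ?_ ?_ ?_ (x := t) (y := t') (by simpa using ht)
    (by simpa using ht')
  · intro u hu
    have hopen : IsOpen ((Z : Set ℂ)ᶜ) := (Finset.finite_toSet Z).isClosed.isOpen_compl
    obtain ⟨ε, hε, hball⟩ := Metric.isOpen_iff.1 hopen u hu
    have hstep := orbit_step (T0 + u • T1) T1 (hZ u (by simpa using hu)).1 h1 ε hε (by
      intro τ hτ
      have h2 : u + τ ∈ ((Z : Set ℂ)ᶜ) := hball (by
        rw [Metric.mem_ball, dist_eq_norm, add_sub_cancel_left]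
        exact hτ)
      have h3 := hZ (u + τ) (by simpa using h2)
      rw [add_smul, ← add_assoc] at h3
      exact h3)
    obtain ⟨δ, hδ, hst⟩ := hstep
    refine Filter.Eventually.filter_mono nhdsWithin_le_nhds ?_
    refine Metric.eventually_nhds_iff.2 ⟨δ, hδ, fun y hy => ?_⟩
    rw [dist_eq_norm] at hy
    obtain ⟨x, hx, hxe⟩ := hst (y - u) hy
    refine ⟨x, hx, ?_⟩
    rw [← hxe, add_assoc, ← add_smul, add_sub_cancel]
  · rintro a b c _ _ _ ⟨x, hx, hxe⟩ ⟨y, hy, hye⟩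
    refine ⟨x * y, ?_, ?_⟩
    · rw [Matrix.det_mul]
      exact mul_ne_zero hx hy
    · rw [hye, hxe, act_act]
  · rintro a b _ _ ⟨x, hx, hxe⟩
    refine ⟨x⁻¹, ?_, ?_⟩
    · have h6 := congrArg Matrix.det (Matrix.mul_nonsing_inv x (isUnit_iff_ne_zero.2 hx))
      rw [Matrix.det_mul, Matrix.det_one] at h6
      intro h7
      rw [h7, mul_zero] at h6
      exact zero_ne_one h6
    · rw [hxe, act_act, Matrix.mul_nonsing_inv _ (isUnit_iff_ne_zero.2 hx), act_one]

end Pool.Agent.ISO
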