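import Pool.Agent.ISO.Four

/-!
# ISO / Comp: maximum principle on a disc with finitely many punctures

PROOF.  Let `η > 0` and `v_η t = v t + η ∑_{z ∈ Z} log (‖t - z‖ / (2 R)) + η ‖t‖²`.  The logarithms
are `≤ 0` on the closed disc (there `‖t - z‖ < 2 R`; assume `R > 0`, else trivial) and satisfy
`SubMean` (`subMean_log`), `‖t‖²` has exact mean `∑_k ‖t + I^k τ‖² = 4 ‖t‖² + 4 ‖τ‖²`, `v` is
bounded above near each `z ∈ Z`, so `v_η t → - ∞` as `t → z`.  Hence `v_η` attains its maximum over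
the closed disc minus `Z` at a point `q ∉ Z` (upper semicontinuity, compactness of the closed disc
minus small open discs around the points of `Z`, on which `v_η` is smaller than at some fixed point).
If `‖q‖ < R` then for small `τ` `∑_k v_η (q + I^k τ) ≤ 4 v_η q`, contradicting the strict inequality
`≥ 4 v_η q + 4 η ‖τ‖² - C ‖τ‖³`.  So `‖q‖ = R`, `v_η ≤ M + η R²` on the closed disc minus `Z`.
Let `η → 0`.
-/

set_option autoImplicit false

noncomputable section

namespace Pool.Agent.ISO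

open Complex

theorem SubMean.add {v w : ℂ → ℝ} {t : ℂ} (hv : SubMean v t) (hw : SubMean w t) :
    SubMean (fun s => v s + w s) t := by
  obtain ⟨C, δ, hδ, h⟩ := hv
  obtain ⟨C', δ', hδ', h'⟩ := hw
  refine ⟨C + C', min δ δ', lt_min hδ hδ', fun τ hτ => ?_⟩
  have h1 := h τ (hτ.trans_le (min_le_left _ _))
  have h2 := h' τ (hτ.trans_le (min_le_right _ _))
  rw [Finset.sum_add_distrib]
  linarith

theorem SubMean.mul_left {v : ℂ → ℝ} {t : ℂ} (hv : SubMean v t) {η : ℝ} (hη : 0 ≤ η) :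
    SubMean (fun s => η * v s) t := by
  obtain ⟨C, δ, hδ, h⟩ := hv
  refine ⟨η * C, δ, hδ, fun τ hτ => ?_⟩
  have h1 := mul_le_mul_of_nonneg_left (h τ hτ) hη
  rw [← Finset.mul_sum]
  linarith

theorem SubMean.const (c : ℝ) (t : ℂ) : SubMean (fun _ => c) t := by
  refine ⟨0, 1, one_pos, fun τ _ => ?_⟩
  simp

theorem SubMean.sum {Z : Finset ℂ} {f : ℂ → ℂ → ℝ} {t : ℂ} (h : ∀ z ∈ Z, SubMean (f z) t) :
    SubMean (fun s => ∑ z ∈ Z, f z s) t := by
  classical
  induction Z using Finset.induction_on with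
  | empty => simpa using SubMean.const 0 t
  | insert a s ha ih =>
    have h1 := (h a (Finset.mem_insert_self a s)).add
      (ih fun z hz => h z (Finset.mem_insert_of_mem hz))
    simpa [Finset.sum_insert ha] using h1

/-- A point with `SubMean v` plus a positive multiple of `‖s‖²` is no local maximum. -/
theorem SubMean.not_max {v : ℂ → ℝ} {t : ℂ} (hv : SubMean v t) {η : ℝ} (hη : 0 < η) {ε : ℝ}
    (hε : 0 < ε) (h : ∀ s : ℂ, ‖s - t‖ < ε → v s + η * ‖s‖ ^ 2 ≤ v t + η * ‖t‖ ^ 2) : False := by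
  obtain ⟨C, δ, hδ, hC⟩ := hv
  -- the four point mean of the square of the norm
  have hsq : ∀ τ : ℂ, ∑ k : Fin 4, ‖t + I ^ (k : ℕ) * τ‖ ^ 2 = 4 * ‖t‖ ^ 2 + 4 * ‖τ‖ ^ 2 := by
    intro τ
    have hI2 : (I : ℂ) ^ 2 = -1 := I_sq
    have hI3 : (I : ℂ) ^ 3 = -I := by rw [pow_succ, I_sq]; ring
    simp only [Fin.sum_univ_four, Fin.val_zero, Fin.val_one, Fin.val_two, Complex.sq_norm,
      Complex.normSq_apply]
    norm_num [show ((3 : Fin 4) : ℕ) = 3 from rfl, hI3]
    ring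
  -- a small real number
  obtain ⟨r, hr0, hrδ, hrε, hrC⟩ : ∃ r : ℝ, 0 < r ∧ r < δ ∧ r < ε ∧ C * r < 4 * η := by
    refine ⟨min (min (δ / 2) (ε / 2)) (2 * η / (|C| + 1)), ?_, ?_, ?_, ?_⟩
    · positivity
    · exact lt_of_le_of_lt ((min_le_left _ _).trans (min_le_left _ _)) (by linarith)
    · exact lt_of_le_of_lt ((min_le_left _ _).trans (min_le_right _ _)) (by linarith)
    · set r := min (min (δ / 2) (ε / 2)) (2 * η / (|C| + 1)) with hr
      have hr0 : 0 < r := by rw [hr]; positivity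
      have h1 : r ≤ 2 * η / (|C| + 1) := min_le_right _ _
      have h2 : r * (|C| + 1) ≤ 2 * η := by
        rwa [le_div_iff₀ (by positivity)] at h1
      have h3 : C * r ≤ |C| * r := mul_le_mul_of_nonneg_right (le_abs_self C) hr0.le
      nlinarith
  have hr : ‖(r : ℂ)‖ = r := by rw [Complex.norm_real, Real.norm_of_nonneg hr0.le]
  have h1 := hC (r : ℂ) (by rw [hr]; exact hrδ)
  have h2 : ∑ k : Fin 4, (v (t + I ^ (k : ℕ) * (r : ℂ)) + η * ‖t + I ^ (k : ℕ) * (r : ℂ)‖ ^ 2)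
      ≤ ∑ k : Fin 4, (v t + η * ‖t‖ ^ 2) := by
    refine Finset.sum_le_sum fun k _ => h _ ?_
    rw [add_sub_cancel_left, norm_mul, norm_pow, Complex.norm_I, one_pow, one_mul, hr]
    exact hrε
  rw [Finset.sum_add_distrib, ← Finset.mul_sum, hsq, hr] at h2
  rw [hr] at h1
  simp only [Finset.sum_const, Finset.card_univ, Fintype.card_fin, nsmul_eq_mul] at h2
  have h3 : C * r * r ^ 2 < 4 * η * r ^ 2 := mul_lt_mul_of_pos_right hrC (by positivity)
  push_cast at h2
  nlinarith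

theorem comparison (R : ℝ) (Z : Finset ℂ) (hZ : ∀ z ∈ Z, ‖z‖ < R) (v : ℂ → ℝ) (M : ℝ)
    (husc : ∀ t, ‖t‖ ≤ R → t ∉ Z → UpperSemicontinuousAt v t)
    (hsub : ∀ t, ‖t‖ < R → t ∉ Z → SubMean v t)
    (hbdd : ∀ z ∈ Z, ∃ B ε : ℝ, 0 < ε ∧ ∀ t, t ≠ z → ‖t - z‖ < ε → v t ≤ B)
    (hbd : ∀ t, ‖t‖ = R → v t ≤ M) : ∀ t, ‖t‖ ≤ R → t ∉ Z → v t ≤ M := by
  intro t₀ ht₀ ht₀Z
  by_contra hcon
  push Not at hcon
  rcases lt_or_ge 0 R with hR | hR
  swap
  · have h0 : ‖t₀‖ = R := le_antisymm ht₀ (hR.trans (norm_nonneg _))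
    exact absurd (hbd t₀ h0) (not_le.2 hcon)
  -- the logarithmic term
  set L : ℂ → ℝ := fun t => ∑ z ∈ Z, Real.log ‖t - z‖ with hL
  set c : ℝ := Z.card * Real.log (2 * R) with hc
  obtain ⟨η, hη, hη1⟩ : ∃ η : ℝ, 0 < η ∧ M + η * R ^ 2 < v t₀ + η * (L t₀ - c) + η * ‖t₀‖ ^ 2 := by
    set X := R ^ 2 - (L t₀ - c) - ‖t₀‖ ^ 2 with hX
    refine ⟨(v t₀ - M) / (2 * (|X| + 1)), div_pos (by linarith) (by positivity), ?_⟩
    set η := (v t₀ - M) / (2 * (|X| + 1)) with hηdef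
    have hη : 0 < η := div_pos (by linarith) (by positivity)
    have h1 : η * (2 * (|X| + 1)) = v t₀ - M := by
      rw [hηdef]; field_simp
    have h2 : η * X ≤ η * |X| := mul_le_mul_of_nonneg_left (le_abs_self X) hη.le
    have h3 : 0 ≤ η * |X| := by positivity
    have h4 : η * X = η * R ^ 2 - η * (L t₀ - c) - η * ‖t₀‖ ^ 2 := by rw [hX]; ring
    nlinarith
  set w : ℂ → ℝ := fun t => v t + η * (L t - c) + η * ‖t‖ ^ 2 with hw
  have hterm : ∀ t, ‖t‖ ≤ R → t ∉ Z → ∀ z ∈ Z, Real.log ‖t - z‖ - Real.log (2 * R) ≤ 0 := by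
    intro t ht htZ z hz
    have hne : t - z ≠ 0 := sub_ne_zero.2 fun h => htZ (h ▸ hz)
    have h1 := norm_sub_le t z
    have h2 := hZ z hz
    have h3 : Real.log ‖t - z‖ ≤ Real.log (2 * R) :=
      Real.log_le_log (norm_pos_iff.2 hne) (by linarith)
    linarith
  have hLsub : ∀ t, L t - c = ∑ z ∈ Z, (Real.log ‖t - z‖ - Real.log (2 * R)) := by
    intro t
    rw [Finset.sum_sub_distrib, Finset.sum_const, nsmul_eq_mul]
  -- the logarithmic term is nonpositive on the closed disc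
  have hLc : ∀ t, ‖t‖ ≤ R → t ∉ Z → L t - c ≤ 0 := by
    intro t ht htZ
    rw [hLsub]
    exact Finset.sum_nonpos (hterm t ht htZ)
  -- near the punctures `w` is small
  have hnear : ∀ z ∈ Z, ∃ ε : ℝ, 0 < ε ∧ ∀ t, ‖t‖ ≤ R → t ∉ Z → ‖t - z‖ < ε → w t < w t₀ := by
    intro z hz
    obtain ⟨B, ε, hε, hB⟩ := hbdd z hz
    -- we want `B + η * (log ‖t - z‖ - log (2 R)) + η R² < w t₀`
    set y : ℝ := Real.exp ((w t₀ - B - η * R ^ 2) / η + Real.log (2 * R)) with hy
    refine ⟨min ε y, lt_min hε (Real.exp_pos _), fun t ht htZ htz => ?_⟩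
    have hne : t ≠ z := fun h => htZ (h ▸ hz)
    have hpos : 0 < ‖t - z‖ := norm_pos_iff.2 (sub_ne_zero.2 hne)
    have h1 : v t ≤ B := hB t hne (htz.trans_le (min_le_left _ _))
    have h2 : Real.log ‖t - z‖ < (w t₀ - B - η * R ^ 2) / η + Real.log (2 * R) := by
      rw [Real.log_lt_iff_lt_exp hpos]
      exact htz.trans_le (min_le_right _ _)
    have h3 : L t - c ≤ Real.log ‖t - z‖ - Real.log (2 * R) := by
      rw [hLsub, ← Finset.add_sum_erase Z _ hz]
      have h6 : ∑ x ∈ Z.erase z, (Real.log ‖t - x‖ - Real.log (2 * R)) ≤ 0 :=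
        Finset.sum_nonpos fun x hx => hterm t ht htZ x (Finset.mem_of_mem_erase hx)
      linarith
    have h4 : η * ‖t‖ ^ 2 ≤ η * R ^ 2 := by gcongr
    have h5 : η * (L t - c) < w t₀ - B - η * R ^ 2 := by
      have h6 : L t - c < (w t₀ - B - η * R ^ 2) / η := by linarith
      rw [lt_div_iff₀ hη] at h6
      linarith
    change v t + η * (L t - c) + η * ‖t‖ ^ 2 < w t₀
    linarith
  choose! ε hε hnear using hnear
  -- the compact set
  set S : Set ℂ := Metric.closedBall 0 R \ ⋃ z ∈ Z, Metric.ball z (ε z) with hS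
  have hScomp : IsCompact S := by
    refine (isCompact_closedBall (0 : ℂ) R).diff ?_
    exact isOpen_biUnion fun z _ => Metric.isOpen_ball
  have hSR : ∀ t ∈ S, ‖t‖ ≤ R := fun t ht => by simpa using ht.1
  have hSZ : ∀ t ∈ S, t ∉ Z := by
    intro t ht htZ
    refine ht.2 ?_
    simp only [Set.mem_iUnion]
    exact ⟨t, htZ, Metric.mem_ball_self (hε t htZ)⟩
  have hSmem : ∀ t, ‖t‖ ≤ R → t ∉ Z → t ∉ S → w t < w t₀ := by
    intro t ht htZ htS
    have h1 : t ∈ ⋃ z ∈ Z, Metric.ball z (ε z) := by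
      by_contra h
      exact htS ⟨by simpa using ht, h⟩
    simp only [Set.mem_iUnion, Metric.mem_ball, dist_eq_norm] at h1
    obtain ⟨z, hz, h2⟩ := h1
    exact hnear z hz t ht htZ h2
  have ht₀S : t₀ ∈ S := by
    by_contra h
    exact lt_irrefl _ (hSmem t₀ ht₀ ht₀Z h)
  have hwusc : UpperSemicontinuousOn w S := by
    intro t ht
    refine UpperSemicontinuousAt.upperSemicontinuousWithinAt S ?_
    have h1 := husc t (hSR t ht) (hSZ t ht)
    have h2 : ContinuousAt (fun s => η * (L s - c)) t := by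
      refine continuousAt_const.mul (ContinuousAt.sub ?_ continuousAt_const)
      refine tendsto_finsetSum _ fun z hz => ?_
      refine ContinuousAt.log (by fun_prop) ?_
      rw [norm_ne_zero_iff, sub_ne_zero]
      exact fun h => hSZ t ht (h ▸ hz)
    have h3 : ContinuousAt (fun s : ℂ => η * ‖s‖ ^ 2) t := by fun_prop
    exact (h1.add h2.upperSemicontinuousAt).add h3.upperSemicontinuousAt
  obtain ⟨q, hqS, hq⟩ := hwusc.exists_isMaxOn ⟨t₀, ht₀S⟩ hScomp
  have hmax : ∀ t, ‖t‖ ≤ R → t ∉ Z → w t ≤ w q := by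
    intro t ht htZ
    by_cases htS : t ∈ S
    · exact hq htS
    · exact (hSmem t ht htZ htS).le.trans (hq ht₀S)
  have hqR := hSR q hqS
  have hqZ := hSZ q hqS
  have hqt : w t₀ ≤ w q := hmax t₀ ht₀ ht₀Z
  rcases hqR.lt_or_eq with hlt | heq
  · -- interior maximum
    have hsm : SubMean (fun s => v s + η * (L s + -c)) q := by
      refine (hsub q hlt hqZ).add (SubMean.mul_left (SubMean.add ?_ (SubMean.const _ _)) hη.le)
      exact SubMean.sum fun z hz => subMean_log z q fun h => hqZ (h ▸ hz)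
    have hopen : IsOpen (Metric.ball (0 : ℂ) R \ (Z : Set ℂ)) :=
      Metric.isOpen_ball.sdiff Z.finite_toSet.isClosed
    obtain ⟨ε', hε', hsub'⟩ := Metric.isOpen_iff.1 hopen q
      ⟨by simpa using hlt, by simpa using hqZ⟩
    refine hsm.not_max hη hε' fun s hs => ?_
    have h1 := hsub' (show s ∈ Metric.ball q ε' by rwa [Metric.mem_ball, dist_eq_norm])
    have h2 := hmax s (by simpa using (Metric.mem_ball.1 h1.1).le) (by simpa using h1.2)
    simpa [hw, sub_eq_add_neg] using h2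
  · -- boundary maximum
    have h1 := hbd q heq
    have h2 := hLc q hqR hqZ
    have h3 : w q ≤ M + η * R ^ 2 := by
      change v q + η * (L q - c) + η * ‖q‖ ^ 2 ≤ M + η * R ^ 2
      rw [heq]
      nlinarith
    have h4 : M + η * R ^ 2 < w t₀ := hη1
    linarith

end Pool.Agent.ISO
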