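import Pool.Agent.ISO.Mats2

/-!
# ISO / Mats3: the Koszul matrices for diagonal substitutions

PROOF.  For `g = diagonal d` all three matrices are diagonal: `SM` has the entry `d^m`
(`d^m = ∏ i, d i ^ m i`), `RM` has at `(k, m)` the entry `(d k)⁻¹ d^m`, and `QM` has at
`((i, j), m)` the entry `(d i)⁻¹ (d j)⁻¹ d^m`.  So the determinants are the products, and
`∑_{m ∈ Mon 5} m i = 70`, `∑_{m ∈ Mon 3} m i = 15`, `∑_{m ∈ Mon 1} m i = 1` for each `i`
(`decide +kernel`): `det SM = D^70`, `det RM = D^(60 - 20)`, `det QM = D^(6 - 12)` where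
`D = ∏ d i`.
-/

set_option autoImplicit false

noncomputable section

namespace Pool.Agent.ISO

open MvPolynomial Matrix

namespace Mats3aux

/-- `d^m`. -/
def w (d : Fin 4 → ℂ) {k : ℕ} (m : Mon k) : ℂ := ∏ i, d i ^ (m.1 i : ℕ)

theorem sig_X (d : Fin 4 → ℂ) (a : Fin 4) :
    sig (Matrix.diagonal d) (X a) = C (d a) * X a := by
  unfold sig
  rw [aeval_X, Finset.sum_eq_single a]
  · rw [Matrix.diagonal_apply_eq]
  · intro b _ hb
    rw [Matrix.diagonal_apply_ne _ (Ne.symm hb), C_0, zero_mul]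
  · intro h
    exact absurd (Finset.mem_univ a) h

theorem monomial_eq' {k : ℕ} (m : Mon k) (c : ℂ) :
    (monomial (mexp m) c : S4) = C c * ∏ i, X i ^ (m.1 i : ℕ) := by
  rw [monomial_eq, Finsupp.prod_fintype _ _ (fun i => pow_zero _)]
  rfl

theorem sig_monomial (d : Fin 4 → ℂ) {k : ℕ} (m : Mon k) (c : ℂ) :
    sig (Matrix.diagonal d) (monomial (mexp m) c) = monomial (mexp m) (c * w d m) := by
  rw [monomial_eq', monomial_eq', map_mul, map_prod]
  have h1 : sig (Matrix.diagonal d) (C c) = C c := by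
    unfold sig
    rw [aeval_C]
    rfl
  have h2 : ∀ i, sig (Matrix.diagonal d) (X i ^ (m.1 i : ℕ)) =
      C (d i ^ (m.1 i : ℕ)) * X i ^ (m.1 i : ℕ) := fun i => by
    rw [map_pow, sig_X, mul_pow, ← C_pow]
  rw [h1, Finset.prod_congr rfl fun i _ => h2 i, Finset.prod_mul_distrib, ← map_prod, C_mul]
  unfold w
  ring

theorem poly_single {k : ℕ} (y : Mon k) (c : ℂ) :
    poly (Pi.single y c) = monomial (mexp y) c := by
  unfold poly
  rw [Finset.sum_eq_single y]
  · rw [Pi.single_eq_same]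
  · intro b _ hb
    rw [Pi.single_eq_of_ne hb, monomial_zero]
  · intro h
    exact absurd (Finset.mem_univ y) h

theorem mexp_inj {k : ℕ} : Function.Injective (mexp (d := k)) := by
  intro x y h
  apply Subtype.ext
  funext i
  have h1 := DFunLike.congr_fun h i
  exact Fin.ext h1

theorem coef_monomial {k : ℕ} (x y : Mon k) (c : ℂ) :
    coef k (monomial (mexp y) c) x = if x = y then c else 0 := by
  unfold coef
  rw [coeff_monomial]
  by_cases h : x = y
  · rw [if_pos h, if_pos (by rw [h])]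
  · rw [if_neg h, if_neg (fun h1 => h (mexp_inj h1).symm)]

theorem sum5 : ∀ i : Fin 4, ∑ y : Mon 5, (y.1 i : ℕ) = 70 := by
  decide +kernel

theorem sum3 : ∀ i : Fin 4, ∑ y : Mon 3, (y.1 i : ℕ) = 15 := by
  decide +kernel

theorem sum1 : ∀ i : Fin 4, ∑ y : Mon 1, (y.1 i : ℕ) = 1 := by
  decide +kernel

theorem c3 : Fintype.card (Mon 3) = 20 := by
  decide +kernel

theorem c1 : Fintype.card (Mon 1) = 4 := by
  decide +kernel

theorem prod_w (d : Fin 4 → ℂ) {k n : ℕ} (h : ∀ i : Fin 4, ∑ y : Mon k, (y.1 i : ℕ) = n) :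
    ∏ y : Mon k, w d y = (∏ i, d i) ^ n := by
  unfold w
  rw [Finset.prod_comm, ← Finset.prod_pow]
  refine Finset.prod_congr rfl fun i _ => ?_
  rw [Finset.prod_pow_eq_pow_sum, h i]

theorem inv_diag (d : Fin 4 → ℂ) (hd : ∀ i, d i ≠ 0) :
    (Matrix.diagonal d)⁻¹ = Matrix.diagonal fun i => (d i)⁻¹ := by
  apply Matrix.inv_eq_right_inv
  rw [Matrix.diagonal_mul_diagonal, ← Matrix.diagonal_one]
  congr 1
  funext i
  exact mul_inv_cancel₀ (hd i)

theorem single_fst {k : ℕ} {I : Type} [DecidableEq I] (y : I × Mon k) (c : I) (v : ℂ) :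
    (fun m => (Pi.single y v : I × Mon k → ℂ) (c, m)) =
      if c = y.1 then Pi.single y.2 v else 0 := by
  funext m
  by_cases h : c = y.1
  · rw [if_pos h]
    by_cases h2 : m = y.2
    · rw [h, h2, Pi.single_eq_same, Pi.single_eq_same]
    · rw [Pi.single_eq_of_ne h2, Pi.single_eq_of_ne]
      intro h3
      exact h2 (congrArg Prod.snd h3)
  · rw [if_neg h, Pi.single_eq_of_ne]
    · rfl
    · intro h3
      exact h (congrArg Prod.fst h3)

theorem poly_zero' {k : ℕ} : poly (0 : Mon k → ℂ) = 0 := by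
  unfold poly
  refine Finset.sum_eq_zero fun m _ => ?_
  rw [Pi.zero_apply, monomial_zero]

theorem coef_C_mul {k : ℕ} (c : ℂ) (F : S4) (x : Mon k) :
    coef k (C c * F) x = c * coef k F x := by
  unfold coef
  rw [coeff_C_mul]

theorem coef_zero {k : ℕ} (x : Mon k) : coef k 0 x = 0 := by
  unfold coef
  rw [coeff_zero]

theorem SM_eq (d : Fin 4 → ℂ) : SM (Matrix.diagonal d) = Matrix.diagonal fun y => w d y := by
  ext x y
  unfold SM SF
  rw [Matrix.of_apply, poly_single, sig_monomial, coef_monomial, one_mul]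
  by_cases h : x = y
  · rw [h, if_pos rfl, Matrix.diagonal_apply_eq]
  · rw [if_neg h, Matrix.diagonal_apply_ne _ h]

theorem RM_eq (d : Fin 4 → ℂ) (hd : ∀ i, d i ≠ 0) :
    RM (Matrix.diagonal d) = Matrix.diagonal fun y => (d y.1)⁻¹ * w d y.2 := by
  ext x y
  unfold RM RF
  rw [Matrix.of_apply, inv_diag d hd]
  have h1 : ∑ c, C ((Matrix.diagonal fun i => (d i)⁻¹) x.1 c) * sig (Matrix.diagonal d)
      (poly fun m => (Pi.single y 1 : Fin 4 × Mon 3 → ℂ) (c, m)) =
      C ((Matrix.diagonal fun i => (d i)⁻¹) x.1 y.1) * monomial (mexp y.2) (w d y.2) := by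
    rw [Finset.sum_eq_single y.1]
    · rw [single_fst, if_pos rfl, poly_single, sig_monomial, one_mul]
    · intro b _ hb
      rw [single_fst, if_neg hb, poly_zero', map_zero, mul_zero]
    · intro h
      exact absurd (Finset.mem_univ _) h
  rw [h1, coef_C_mul, coef_monomial]
  by_cases h : x = y
  · rw [h, if_pos rfl, Matrix.diagonal_apply_eq, Matrix.diagonal_apply_eq]
  · rw [Matrix.diagonal_apply_ne _ h]
    by_cases h2 : x.2 = y.2
    · have h3 : x.1 ≠ y.1 := fun h3 => h (Prod.ext h3 h2)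
      rw [Matrix.diagonal_apply_ne _ h3, zero_mul]
    · rw [if_neg h2, mul_zero]

theorem QM_eq (d : Fin 4 → ℂ) (hd : ∀ i, d i ≠ 0) :
    QM (Matrix.diagonal d) =
      Matrix.diagonal fun y => ((d y.1.1.1)⁻¹ * (d y.1.1.2)⁻¹) * w d y.2 := by
  ext x y
  unfold QM QF
  rw [Matrix.of_apply, inv_diag d hd]
  have h0 : asym (Pi.single y 1) x.1.1.1 x.1.1.2 =
      if x.1 = y.1 then monomial (mexp y.2) 1 else 0 := by
    unfold asym
    rw [dif_pos x.1.2]
    change poly (fun m => (Pi.single y 1 : Pr × Mon 1 → ℂ) (x.1, m)) = _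
    rw [single_fst]
    by_cases h : x.1 = y.1
    · rw [if_pos h, if_pos h, poly_single]
    · rw [if_neg h, if_neg h, poly_zero']
  have h1 : ∑ a, ∑ b, C ((Matrix.diagonal fun i => (d i)⁻¹) x.1.1.1 a *
      (Matrix.diagonal fun i => (d i)⁻¹) x.1.1.2 b) *
        sig (Matrix.diagonal d) (asym (Pi.single y 1) a b) =
      C ((d x.1.1.1)⁻¹ * (d x.1.1.2)⁻¹) *
        sig (Matrix.diagonal d) (asym (Pi.single y 1) x.1.1.1 x.1.1.2) := by
    rw [Finset.sum_eq_single x.1.1.1]
    · rw [Finset.sum_eq_single x.1.1.2]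
      · rw [Matrix.diagonal_apply_eq, Matrix.diagonal_apply_eq]
      · intro b _ hb
        rw [Matrix.diagonal_apply_ne _ (Ne.symm hb), mul_zero, C_0, zero_mul]
      · intro h
        exact absurd (Finset.mem_univ _) h
    · intro b _ hb
      refine Finset.sum_eq_zero fun c _ => ?_
      rw [Matrix.diagonal_apply_ne _ (Ne.symm hb), zero_mul, C_0, zero_mul]
    · intro h
      exact absurd (Finset.mem_univ _) h
  rw [h1, coef_C_mul, h0]
  by_cases h : x = y
  · rw [h, if_pos rfl, sig_monomial, coef_monomial, if_pos rfl, one_mul, Matrix.diagonal_apply_eq]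
  · rw [Matrix.diagonal_apply_ne _ h]
    by_cases h2 : x.1 = y.1
    · have h3 : x.2 ≠ y.2 := fun h3 => h (Prod.ext h2 h3)
      rw [if_pos h2, sig_monomial, coef_monomial, if_neg h3, mul_zero]
    · rw [if_neg h2, map_zero, coef_zero, mul_zero]

theorem prod_Pr (d : Fin 4 → ℂ) :
    ∏ p : Pr, ((d p.1.1)⁻¹ * (d p.1.2)⁻¹) = ((∏ i, d i)⁻¹) ^ 3 := by
  have h : ∏ p : Pr, ((d p.1.1)⁻¹ * (d p.1.2)⁻¹) =
      ∏ p ∈ (Finset.univ : Finset (Fin 4 × Fin 4)).filter (fun p => p.1 < p.2),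
        ((d p.1)⁻¹ * (d p.2)⁻¹) := by
    rw [← Finset.prod_subtype_eq_prod_filter]
    refine Finset.prod_bij (fun p _ => p) ?_ ?_ ?_ ?_
    · intro p _
      simp
    · intro p _ q _ hpq
      exact hpq
    · intro p _
      exact ⟨p, Finset.mem_univ _, rfl⟩
    · intro p _
      rfl
  rw [h]
  have e : (Finset.univ : Finset (Fin 4 × Fin 4)).filter (fun p => p.1 < p.2) =
      {(0, 1), (0, 2), (0, 3), (1, 2), (1, 3), (2, 3)} := by decide
  rw [e]
  simp [Fin.prod_univ_four]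
  ring

end Mats3aux

open Mats3aux

theorem det_SM_diagonal (d : Fin 4 → ℂ) : (SM (Matrix.diagonal d)).det = (∏ i, d i) ^ 70 := by
  rw [SM_eq, Matrix.det_diagonal, prod_w d sum5]

theorem det_RM_diagonal (d : Fin 4 → ℂ) (hd : ∀ i, d i ≠ 0) :
    (RM (Matrix.diagonal d)).det = (∏ i, d i) ^ 40 := by
  rw [RM_eq d hd, Matrix.det_diagonal, Fintype.prod_prod_type]
  simp only [Finset.prod_mul_distrib, Finset.prod_const, prod_w d sum3, Finset.card_univ, c3,
    Fintype.card_fin]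
  have hD : ∏ i, d i ≠ 0 := Finset.prod_ne_zero_iff.2 fun i _ => hd i
  rw [Finset.prod_pow, Finset.prod_inv_distrib]
  field_simp

theorem det_QM_diagonal (d : Fin 4 → ℂ) (hd : ∀ i, d i ≠ 0) :
    (QM (Matrix.diagonal d)).det * (∏ i, d i) ^ 6 = 1 := by
  rw [QM_eq d hd, Matrix.det_diagonal, Fintype.prod_prod_type]
  simp only [Finset.prod_mul_distrib, Finset.prod_const, prod_w d sum1, Finset.card_univ, c1]
  have h6 : Fintype.card Pr = 6 := by decide +kernel
  have hD : ∏ i, d i ≠ 0 := Finset.prod_ne_zero_iff.2 fun i _ => hd i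
  have hp := prod_Pr d
  rw [Finset.prod_mul_distrib] at hp
  rw [h6, Finset.prod_pow, Finset.prod_pow, ← mul_pow, hp]
  field_simp

end Pool.Agent.ISO
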