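import Pool.Agent.ISO.IsC
import Pool.Agent.ISO.Mats3
import Pool.Agent.ISO.Unif

/-!
# ISO / CInv: a relative invariant of smooth cubic forms (the discriminant)

PROOF.  Let `e : Mon 5 ⊕ (Pr × Mon 1) ≃ Fin 4 × Mon 3` (`Fintype.equivOfCardEq card_sum`).  For
smooth `T` let `c T` be the number given by `exists_isC` for `AM T`, `BM T`
(`AM_mul_BM`, `AM_surj`, `BM_inj`, `exact_AM`); `c T = 1` otherwise.
(1) `c T ≠ 0`.  (2) `AM (s • T) = s • AM T`, `BM (s • T) = s • BM T`, so
`det (AM (s T) P) = s^56 c T det [P | BM T] = s^32 c T det [P | s BM T]`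
(`det` of `[P | s B]` is `s^24 det [P | B]`), and `isC_unique`.  (3) `isC_trans` with `AM_act`,
`BM_act`, and `sm_act`, `isC_unique`: `χ = det SM * det QM / det RM`.  (4) `Mats3`: `70 - 6 - 40 = 24`.
(5), (6): `isC_local`: near a smooth `T` (within smooth tensors, `sm_open`)
`c T' = det (AM T' * P) / det [P | BM T']`; `AM`, `BM` are linear in `T'`, so this is continuous, and
along a line `T0 + τ T1` it is a quotient of polynomials in `τ` with nonvanishing denominator,
hence analytic (for `τ` near `0`, `T0 + τ T1` is smooth).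
-/

set_option autoImplicit false

noncomputable section

namespace Pool.Agent.ISO

open Matrix Filter Topology

/-- The properties of the relative invariant. -/
structure CProp (c : T3 → ℂ) : Prop where
  ne_zero : ∀ T, Sm T → c T ≠ 0
  smul : ∀ T, Sm T → ∀ s : ℂ, s ≠ 0 → c (s • T) = s ^ 32 * c T
  act : ∀ g : M4, g.det ≠ 0 → ∃ χ : ℂ, χ ≠ 0 ∧ ∀ T, Sm T → c (act T g) = χ * c T
  diag : ∀ d : Fin 4 → ℂ, (∀ i, d i ≠ 0) → ∀ T, Sm T →
    c (Pool.Agent.ISO.act T (Matrix.diagonal d)) = (∏ i, d i) ^ 24 * c T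
  cont : ∀ T, Sm T → ContinuousWithinAt c {T' | Sm T'} T
  anal : ∀ T0 T1, Sm T0 → IsSym T1 → AnalyticAt ℂ (fun τ : ℂ => c (T0 + τ • T1)) 0

namespace CInvAux

theorem qd_add (T T' : T3) (k : Fin 4) : qd (T + T') k = qd T k + qd T' k := by
  unfold qd
  simp only [← Finset.sum_add_distrib]
  refine Finset.sum_congr rfl fun i _ => Finset.sum_congr rfl fun j _ => ?_
  rw [Pi.add_apply, Pi.add_apply, Pi.add_apply, MvPolynomial.C_add]
  ring

theorem qd_smul (s : ℂ) (T : T3) (k : Fin 4) : qd (s • T) k = MvPolynomial.C s * qd T k := by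
  unfold qd
  simp only [Finset.mul_sum]
  refine Finset.sum_congr rfl fun i _ => Finset.sum_congr rfl fun j _ => ?_
  rw [Pi.smul_apply, Pi.smul_apply, Pi.smul_apply, smul_eq_mul, MvPolynomial.C_mul]
  ring

theorem coef_C_mul' {d : ℕ} (c : ℂ) (F : S4) (x : Mon d) :
    coef d (MvPolynomial.C c * F) x = c * coef d F x := by
  unfold coef
  rw [MvPolynomial.coeff_C_mul]

theorem coef_add' {d : ℕ} (F G : S4) (x : Mon d) : coef d (F + G) x = coef d F x + coef d G x :=
  MvPolynomial.coeff_add _ _ _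

theorem AM_add (T T' : T3) : AM (T + T') = AM T + AM T' := by
  ext x y
  rw [Matrix.add_apply]
  unfold AM AF
  rw [Matrix.of_apply, Matrix.of_apply, Matrix.of_apply, ← coef_add', ← Finset.sum_add_distrib]
  refine congrArg (fun F => coef 5 F x) (Finset.sum_congr rfl fun k _ => ?_)
  rw [qd_add]
  ring

theorem AM_smul (s : ℂ) (T : T3) : AM (s • T) = s • AM T := by
  ext x y
  rw [Matrix.smul_apply, smul_eq_mul]
  unfold AM AF
  rw [Matrix.of_apply, Matrix.of_apply, ← coef_C_mul', Finset.mul_sum]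
  refine congrArg (fun F => coef 5 F x) (Finset.sum_congr rfl fun k _ => ?_)
  rw [qd_smul]
  ring

theorem BM_add (T T' : T3) : BM (T + T') = BM T + BM T' := by
  ext x y
  rw [Matrix.add_apply]
  unfold BM BF
  rw [Matrix.of_apply, Matrix.of_apply, Matrix.of_apply, ← coef_add', ← Finset.sum_add_distrib]
  refine congrArg (fun F => coef 3 F x.2) (Finset.sum_congr rfl fun k _ => ?_)
  rw [qd_add]
  ring

theorem BM_smul (s : ℂ) (T : T3) : BM (s • T) = s • BM T := by
  ext x y
  rw [Matrix.smul_apply, smul_eq_mul]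
  unfold BM BF
  rw [Matrix.of_apply, Matrix.of_apply, ← coef_C_mul', Finset.mul_sum]
  refine congrArg (fun F => coef 3 F x.2) (Finset.sum_congr rfl fun k _ => ?_)
  rw [qd_smul]
  ring

theorem AM_cont (x : Mon 5) (y : Fin 4 × Mon 3) : Continuous fun T : T3 => AM T x y := by
  let f : T3 →ₗ[ℂ] ℂ :=
    { toFun := fun T => AM T x y
      map_add' := fun T T' => by rw [AM_add, Matrix.add_apply]
      map_smul' := fun s T => by rw [AM_smul, Matrix.smul_apply, RingHom.id_apply] }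
  exact f.continuous_of_finiteDimensional

theorem BM_cont (x : Fin 4 × Mon 3) (y : Pr × Mon 1) : Continuous fun T : T3 => BM T x y := by
  let f : T3 →ₗ[ℂ] ℂ :=
    { toFun := fun T => BM T x y
      map_add' := fun T T' => by rw [BM_add, Matrix.add_apply]
      map_smul' := fun s T => by rw [BM_smul, Matrix.smul_apply, RingHom.id_apply] }
  exact f.continuous_of_finiteDimensional

theorem AM_cont' : Continuous fun T : T3 => AM T :=
  continuous_matrix fun x y => AM_cont x y

theorem BM_cont' : Continuous fun T : T3 => BM T :=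
  continuous_matrix fun x y => BM_cont x y

/-- the equivalence -/
def ee : Mon 5 ⊕ (Pr × Mon 1) ≃ Fin 4 × Mon 3 := Fintype.equivOfCardEq card_sum

open Classical in
/-- the invariant -/
def cF (T : T3) : ℂ :=
  if h : Sm T then
    (exists_isC ee (AM T) (BM T) (AM_mul_BM T) (AM_surj h) (BM_inj h) (exact_AM h)).choose
  else 1

theorem cF_spec {T : T3} (h : Sm T) : IsC ee (AM T) (BM T) (cF T) := by
  unfold cF
  rw [dif_pos h]
  exact (exists_isC ee (AM T) (BM T) (AM_mul_BM T) (AM_surj h) (BM_inj h) (exact_AM h)).choose_spec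

theorem grad_smul (s : ℂ) (T : T3) (p : Fin 4 → ℂ) (k : Fin 4) :
    grad (s • T) p k = s * grad T p k := by
  unfold grad
  simp only [Finset.mul_sum]
  refine Finset.sum_congr rfl fun i _ => Finset.sum_congr rfl fun j _ => ?_
  rw [Pi.smul_apply, Pi.smul_apply, Pi.smul_apply, smul_eq_mul]
  ring

theorem isSym_smul (s : ℂ) {T : T3} (h : IsSym T) : IsSym (s • T) := by
  intro i j k
  simp only [Pi.smul_apply]
  rw [← (h i j k).1, ← (h i j k).2]
  exact ⟨rfl, rfl⟩

theorem isSym_add {T T' : T3} (h : IsSym T) (h' : IsSym T') : IsSym (T + T') := by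
  intro i j k
  simp only [Pi.add_apply]
  rw [← (h i j k).1, ← (h i j k).2, ← (h' i j k).1, ← (h' i j k).2]
  exact ⟨rfl, rfl⟩

theorem sm_smul {s : ℂ} (hs : s ≠ 0) {T : T3} (h : Sm T) : Sm (s • T) := by
  refine ⟨isSym_smul s h.1, fun p hp => ?_⟩
  obtain ⟨k, hk⟩ := h.2 p hp
  exact ⟨k, by rw [grad_smul]; exact mul_ne_zero hs hk⟩

/-- the character -/
def chi (g : M4) : ℂ := (SM g).det * (QM g).det / (RM g).det

theorem chi_ne {g : M4} (hg : g.det ≠ 0) : chi g ≠ 0 :=
  div_ne_zero (mul_ne_zero (det_SM g hg) (det_QM g hg)) (det_RM g hg)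

theorem cF_act {T : T3} (h : Sm T) {g : M4} (hg : g.det ≠ 0) : cF (act T g) = chi g * cF T := by
  have h1 := cF_spec h
  have h2 := cF_spec (sm_act h g hg)
  have h3 := isC_trans ee (AM T) (AM (act T g)) (BM T) (BM (act T g)) (RM g) (SM g) (QM g)
    (det_RM g hg) (det_SM g hg) (det_QM g hg) (AM_act T g hg) (BM_act T g hg) (cF T) h1
  rw [isC_unique ee _ _ (AM_surj (sm_act h g hg)) _ _ h2 h3]
  unfold chi
  ring

theorem cF_smul {T : T3} (h : Sm T) {s : ℂ} (hs : s ≠ 0) : cF (s • T) = s ^ 32 * cF T := by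
  have h1 := cF_spec h
  have h2 := cF_spec (sm_smul hs h)
  have d1 : (s • (1 : Matrix (Mon 5) (Mon 5) ℂ)).det = s ^ 56 := by
    rw [Matrix.det_smul, Matrix.det_one, mul_one, card_Mon5]
  have d2 : (s⁻¹ • (1 : Matrix (Pr × Mon 1) (Pr × Mon 1) ℂ)).det = s⁻¹ ^ 24 := by
    rw [Matrix.det_smul, Matrix.det_one, mul_one, Fintype.card_prod, card_Pr, card_Mon1]
  have h3 := isC_trans ee (AM T) (AM (s • T)) (BM T) (BM (s • T)) 1
    (s • (1 : Matrix (Mon 5) (Mon 5) ℂ)) (s⁻¹ • (1 : Matrix (Pr × Mon 1) (Pr × Mon 1) ℂ))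
    (by rw [Matrix.det_one]; exact one_ne_zero)
    (by rw [d1]; exact pow_ne_zero _ hs)
    (by rw [d2]; exact pow_ne_zero _ (inv_ne_zero hs))
    (by rw [AM_smul, Matrix.mul_one, Matrix.smul_mul, Matrix.one_mul])
    (by rw [BM_smul, Matrix.one_mul, Matrix.smul_mul, Matrix.mul_smul, Matrix.mul_one, smul_smul,
      mul_inv_cancel₀ hs, one_smul]) (cF T) h1
  rw [isC_unique ee _ _ (AM_surj (sm_smul hs h)) _ _ h2 h3, d1, d2, Matrix.det_one]
  have e : s ^ 56 * s⁻¹ ^ 24 = s ^ 32 := by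
    rw [show (56 : ℕ) = 32 + 24 by norm_num, pow_add, mul_assoc, ← mul_pow, mul_inv_cancel₀ hs,
      one_pow, mul_one]
  rw [div_one, mul_assoc, e]
  ring

theorem cF_diag {T : T3} (h : Sm T) {d : Fin 4 → ℂ} (hd : ∀ i, d i ≠ 0) :
    cF (Pool.Agent.ISO.act T (Matrix.diagonal d)) = (∏ i, d i) ^ 24 * cF T := by
  have hD : ∏ i, d i ≠ 0 := Finset.prod_ne_zero_iff.2 fun i _ => hd i
  have hg : (Matrix.diagonal d).det ≠ 0 := by rwa [Matrix.det_diagonal]
  have h6 := det_QM_diagonal d hd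
  have h7 : (∏ i, d i) ^ 70 = (∏ i, d i) ^ 64 * (∏ i, d i) ^ 6 := by rw [← pow_add]
  have h8 : (∏ i, d i) ^ 64 = (∏ i, d i) ^ 24 * (∏ i, d i) ^ 40 := by rw [← pow_add]
  have hchi : chi (Matrix.diagonal d) = (∏ i, d i) ^ 24 := by
    unfold chi
    rw [det_SM_diagonal, det_RM_diagonal d hd, div_eq_iff (pow_ne_zero _ hD), h7, mul_assoc,
      mul_comm ((∏ i, d i) ^ 6), h6, mul_one, h8]
  rw [cF_act h hg, hchi]

theorem PB_cont (P : Matrix (Fin 4 × Mon 3) (Mon 5) ℂ) :
    Continuous fun T : T3 => (PB ee P (BM T)).det := by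
  refine Continuous.matrix_det (continuous_matrix fun i j => ?_)
  unfold PB
  rcases j with j | j
  · simp only [Matrix.submatrix_apply, id, Matrix.fromCols_apply_inl]
    exact continuous_const
  · simp only [Matrix.submatrix_apply, id, Matrix.fromCols_apply_inr]
    exact BM_cont _ _

theorem AP_cont (P : Matrix (Fin 4 × Mon 3) (Mon 5) ℂ) :
    Continuous fun T : T3 => (AM T * P).det :=
  Continuous.matrix_det (AM_cont'.matrix_mul continuous_const)

theorem cF_cont {T : T3} (h : Sm T) : ContinuousWithinAt cF {T' | Sm T'} T := by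
  obtain ⟨P, -, h2, h3⟩ := isC_local ee (AM T) (BM T) (AM_surj h) (cF T) (cF_spec h)
  have hev : ∀ᶠ T' in 𝓝 T, (PB ee P (BM T')).det ≠ 0 :=
    (PB_cont P).continuousAt.eventually_ne h2
  have hc : ContinuousAt (fun T' : T3 => (AM T' * P).det / (PB ee P (BM T')).det) T :=
    (AP_cont P).continuousAt.div (PB_cont P).continuousAt h2
  refine hc.continuousWithinAt.congr_of_eventuallyEq ?_ (h3 _ _ _ (cF_spec h) h2)
  filter_upwards [mem_nhdsWithin_of_mem_nhds hev, self_mem_nhdsWithin] with T' h4 h5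
  exact h3 _ _ _ (cF_spec h5) h4

theorem det_diff {n : Type} [Fintype n] [DecidableEq n] (M : ℂ → Matrix n n ℂ)
    (h : ∀ i j, Differentiable ℂ fun τ => M τ i j) : Differentiable ℂ fun τ => (M τ).det := by
  simp only [Matrix.det_apply]
  refine Differentiable.fun_sum fun σ _ => ?_
  refine Differentiable.const_smul ?_ _
  exact Differentiable.fun_finsetProd fun i _ => h _ _

theorem AM_line (T0 T1 : T3) (x : Mon 5) (y : Fin 4 × Mon 3) :
    Differentiable ℂ fun τ : ℂ => AM (T0 + τ • T1) x y := by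
  have e : (fun τ : ℂ => AM (T0 + τ • T1) x y) = fun τ => AM T0 x y + τ * AM T1 x y := by
    funext τ
    rw [AM_add, AM_smul, Matrix.add_apply, Matrix.smul_apply, smul_eq_mul]
  rw [e]
  fun_prop

theorem BM_line (T0 T1 : T3) (x : Fin 4 × Mon 3) (y : Pr × Mon 1) :
    Differentiable ℂ fun τ : ℂ => BM (T0 + τ • T1) x y := by
  have e : (fun τ : ℂ => BM (T0 + τ • T1) x y) = fun τ => BM T0 x y + τ * BM T1 x y := by
    funext τ
    rw [BM_add, BM_smul, Matrix.add_apply, Matrix.smul_apply, smul_eq_mul]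
  rw [e]
  fun_prop

theorem cF_anal {T0 T1 : T3} (h : Sm T0) (h1 : IsSym T1) :
    AnalyticAt ℂ (fun τ : ℂ => cF (T0 + τ • T1)) 0 := by
  obtain ⟨P, -, h2, h3⟩ := isC_local ee (AM T0) (BM T0) (AM_surj h) (cF T0) (cF_spec h)
  have hl : Continuous fun τ : ℂ => T0 + τ • T1 := by fun_prop
  have hl0 : T0 + (0 : ℂ) • T1 = T0 := by rw [zero_smul, add_zero]
  have ht : Tendsto (fun τ : ℂ => T0 + τ • T1) (𝓝 0) (𝓝 T0) := by
    have := hl.tendsto 0
    rwa [hl0] at this
  have hev : ∀ᶠ τ in 𝓝 (0 : ℂ), (PB ee P (BM (T0 + τ • T1))).det ≠ 0 :=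
    ht.eventually ((PB_cont P).continuousAt.eventually_ne h2)
  have hsm : ∀ᶠ τ in 𝓝 (0 : ℂ), Sm (T0 + τ • T1) := by
    filter_upwards [ht.eventually (sm_open h)] with τ h4
    exact h4 (isSym_add h.1 (isSym_smul τ h1))
  have hA : AnalyticAt ℂ (fun τ : ℂ => (AM (T0 + τ • T1) * P).det) 0 := by
    refine (det_diff _ fun i j => ?_).analyticAt 0
    simp only [Matrix.mul_apply]
    refine Differentiable.fun_sum fun x _ => ?_
    exact (AM_line T0 T1 i x).mul_const _
  have hB : AnalyticAt ℂ (fun τ : ℂ => (PB ee P (BM (T0 + τ • T1))).det) 0 := by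
    refine (det_diff _ fun i j => ?_).analyticAt 0
    unfold PB
    rcases j with j | j
    · simp only [Matrix.submatrix_apply, id, Matrix.fromCols_apply_inl]
      exact differentiable_const _
    · simp only [Matrix.submatrix_apply, id, Matrix.fromCols_apply_inr]
      exact BM_line T0 T1 _ _
  refine (hA.div hB (by rw [hl0]; exact h2)).congr ?_
  filter_upwards [hev, hsm] with τ h4 h5
  exact (h3 _ _ _ (cF_spec h5) h4).symm

end CInvAux

open CInvAux in
theorem exists_c : ∃ c : T3 → ℂ, CProp c :=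
  ⟨cF, ⟨fun _ h => (cF_spec h).1, fun _ h _ hs => cF_smul h hs,
    fun g hg => ⟨chi g, chi_ne hg, fun _ h => cF_act h hg⟩,
    fun _ hd _ h => cF_diag h hd, fun _ h => cF_cont h, fun _ _ h h1 => cF_anal h h1⟩⟩

end Pool.Agent.ISO
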