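import Pool.Agent.ISO.KN
import Pool.Agent.ISO.CInv

/-!
# ISO / VFun: the invariant function `v` along a pencil

`vf c T = log N T - (1/16) log ‖c T‖`.

PROOF.  `vf_smul`: `log_N_smul` and `hc.smul` (`2 - 32/16 = 0`).  `vf_usc`: `log_N_usc` and continuity
of `t ↦ c (T0 + t T1)` at `0` (`hc.anal`), translated: `T0 + t T1 = (T0 + s T1) + (t - s) T1`.
`vf_sub`: `kn` applied to `T0 + s T1`, `T1`, and `four_log` applied to `τ ↦ c (T0 + s T1 + τ T1)`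
(`hc.anal`, `hc.ne_zero`).
-/

set_option autoImplicit false

noncomputable section

namespace Pool.Agent.ISO

open Matrix Filter Topology Complex

/-- The invariant function. -/
def vf (c : T3 → ℂ) (T : T3) : ℝ := Real.log (N T) - 1 / 16 * Real.log ‖c T‖

theorem vf_smul {c : T3 → ℂ} (hc : CProp c) {T : T3} (h : Sm T) (s : ℂ) (hs : s ≠ 0) :
    vf c (s • T) = vf c T := by
  unfold vf
  rw [log_N_smul h s hs, hc.smul T h s hs, norm_mul, norm_pow,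
    Real.log_mul (pow_ne_zero _ (norm_ne_zero_iff.mpr hs)) (norm_ne_zero_iff.mpr (hc.ne_zero T h)),
    Real.log_pow]
  push_cast
  ring

private theorem shift (T0 T1 : T3) (s t : ℂ) : T0 + t • T1 = T0 + s • T1 + (t - s) • T1 := by
  rw [sub_smul]
  abel

private theorem cont_log {c : T3 → ℂ} (hc : CProp c) (T0 T1 : T3) (h1 : IsSym T1) (s : ℂ)
    (hs : Sm (T0 + s • T1)) :
    ContinuousAt (fun t : ℂ => Real.log ‖c (T0 + t • T1)‖) s := by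
  have h2 : ContinuousAt (fun τ : ℂ => c (T0 + s • T1 + τ • T1)) 0 :=
    (hc.anal _ _ hs h1).continuousAt
  have h3 : ContinuousAt (fun t : ℂ => t - s) s := by fun_prop
  have h4 : ContinuousAt (fun t : ℂ => c (T0 + s • T1 + (t - s) • T1)) s := by
    refine ContinuousAt.comp (g := fun τ : ℂ => c (T0 + s • T1 + τ • T1))
      (f := fun t : ℂ => t - s) ?_ h3
    simp only [sub_self]
    exact h2
  have h5 : (fun t : ℂ => c (T0 + t • T1)) = fun t : ℂ => c (T0 + s • T1 + (t - s) • T1) :=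
    funext fun t => by rw [shift T0 T1 s t]
  rw [← h5] at h4
  exact h4.norm.log (norm_ne_zero_iff.mpr (hc.ne_zero _ hs))

theorem vf_usc {c : T3 → ℂ} (hc : CProp c) (T0 T1 : T3) (h1 : IsSym T1) (s : ℂ)
    (hs : Sm (T0 + s • T1)) : UpperSemicontinuousAt (fun t : ℂ => vf c (T0 + t • T1)) s := by
  intro y hy
  have hy' : Real.log (N (T0 + s • T1)) - 1 / 16 * Real.log ‖c (T0 + s • T1)‖ < y := hy
  obtain ⟨η, hη⟩ : ∃ η, η = y - (Real.log (N (T0 + s • T1)) -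
    1 / 16 * Real.log ‖c (T0 + s • T1)‖) := ⟨_, rfl⟩
  have hη0 : 0 < η := by linarith
  have e1 := log_N_usc hs h1 (Real.log (N (T0 + s • T1)) + η / 2) (by linarith)
  have h3 : Tendsto (fun t : ℂ => t - s) (𝓝 s) (𝓝 0) := by
    have : Tendsto (fun t : ℂ => t - s) (𝓝 s) (𝓝 (s - s)) := Continuous.tendsto (by fun_prop) s
    rwa [sub_self] at this
  have e2 := h3.eventually e1
  have e3 := (cont_log hc T0 T1 h1 s hs).eventually
    (lt_mem_nhds (show Real.log ‖c (T0 + s • T1)‖ - 8 * η < Real.log ‖c (T0 + s • T1)‖ by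
      linarith))
  filter_upwards [e2, e3] with t ht1 ht2
  have ht3 := ht1.2
  rw [← shift T0 T1 s t] at ht3
  show Real.log (N (T0 + t • T1)) - 1 / 16 * Real.log ‖c (T0 + t • T1)‖ < y
  linarith

private theorem shift' (T0 T1 : T3) (s τ : ℂ) : T0 + (s + τ) • T1 = T0 + s • T1 + τ • T1 := by
  rw [add_smul, add_assoc]

private theorem four_c {c : T3 → ℂ} (hc : CProp c) (T0 T1 : T3) (h1 : IsSym T1) (s : ℂ)
    (hs : Sm (T0 + s • T1)) :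
    ∃ C δ : ℝ, 0 < δ ∧ ∀ τ : ℂ, ‖τ‖ < δ →
      |∑ k : Fin 4, Real.log ‖c (T0 + (s + I ^ (k : ℕ) * τ) • T1)‖
        - 4 * Real.log ‖c (T0 + s • T1)‖| ≤ C * ‖τ‖ ^ 3 := by
  have h0 : T0 + s • T1 + (0 : ℂ) • T1 = T0 + s • T1 := by rw [zero_smul, add_zero]
  obtain ⟨C, δ, hδ, h⟩ := four_log (fun τ : ℂ => c (T0 + s • T1 + τ • T1))
    (hc.anal _ _ hs h1) (by rw [h0]; exact hc.ne_zero _ hs)
  refine ⟨C, δ, hδ, fun τ hτ => ?_⟩
  have h2 := h τ hτ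
  rw [h0] at h2
  have h3 : ∀ k : Fin 4, T0 + (s + I ^ (k : ℕ) * τ) • T1 =
      T0 + s • T1 + (I ^ (k : ℕ) * τ) • T1 := fun k => shift' T0 T1 s _
  rw [Finset.sum_congr rfl fun k _ => by rw [h3 k]]
  exact h2

theorem vf_sub {c : T3 → ℂ} (hc : CProp c) (T0 T1 : T3) (h1 : IsSym T1) (s : ℂ)
    (hs : Sm (T0 + s • T1)) :
    ∃ κ C δ : ℝ, 0 ≤ κ ∧ 0 < δ ∧ (κ = 0 → ∃ Z : M4, T1 = lie (T0 + s • T1) Z) ∧
      ∀ τ : ℂ, ‖τ‖ < δ → 4 * vf c (T0 + s • T1) + κ * ‖τ‖ ^ 2 - C * ‖τ‖ ^ 3 ≤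
        ∑ k : Fin 4, vf c (T0 + (s + I ^ (k : ℕ) * τ) • T1) := by
  obtain ⟨κ, C, δ, hκ, hδ, hZ, h⟩ := kn hs h1
  obtain ⟨C', δ', hδ', h'⟩ := four_c hc T0 T1 h1 s hs
  refine ⟨κ, C + C' / 16, min δ δ', hκ, lt_min hδ hδ', hZ, fun τ hτ => ?_⟩
  have a1 := h τ (hτ.trans_le (min_le_left _ _))
  have a2 := (abs_le.mp (h' τ (hτ.trans_le (min_le_right _ _)))).2
  have h3 : ∀ k : Fin 4, Real.log (N (T0 + s • T1 + (I ^ (k : ℕ) * τ) • T1)) =
      Real.log (N (T0 + (s + I ^ (k : ℕ) * τ) • T1)) := fun k => by rw [shift' T0 T1 s _]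
  rw [Finset.sum_congr rfl fun k _ => h3 k] at a1
  have h4 : ∑ k : Fin 4, vf c (T0 + (s + I ^ (k : ℕ) * τ) • T1) =
      ∑ k : Fin 4, Real.log (N (T0 + (s + I ^ (k : ℕ) * τ) • T1)) -
        1 / 16 * ∑ k : Fin 4, Real.log ‖c (T0 + (s + I ^ (k : ℕ) * τ) • T1)‖ := by
    rw [Finset.mul_sum, ← Finset.sum_sub_distrib]
    rfl
  have h5 : vf c (T0 + s • T1) = Real.log (N (T0 + s • T1)) -
    1 / 16 * Real.log ‖c (T0 + s • T1)‖ := rfl
  rw [h4, h5]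
  linarith

/-- Continuity and four point mean of `log ‖c‖` along a pencil. -/
theorem log_c_four {c : T3 → ℂ} (hc : CProp c) (T0 T1 : T3) (h1 : IsSym T1) (s : ℂ)
    (hs : Sm (T0 + s • T1)) :
    ContinuousAt (fun t : ℂ => Real.log ‖c (T0 + t • T1)‖) s ∧
    ∃ C δ : ℝ, 0 < δ ∧ ∀ τ : ℂ, ‖τ‖ < δ →
      |∑ k : Fin 4, Real.log ‖c (T0 + (s + I ^ (k : ℕ) * τ) • T1)‖
        - 4 * Real.log ‖c (T0 + s • T1)‖| ≤ C * ‖τ‖ ^ 3 :=
  ⟨cont_log hc T0 T1 h1 s hs, four_c hc T0 T1 h1 s hs⟩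

end Pool.Agent.ISO
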