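import Pool.Agent.ISO.Near
import Pool.Agent.ISO.VFun
import Pool.Agent.ISO.Comp

/-!
# ISO / Sum32: the multiplicities of the singular members add up to `32`

PROOF.  Let `u t = log ‖c (T0 + t T1)‖ - ∑_{z ∈ Z} m z * log ‖t - z‖`.  Off `Z`, `u` is continuous and both
`u` and `- u` satisfy `SubMean` (`log_c_four`; `four_log` for `t - z`, i.e. apply it to
`h τ = s + τ - z`).  Near `z ∈ Z`, `|u|` is bounded (`near_sing` for `T0 + z T1`; the other
logarithms are bounded near `z`).  For `t ≠ 0`: `c (T0 + t T1) = t^32 c (T1 + t⁻¹ T0)` (when smooth),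
and `c (T1 + s T0) → c T1 ≠ 0` as `s → 0`; `log ‖t - z‖ = log ‖t‖ + O(1)`.  Hence for large `‖t‖`:
`|u t - (32 - ∑ m z) log ‖t‖| ≤ K`.  If `∑ m z > 32`: on the circle `‖t‖ = R` (large)
`u ≤ K - log R`, so by `comparison` `u ≤ K - log R` at any fixed point off `Z`, for all large `R`:
contradiction.  If `∑ m z < 32` the same with `- u`.
-/

set_option autoImplicit false

noncomputable section

namespace Pool.Agent.ISO

open Matrix Filter Topology

/-- four point means up to a cubic error -/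
private def Fo (v : ℂ → ℝ) (t : ℂ) : Prop := ∃ C δ : ℝ, 0 < δ ∧ ∀ τ : ℂ, ‖τ‖ < δ →
  |∑ k : Fin 4, v (t + Complex.I ^ (k : ℕ) * τ) - 4 * v t| ≤ C * ‖τ‖ ^ 3

private theorem Fo.add {v w : ℂ → ℝ} {t : ℂ} (hv : Fo v t) (hw : Fo w t) :
    Fo (fun s => v s + w s) t := by
  obtain ⟨C, δ, hδ, h⟩ := hv
  obtain ⟨C', δ', hδ', h'⟩ := hw
  refine ⟨C + C', min δ δ', lt_min hδ hδ', fun τ hτ => ?_⟩
  have h1 := h τ (lt_of_lt_of_le hτ (min_le_left _ _))
  have h2 := h' τ (lt_of_lt_of_le hτ (min_le_right _ _))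
  have e : ∑ k : Fin 4, (v (t + Complex.I ^ (k : ℕ) * τ) + w (t + Complex.I ^ (k : ℕ) * τ)) -
      4 * (v t + w t) = (∑ k : Fin 4, v (t + Complex.I ^ (k : ℕ) * τ) - 4 * v t) +
        (∑ k : Fin 4, w (t + Complex.I ^ (k : ℕ) * τ) - 4 * w t) := by
    rw [Finset.sum_add_distrib]
    ring
  rw [e]
  refine (abs_add_le _ _).trans ?_
  rw [add_mul]
  exact add_le_add h1 h2

private theorem Fo.mul {v : ℂ → ℝ} {t : ℂ} (a : ℝ) (hv : Fo v t) : Fo (fun s => a * v s) t := by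
  obtain ⟨C, δ, hδ, h⟩ := hv
  refine ⟨|a| * C, δ, hδ, fun τ hτ => ?_⟩
  have e : ∑ k : Fin 4, a * v (t + Complex.I ^ (k : ℕ) * τ) - 4 * (a * v t) =
      a * (∑ k : Fin 4, v (t + Complex.I ^ (k : ℕ) * τ) - 4 * v t) := by
    rw [← Finset.mul_sum]
    ring
  rw [e, abs_mul, mul_assoc]
  exact mul_le_mul_of_nonneg_left (h τ hτ) (abs_nonneg _)

private theorem Fo.zero {t : ℂ} : Fo (fun _ => 0) t :=
  ⟨0, 1, one_pos, fun τ _ => by simp⟩

private theorem Fo.sum {Z : Finset ℂ} {v : ℂ → ℂ → ℝ} {t : ℂ} (h : ∀ z ∈ Z, Fo (v z) t) :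
    Fo (fun s => ∑ z ∈ Z, v z s) t := by
  classical
  induction Z using Finset.induction_on with
  | empty => simpa using Fo.zero (t := t)
  | insert a Z ha ih =>
    have h1 := (h a (Finset.mem_insert_self _ _)).add
      (ih fun z hz => h z (Finset.mem_insert_of_mem hz))
    have e : (fun s => ∑ z ∈ insert a Z, v z s) = fun s => v a s + ∑ z ∈ Z, v z s := by
      funext s
      rw [Finset.sum_insert ha]
    rw [e]
    exact h1

private theorem Fo.sub {v : ℂ → ℝ} {t : ℂ} (hv : Fo v t) : SubMean v t := by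
  obtain ⟨C, δ, hδ, h⟩ := hv
  refine ⟨C, δ, hδ, fun τ hτ => ?_⟩
  have h1 := (abs_le.1 (h τ hτ)).1
  linarith

private theorem fo_log {z t : ℂ} (h : t ≠ z) : Fo (fun s => Real.log ‖s - z‖) t := by
  have ha : AnalyticAt ℂ (fun τ : ℂ => t + τ - z) 0 := by fun_prop
  have h0 : (fun τ : ℂ => t + τ - z) 0 ≠ 0 := by
    simpa [sub_eq_zero] using h
  obtain ⟨C, δ, hδ, h1⟩ := four_log _ ha h0
  refine ⟨C, δ, hδ, fun τ hτ => ?_⟩
  have h2 := h1 τ hτ
  simpa using h2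

/-- the maximum principle: such a function does not exist -/
private theorem core (v : ℂ → ℝ) (Z : Finset ℂ) (K R0 : ℝ) (hR : 1 ≤ R0)
    (hZ : ∀ z ∈ Z, ‖z‖ < R0) (hc : ∀ t, t ∉ Z → ContinuousAt v t) (hs : ∀ t, t ∉ Z → Fo v t)
    (hb : ∀ z ∈ Z, ∃ B ε : ℝ, 0 < ε ∧ ∀ t, t ≠ z → ‖t - z‖ < ε → v t ≤ B)
    (hinf : ∀ t, R0 ≤ ‖t‖ → v t ≤ K - Real.log ‖t‖) : False := by
  obtain ⟨t0, ht0⟩ := Infinite.exists_notMem_finset Z
  obtain ⟨R, hR1, hR2, hR3⟩ : ∃ R : ℝ, R0 ≤ R ∧ ‖t0‖ ≤ R ∧ K - Real.log R < v t0 := by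
    refine ⟨max (max R0 ‖t0‖) (Real.exp (K - v t0 + 1)), (le_max_left _ _).trans (le_max_left _ _),
      (le_max_right _ _).trans (le_max_left _ _), ?_⟩
    have h1 : K - v t0 + 1 ≤ Real.log (max (max R0 ‖t0‖) (Real.exp (K - v t0 + 1))) := by
      rw [Real.le_log_iff_exp_le (lt_of_lt_of_le (Real.exp_pos _) (le_max_right _ _))]
      exact le_max_right _ _
    linarith
  have h := comparison R Z (fun z hz => lt_of_lt_of_le (hZ z hz) hR1) v (K - Real.log R)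
    (fun t _ ht => (hc t ht).upperSemicontinuousAt) (fun t _ ht => (hs t ht).sub) hb
    (fun t ht => by
      have := hinf t (by rw [ht]; exact hR1)
      rwa [ht] at this) t0 hR2 ht0
  linarith

private theorem log_near {t z : ℂ} (h : 2 * ‖z‖ + 1 ≤ ‖t‖) :
    |Real.log ‖t - z‖ - Real.log ‖t‖| ≤ Real.log 2 := by
  have hz := norm_nonneg z
  have ht : 0 < ‖t‖ := by linarith
  have h1 : ‖t‖ - ‖z‖ ≤ ‖t - z‖ := norm_sub_norm_le _ _
  have h2 : ‖t - z‖ ≤ ‖t‖ + ‖z‖ := norm_sub_le _ _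
  have h3 : 0 < ‖t - z‖ := by linarith
  rw [abs_le]
  constructor
  · have : Real.log ‖t‖ ≤ Real.log (2 * ‖t - z‖) := Real.log_le_log ht (by linarith)
    rw [Real.log_mul two_ne_zero h3.ne'] at this
    linarith
  · have : Real.log ‖t - z‖ ≤ Real.log (2 * ‖t‖) := Real.log_le_log h3 (by linarith)
    rw [Real.log_mul two_ne_zero ht.ne'] at this
    linarith

section main

variable {c : T3 → ℂ} (hc : CProp c) (T0 T1 : T3) (h0 : IsSym T0) (h1 : Sm T1)
    (Z : Finset ℂ) (hZ : ∀ t : ℂ, t ∉ Z → Sm (T0 + t • T1)) (m : ℂ → ℕ)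
    (hm : ∀ z ∈ Z, ∃ G, LocalLim (T0 + z • T1) T1 (m z) G)

/-- the auxiliary function -/
private def uu (c : T3 → ℂ) (T0 T1 : T3) (Z : Finset ℂ) (m : ℂ → ℕ) (t : ℂ) : ℝ :=
  Real.log ‖c (T0 + t • T1)‖ + (-1) * ∑ z ∈ Z, (m z : ℝ) * Real.log ‖t - z‖

include hc h1 hZ in
private theorem uu_fo (t : ℂ) (ht : t ∉ Z) : Fo (uu c T0 T1 Z m) t := by
  have h2 : Fo (fun t : ℂ => Real.log ‖c (T0 + t • T1)‖) t := (log_c_four hc T0 T1 h1.1 t (hZ t ht)).2
  exact h2.add ((Fo.sum (v := fun z s => (m z : ℝ) * Real.log ‖s - z‖) fun z hz =>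
    (fo_log (fun h => ht (by rw [h]; exact hz))).mul _).mul (-1))

include hc h1 hZ in
private theorem uu_cont (t : ℂ) (ht : t ∉ Z) : ContinuousAt (uu c T0 T1 Z m) t := by
  have h2 := (log_c_four hc T0 T1 h1.1 t (hZ t ht)).1
  refine h2.add (continuousAt_const.mul ?_)
  refine tendsto_finset_sum _ fun z hz => ?_
  refine Tendsto.const_mul _ ?_
  have hne : ‖t - z‖ ≠ 0 := by
    rw [norm_ne_zero_iff, sub_ne_zero]
    intro h
    exact ht (by rw [h]; exact hz)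
  exact ContinuousAt.log (by fun_prop) hne

include hc h0 h1 hm in
private theorem uu_bdd (z : ℂ) (hz : z ∈ Z) : ∃ B ε : ℝ, 0 < ε ∧ ∀ t, t ≠ z → ‖t - z‖ < ε →
    |uu c T0 T1 Z m t| ≤ B := by
  classical
  obtain ⟨G, hG⟩ := hm z hz
  obtain ⟨ε, A, A', _, hε, hA, h⟩ := near_sing hc (T0 + z • T1) T1
    (isSym_add h0 (isSym_smul h1.1 z)) h1.1 (m z) G hG
  let g : ℂ → ℝ := fun t => ∑ y ∈ Z.erase z, (m y : ℝ) * Real.log ‖t - y‖
  have hg : ContinuousAt g z := by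
    refine tendsto_finset_sum _ fun y hy => ?_
    refine Tendsto.const_mul _ ?_
    have hne : ‖z - y‖ ≠ 0 := by
      rw [norm_ne_zero_iff, sub_ne_zero]
      exact (Finset.ne_of_mem_erase hy).symm
    exact ContinuousAt.log (by fun_prop) hne
  obtain ⟨ε', hε', hg'⟩ := Metric.continuousAt_iff.1 hg 1 one_pos
  refine ⟨max |Real.log A| |Real.log A'| + (|g z| + 1), min ε ε', lt_min hε hε', fun t ht1 ht2 => ?_⟩
  have hp : 0 < ‖t - z‖ := norm_pos_iff.2 (sub_ne_zero.2 ht1)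
  obtain ⟨-, k1, k2, -⟩ := h (t - z) (sub_ne_zero.2 ht1) (lt_of_lt_of_le ht2 (min_le_left _ _))
  have e1 : T0 + z • T1 + (t - z) • T1 = T0 + t • T1 := by
    rw [sub_smul]
    abel
  rw [e1] at k1 k2
  have hpm : 0 < ‖t - z‖ ^ m z := pow_pos hp _
  have hA' : 0 < A' := by
    by_contra hn
    have : A' * ‖t - z‖ ^ m z ≤ 0 := mul_nonpos_of_nonpos_of_nonneg (not_lt.1 hn) hpm.le
    have h3 := mul_pos hA hpm
    linarith
  have hcp : 0 < ‖c (T0 + t • T1)‖ := lt_of_lt_of_le (mul_pos hA hpm) k1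
  have l1 : Real.log A + m z * Real.log ‖t - z‖ ≤ Real.log ‖c (T0 + t • T1)‖ := by
    have := Real.log_le_log (mul_pos hA hpm) k1
    rwa [Real.log_mul hA.ne' hpm.ne', Real.log_pow] at this
  have l2 : Real.log ‖c (T0 + t • T1)‖ ≤ Real.log A' + m z * Real.log ‖t - z‖ := by
    have := Real.log_le_log hcp k2
    rwa [Real.log_mul hA'.ne' hpm.ne', Real.log_pow] at this
  have hgt : |g t - g z| < 1 := by
    have := hg' (x := t) (by rw [dist_eq_norm]; exact lt_of_lt_of_le ht2 (min_le_right _ _))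
    rwa [Real.dist_eq] at this
  have e2 : uu c T0 T1 Z m t =
      (Real.log ‖c (T0 + t • T1)‖ - m z * Real.log ‖t - z‖) - g t := by
    have h3 : ∑ y ∈ Z, (m y : ℝ) * Real.log ‖t - y‖ = (m z : ℝ) * Real.log ‖t - z‖ + g t :=
      (Finset.add_sum_erase Z (fun y => (m y : ℝ) * Real.log ‖t - y‖) hz).symm
    unfold uu
    rw [h3]
    ring
  rw [e2]
  have m1 : |Real.log ‖c (T0 + t • T1)‖ - m z * Real.log ‖t - z‖| ≤
      max |Real.log A| |Real.log A'| := by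
    rw [abs_le]
    constructor
    · have := (neg_abs_le (Real.log A)).trans (by linarith :
        Real.log A ≤ Real.log ‖c (T0 + t • T1)‖ - m z * Real.log ‖t - z‖)
      exact (neg_le_neg (le_max_left _ _)).trans this
    · have := (by linarith : Real.log ‖c (T0 + t • T1)‖ - m z * Real.log ‖t - z‖ ≤
        Real.log A').trans (le_abs_self _)
      exact this.trans (le_max_right _ _)
  have m2 : |g t| ≤ |g z| + 1 := by
    have := abs_add_le (g z) (g t - g z)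
    rw [add_sub_cancel] at this
    linarith
  exact (abs_sub _ _).trans (add_le_add m1 m2)

include hc h0 h1 hZ in
private theorem uu_inf : ∃ K R0 : ℝ, 1 ≤ R0 ∧ (∀ z ∈ Z, ‖z‖ < R0) ∧ ∀ t : ℂ, R0 ≤ ‖t‖ →
    |uu c T0 T1 Z m t - (32 - ∑ z ∈ Z, (m z : ℝ)) * Real.log ‖t‖| ≤ K := by
  have ha := hc.anal T1 T0 h1 h0
  have hc1 : ContinuousAt (fun τ : ℂ => Real.log ‖c (T1 + τ • T0)‖) 0 := by
    refine ContinuousAt.log ha.continuousAt.norm ?_
    rw [zero_smul, add_zero]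
    exact norm_ne_zero_iff.2 (hc.ne_zero _ h1)
  obtain ⟨δ, hδ, hd⟩ := Metric.continuousAt_iff.1 hc1 1 one_pos
  rw [zero_smul, add_zero] at hd
  let S : ℝ := ∑ z ∈ Z, ‖z‖
  have hS : ∀ z ∈ Z, ‖z‖ ≤ S := fun z hz =>
    Finset.single_le_sum (f := fun z : ℂ => ‖z‖) (fun z _ => norm_nonneg z) hz
  have hS0 : 0 ≤ S := Finset.sum_nonneg fun z _ => norm_nonneg z
  refine ⟨|Real.log ‖c T1‖| + 1 + ∑ z ∈ Z, (m z : ℝ) * Real.log 2, 2 * S + 1 + 2 / δ, ?_, ?_, ?_⟩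
  · have : 0 < 2 / δ := by positivity
    linarith
  · intro z hz
    have h2 := hS z hz
    have : 0 < 2 / δ := by positivity
    linarith
  · intro t ht
    have hd2 : 0 < 2 / δ := by positivity
    have htp : 0 < ‖t‖ := by linarith
    have ht0 : t ≠ 0 := norm_pos_iff.1 htp
    have htZ : t ∉ Z := fun h => by
      have h2 := hS t h
      linarith
    have hsm := hZ t htZ
    have e1 : T1 + t⁻¹ • T0 = t⁻¹ • (T0 + t • T1) := by
      rw [smul_add, smul_smul, inv_mul_cancel₀ ht0, one_smul, add_comm]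
    have hsm1 : Sm (T1 + t⁻¹ • T0) := by
      rw [e1]
      exact sm_smul hsm _ (inv_ne_zero ht0)
    have e2 : T0 + t • T1 = t • (T1 + t⁻¹ • T0) := by
      rw [smul_add, smul_smul, mul_inv_cancel₀ ht0, one_smul, add_comm]
    have e3 : Real.log ‖c (T0 + t • T1)‖ = 32 * Real.log ‖t‖ + Real.log ‖c (T1 + t⁻¹ • T0)‖ := by
      rw [e2, hc.smul _ hsm1 t ht0, norm_mul, norm_pow,
        Real.log_mul (pow_ne_zero _ htp.ne') (norm_ne_zero_iff.2 (hc.ne_zero _ hsm1)),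
        Real.log_pow]
      norm_num
    have e4 : |Real.log ‖c (T1 + t⁻¹ • T0)‖| ≤ |Real.log ‖c T1‖| + 1 := by
      have h2 := hd (x := t⁻¹) (by
        rw [dist_zero_right, norm_inv]
        have h3 : 2 / δ ≤ ‖t‖ := by linarith
        have h4 : 1 / δ < ‖t‖ := by
          have : 1 / δ < 2 / δ := div_lt_div_of_pos_right (by norm_num) hδ
          linarith
        rw [inv_lt_comm₀ htp hδ, ← one_div]
        exact h4)
      rw [Real.dist_eq] at h2
      have h5 := abs_add_le (Real.log ‖c T1‖)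
        (Real.log ‖c (T1 + t⁻¹ • T0)‖ - Real.log ‖c T1‖)
      rw [add_sub_cancel] at h5
      linarith
    have e5 : uu c T0 T1 Z m t - (32 - ∑ z ∈ Z, (m z : ℝ)) * Real.log ‖t‖ =
        Real.log ‖c (T1 + t⁻¹ • T0)‖ -
          ∑ z ∈ Z, (m z : ℝ) * (Real.log ‖t - z‖ - Real.log ‖t‖) := by
      unfold uu
      rw [e3]
      simp only [mul_sub, Finset.sum_sub_distrib, ← Finset.sum_mul]
      ring
    rw [e5]
    refine (abs_sub _ _).trans (add_le_add e4 ?_)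
    refine (Finset.abs_sum_le_sum_abs _ _).trans (Finset.sum_le_sum fun z hz => ?_)
    rw [abs_mul, abs_of_nonneg (Nat.cast_nonneg _)]
    refine mul_le_mul_of_nonneg_left (log_near ?_) (Nat.cast_nonneg _)
    have := hS z hz
    linarith

end main

theorem sum_mult {c : T3 → ℂ} (hc : CProp c) (T0 T1 : T3) (h0 : IsSym T0) (h1 : Sm T1)
    (Z : Finset ℂ) (hZ : ∀ t : ℂ, t ∉ Z → Sm (T0 + t • T1)) (m : ℂ → ℕ)
    (hm : ∀ z ∈ Z, ∃ G, LocalLim (T0 + z • T1) T1 (m z) G) : ∑ z ∈ Z, m z = 32 := by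
  obtain ⟨K, R0, hR, hZR, hK⟩ := uu_inf hc T0 T1 h0 h1 Z hZ m
  have hcast : ((∑ z ∈ Z, m z : ℕ) : ℝ) = ∑ z ∈ Z, (m z : ℝ) := by push_cast; rfl
  rcases lt_trichotomy (∑ z ∈ Z, m z) 32 with hlt | heq | hgt
  · exfalso
    have h2 : ∑ z ∈ Z, (m z : ℝ) ≤ 31 := by
      rw [← hcast]
      exact_mod_cast Nat.lt_succ_iff.1 hlt
    refine core (fun t => (-1) * uu c T0 T1 Z m t) Z K R0 hR hZR
      (fun t ht => continuousAt_const.mul (uu_cont hc T0 T1 h1 Z hZ m t ht))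
      (fun t ht => (uu_fo hc T0 T1 h1 Z hZ m t ht).mul (-1)) (fun z hz => ?_) (fun t ht => ?_)
    · obtain ⟨B, ε, hε, hB⟩ := uu_bdd hc T0 T1 h0 h1 Z m hm z hz
      refine ⟨B, ε, hε, fun t h3 h4 => ?_⟩
      have := (abs_le.1 (hB t h3 h4)).1
      linarith
    · have h3 := (abs_le.1 (hK t ht)).1
      have h4 : 0 ≤ Real.log ‖t‖ := Real.log_nonneg (hR.trans ht)
      nlinarith
  · exact heq
  · exfalso
    have h2 : 33 ≤ ∑ z ∈ Z, (m z : ℝ) := by
      rw [← hcast]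
      exact_mod_cast hgt
    refine core (uu c T0 T1 Z m) Z K R0 hR hZR
      (fun t ht => uu_cont hc T0 T1 h1 Z hZ m t ht)
      (fun t ht => uu_fo hc T0 T1 h1 Z hZ m t ht) (fun z hz => ?_) (fun t ht => ?_)
    · obtain ⟨B, ε, hε, hB⟩ := uu_bdd hc T0 T1 h0 h1 Z m hm z hz
      exact ⟨B, ε, hε, fun t h3 h4 => (abs_le.1 (hB t h3 h4)).2⟩
    · have h3 := (abs_le.1 (hK t ht)).2
      have h4 : 0 ≤ Real.log ‖t‖ := Real.log_nonneg (hR.trans ht)
      nlinarith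

end Pool.Agent.ISO
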