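import Pool.Agent.ISO.SMax
import Pool.Agent.ISO.Comp

/-!
# ISO / GMax: constancy on the projective line minus finitely many points

PROOF.  `v` is the function in the chart `t`, `w s = v (1/s)` in the chart at infinity; `w 0` is its
value at infinity.  Choose `R > 0` with `‖z‖ < R` for `z ∈ Z`.  Let `M` be the maximum of the upper
semicontinuous function `w` on the compact disc `‖s‖ ≤ 1/R` (the points `s ≠ 0` of the disc have
`s⁻¹ ∉ Z`).  By `comparison` (`v t = w t⁻¹ ≤ M` for `‖t‖ = R`) `v ≤ M` on `‖t‖ ≤ R`, `t ∉ Z`; and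
`v t = w t⁻¹ ≤ M` for `‖t‖ ≥ R`.  The maximum is attained at some `s`.  If `s ≠ 0` then
`v s⁻¹ = M` and `strong_max` on the connected open set `ℂ \ Z`
(`Set.Countable.isConnected_compl_of_one_lt_rank`) gives `v = M` off `Z`.  If `s = 0`:
`strong_max` for `w` on the ball `‖s‖ < 1/R` gives `w = M` there, so `v t = M` for large `t`, and
again `strong_max` for `v`.  Finally `w 0 ≤ M`, and `w 0 < M` would give
`w s < M` for small `s` by upper semicontinuity.
-/

set_option autoImplicit false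

noncomputable section

namespace Pool.Agent.ISO

open Complex

theorem global_max (Z : Finset ℂ) (v w : ℂ → ℝ) (hvw : ∀ s : ℂ, s ≠ 0 → w s = v s⁻¹)
    (husc : ∀ t, t ∉ Z → UpperSemicontinuousAt v t) (hsub : ∀ t, t ∉ Z → SubMean v t)
    (hbdd : ∀ z ∈ Z, ∃ B ε : ℝ, 0 < ε ∧ ∀ t, t ≠ z → ‖t - z‖ < ε → v t ≤ B)
    (husc' : ∀ s : ℂ, s = 0 ∨ s⁻¹ ∉ Z → UpperSemicontinuousAt w s)
    (hsub' : ∀ s : ℂ, s = 0 ∨ s⁻¹ ∉ Z → SubMean w s) :
    ∃ M : ℝ, w 0 = M ∧ ∀ t, t ∉ Z → v t = M := by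
  -- the radius
  obtain ⟨R, hR, hZR⟩ : ∃ R : ℝ, 0 < R ∧ ∀ z ∈ Z, ‖z‖ < R := by
    refine ⟨1 + ∑ z ∈ Z, ‖z‖, by positivity, fun z hz => ?_⟩
    have h1 : ‖z‖ ≤ ∑ z ∈ Z, ‖z‖ :=
      Finset.single_le_sum (f := fun z : ℂ => ‖z‖) (fun i _ => norm_nonneg i) hz
    linarith
  have hinv : ∀ s : ℂ, s ≠ 0 → ‖s‖ ≤ R⁻¹ → s⁻¹ ∉ Z := by
    intro s hs hsR hz
    have h1 := hZR _ hz
    rw [norm_inv] at h1
    have h2 : 0 < ‖s‖ := norm_pos_iff.2 hs
    have h3 : R ≤ ‖s‖⁻¹ := by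
      rw [le_inv_comm₀ hR h2]
      exact hsR
    linarith
  have hgood : ∀ s : ℂ, ‖s‖ ≤ R⁻¹ → s = 0 ∨ s⁻¹ ∉ Z := by
    intro s hs
    by_cases h : s = 0
    · exact Or.inl h
    · exact Or.inr (hinv s h hs)
  -- the maximum over the disc at infinity
  have hne : (Metric.closedBall (0 : ℂ) R⁻¹).Nonempty := ⟨0, Metric.mem_closedBall_self (by positivity)⟩
  have huD : UpperSemicontinuousOn w (Metric.closedBall (0 : ℂ) R⁻¹) := by
    intro s hs
    exact (husc' s (hgood s (mem_closedBall_zero_iff.1 hs))).upperSemicontinuousWithinAt _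
  obtain ⟨s0, hs0, hmax⟩ := huD.exists_isMaxOn hne (isCompact_closedBall _ _)
  have hmax' : ∀ s : ℂ, ‖s‖ ≤ R⁻¹ → w s ≤ w s0 := fun s hs => hmax (mem_closedBall_zero_iff.2 hs)
  have hs0' : ‖s0‖ ≤ R⁻¹ := mem_closedBall_zero_iff.1 hs0
  obtain ⟨M, hM⟩ : ∃ M : ℝ, M = w s0 := ⟨_, rfl⟩
  -- outside of the disc of radius `R`
  have hout : ∀ t : ℂ, R ≤ ‖t‖ → v t ≤ M := by
    intro t ht
    have ht0 : t ≠ 0 := by
      rintro rfl
      rw [norm_zero] at ht
      linarith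
    have h1 := hmax' t⁻¹ (by
      rw [norm_inv]
      exact inv_anti₀ hR ht)
    rw [hvw _ (inv_ne_zero ht0), inv_inv] at h1
    rw [hM]
    exact h1
  have hle : ∀ t : ℂ, t ∉ Z → v t ≤ M := by
    intro t ht
    rcases le_total R ‖t‖ with h | h
    · exact hout t h
    · exact comparison R Z hZR v M (fun t _ h => husc t h) (fun t _ h => hsub t h) hbdd
        (fun t h => hout t h.ge) t h ht
  -- strong maximum principle in the chart
  have hU : IsOpen ((Z : Set ℂ)ᶜ) := Z.finite_toSet.isClosed.isOpen_compl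
  have hUc : IsPreconnected ((Z : Set ℂ)ᶜ) := by
    refine (Set.Countable.isConnected_compl_of_one_lt_rank ?_ Z.countable_toSet).isPreconnected
    rw [Complex.rank_real_complex]
    norm_num
  have hall : (∃ t0 : ℂ, t0 ∉ Z ∧ v t0 = M) → ∀ t, t ∉ Z → v t = M := by
    rintro ⟨t0, ht0, hv0⟩ t ht
    exact strong_max _ hU hUc v M (fun t ht => husc t (fun h => ht (Finset.mem_coe.2 h)))
      (fun t ht => hsub t (fun h => ht (Finset.mem_coe.2 h)))
      (fun t ht => hle t (fun h => ht (Finset.mem_coe.2 h))) t0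
      (fun h => ht0 (Finset.mem_coe.1 h)) hv0 t (fun h => ht (Finset.mem_coe.1 h))
  have hconst : ∀ t, t ∉ Z → v t = M := by
    apply hall
    by_cases h0 : s0 = 0
    · have h1 := strong_max (Metric.ball (0 : ℂ) R⁻¹) Metric.isOpen_ball
        (convex_ball _ _).isPreconnected w M
        (fun s hs => husc' s (hgood s (mem_ball_zero_iff.1 hs).le))
        (fun s hs => hsub' s (hgood s (mem_ball_zero_iff.1 hs).le))
        (fun s hs => by rw [hM]; exact hmax' s (mem_ball_zero_iff.1 hs).le) 0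
        (Metric.mem_ball_self (by positivity)) (by rw [hM, h0])
      have h2 : (((2 * R)⁻¹ : ℝ) : ℂ) ≠ 0 := by
        rw [Complex.ofReal_ne_zero]
        positivity
      have h3 : ‖(((2 * R)⁻¹ : ℝ) : ℂ)‖ < R⁻¹ := by
        rw [Complex.norm_real, Real.norm_of_nonneg (by positivity), mul_inv]
        have : 0 < R⁻¹ := by positivity
        linarith
      have h4 := h1 _ (mem_ball_zero_iff.2 h3)
      rw [hvw _ h2] at h4
      exact ⟨_, hinv _ h2 h3.le, h4⟩
    · refine ⟨s0⁻¹, hinv s0 h0 hs0', ?_⟩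
      rw [hM, hvw s0 h0]
  refine ⟨M, le_antisymm ?_ ?_, hconst⟩
  · rw [hM]
    exact hmax' 0 (by rw [norm_zero]; positivity)
  · by_contra hlt
    have h1 := husc' 0 (Or.inl rfl) M (not_le.1 hlt)
    rw [Metric.eventually_nhds_iff] at h1
    obtain ⟨ε, hε, h2⟩ := h1
    obtain ⟨r, hr⟩ : ∃ r : ℝ, r = min ε R⁻¹ / 2 := ⟨_, rfl⟩
    have hm : 0 < min ε R⁻¹ := lt_min hε (by positivity)
    have hr0 : 0 < r := by
      rw [hr]
      positivity
    have hr1 : r < ε := by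
      rw [hr]
      have := min_le_left ε R⁻¹
      linarith
    have hr2 : r ≤ R⁻¹ := by
      rw [hr]
      have := min_le_right ε R⁻¹
      linarith
    have hrn : ‖(r : ℂ)‖ = r := by
      rw [Complex.norm_real, Real.norm_of_nonneg hr0.le]
    have hrc : (r : ℂ) ≠ 0 := by
      rw [Complex.ofReal_ne_zero]
      exact hr0.ne'
    have h3 : w (r : ℂ) < M := h2 (y := (r : ℂ)) (by rw [dist_zero_right, hrn]; exact hr1)
    rw [hvw _ hrc, hconst _ (hinv _ hrc (by rw [hrn]; exact hr2))] at h3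
    exact lt_irrefl _ h3

end Pool.Agent.ISO
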