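import Pool.Agent.ISO.Near
import Pool.Agent.ISO.VFun
import Pool.Agent.ISO.GMax

/-!
# ISO / VConst: the direction of the pencil is tangent to the orbit at every smooth member

PROOF.  Apply `global_max` to `v t = vf c (T0 + t T1)` and `w s = vf c (T1 + s T0)` (for `s ≠ 0`
`T1 + s T0 = s (T0 + s⁻¹ T1)`; if `T0 + s⁻¹ T1` is not smooth, `vf_smul` does not apply, so define
`w s = if s = 0 then vf c T1 else v s⁻¹` and use that it equals `vf c (T1 + s T0)` whenever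
`s⁻¹ ∉ Z`; the set of these `s` (with `0`) is open, so semicontinuity and `SubMean` are not
affected).  Hypotheses: `vf_usc`, `vf_sub` (`κ ≥ 0`), `near_sing` (upper bound near `z ∈ Z`).
So `v = M` off `Z`.  For `s ∉ Z` and small `τ` all points `s + I^k τ` are off `Z`, so `vf_sub` gives
`4 M + κ ‖τ‖² - C ‖τ‖³ ≤ 4 M`, hence `κ = 0`, hence `T1 = lie (T0 + s T1) Z`.
-/

set_option autoImplicit false

noncomputable section

namespace Pool.Agent.ISO

open Matrix Filter Topology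

private theorem dist_aux (s τ : ℂ) (k : ℕ) : dist (s + Complex.I ^ k * τ) s = ‖τ‖ := by
  rw [dist_eq_norm, add_sub_cancel_left, norm_mul, norm_pow, Complex.norm_I, one_pow, one_mul]

/-- the four point inequality for a function which agrees near the point -/
private theorem subMean_of {v w : ℂ → ℝ} {s : ℂ} (h : v =ᶠ[𝓝 s] w) {κ C δ : ℝ} (hκ : 0 ≤ κ)
    (hδ : 0 < δ) (hs : ∀ τ : ℂ, ‖τ‖ < δ →
      4 * w s + κ * ‖τ‖ ^ 2 - C * ‖τ‖ ^ 3 ≤ ∑ k : Fin 4, w (s + Complex.I ^ (k : ℕ) * τ)) :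
    SubMean v s := by
  obtain ⟨ε, hε, h1⟩ := Metric.eventually_nhds_iff.1 h
  refine ⟨C, min δ ε, lt_min hδ hε, fun τ hτ => ?_⟩
  have h2 := hs τ (lt_of_lt_of_le hτ (min_le_left _ _))
  have h3 : v s = w s := h1 (by rw [dist_self]; exact hε)
  have h4 : ∑ k : Fin 4, v (s + Complex.I ^ (k : ℕ) * τ) =
      ∑ k : Fin 4, w (s + Complex.I ^ (k : ℕ) * τ) := by
    refine Finset.sum_congr rfl fun k _ => h1 ?_
    rw [dist_aux]
    exact lt_of_lt_of_le hτ (min_le_right _ _)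
  rw [h3, h4]
  have h5 : 0 ≤ κ * ‖τ‖ ^ 2 := by positivity
  linarith

private theorem usc_congr {v w : ℂ → ℝ} {s : ℂ} (h : v =ᶠ[𝓝 s] w)
    (hw : UpperSemicontinuousAt w s) : UpperSemicontinuousAt v s := by
  intro y hy
  have h1 : w s < y := by
    rw [← h.eq_of_nhds]
    exact hy
  filter_upwards [h, hw y h1] with x hx hx'
  rw [hx]
  exact hx'

theorem tangent {c : T3 → ℂ} (hc : CProp c) (T0 T1 : T3) (h0 : IsSym T0) (h1 : Sm T1)
    (Z : Finset ℂ) (hZ : ∀ t : ℂ, t ∉ Z → Sm (T0 + t • T1))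
    (hm : ∀ z ∈ Z, ∃ m G, LocalLim (T0 + z • T1) T1 m G) (s : ℂ) (hs : s ∉ Z) :
    ∃ X : M4, T1 = lie (T0 + s • T1) X := by
  classical
  have hv : ∀ t : ℂ, t ∉ Z → ∃ κ C δ : ℝ, 0 ≤ κ ∧ 0 < δ ∧
      (κ = 0 → ∃ X : M4, T1 = lie (T0 + t • T1) X) ∧
      ∀ τ : ℂ, ‖τ‖ < δ → 4 * vf c (T0 + t • T1) + κ * ‖τ‖ ^ 2 - C * ‖τ‖ ^ 3 ≤
        ∑ k : Fin 4, vf c (T0 + (t + Complex.I ^ (k : ℕ) * τ) • T1) := fun t ht =>
    vf_sub hc T0 T1 h1.1 t (hZ t ht)
  -- the chart at infinity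
  have hsm : ∀ s : ℂ, s = 0 ∨ s⁻¹ ∉ Z → Sm (T1 + s • T0) := by
    intro s hs
    by_cases h : s = 0
    · rw [h, zero_smul, add_zero]
      exact h1
    · have h2 : s⁻¹ ∉ Z := hs.resolve_left h
      have h3 : T1 + s • T0 = s • (T0 + s⁻¹ • T1) := by
        rw [smul_add, smul_smul, mul_inv_cancel₀ h, one_smul, add_comm]
      rw [h3]
      exact sm_smul (hZ _ h2) s h
  have hw : ∀ s : ℂ, s = 0 ∨ s⁻¹ ∉ Z →
      (if s = 0 then vf c T1 else vf c (T0 + s⁻¹ • T1)) = vf c (T1 + s • T0) := by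
    intro s hs
    by_cases h : s = 0
    · rw [if_pos h, h, zero_smul, add_zero]
    · have h2 : s⁻¹ ∉ Z := hs.resolve_left h
      have h3 : T1 + s • T0 = s • (T0 + s⁻¹ • T1) := by
        rw [smul_add, smul_smul, mul_inv_cancel₀ h, one_smul, add_comm]
      rw [if_neg h, h3, vf_smul hc (hZ _ h2) s h]
  -- the chart is open
  have hopen : ∀ s : ℂ, s = 0 ∨ s⁻¹ ∉ Z → ∀ᶠ x in 𝓝 s, x = 0 ∨ x⁻¹ ∉ Z := by
    intro s hs
    have hfin : (((Z.erase 0).image fun z => z⁻¹ : Finset ℂ) : Set ℂ).Finite :=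
      Finset.finite_toSet _
    have h2 : s ∈ ((((Z.erase 0).image fun z => z⁻¹ : Finset ℂ) : Set ℂ))ᶜ := by
      intro h3
      rw [Finset.mem_coe, Finset.mem_image] at h3
      obtain ⟨z, hz, rfl⟩ := h3
      rw [Finset.mem_erase] at hz
      rcases hs with h4 | h4
      · exact hz.1 (inv_eq_zero.1 h4)
      · rw [inv_inv] at h4
        exact h4 hz.2
    filter_upwards [hfin.isClosed.isOpen_compl.mem_nhds h2] with x hx
    by_contra hcon
    rw [not_or, not_not] at hcon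
    refine hx ?_
    rw [Finset.mem_coe, Finset.mem_image]
    exact ⟨x⁻¹, Finset.mem_erase.2 ⟨inv_ne_zero hcon.1, hcon.2⟩, inv_inv x⟩
  have hww : ∀ s : ℂ, s = 0 ∨ s⁻¹ ∉ Z →
      (fun s : ℂ => if s = 0 then vf c T1 else vf c (T0 + s⁻¹ • T1)) =ᶠ[𝓝 s]
        fun s : ℂ => vf c (T1 + s • T0) := by
    intro s hs
    filter_upwards [hopen s hs] with x hx
    exact hw x hx
  obtain ⟨M, -, hM⟩ := global_max Z (fun t : ℂ => vf c (T0 + t • T1))
    (fun s : ℂ => if s = 0 then vf c T1 else vf c (T0 + s⁻¹ • T1))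
    (fun s hs => if_neg hs) (fun t ht => vf_usc hc T0 T1 h1.1 t (hZ t ht))
    (fun t ht => by
      obtain ⟨κ, C, δ, hκ, hδ, -, h3⟩ := hv t ht
      exact subMean_of (w := fun t : ℂ => vf c (T0 + t • T1)) Filter.EventuallyEq.rfl hκ hδ h3)
    (fun z hz => by
      obtain ⟨m, G, hG⟩ := hm z hz
      obtain ⟨ε, A, A', B, hε, -, h3⟩ := near_sing hc (T0 + z • T1) T1
        (isSym_add h0 (isSym_smul h1.1 z)) h1.1 m G hG
      refine ⟨B, ε, hε, fun t ht ht' => ?_⟩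
      have h4 := (h3 (t - z) (sub_ne_zero.2 ht) ht').2.2.2
      have h5 : T0 + z • T1 + (t - z) • T1 = T0 + t • T1 := by
        rw [add_assoc, ← add_smul, add_sub_cancel]
      rw [h5] at h4
      exact h4)
    (fun s hs => usc_congr (hww s hs) (vf_usc hc T1 T0 h0 s (hsm s hs)))
    (fun s hs => by
      obtain ⟨κ, C, δ, hκ, hδ, -, h3⟩ := vf_sub hc T1 T0 h0 s (hsm s hs)
      exact subMean_of (hww s hs) hκ hδ h3)
  -- the constant function has no strict subharmonicity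
  obtain ⟨κ, C, δ, hκ, hδ, hX, h3⟩ := hv s hs
  apply hX
  have hfin : ((Z : Finset ℂ) : Set ℂ).Finite := Finset.finite_toSet _
  have h4 : s ∈ (((Z : Finset ℂ) : Set ℂ))ᶜ := hs
  obtain ⟨ε, hε, h5⟩ := Metric.mem_nhds_iff.1 (hfin.isClosed.isOpen_compl.mem_nhds h4)
  have h6 : ∀ τ : ℂ, ‖τ‖ < min δ ε → κ * ‖τ‖ ^ 2 ≤ C * ‖τ‖ ^ 3 := by
    intro τ hτ
    have h7 := h3 τ (lt_of_lt_of_le hτ (min_le_left _ _))
    have h8 : ∀ k : Fin 4, vf c (T0 + (s + Complex.I ^ (k : ℕ) * τ) • T1) = M := by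
      intro k
      refine hM _ ?_
      have h9 : s + Complex.I ^ (k : ℕ) * τ ∈ Metric.ball s ε := by
        rw [Metric.mem_ball, dist_aux]
        exact lt_of_lt_of_le hτ (min_le_right _ _)
      exact h5 h9
    rw [Finset.sum_congr rfl fun k _ => h8 k, hM s hs] at h7
    simp only [Finset.sum_const, Finset.card_univ, Fintype.card_fin, nsmul_eq_mul] at h7
    push_cast at h7
    linarith
  by_contra hne
  have hpos : 0 < κ := lt_of_le_of_ne hκ (Ne.symm hne)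
  have hmin : 0 < min δ ε := lt_min hδ hε
  obtain ⟨r, hr, hr1, hr2⟩ : ∃ r : ℝ, 0 < r ∧ r < min δ ε ∧ |C| * r < κ := by
    refine ⟨min (min δ ε / 2) (κ / (2 * (|C| + 1))), lt_min (by positivity) (by positivity), ?_, ?_⟩
    · exact lt_of_le_of_lt (min_le_left _ _) (by linarith)
    · have hC : 0 ≤ |C| := abs_nonneg C
      calc |C| * min (min δ ε / 2) (κ / (2 * (|C| + 1)))
          ≤ |C| * (κ / (2 * (|C| + 1))) := by gcongr; exact min_le_right _ _
        _ = κ * (|C| / (2 * (|C| + 1))) := by ring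
        _ < κ * 1 := by
            gcongr
            rw [div_lt_one (by positivity)]
            linarith
        _ = κ := mul_one κ
  have h7 := h6 (r : ℂ) (by rwa [Complex.norm_real, Real.norm_eq_abs, abs_of_pos hr])
  rw [Complex.norm_real, Real.norm_eq_abs, abs_of_pos hr] at h7
  have h8 : κ * r ^ 2 ≤ |C| * r * r ^ 2 := by
    calc κ * r ^ 2 ≤ C * r ^ 3 := h7
      _ ≤ |C| * r ^ 3 := by gcongr; exact le_abs_self C
      _ = |C| * r * r ^ 2 := by ring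
  have h9 : 0 < r ^ 2 := by positivity
  have h10 := le_of_mul_le_mul_right h8 h9
  linarith

end Pool.Agent.ISO
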