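import Pool.Agent.ISO.Fin
import Pool.Agent.ISO.Sum32
import Pool.Agent.ISO.VConst
import Pool.Agent.ISO.Orb

/-!
# ISO / Main: pencils without `A_n` members and without cones consist of Fermat cubics

PROOF of `local_at`: a non-smooth member `T = a T0 + b T1` has `p ≠ 0` with `grad T p = 0`; apply
`local_lim` to `T` and a complementary generator `T' = a' T0 + b' T1` (`a b' - a' b ≠ 0`); `hbase` for
`(T, T')` follows from `hbase` for `(T0, T1)` (invertible change of generators).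

PROOF of `exists_smooth_pair`: by `near_sing` there are smooth members near any member.  So: given a smooth
member `F` there is a complementary generator which is smooth: take any complementary `F'`; if `F'` is
not smooth, `F' + t F` is smooth for small `t ≠ 0`.

PROOF of `main1` (`T0`, `T1` smooth generators).  `finite_sing` gives `Z` (as a `Finset`),
`0 ∉ Z`.  For `z ∈ Z` choose `m z`, `G z` from `local_at`.  `sum_mult`: `∑ m z = 32`, `m z ∈ {4,5,6}`.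
`tangent`, `orbit_all`: all smooth `T0 + t T1` lie in the orbit of `T0`; `limit_mem_orbit`: all
`G z` lie in the orbit of `T0`.  If some `m z = 4`: `G z = G4 κ = act fermat x`, so
`T0 = act fermat y`.  Otherwise all `m z ∈ {5, 6}`; `32` is neither a multiple of `5` nor of `6`, so
both values occur, and `G5 γ κ`, `G6 γ' κ'` are in one orbit, contradicting `pr1_act`, `pr1_G6`,
`not_pr1_G5`.  It also gives a `D4` member: some `z` with `m z = 4` exists.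
-/

set_option autoImplicit false

noncomputable section

namespace Pool.Agent.ISO

open Matrix Filter Topology

/-- Pencils of cubic surfaces with smooth base curve, without `A_n` members and without cones. -/
structure Pen (T0 T1 : T3) : Prop where
  s0 : IsSym T0
  s1 : IsSym T1
  base : ∀ v : Fin 4 → ℂ, v ≠ 0 → ev T0 v = 0 → ev T1 v = 0 →
    LinearIndependent ℂ ![grad T0 v, grad T1 v]
  noA : ∀ a b : ℂ, (a, b) ≠ (0, 0) → ∀ p : Fin 4 → ℂ, p ≠ 0 → grad (a • T0 + b • T1) p = 0 →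
    ∀ i j k l, pol (a • T0 + b • T1) p i k * pol (a • T0 + b • T1) p j l =
      pol (a • T0 + b • T1) p i l * pol (a • T0 + b • T1) p j k
  noC : ∀ a b : ℂ, (a, b) ≠ (0, 0) → ∀ p : Fin 4 → ℂ, p ≠ 0 → grad (a • T0 + b • T1) p = 0 →
    pol (a • T0 + b • T1) p ≠ 0

private theorem ev_lin (a b : ℂ) (T T' : T3) (v : Fin 4 → ℂ) :
    ev (a • T + b • T') v = a * ev T v + b * ev T' v := by
  unfold ev
  simp only [Pi.add_apply, Pi.smul_apply, smul_eq_mul, Finset.mul_sum, ← Finset.sum_add_distrib]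
  refine Finset.sum_congr rfl fun i _ => Finset.sum_congr rfl fun j _ =>
    Finset.sum_congr rfl fun k _ => ?_
  ring

private theorem grad_lin (a b : ℂ) (T T' : T3) (v : Fin 4 → ℂ) :
    grad (a • T + b • T') v = a • grad T v + b • grad T' v := by
  rw [grad_add, grad_smul, grad_smul]

private theorem lin_lin (a b a' b' α β : ℂ) (T0 T1 : T3) :
    α • (a • T0 + b • T1) + β • (a' • T0 + b' • T1) =
      (α * a + β * a') • T0 + (α * b + β * b') • T1 := by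
  simp only [smul_add, smul_smul, add_smul]
  abel

private theorem pair_ne {a b a' b' α β : ℂ} (hd : a * b' - a' * b ≠ 0) (h : (α, β) ≠ (0, 0)) :
    (α * a + β * a', α * b + β * b') ≠ ((0 : ℂ), (0 : ℂ)) := by
  intro h1
  rw [Prod.mk.injEq] at h1
  obtain ⟨e1, e2⟩ := h1
  apply h
  have f1 : α * (a * b' - a' * b) = 0 := by linear_combination b' * e1 - a' * e2
  have f2 : β * (a * b' - a' * b) = 0 := by linear_combination a * e2 - b * e1
  rw [Prod.mk.injEq]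
  exact ⟨(mul_eq_zero.1 f1).resolve_right hd, (mul_eq_zero.1 f2).resolve_right hd⟩

/-- Change of generators. -/
theorem Pen.change {T0 T1 : T3} (h : Pen T0 T1) (a b a' b' : ℂ) (hd : a * b' - a' * b ≠ 0) :
    Pen (a • T0 + b • T1) (a' • T0 + b' • T1) := by
  refine ⟨isSym_add (isSym_smul h.s0 a) (isSym_smul h.s1 b),
    isSym_add (isSym_smul h.s0 a') (isSym_smul h.s1 b'), ?_, ?_, ?_⟩
  · intro v hv e0 e1
    rw [ev_lin] at e0 e1
    have f0 : ev T0 v * (a * b' - a' * b) = 0 := by linear_combination b' * e0 - b * e1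
    have f1 : ev T1 v * (a * b' - a' * b) = 0 := by linear_combination a * e1 - a' * e0
    have hl := h.base v hv ((mul_eq_zero.1 f0).resolve_right hd)
      ((mul_eq_zero.1 f1).resolve_right hd)
    rw [LinearIndependent.pair_iff] at hl ⊢
    intro s t hst
    rw [grad_lin, grad_lin] at hst
    have hst' : (s * a + t * a') • grad T0 v + (s * b + t * b') • grad T1 v = 0 := by
      rw [← hst]
      simp only [smul_add, smul_smul, add_smul]
      abel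
    obtain ⟨e2, e3⟩ := hl _ _ hst'
    have g0 : s * (a * b' - a' * b) = 0 := by linear_combination b' * e2 - a' * e3
    have g1 : t * (a * b' - a' * b) = 0 := by linear_combination a * e3 - b * e2
    exact ⟨(mul_eq_zero.1 g0).resolve_right hd, (mul_eq_zero.1 g1).resolve_right hd⟩
  · intro α β hab
    rw [lin_lin]
    exact h.noA _ _ (pair_ne hd hab)
  · intro α β hab
    rw [lin_lin]
    exact h.noC _ _ (pair_ne hd hab)

theorem local_at {T0 T1 : T3} (h : Pen T0 T1) (z : ℂ) (hz : ¬ Sm (T0 + z • T1)) :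
    ∃ (m : ℕ) (G : T3), LocalLim (T0 + z • T1) T1 m G ∧
      ((m = 4 ∧ (∃ κ : ℂ, κ ≠ 0 ∧ G = G4 κ) ∧ IsD4 (T0 + z • T1) T1) ∨ (m = 5 ∧ ∃ γ κ : ℂ, γ ≠ 0 ∧ κ ≠ 0 ∧ G = G5 γ κ) ∨
        (m = 6 ∧ ∃ γ κ : ℂ, γ ≠ 0 ∧ κ ≠ 0 ∧ G = G6 γ κ)) := by
  have hP : Pen (T0 + z • T1) T1 := by
    have h1 := h.change 1 z 0 1 (by norm_num)
    rwa [one_smul, one_smul, zero_smul, zero_add] at h1
  have hex : ∃ p : Fin 4 → ℂ, p ≠ 0 ∧ ∀ k, grad (T0 + z • T1) p k = 0 := by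
    by_contra hcon
    push Not at hcon
    exact hz ⟨hP.s0, fun p hp => hcon p hp⟩
  obtain ⟨p, hp, hgr⟩ := hex
  have hne : ((1 : ℂ), (0 : ℂ)) ≠ (0, 0) := by
    intro h1
    rw [Prod.mk.injEq] at h1
    exact one_ne_zero h1.1
  have e : (1 : ℂ) • (T0 + z • T1) + (0 : ℂ) • T1 = T0 + z • T1 := by
    rw [one_smul, zero_smul, add_zero]
  have hC := hP.noC 1 0 hne p hp
  have hA := hP.noA 1 0 hne p hp
  rw [e] at hC hA
  have hg0 : grad (T0 + z • T1) p = 0 := funext hgr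
  exact local_lim (T0 + z • T1) T1 hP.s0 hP.s1 hP.base p hp hg0 (hC hg0) (hA hg0)

private theorem iso_erase (Z : Finset ℂ) (z : ℂ) :
    ∃ ε : ℝ, 0 < ε ∧ ∀ t : ℂ, t ≠ 0 → ‖t‖ < ε → z + t ∉ Z := by
  classical
  have h1 : IsClosed ((Z.erase z : Finset ℂ) : Set ℂ) := (Finset.finite_toSet _).isClosed
  have h2 : z ∈ ((Z.erase z : Finset ℂ) : Set ℂ)ᶜ := by
    intro h3
    exact (Finset.mem_erase.1 (Finset.mem_coe.1 h3)).1 rfl
  obtain ⟨ε, hε, hb⟩ := Metric.isOpen_iff.1 h1.isOpen_compl z h2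
  refine ⟨ε, hε, fun t ht htε hmem => ?_⟩
  have h3 : z + t ∈ Metric.ball z ε := by
    rw [Metric.mem_ball, dist_eq_norm, add_sub_cancel_left]
    exact htε
  refine hb h3 (Finset.mem_coe.2 (Finset.mem_erase.2 ⟨?_, hmem⟩))
  intro h4
  exact ht (add_eq_left.1 h4)

private theorem act_inv {G T : T3} {x : M4} (hx : x.det ≠ 0) (h : G = act T x) :
    x⁻¹.det ≠ 0 ∧ T = act G x⁻¹ := by
  have hu : IsUnit x.det := isUnit_iff_ne_zero.2 hx
  refine ⟨?_, ?_⟩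
  · rw [Matrix.det_nonsing_inv, Ring.inverse_eq_inv']
    exact inv_ne_zero hx
  · rw [h, act_act, Matrix.mul_nonsing_inv _ hu, act_one]

/-- The main theorem for two smooth generators. -/
theorem main1 {T0 T1 : T3} (h : Pen T0 T1) (h0 : Sm T0) (h1 : Sm T1) :
    (∃ x : M4, x.det ≠ 0 ∧ T0 = act fermat x) ∧ {t : ℂ | ¬ Sm (T0 + t • T1)}.Finite ∧
    (∃ z : ℂ, (∃ κ : ℂ, κ ≠ 0 ∧ LocalLim (T0 + z • T1) T1 4 (G4 κ)) ∧
      IsD4 (T0 + z • T1) T1) ∧
    (∀ t : ℂ, Sm (T0 + t • T1) → ∃ X : M4, T1 = lie (T0 + t • T1) X) := by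
  classical
  obtain ⟨c, hc⟩ := exists_c
  have hfin : {t : ℂ | ¬ Sm (T0 + t • T1)}.Finite := by
    refine finite_sing hc T0 T1 h.s0 h1 fun z hz => ?_
    obtain ⟨m, G, hG, -⟩ := local_at h z hz
    exact ⟨m, G, hG⟩
  obtain ⟨Z, hZd⟩ : ∃ Z : Finset ℂ, ∀ t, t ∈ Z ↔ ¬ Sm (T0 + t • T1) :=
    ⟨hfin.toFinset, fun t => by rw [Set.Finite.mem_toFinset]; rfl⟩
  have hZ : ∀ t : ℂ, t ∉ Z → Sm (T0 + t • T1) := by
    intro t ht
    by_contra hcon
    exact ht ((hZd t).2 hcon)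
  have h0Z : (0 : ℂ) ∉ Z := by
    intro h2
    rw [hZd, zero_smul, add_zero] at h2
    exact h2 h0
  have H : ∀ z : ℂ, ∃ (m : ℕ) (G : T3), z ∈ Z → LocalLim (T0 + z • T1) T1 m G ∧
      ((m = 4 ∧ (∃ κ : ℂ, κ ≠ 0 ∧ G = G4 κ) ∧ IsD4 (T0 + z • T1) T1) ∨
        (m = 5 ∧ ∃ γ κ : ℂ, γ ≠ 0 ∧ κ ≠ 0 ∧ G = G5 γ κ) ∨
        (m = 6 ∧ ∃ γ κ : ℂ, γ ≠ 0 ∧ κ ≠ 0 ∧ G = G6 γ κ)) := by
    intro z
    by_cases hz : z ∈ Z
    · obtain ⟨m, G, h2⟩ := local_at h z ((hZd z).1 hz)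
      exact ⟨m, G, fun _ => h2⟩
    · exact ⟨0, T0, fun h2 => absurd h2 hz⟩
  choose m G hmG using H
  have hsum : ∑ z ∈ Z, m z = 32 :=
    sum_mult hc T0 T1 h.s0 h1 Z hZ m fun z hz => ⟨G z, (hmG z hz).1⟩
  have htan : ∀ s : ℂ, s ∉ Z → ∃ X : M4, T1 = lie (T0 + s • T1) X := fun s hs =>
    tangent hc T0 T1 h.s0 h1 Z hZ (fun z hz => ⟨m z, G z, (hmG z hz).1⟩) s hs
  have horb : ∀ t : ℂ, t ∉ Z → ∃ x : M4, x.det ≠ 0 ∧ T0 + t • T1 = act T0 x := by
    intro t ht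
    obtain ⟨x, hx, hx2⟩ := orbit_all T0 T1 h.s0 h.s1 Z (fun t ht => ⟨hZ t ht, htan t ht⟩) 0 t h0Z ht
    rw [zero_smul, add_zero] at hx2
    exact ⟨x, hx, hx2⟩
  have hG : ∀ z ∈ Z, ∃ x : M4, x.det ≠ 0 ∧ G z = act T0 x := by
    intro z hz
    obtain ⟨ε, hε, hb⟩ := iso_erase Z z
    refine limit_mem_orbit (T0 + z • T1) T1 T0 h0 (m z) (G z) (hmG z hz).1 ε hε fun t ht htε => ?_
    obtain ⟨x, hx, hx2⟩ := horb (z + t) (hb t ht htε)
    refine ⟨x, hx, ?_⟩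
    rw [← hx2, add_smul, add_assoc]
  -- a member with multiplicity four
  have h4 : ∃ z ∈ Z, m z = 4 := by
    by_contra hcon
    push Not at hcon
    have h56 : ∀ z ∈ Z, (m z = 5 ∧ ∃ γ κ : ℂ, γ ≠ 0 ∧ κ ≠ 0 ∧ G z = G5 γ κ) ∨
        (m z = 6 ∧ ∃ γ κ : ℂ, γ ≠ 0 ∧ κ ≠ 0 ∧ G z = G6 γ κ) := fun z hz =>
      (hmG z hz).2.resolve_left fun h2 => hcon z hz h2.1
    have h5 : ∃ z ∈ Z, m z = 5 := by
      by_contra h2
      push Not at h2
      have h3 : ∀ z ∈ Z, m z = 6 := fun z hz =>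
        ((h56 z hz).resolve_left fun h4 => h2 z hz h4.1).1
      rw [Finset.sum_congr rfl h3, Finset.sum_const, smul_eq_mul] at hsum
      omega
    have h6 : ∃ z ∈ Z, m z = 6 := by
      by_contra h2
      push Not at h2
      have h3 : ∀ z ∈ Z, m z = 5 := fun z hz =>
        ((h56 z hz).resolve_right fun h4 => h2 z hz h4.1).1
      rw [Finset.sum_congr rfl h3, Finset.sum_const, smul_eq_mul] at hsum
      omega
    obtain ⟨z5, hz5, e5⟩ := h5
    obtain ⟨z6, hz6, e6⟩ := h6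
    obtain ⟨-, γ, κ, hγ, hκ, hG5⟩ := (h56 z5 hz5).resolve_right fun h2 => by
      have := h2.1
      omega
    obtain ⟨-, γ', κ', hγ', hκ', hG6⟩ := (h56 z6 hz6).resolve_left fun h2 => by
      have := h2.1
      omega
    obtain ⟨x, hx, hx2⟩ := hG z5 hz5
    obtain ⟨y, hy, hy2⟩ := hG z6 hz6
    rw [hG5] at hx2
    rw [hG6] at hy2
    obtain ⟨hy3, hy4⟩ := act_inv hy hy2
    have h7 : G5 γ κ = act (G6 γ' κ') (y⁻¹ * x) := by
      rw [← act_act, ← hy4, hx2]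
    have h8 : (y⁻¹ * x).det ≠ 0 := by
      rw [Matrix.det_mul]
      exact mul_ne_zero hy3 hx
    have h9 := pr1_act (G6 γ' κ') (y⁻¹ * x) h8 (pr1_G6 γ' κ')
    rw [← h7] at h9
    exact not_pr1_G5 γ κ hγ hκ h9
  obtain ⟨z, hz, hz4⟩ := h4
  have hD : (∃ κ : ℂ, κ ≠ 0 ∧ G z = G4 κ) ∧ IsD4 (T0 + z • T1) T1 := by
    rcases (hmG z hz).2 with h2 | h2 | h2
    · exact h2.2
    · have := h2.1
      omega
    · have := h2.1
      omega
  obtain ⟨⟨κ, hκ, hGκ⟩, hD4⟩ := hD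
  refine ⟨?_, hfin, ⟨z, ⟨κ, hκ, ?_⟩, hD4⟩, fun t ht => htan t fun h2 => (hZd t).1 h2 ht⟩
  · obtain ⟨x, hx, hx2⟩ := hG z hz
    obtain ⟨g, hg, hg2⟩ := fermat_G4 κ hκ
    obtain ⟨hx3, hx4⟩ := act_inv hx hx2
    refine ⟨g * x⁻¹, ?_, ?_⟩
    · rw [Matrix.det_mul]
      exact mul_ne_zero hg hx3
    · rw [hx4, hGκ, hg2, act_act]
  · have h2 := (hmG z hz).1
    rwa [hz4, hGκ] at h2

private theorem near_smooth {T0 T1 : T3} (h : Pen T0 T1) (h0 : ¬ Sm T0) :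
    ∃ t : ℂ, Sm (T0 + t • T1) := by
  obtain ⟨c, hc⟩ := exists_c
  obtain ⟨m, G, hG, -⟩ := local_at h 0 (by rwa [zero_smul, add_zero])
  rw [zero_smul, add_zero] at hG
  obtain ⟨ε, A, A', B, hε, -, hb⟩ := near_sing hc T0 T1 h.s0 h.s1 m G hG
  refine ⟨((ε / 2 : ℝ) : ℂ), (hb _ ?_ ?_).1⟩
  · exact_mod_cast (half_pos hε).ne'
  · rw [Complex.norm_real, Real.norm_of_nonneg (half_pos hε).le]
    exact half_lt_self hε

private theorem smooth_compl {T0 T1 : T3} (h : Pen T0 T1) (a b : ℂ)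
    (hs : Sm (a • T0 + b • T1)) :
    ∃ a' b' : ℂ, a * b' - a' * b ≠ 0 ∧ Sm (a' • T0 + b' • T1) := by
  have hab : ¬ (a = 0 ∧ b = 0) := by
    rintro ⟨rfl, rfl⟩
    apply sm_ne_zero hs
    rw [zero_smul, zero_smul, add_zero]
  obtain ⟨a1, b1, hd⟩ : ∃ a1 b1 : ℂ, a * b1 - a1 * b ≠ 0 := by
    by_cases ha : a = 0
    · have hb : b ≠ 0 := fun hb => hab ⟨ha, hb⟩
      exact ⟨1, 0, by rw [mul_zero, zero_sub, one_mul]; exact neg_ne_zero.2 hb⟩
    · exact ⟨0, 1, by rwa [mul_one, zero_mul, sub_zero]⟩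
  by_cases hF : Sm (a1 • T0 + b1 • T1)
  · exact ⟨a1, b1, hd, hF⟩
  · have hd' : a1 * b - a * b1 ≠ 0 := by
      intro h2
      apply hd
      linear_combination -h2
    obtain ⟨t, ht⟩ := near_smooth (h.change a1 b1 a b hd') hF
    refine ⟨a1 + t * a, b1 + t * b, ?_, ?_⟩
    · intro h2
      apply hd
      linear_combination h2
    · have e : (a1 + t * a) • T0 + (b1 + t * b) • T1 =
          a1 • T0 + b1 • T1 + t • (a • T0 + b • T1) := by
        simp only [smul_add, smul_smul, add_smul]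
        abel
      rwa [e]

theorem exists_smooth_pair {T0 T1 : T3} (h : Pen T0 T1) :
    (∃ a b a' b' : ℂ, a * b' - a' * b ≠ 0 ∧ Sm (a • T0 + b • T1) ∧ Sm (a' • T0 + b' • T1)) ∧
    ∀ a b : ℂ, Sm (a • T0 + b • T1) →
      ∃ a' b' : ℂ, a * b' - a' * b ≠ 0 ∧ Sm (a' • T0 + b' • T1) := by
  refine ⟨?_, fun a b hs => smooth_compl h a b hs⟩
  obtain ⟨a, b, hs⟩ : ∃ a b : ℂ, Sm (a • T0 + b • T1) := by
    by_cases h0 : Sm T0
    · exact ⟨1, 0, by rwa [one_smul, zero_smul, add_zero]⟩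
    · obtain ⟨t, ht⟩ := near_smooth h h0
      exact ⟨1, t, by rwa [one_smul]⟩
  obtain ⟨a', b', hd, hs'⟩ := smooth_compl h a b hs
  exact ⟨a, b, a', b', hd, hs, hs'⟩

/-- All smooth members are projectively equivalent to the Fermat cubic. -/
theorem main2 {T0 T1 : T3} (h : Pen T0 T1) (a b : ℂ) (hs : Sm (a • T0 + b • T1)) :
    ∃ x : M4, x.det ≠ 0 ∧ a • T0 + b • T1 = act fermat x := by
  obtain ⟨a', b', hd, hs'⟩ := (exists_smooth_pair h).2 a b hs
  exact (main1 (h.change a b a' b' hd) hs hs').1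

end Pool.Agent.ISO
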