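import Pool.Agent.ISO.GForms

/-!
# ISO / Lim: weighted limits of pencils

PROOF.  By `act_diagonal` the entry `(i, j, k)` is
`σ^(n i) σ^(n j) σ^(n k) (T0 i j k + σ^e T1 i j k)`; for `σ ≠ 0` this is
`σ^(n i + n j + n k) T0 i j k + σ^(e + n i + n j + n k) T1 i j k`; an integer power `σ^a` tends to `0`
as `σ → 0` if `a > 0` and is `1` if `a = 0` (for `σ ≠ 0`).
-/

set_option autoImplicit false

noncomputable section

namespace Pool.Agent.ISO

open Matrix Filter Topology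

private theorem zpow_lim (a : ℤ) (c : ℂ) (h : a < 0 → c = 0) :
    Tendsto (fun σ : ℂ => σ ^ a * c) (𝓝[≠] 0) (𝓝 (if a = 0 then c else 0)) := by
  rcases lt_trichotomy a 0 with h1 | h1 | h1
  · rw [h h1, if_neg h1.ne]
    simp only [mul_zero]
    exact tendsto_const_nhds
  · subst h1
    simp only [zpow_zero, one_mul, if_true]
    exact tendsto_const_nhds
  · rw [if_neg h1.ne']
    obtain ⟨m, rfl⟩ := Int.eq_ofNat_of_zero_le h1.le
    have hm : m ≠ 0 := by
      rintro rfl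
      exact absurd h1 (lt_irrefl _)
    simp only [zpow_natCast]
    have h2 : Tendsto (fun σ : ℂ => σ ^ m * c) (𝓝 0) (𝓝 ((0 : ℂ) ^ m * c)) :=
      (Continuous.tendsto (by fun_prop) 0)
    rw [zero_pow hm, zero_mul] at h2
    exact h2.mono_left nhdsWithin_le_nhds

theorem weighted_lim (T0 T1 : T3) (n : Fin 4 → ℤ) (e : ℕ)
    (h0 : ∀ i j k, n i + n j + n k < 0 → T0 i j k = 0)
    (h1 : ∀ i j k, (e : ℤ) + n i + n j + n k < 0 → T1 i j k = 0) :
    Tendsto (fun σ : ℂ => act (T0 + σ ^ e • T1) (Matrix.diagonal fun i => σ ^ (n i))) (𝓝[≠] 0)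
      (𝓝 (fun i j k => (if n i + n j + n k = 0 then T0 i j k else 0) +
        (if (e : ℤ) + n i + n j + n k = 0 then T1 i j k else 0))) := by
  rw [tendsto_pi_nhds]
  intro i
  rw [tendsto_pi_nhds]
  intro j
  rw [tendsto_pi_nhds]
  intro k
  have h2 := (zpow_lim (n i + n j + n k) (T0 i j k) (h0 i j k)).add
    (zpow_lim ((e : ℤ) + n i + n j + n k) (T1 i j k) (h1 i j k))
  refine h2.congr' ?_
  filter_upwards [self_mem_nhdsWithin] with σ hσ
  have hσ0 : σ ≠ 0 := hσ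
  rw [act_diagonal]
  simp only [Pi.add_apply, Pi.smul_apply, smul_eq_mul]
  rw [zpow_add₀ hσ0, zpow_add₀ hσ0, zpow_add₀ hσ0, zpow_add₀ hσ0, zpow_add₀ hσ0, zpow_natCast]
  ring

end Pool.Agent.ISO
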