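import Pool.Agent.ISO.NF3
import Pool.Agent.ISO.Lim

/-!
# ISO / LocLim: local limits of the pencil at a singular member

PROOF.  `nf3` gives `g`; put `F = act T g`, `F1 = act T1 g`, `κ = F1 3 3 3 ≠ 0`.
* `B = mon3 1 1 1 + mon3 2 2 2` (`D4`): `n = (1, 0, 0, -2)`, `e = 6`, `m = 4`, limit `G4 κ`.
* `B = mon3 1 1 2` (`D5`): `n = (4, 1, -2, -8)`, `e = 24`, `m = 5`, limit `G5 c κ`.
* `B = mon3 1 1 1` (`E6`): `n = (2, 0, -1, -4)`, `e = 12`, `m = 6`, limit `G6 c κ`.
In each case `24 ∑ n = - m e`; `weighted_lim` applies to `F, F1`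
(`act (T + σ^e • T1) (g * D) = act (F + σ^e • F1) D`): all weights `n i + n j + n k < 0` have
`F i j k = 0`, and `e + n i + n j + n k ≥ 0` always, with equality only for `(3, 3, 3)`.
-/

set_option autoImplicit false

noncomputable section

namespace Pool.Agent.ISO

open Matrix Filter Topology

/-- The pencil `T + t T1` has after the base change `t = σ^e` and the substitution
`g * diagonal (σ^n)` the smooth limit `G`; `m` is the multiplicity of the discriminant. -/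
def LocalLim (T T1 : T3) (m : ℕ) (G : T3) : Prop :=
  ∃ (g : M4) (n : Fin 4 → ℤ) (e : ℕ), g.det ≠ 0 ∧ 0 < e ∧ 24 * (∑ i, n i) = -((m : ℤ) * e) ∧
    Sm G ∧ Tendsto (fun σ : ℂ => act (T + σ ^ e • T1) (g * Matrix.diagonal fun i => σ ^ (n i)))
      (𝓝[≠] 0) (𝓝 G)

/-- `T` has a `D4` point not on the base curve, in normal form. -/
def IsD4 (T T1 : T3) : Prop :=
  ∃ g : M4, g.det ≠ 0 ∧ act T1 g 3 3 3 ≠ 0 ∧ ∃ a b c : ℂ,
    act T g = mon3 0 0 3 + a • mon3 0 1 1 + b • mon3 0 1 2 + c • mon3 0 2 2 +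
      (mon3 1 1 1 + mon3 2 2 2)

theorem localLim_of (T T1 : T3) (g : M4) (hg : g.det ≠ 0) (n : Fin 4 → ℤ) (e m : ℕ) (he : 0 < e)
    (hn : 24 * (∑ i, n i) = -((m : ℤ) * e)) (G : T3) (hG : Sm G)
    (h0 : ∀ i j k, n i + n j + n k < 0 → act T g i j k = 0)
    (h1 : ∀ i j k, (e : ℤ) + n i + n j + n k < 0 → act T1 g i j k = 0)
    (hlim : ∀ i j k, (if n i + n j + n k = 0 then act T g i j k else 0) +
      (if (e : ℤ) + n i + n j + n k = 0 then act T1 g i j k else 0) = G i j k) :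
    LocalLim T T1 m G := by
  refine ⟨g, n, e, hg, he, hn, hG, ?_⟩
  have hw := weighted_lim (act T g) (act T1 g) n e h0 h1
  have hGe : (fun i j k => (if n i + n j + n k = 0 then act T g i j k else 0) +
      (if (e : ℤ) + n i + n j + n k = 0 then act T1 g i j k else 0)) = G := by
    funext i j k
    exact hlim i j k
  rw [hGe] at hw
  refine hw.congr fun σ => ?_
  rw [← act_act, act_add T, act_smul]

theorem local_lim (T T1 : T3) (hT : IsSym T) (hT1 : IsSym T1)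
    (hbase : ∀ v : Fin 4 → ℂ, v ≠ 0 → ev T v = 0 → ev T1 v = 0 →
      LinearIndependent ℂ ![grad T v, grad T1 v])
    (p : Fin 4 → ℂ) (hp : p ≠ 0) (h1 : grad T p = 0) (h2 : pol T p ≠ 0)
    (h3 : ∀ i j k l, pol T p i k * pol T p j l = pol T p i l * pol T p j k) :
    ∃ (m : ℕ) (G : T3), LocalLim T T1 m G ∧
      ((m = 4 ∧ (∃ κ : ℂ, κ ≠ 0 ∧ G = G4 κ) ∧ IsD4 T T1) ∨
        (m = 5 ∧ ∃ γ κ : ℂ, γ ≠ 0 ∧ κ ≠ 0 ∧ G = G5 γ κ) ∨
        (m = 6 ∧ ∃ γ κ : ℂ, γ ≠ 0 ∧ κ ≠ 0 ∧ G = G6 γ κ)) := by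
  obtain ⟨g, hg, hκ, a, b, c, B, hB, hF⟩ := nf3 T T1 hT hT1 hbase p hp h1 h2 h3
  rcases hB with ⟨hc, hB⟩ | ⟨hc, hB⟩ | hB
  · refine ⟨6, G6 c (act T1 g 3 3 3), ?_, Or.inr (Or.inr ⟨rfl, c, _, hc, hκ, rfl⟩)⟩
    refine localLim_of T T1 g hg ![2, 0, -1, -4] 12 6 (by norm_num)
      (by simp [Fin.sum_univ_four]) _ (sm_G6 _ _ hc hκ) ?_ ?_ ?_
    · intro i j k hijk
      rw [hF, hB]
      revert hijk
      fin_cases i <;> fin_cases j <;> fin_cases k <;> simp [mon3]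
    · intro i j k hijk
      exfalso
      revert hijk
      fin_cases i <;> fin_cases j <;> fin_cases k <;> simp
    · intro i j k
      rw [hF, hB]
      fin_cases i <;> fin_cases j <;> fin_cases k <;> simp [mon3, G6] <;> ring
  · refine ⟨5, G5 c (act T1 g 3 3 3), ?_, Or.inr (Or.inl ⟨rfl, c, _, hc, hκ, rfl⟩)⟩
    refine localLim_of T T1 g hg ![4, 1, -2, -8] 24 5 (by norm_num)
      (by simp [Fin.sum_univ_four]) _ (sm_G5 _ _ hc hκ) ?_ ?_ ?_
    · intro i j k hijk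
      rw [hF, hB]
      revert hijk
      fin_cases i <;> fin_cases j <;> fin_cases k <;> simp [mon3]
    · intro i j k hijk
      exfalso
      revert hijk
      fin_cases i <;> fin_cases j <;> fin_cases k <;> simp
    · intro i j k
      rw [hF, hB]
      fin_cases i <;> fin_cases j <;> fin_cases k <;> simp [mon3, G5] <;> ring
  · refine ⟨4, G4 (act T1 g 3 3 3), ?_, Or.inl ⟨rfl, ⟨_, hκ, rfl⟩, g, hg, hκ, a, b, c, ?_⟩⟩
    · refine localLim_of T T1 g hg ![1, 0, 0, -2] 6 4 (by norm_num)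
        (by simp [Fin.sum_univ_four]) _ (sm_G4 _ hκ) ?_ ?_ ?_
      · intro i j k hijk
        rw [hF, hB]
        revert hijk
        fin_cases i <;> fin_cases j <;> fin_cases k <;> simp [mon3]
      · intro i j k hijk
        exfalso
        revert hijk
        fin_cases i <;> fin_cases j <;> fin_cases k <;> simp
      · intro i j k
        rw [hF, hB]
        fin_cases i <;> fin_cases j <;> fin_cases k <;> simp [mon3, G4] <;> ring
    · rw [hF, hB]

end Pool.Agent.ISO
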