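import Pool.Agent.ISO.Act

/-!
# ISO / Stab: smooth cubic forms are properly stable (Hilbert-Mumford data)

PROOF of `stab`.  Suppose `T i j k = 0` whenever `0 < r i + r j + r k`.  Let `a, b, c, d` be the four
indices with `r a ≥ r b ≥ r c ≥ r d` (sort); `r a > 0` because `∑ r = 0`, `r ≠ 0`.  Smoothness at
`e_a` gives `k` with `T a a k ≠ 0` (`grad T e_a k = T a a k`), so `2 r a + r k ≤ 0` and
`r d ≤ r k ≤ - 2 r a`; hence `r b + r c = - r a - r d ≥ r a > 0`, and so `r b ≥ r a / 2 > 0`,
`r c ≥ r a - r b ≥ 0`.  All sums `r i + r j + r k` with `i, j ∈ {a, b}` and `k ∈ {a, b, c}` are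
`≥ 2 r b + r c > 0` (or `≥ 3 r b > 0`), so these `T i j k` vanish.  For `p = x e_a + y e_b` only the
component `k = d` of `grad T p` can be nonzero, and it is the binary quadratic form
`T a a d x² + 2 T a b d x y + T b b d y²`, which has a zero `(x, y) ≠ 0` over `ℂ`
(`IsAlgClosed`, or explicitly).  This `p ≠ 0` contradicts smoothness.

PROOF of `stab_pm`: apply `stab` to `r - m` and to `m - r` with `m` the mean value.
-/

set_option autoImplicit false

noncomputable section

namespace Pool.Agent.ISO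

open Matrix

private theorem stab_single {T : T3} (a : Fin 4) (k : Fin 4) :
    grad T (Pi.single a 1) k = T a a k := by
  simp [grad, Pi.single_apply]

private theorem stab_two {T : T3} {a b : Fin 4} (x y : ℂ) (k : Fin 4) :
    grad T (Pi.single a x + Pi.single b y) k =
      T a a k * x * x + T a b k * x * y + T b a k * y * x + T b b k * y * y := by
  simp only [grad, Pi.add_apply, Pi.single_apply, mul_add, add_mul, Finset.sum_add_distrib,
    mul_ite, ite_mul, mul_zero, zero_mul, Finset.sum_ite_eq', Finset.mem_univ, if_true]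
  ring

private theorem stab_quad (A B C : ℂ) : ∃ x y : ℂ, (x ≠ 0 ∨ y ≠ 0) ∧
    A * x * x + B * x * y + B * y * x + C * y * y = 0 := by
  by_cases hA : A = 0
  · exact ⟨1, 0, Or.inl one_ne_zero, by rw [hA]; ring⟩
  · obtain ⟨w, hw⟩ := IsAlgClosed.exists_pow_nat_eq (B ^ 2 - A * C) (n := 2) two_pos
    refine ⟨-B + w, A, Or.inr hA, ?_⟩
    linear_combination A * hw

/-- A smooth cubic form has a monomial of positive weight for every nontrivial weight of sum `0`. -/
theorem stab {T : T3} (h : Sm T) (r : Fin 4 → ℝ) (hr : ∑ i, r i = 0) (hr0 : r ≠ 0) :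
    ∃ i j k, T i j k ≠ 0 ∧ 0 < r i + r j + r k := by
  classical
  by_contra hcon
  push Not at hcon
  have hneg : ∀ i j k, 0 < r i + r j + r k → T i j k = 0 := by
    intro i j k hp
    by_contra hT
    exact absurd hp (not_lt.2 (hcon i j k hT))
  obtain ⟨σ, hσ⟩ : ∃ σ : Equiv.Perm (Fin 4), Monotone (r ∘ σ) := ⟨Tuple.sort r, Tuple.monotone_sort r⟩
  have h01 : r (σ 0) ≤ r (σ 1) := hσ (by decide)
  have h12 : r (σ 1) ≤ r (σ 2) := hσ (by decide)
  have h23 : r (σ 2) ≤ r (σ 3) := hσ (by decide)
  have hsum : r (σ 0) + r (σ 1) + r (σ 2) + r (σ 3) = 0 := by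
    rw [← hr, ← Equiv.sum_comp σ r, Fin.sum_univ_four]
  have hall : ∀ i, i = σ 0 ∨ i = σ 1 ∨ i = σ 2 ∨ i = σ 3 := by
    intro i
    have h1 : σ (σ.symm i) = i := σ.apply_symm_apply i
    generalize σ.symm i = j at h1
    fin_cases j
    · exact Or.inl h1.symm
    · exact Or.inr (Or.inl h1.symm)
    · exact Or.inr (Or.inr (Or.inl h1.symm))
    · exact Or.inr (Or.inr (Or.inr h1.symm))
  have h3 : 0 < r (σ 3) := by
    by_contra hh
    push Not at hh
    apply hr0
    funext i
    rcases hall i with rfl | rfl | rfl | rfl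
    · change r (σ 0) = 0
      linarith
    · change r (σ 1) = 0
      linarith
    · change r (σ 2) = 0
      linarith
    · change r (σ 3) = 0
      linarith
  obtain ⟨k, hk⟩ := h.2 (Pi.single (σ 3) 1) (by
    intro h0
    have := congrFun h0 (σ 3)
    rw [Pi.single_eq_same] at this
    exact one_ne_zero this)
  rw [stab_single] at hk
  have hk2 := hcon _ _ _ hk
  have hk3 : r (σ 0) ≤ r k := by
    rcases hall k with rfl | rfl | rfl | rfl <;> linarith
  have h1 : 0 ≤ r (σ 1) := by linarith
  have h2 : 0 < r (σ 2) := by linarith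
  have hab : σ 3 ≠ σ 2 := fun hh => absurd (σ.injective hh) (by decide)
  obtain ⟨x, y, hxy, hq⟩ := stab_quad (T (σ 3) (σ 3) (σ 0)) (T (σ 3) (σ 2) (σ 0))
    (T (σ 2) (σ 2) (σ 0))
  obtain ⟨m, hm⟩ := h.2 (Pi.single (σ 3) x + Pi.single (σ 2) y) (by
    intro h0
    have e1 := congrFun h0 (σ 3)
    have e2 := congrFun h0 (σ 2)
    rw [Pi.add_apply, Pi.single_eq_same, Pi.single_eq_of_ne hab, add_zero] at e1
    rw [Pi.add_apply, Pi.single_eq_same, Pi.single_eq_of_ne hab.symm, zero_add] at e2
    rcases hxy with hx | hy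
    · exact hx e1
    · exact hy e2)
  apply hm
  rw [stab_two]
  have hs : T (σ 2) (σ 3) m = T (σ 3) (σ 2) m := (h.1 _ _ _).1
  rw [hs]
  rcases hall m with rfl | rfl | rfl | rfl
  · exact hq
  · rw [hneg _ _ _ (by linarith), hneg _ _ _ (by linarith), hneg _ _ _ (by linarith)]
    ring
  · rw [hneg _ _ _ (by linarith), hneg _ _ _ (by linarith), hneg _ _ _ (by linarith)]
    ring
  · rw [hneg _ _ _ (by linarith), hneg _ _ _ (by linarith), hneg _ _ _ (by linarith)]
    ring

/-- A smooth cubic form is not invariant under a nontrivial real diagonal matrix. -/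
theorem stab_pm {T : T3} (h : Sm T) (r : Fin 4 → ℝ)
    (h0 : ∀ i j k, T i j k ≠ 0 → r i + r j + r k = 0) : r = 0 := by
  obtain ⟨m, hm⟩ : ∃ m : ℝ, m = (∑ i, r i) / 4 := ⟨_, rfl⟩
  have hs : ∑ i, (r i - m) = 0 := by
    rw [Fin.sum_univ_four] at hm ⊢
    linarith
  by_cases hz : (fun i => r i - m) = 0
  · have hri : ∀ i, r i = m := fun i => by
      have := congrFun hz i
      simp only [Pi.zero_apply] at this
      linarith
    obtain ⟨k, hk⟩ := h.2 (Pi.single 0 1) (by
      intro h0
      have := congrFun h0 0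
      rw [Pi.single_eq_same] at this
      exact one_ne_zero this)
    rw [stab_single] at hk
    have h1 := h0 _ _ _ hk
    rw [hri 0, hri k] at h1
    funext i
    rw [hri i]
    change m = 0
    linarith
  · obtain ⟨i, j, k, h1, h2⟩ := stab h (fun i => r i - m) hs hz
    obtain ⟨i', j', k', h3, h4⟩ := stab h (fun i => -(r i - m)) (by
      rw [Finset.sum_neg_distrib, hs, neg_zero]) (by
      intro hh
      apply hz
      funext i
      have := congrFun hh i
      simp only [Pi.zero_apply] at this ⊢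
      linarith)
    have h5 := h0 _ _ _ h1
    have h6 := h0 _ _ _ h3
    linarith

end Pool.Agent.ISO
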