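import Pool.Agent.ISO.Act

/-!
# ISO / Lie: the infinitesimal action

Finite sum manipulations.  For `act_one_add`: expand `(δ a i + s Z a i) (δ b j + s Z b j)
(δ c k + s Z c k)`; the quadratic part is `Q` (three double sums), the cubic part is `act T Z`.
-/

set_option autoImplicit false

noncomputable section

namespace Pool.Agent.ISO

open Matrix

private def S1 (T : T3) (Z : M4) : T3 := fun i j k => ∑ a, T a j k * Z a i

private def S2 (T : T3) (Z : M4) : T3 := fun i j k => ∑ a, T i a k * Z a j

private def S3 (T : T3) (Z : M4) : T3 := fun i j k => ∑ a, T i j a * Z a k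

private theorem lie_eq (T : T3) (Z : M4) : lie T Z = S1 T Z + S2 T Z + S3 T Z := by
  funext i j k
  simp only [lie, S1, S2, S3, Pi.add_apply, Finset.sum_add_distrib]

private theorem act_eq (T : T3) (g : M4) : act T g = S3 (S2 (S1 T g) g) g := by
  funext i j k
  simp only [act, S1, S2, S3, Finset.sum_mul]
  calc ∑ a, ∑ b, ∑ c, T a b c * g a i * g b j * g c k
      = ∑ a, ∑ c, ∑ b, T a b c * g a i * g b j * g c k :=
        Finset.sum_congr rfl fun a _ => Finset.sum_comm
    _ = ∑ c, ∑ a, ∑ b, T a b c * g a i * g b j * g c k := Finset.sum_comm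
    _ = ∑ c, ∑ b, ∑ a, T a b c * g a i * g b j * g c k :=
        Finset.sum_congr rfl fun c _ => Finset.sum_comm

private theorem S1_S1 (T : T3) (g h : M4) : S1 (S1 T g) h = S1 T (g * h) := by
  funext i j k
  simp only [S1, Matrix.mul_apply, Finset.sum_mul, Finset.mul_sum]
  rw [Finset.sum_comm]
  refine Finset.sum_congr rfl fun a _ => Finset.sum_congr rfl fun b _ => ?_
  ring

private theorem S2_S2 (T : T3) (g h : M4) : S2 (S2 T g) h = S2 T (g * h) := by
  funext i j k
  simp only [S2, Matrix.mul_apply, Finset.sum_mul, Finset.mul_sum]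
  rw [Finset.sum_comm]
  refine Finset.sum_congr rfl fun a _ => Finset.sum_congr rfl fun b _ => ?_
  ring

private theorem S3_S3 (T : T3) (g h : M4) : S3 (S3 T g) h = S3 T (g * h) := by
  funext i j k
  simp only [S3, Matrix.mul_apply, Finset.sum_mul, Finset.mul_sum]
  rw [Finset.sum_comm]
  refine Finset.sum_congr rfl fun a _ => Finset.sum_congr rfl fun b _ => ?_
  ring

private theorem S1_S2 (T : T3) (g h : M4) : S1 (S2 T g) h = S2 (S1 T h) g := by
  funext i j k
  simp only [S1, S2, Finset.sum_mul]
  rw [Finset.sum_comm]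
  refine Finset.sum_congr rfl fun a _ => Finset.sum_congr rfl fun b _ => ?_
  ring

private theorem S1_S3 (T : T3) (g h : M4) : S1 (S3 T g) h = S3 (S1 T h) g := by
  funext i j k
  simp only [S1, S3, Finset.sum_mul]
  rw [Finset.sum_comm]
  refine Finset.sum_congr rfl fun a _ => Finset.sum_congr rfl fun b _ => ?_
  ring

private theorem S2_S3 (T : T3) (g h : M4) : S2 (S3 T g) h = S3 (S2 T h) g := by
  funext i j k
  simp only [S2, S3, Finset.sum_mul]
  rw [Finset.sum_comm]
  refine Finset.sum_congr rfl fun a _ => Finset.sum_congr rfl fun b _ => ?_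
  ring

private theorem S1_add (T T' : T3) (Z : M4) : S1 (T + T') Z = S1 T Z + S1 T' Z := by
  funext i j k
  simp only [S1, Pi.add_apply, add_mul, Finset.sum_add_distrib]

private theorem S2_add (T T' : T3) (Z : M4) : S2 (T + T') Z = S2 T Z + S2 T' Z := by
  funext i j k
  simp only [S2, Pi.add_apply, add_mul, Finset.sum_add_distrib]

private theorem S3_add (T T' : T3) (Z : M4) : S3 (T + T') Z = S3 T Z + S3 T' Z := by
  funext i j k
  simp only [S3, Pi.add_apply, add_mul, Finset.sum_add_distrib]

private theorem S1_smul (s : ℂ) (T : T3) (Z : M4) : S1 (s • T) Z = s • S1 T Z := by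
  funext i j k
  simp only [S1, Pi.smul_apply, smul_eq_mul, Finset.mul_sum, mul_assoc]

private theorem S2_smul (s : ℂ) (T : T3) (Z : M4) : S2 (s • T) Z = s • S2 T Z := by
  funext i j k
  simp only [S2, Pi.smul_apply, smul_eq_mul, Finset.mul_sum, mul_assoc]

private theorem S3_smul (s : ℂ) (T : T3) (Z : M4) : S3 (s • T) Z = s • S3 T Z := by
  funext i j k
  simp only [S3, Pi.smul_apply, smul_eq_mul, Finset.mul_sum, mul_assoc]

private theorem S1_add' (T : T3) (Z Z' : M4) : S1 T (Z + Z') = S1 T Z + S1 T Z' := by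
  funext i j k
  simp only [S1, Pi.add_apply, Matrix.add_apply, mul_add, Finset.sum_add_distrib]

private theorem S2_add' (T : T3) (Z Z' : M4) : S2 T (Z + Z') = S2 T Z + S2 T Z' := by
  funext i j k
  simp only [S2, Pi.add_apply, Matrix.add_apply, mul_add, Finset.sum_add_distrib]

private theorem S3_add' (T : T3) (Z Z' : M4) : S3 T (Z + Z') = S3 T Z + S3 T Z' := by
  funext i j k
  simp only [S3, Pi.add_apply, Matrix.add_apply, mul_add, Finset.sum_add_distrib]

private theorem S1_smul' (s : ℂ) (T : T3) (Z : M4) : S1 T (s • Z) = s • S1 T Z := by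
  funext i j k
  simp only [S1, Pi.smul_apply, Matrix.smul_apply, smul_eq_mul, Finset.mul_sum]
  exact Finset.sum_congr rfl fun a _ => by ring

private theorem S2_smul' (s : ℂ) (T : T3) (Z : M4) : S2 T (s • Z) = s • S2 T Z := by
  funext i j k
  simp only [S2, Pi.smul_apply, Matrix.smul_apply, smul_eq_mul, Finset.mul_sum]
  exact Finset.sum_congr rfl fun a _ => by ring

private theorem S3_smul' (s : ℂ) (T : T3) (Z : M4) : S3 T (s • Z) = s • S3 T Z := by
  funext i j k
  simp only [S3, Pi.smul_apply, Matrix.smul_apply, smul_eq_mul, Finset.mul_sum]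
  exact Finset.sum_congr rfl fun a _ => by ring

private theorem S1_one (T : T3) : S1 T 1 = T := by
  funext i j k
  simp [S1, Matrix.one_apply]

private theorem S2_one (T : T3) : S2 T 1 = T := by
  funext i j k
  simp [S2, Matrix.one_apply]

private theorem S3_one (T : T3) : S3 T 1 = T := by
  funext i j k
  simp [S3, Matrix.one_apply]

theorem lie_add_left (T T' : T3) (Z : M4) : lie (T + T') Z = lie T Z + lie T' Z := by
  simp only [lie_eq, S1_add, S2_add, S3_add]
  abel

theorem lie_smul_left (s : ℂ) (T : T3) (Z : M4) : lie (s • T) Z = s • lie T Z := by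
  simp only [lie_eq, S1_smul, S2_smul, S3_smul, smul_add]

theorem lie_add_right (T : T3) (Z Z' : M4) : lie T (Z + Z') = lie T Z + lie T Z' := by
  simp only [lie_eq, S1_add', S2_add', S3_add']
  abel

theorem lie_smul_right (s : ℂ) (T : T3) (Z : M4) : lie T (s • Z) = s • lie T Z := by
  simp only [lie_eq, S1_smul', S2_smul', S3_smul', smul_add]

theorem lie_one (T : T3) : lie T 1 = (3 : ℂ) • T := by
  rw [lie_eq, S1_one, S2_one, S3_one]
  funext i j k
  simp only [Pi.add_apply, Pi.smul_apply, smul_eq_mul]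
  ring

theorem isSym_lie {T : T3} (h : IsSym T) (Z : M4) : IsSym (lie T Z) := by
  intro i j k
  constructor
  · unfold lie
    refine Finset.sum_congr rfl fun a _ => ?_
    rw [(h a j k).1, (h i a k).1, (h i j a).1]
    ring
  · unfold lie
    refine Finset.sum_congr rfl fun a _ => ?_
    rw [(h a j k).2, (h i a k).2, (h i j a).2]
    ring

/-- Equivariance: `lie (T · g) Z = (lie T Z') · g` if `g Z = Z' g`. -/
theorem lie_act (T : T3) (g Z Z' : M4) (h : g * Z = Z' * g) :
    lie (act T g) Z = act (lie T Z') g := by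
  have e1 : S1 (act T g) Z = act (S1 T Z') g := by
    rw [act_eq, act_eq, S1_S3, S1_S2, S1_S1, S1_S1, h]
  have e2 : S2 (act T g) Z = act (S2 T Z') g := by
    rw [act_eq, act_eq, S2_S3, S2_S2, h, S1_S2, S2_S2]
  have e3 : S3 (act T g) Z = act (S3 T Z') g := by
    rw [act_eq, act_eq, S3_S3, h, S1_S3, S2_S3, S3_S3]
  have e4 : ∀ T T' : T3, act (T + T') g = act T g + act T' g := fun T T' => by
    simp only [act_eq, S1_add, S2_add, S3_add]
  rw [lie_eq, e1, e2, e3, ← e4, ← e4, ← lie_eq]

/-- Infinitesimal action of a real diagonal matrix. -/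
theorem lie_diagonal (T : T3) (d : Fin 4 → ℂ) (i j k : Fin 4) :
    lie T (Matrix.diagonal d) i j k = (d i + d j + d k) * T i j k := by
  unfold lie
  simp only [Matrix.diagonal_apply, mul_ite, mul_zero, Finset.sum_add_distrib,
    Finset.sum_ite_eq', Finset.mem_univ, if_true]
  ring

/-- Expansion of the action of `1 + s Z`. -/
theorem act_one_add (T : T3) (Z : M4) :
    ∃ Q : T3, ∀ s : ℂ, act T (1 + s • Z) = T + s • lie T Z + s ^ 2 • Q + s ^ 3 • act T Z := by
  refine ⟨S2 (S1 T Z) Z + S3 (S1 T Z) Z + S3 (S2 T Z) Z, fun s => ?_⟩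
  simp only [act_eq, lie_eq, S1_add', S2_add', S3_add', S1_smul', S2_smul', S3_smul', S1_one,
    S2_one, S3_one, S2_add, S3_add, S2_smul, S3_smul]
  funext i j k
  simp only [Pi.add_apply, Pi.smul_apply, smul_eq_mul]
  ring

theorem continuous_lie : Continuous fun x : T3 × M4 => lie x.1 x.2 := by
  refine continuous_pi fun i => continuous_pi fun j => continuous_pi fun k => ?_
  have hT : ∀ a b c : Fin 4, Continuous fun x : T3 × M4 => x.1 a b c := fun a b c =>
    (continuous_apply c).comp ((continuous_apply b).comp ((continuous_apply a).comp continuous_fst))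
  have hZ : ∀ a b : Fin 4, Continuous fun x : T3 × M4 => x.2 a b := fun a b =>
    (continuous_apply b).comp ((continuous_apply a).comp continuous_snd)
  unfold lie
  exact continuous_finsetSum _ fun a _ =>
    ((((hT a j k).mul (hZ a i)).add ((hT i a k).mul (hZ a j))).add ((hT i j a).mul (hZ a k)))

end Pool.Agent.ISO
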