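import Pool.Agent.ISO.Mats1
import Pool.Agent.ISO.Lie

/-!
# ISO / LieInj: smooth forms have no infinitesimal symmetries

PROOF.  For symmetric `T` the cubic polynomial of `lie T Z` is
`3 ∑_a (∑_k Z a k X k) * qd T a` (check: `∑_{ijk} (lie T Z)_{ijk} X_i X_j X_k`).  So `lie T Z = 0`
gives `∑_a l_a * qd T a = 0` with the linear forms `l_a = ∑_k Z a k X k`, and `ci_lin` (the quadrics
have no common zero, `eval_qd`) gives `l_a = 0`, `Z = 0`.
-/

set_option autoImplicit false

noncomputable section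

namespace Pool.Agent.ISO

open MvPolynomial Matrix

private theorem s3 (T : T3) (Z : M4) (p : Fin 4 → ℂ) :
    ∑ i, ∑ j, ∑ k, (∑ a, T i j a * Z a k) * p i * p j * p k =
      ∑ a, (∑ k, Z a k * p k) * ∑ i, ∑ j, T i j a * p i * p j := by
  calc ∑ i, ∑ j, ∑ k, (∑ a, T i j a * Z a k) * p i * p j * p k
      = ∑ i, ∑ j, ∑ k, ∑ a, T i j a * Z a k * p i * p j * p k := by
        simp only [Finset.sum_mul]
    _ = ∑ i, ∑ j, ∑ a, ∑ k, T i j a * Z a k * p i * p j * p k := by
        refine Finset.sum_congr rfl fun i _ => Finset.sum_congr rfl fun j _ => Finset.sum_comm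
    _ = ∑ i, ∑ a, ∑ j, ∑ k, T i j a * Z a k * p i * p j * p k := by
        refine Finset.sum_congr rfl fun i _ => Finset.sum_comm
    _ = ∑ a, ∑ i, ∑ j, ∑ k, T i j a * Z a k * p i * p j * p k := Finset.sum_comm
    _ = _ := by
        refine Finset.sum_congr rfl fun a _ => ?_
        rw [Finset.mul_sum]
        refine Finset.sum_congr rfl fun i _ => ?_
        rw [Finset.mul_sum]
        refine Finset.sum_congr rfl fun j _ => ?_
        rw [Finset.sum_mul]
        refine Finset.sum_congr rfl fun k _ => ?_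
        ring

private theorem lie_form {T : T3} (h : IsSym T) (Z : M4) (p : Fin 4 → ℂ) :
    ∑ i, ∑ j, ∑ k, lie T Z i j k * p i * p j * p k =
      3 * ∑ a, (∑ k, Z a k * p k) * ∑ i, ∑ j, T i j a * p i * p j := by
  have hsym1 : ∀ a i j, T a i j = T i j a := fun a i j => by
    rw [(h a i j).1, (h i a j).2]
  have hsym2 : ∀ a i j, T i a j = T i j a := fun a i j => (h i a j).2
  have e1 : ∑ i, ∑ j, ∑ k, (∑ a, T a j k * Z a i) * p i * p j * p k =
      ∑ i, ∑ j, ∑ k, (∑ a, T i j a * Z a k) * p i * p j * p k := by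
    calc ∑ i, ∑ j, ∑ k, (∑ a, T a j k * Z a i) * p i * p j * p k
        = ∑ j, ∑ i, ∑ k, (∑ a, T a j k * Z a i) * p i * p j * p k := Finset.sum_comm
      _ = ∑ j, ∑ k, ∑ i, (∑ a, T a j k * Z a i) * p i * p j * p k :=
          Finset.sum_congr rfl fun j _ => Finset.sum_comm
      _ = _ := by
          refine Finset.sum_congr rfl fun i _ => Finset.sum_congr rfl fun j _ =>
            Finset.sum_congr rfl fun k _ => ?_
          have : ∑ a, T a i j * Z a k = ∑ a, T i j a * Z a k :=
            Finset.sum_congr rfl fun a _ => by rw [hsym1]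
          rw [this]
          ring
  have e2 : ∑ i, ∑ j, ∑ k, (∑ a, T i a k * Z a j) * p i * p j * p k =
      ∑ i, ∑ j, ∑ k, (∑ a, T i j a * Z a k) * p i * p j * p k := by
    refine Finset.sum_congr rfl fun i _ => ?_
    rw [Finset.sum_comm]
    refine Finset.sum_congr rfl fun j _ => Finset.sum_congr rfl fun k _ => ?_
    have : ∑ a, T i a j * Z a k = ∑ a, T i j a * Z a k :=
      Finset.sum_congr rfl fun a _ => by rw [hsym2]
    rw [this]
    ring
  have e3 : ∑ i, ∑ j, ∑ k, lie T Z i j k * p i * p j * p k =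
      ∑ i, ∑ j, ∑ k, (∑ a, T a j k * Z a i) * p i * p j * p k +
      ∑ i, ∑ j, ∑ k, (∑ a, T i a k * Z a j) * p i * p j * p k +
      ∑ i, ∑ j, ∑ k, (∑ a, T i j a * Z a k) * p i * p j * p k := by
    simp only [← Finset.sum_add_distrib]
    refine Finset.sum_congr rfl fun i _ => Finset.sum_congr rfl fun j _ =>
      Finset.sum_congr rfl fun k _ => ?_
    unfold lie
    rw [Finset.sum_add_distrib, Finset.sum_add_distrib]
    ring
  rw [e3, e1, e2, s3]
  ring

theorem lie_inj {T : T3} (h : Sm T) (Z : M4) (hZ : lie T Z = 0) : Z = 0 := by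
  have hz : ∀ p : Fin 4 → ℂ, (∀ i, eval p (qd T i) = 0) → p = 0 := by
    intro p hp
    by_contra hne
    obtain ⟨k, hk⟩ := h.2 p hne
    exact hk (by rw [← eval_qd]; exact hp k)
  have hsum : ∑ a, (∑ k, C (Z a k) * X k : S4) * qd T a = 0 := by
    apply MvPolynomial.funext
    intro p
    rw [map_sum, map_zero]
    have h1 := lie_form h.1 Z p
    rw [hZ] at h1
    simp only [Pi.zero_apply, zero_mul, Finset.sum_const_zero] at h1
    have h2 : ∑ a, (∑ k, Z a k * p k) * ∑ i, ∑ j, T i j a * p i * p j = 0 :=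
      (mul_eq_zero.1 h1.symm).resolve_left (by norm_num)
    rw [← h2]
    refine Finset.sum_congr rfl fun a _ => ?_
    rw [map_mul, eval_qd, map_sum]
    congr 1
    refine Finset.sum_congr rfl fun k _ => ?_
    rw [map_mul, eval_C, eval_X]
  have hhom : ∀ a, (∑ k, C (Z a k) * X k : S4).IsHomogeneous 1 := by
    intro a
    refine IsHomogeneous.sum _ _ _ fun k _ => ?_
    have := (isHomogeneous_C (Fin 4) (Z a k)).mul (isHomogeneous_X ℂ k)
    rwa [zero_add] at this
  ext a k
  have h3 := ci_lin (qd T) (qd_homog T) hz _ hhom hsum a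
  have h4 := congrArg (eval (Pi.single k 1)) h3
  rw [map_sum, map_zero, Finset.sum_eq_single k] at h4
  · rw [map_mul, eval_C, eval_X, Pi.single_eq_same, mul_one] at h4
    rw [h4]
    rfl
  · intro j _ hj
    rw [map_mul, eval_C, eval_X, Pi.single_eq_of_ne hj, mul_zero]
  · intro hn
    exact absurd (Finset.mem_univ k) hn

end Pool.Agent.ISO
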