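import Pool.Agent.ISO.Defs

/-!
# ISO / Act: basic properties of the action on tensors

All statements are finite sum manipulations (`Finset.sum_comm`, `Finset.mul_sum`, ...).  Hint: it
is convenient to write `act T g = s3 (s2 (s1 T g) g) g` with the three slot actions, e.g.
`s1 T g i j k = ∑ a, T a j k * g a i`.
-/

set_option autoImplicit false

noncomputable section

namespace Pool.Agent.ISO

open Matrix

/-! ### The three slot actions -/

/-- The action on the first slot. -/
def sl1 {α β γ α' : Type*} [Fintype α] (T : α → β → γ → ℂ) (A : α → α' → ℂ) : α' → β → γ → ℂ :=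
  fun i j k => ∑ a, T a j k * A a i

/-- The action on the second slot. -/
def sl2 {α β γ β' : Type*} [Fintype β] (T : α → β → γ → ℂ) (B : β → β' → ℂ) : α → β' → γ → ℂ :=
  fun i j k => ∑ b, T i b k * B b j

/-- The action on the third slot. -/
def sl3 {α β γ γ' : Type*} [Fintype γ] (T : α → β → γ → ℂ) (C : γ → γ' → ℂ) : α → β → γ' → ℂ :=
  fun i j k => ∑ c, T i j c * C c k

/-- The product of two matrices, as functions. -/
def mm {α β γ : Type*} [Fintype β] (A : α → β → ℂ) (B : β → γ → ℂ) : α → γ → ℂ :=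
  fun i k => ∑ j, A i j * B j k

/-- A vector as a one column matrix. -/
def col (p : Fin 4 → ℂ) : Fin 4 → Unit → ℂ := fun a _ => p a

theorem sl1_sl1 {α β γ α' α'' : Type*} [Fintype α] [Fintype α'] (T : α → β → γ → ℂ)
    (A : α → α' → ℂ) (A' : α' → α'' → ℂ) : sl1 (sl1 T A) A' = sl1 T (mm A A') := by
  funext i j k
  simp only [sl1, mm, Finset.sum_mul, Finset.mul_sum]
  rw [Finset.sum_comm]
  refine Finset.sum_congr rfl fun a _ => Finset.sum_congr rfl fun b _ => ?_
  ring

theorem sl2_sl2 {α β γ β' β'' : Type*} [Fintype β] [Fintype β'] (T : α → β → γ → ℂ)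
    (B : β → β' → ℂ) (B' : β' → β'' → ℂ) : sl2 (sl2 T B) B' = sl2 T (mm B B') := by
  funext i j k
  simp only [sl2, mm, Finset.sum_mul, Finset.mul_sum]
  rw [Finset.sum_comm]
  refine Finset.sum_congr rfl fun a _ => Finset.sum_congr rfl fun b _ => ?_
  ring

theorem sl3_sl3 {α β γ γ' γ'' : Type*} [Fintype γ] [Fintype γ'] (T : α → β → γ → ℂ)
    (C : γ → γ' → ℂ) (C' : γ' → γ'' → ℂ) : sl3 (sl3 T C) C' = sl3 T (mm C C') := by
  funext i j k
  simp only [sl3, mm, Finset.sum_mul, Finset.mul_sum]
  rw [Finset.sum_comm]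
  refine Finset.sum_congr rfl fun a _ => Finset.sum_congr rfl fun b _ => ?_
  ring

theorem sl1_sl2 {α β γ α' β' : Type*} [Fintype α] [Fintype β] (T : α → β → γ → ℂ)
    (A : α → α' → ℂ) (B : β → β' → ℂ) : sl1 (sl2 T B) A = sl2 (sl1 T A) B := by
  funext i j k
  simp only [sl1, sl2, Finset.sum_mul]
  rw [Finset.sum_comm]
  refine Finset.sum_congr rfl fun a _ => Finset.sum_congr rfl fun b _ => ?_
  ring

theorem sl1_sl3 {α β γ α' γ' : Type*} [Fintype α] [Fintype γ] (T : α → β → γ → ℂ)
    (A : α → α' → ℂ) (C : γ → γ' → ℂ) : sl1 (sl3 T C) A = sl3 (sl1 T A) C := by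
  funext i j k
  simp only [sl1, sl3, Finset.sum_mul]
  rw [Finset.sum_comm]
  refine Finset.sum_congr rfl fun a _ => Finset.sum_congr rfl fun b _ => ?_
  ring

theorem sl2_sl3 {α β γ β' γ' : Type*} [Fintype β] [Fintype γ] (T : α → β → γ → ℂ)
    (B : β → β' → ℂ) (C : γ → γ' → ℂ) : sl2 (sl3 T C) B = sl3 (sl2 T B) C := by
  funext i j k
  simp only [sl2, sl3, Finset.sum_mul]
  rw [Finset.sum_comm]
  refine Finset.sum_congr rfl fun a _ => Finset.sum_congr rfl fun b _ => ?_
  ring

/-- Triple sums in the two orders. -/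
theorem sum3_reorder {α β γ : Type*} [Fintype α] [Fintype β] [Fintype γ] (f : α → β → γ → ℂ) :
    ∑ a, ∑ b, ∑ c, f a b c = ∑ c, ∑ b, ∑ a, f a b c := by
  have h1 : ∀ a : α, ∑ b, ∑ c, f a b c = ∑ c, ∑ b, f a b c := fun a => Finset.sum_comm
  simp only [h1]
  rw [Finset.sum_comm]
  refine Finset.sum_congr rfl fun c _ => ?_
  rw [Finset.sum_comm]

theorem act_eq_slots (T : T3) (g : M4) : act T g = sl3 (sl2 (sl1 T g) g) g := by
  funext i j k
  simp only [act, sl1, sl2, sl3, Finset.sum_mul]
  exact sum3_reorder _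

theorem grad_eq_slots (T : T3) (p : Fin 4 → ℂ) (k : Fin 4) :
    grad T p k = sl2 (sl1 T (col p)) (col p) () () k := by
  simp only [grad, sl1, sl2, col, Finset.sum_mul]
  exact Finset.sum_comm

theorem ev_eq_slots (T : T3) (p : Fin 4 → ℂ) :
    ev T p = sl3 (sl2 (sl1 T (col p)) (col p)) (col p) () () () := by
  simp only [ev, sl1, sl2, sl3, col, Finset.sum_mul]
  exact sum3_reorder _

/-! ### Basic properties -/

theorem act_one (T : T3) : act T 1 = T := by
  funext i j k
  simp [act, Matrix.one_apply]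

theorem act_act (T : T3) (g h : M4) : act (act T g) h = act T (g * h) := by
  rw [act_eq_slots (act T g) h, act_eq_slots T g, act_eq_slots T (g * h), sl1_sl3, sl1_sl2, sl1_sl1,
    sl2_sl3, sl2_sl2, sl3_sl3]
  rfl

theorem act_add (T T' : T3) (g : M4) : act (T + T') g = act T g + act T' g := by
  funext i j k
  simp only [act, Pi.add_apply, add_mul, Finset.sum_add_distrib]

theorem act_smul (s : ℂ) (T : T3) (g : M4) : act (s • T) g = s • act T g := by
  funext i j k
  simp only [act, Pi.smul_apply, smul_eq_mul, Finset.mul_sum]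
  refine Finset.sum_congr rfl fun a _ => Finset.sum_congr rfl fun b _ =>
    Finset.sum_congr rfl fun c _ => ?_
  ring

theorem act_smul_mat (s : ℂ) (T : T3) (g : M4) : act T (s • g) = s ^ 3 • act T g := by
  funext i j k
  simp only [act, Pi.smul_apply, Matrix.smul_apply, smul_eq_mul, Finset.mul_sum]
  refine Finset.sum_congr rfl fun a _ => Finset.sum_congr rfl fun b _ =>
    Finset.sum_congr rfl fun c _ => ?_
  ring

theorem act_diagonal (T : T3) (d : Fin 4 → ℂ) (i j k : Fin 4) :
    act T (Matrix.diagonal d) i j k = T i j k * d i * d j * d k := by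
  simp [act, Matrix.diagonal_apply]

theorem isSym_act {T : T3} (h : IsSym T) (g : M4) : IsSym (act T g) := by
  intro i j k
  constructor
  · show (∑ a, ∑ b, ∑ c, T a b c * g a i * g b j * g c k) =
      ∑ a, ∑ b, ∑ c, T a b c * g a j * g b i * g c k
    rw [Finset.sum_comm]
    refine Finset.sum_congr rfl fun a _ => Finset.sum_congr rfl fun b _ =>
      Finset.sum_congr rfl fun c _ => ?_
    rw [(h b a c).1]
    ring
  · show (∑ a, ∑ b, ∑ c, T a b c * g a i * g b j * g c k) =
      ∑ a, ∑ b, ∑ c, T a b c * g a i * g b k * g c j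
    refine Finset.sum_congr rfl fun a _ => ?_
    rw [Finset.sum_comm]
    refine Finset.sum_congr rfl fun b _ =>
      Finset.sum_congr rfl fun c _ => ?_
    rw [(h a c b).2]
    ring

theorem isSym_add {T T' : T3} (h : IsSym T) (h' : IsSym T') : IsSym (T + T') := by
  intro i j k
  constructor
  · simp only [Pi.add_apply]
    rw [(h i j k).1, (h' i j k).1]
  · simp only [Pi.add_apply]
    rw [(h i j k).2, (h' i j k).2]

theorem isSym_smul {T : T3} (h : IsSym T) (s : ℂ) : IsSym (s • T) := by
  intro i j k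
  constructor
  · simp only [Pi.smul_apply]
    rw [(h i j k).1]
  · simp only [Pi.smul_apply]
    rw [(h i j k).2]

theorem grad_act (T : T3) (g : M4) (p : Fin 4 → ℂ) (k : Fin 4) :
    grad (act T g) p k = ∑ c, g c k * grad T (g.mulVec p) c := by
  rw [grad_eq_slots, act_eq_slots, sl1_sl3, sl1_sl2, sl1_sl1, sl2_sl3, sl2_sl2]
  simp only [grad_eq_slots]
  refine Finset.sum_congr rfl fun c _ => ?_
  rw [mul_comm]
  rfl

theorem ev_act (T : T3) (g : M4) (p : Fin 4 → ℂ) : ev (act T g) p = ev T (g.mulVec p) := by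
  rw [ev_eq_slots, act_eq_slots, sl1_sl3, sl1_sl2, sl1_sl1, sl2_sl3, sl2_sl2, sl3_sl3, ev_eq_slots]
  rfl

/-- Euler's formula. -/
theorem ev_eq_grad (T : T3) (p : Fin 4 → ℂ) : ev T p = ∑ k, grad T p k * p k := by
  rw [ev_eq_slots]
  simp only [grad_eq_slots]
  rfl

/-- `pol (act T g) p = gᵀ * pol T (g p) * g`. -/
theorem pol_act (T : T3) (g : M4) (p : Fin 4 → ℂ) :
    pol (act T g) p = g.transpose * pol T (g.mulVec p) * g := by
  ext j k
  have h1 : pol (act T g) p j k = sl1 (act T g) (col p) () j k := rfl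
  rw [h1, act_eq_slots, sl1_sl3, sl1_sl2, sl1_sl1, Matrix.mul_apply]
  show (∑ c, _) = _
  refine Finset.sum_congr rfl fun c _ => ?_
  rw [Matrix.mul_apply]
  congr 1
  show (∑ b, _) = _
  refine Finset.sum_congr rfl fun b _ => ?_
  rw [Matrix.transpose_apply, mul_comm]
  rfl

theorem grad_eq_pol {T : T3} (h : IsSym T) (p : Fin 4 → ℂ) :
    grad T p = (pol T p).mulVec p := by
  funext k
  rw [grad_eq_slots]
  show (∑ j, (∑ i, T i j k * p i) * p j) = ∑ j, (∑ i, T i k j * p i) * p j
  refine Finset.sum_congr rfl fun j _ => ?_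
  congr 1
  refine Finset.sum_congr rfl fun i _ => ?_
  rw [(h i j k).2]

theorem sm_act {T : T3} (h : Sm T) (g : M4) (hg : g.det ≠ 0) : Sm (act T g) := by
  refine ⟨isSym_act h.1 g, fun p hp => ?_⟩
  have hu : IsUnit g := (Matrix.isUnit_iff_isUnit_det g).2 (isUnit_iff_ne_zero.2 hg)
  have hgp : g.mulVec p ≠ 0 := by
    intro h0
    apply hp
    have hinj := Matrix.mulVec_injective_iff_isUnit.2 hu
    apply hinj
    rw [h0, Matrix.mulVec_zero]
  obtain ⟨c, hc⟩ := h.2 _ hgp
  by_contra hcon
  push Not at hcon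
  have hv : g.transpose.mulVec (grad T (g.mulVec p)) = 0 := by
    funext k
    have := hcon k
    rw [grad_act] at this
    exact this
  have hut : IsUnit g.transpose := by
    rw [Matrix.isUnit_iff_isUnit_det, Matrix.det_transpose]
    exact isUnit_iff_ne_zero.2 hg
  have hinj := Matrix.mulVec_injective_iff_isUnit.2 hut
  have h0 : grad T (g.mulVec p) = 0 := by
    apply hinj
    rw [hv, Matrix.mulVec_zero]
  exact hc (by rw [h0]; rfl)

theorem sm_act_iff {T : T3} (g : M4) (hg : g.det ≠ 0) : Sm (act T g) ↔ Sm T := by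
  refine ⟨fun h => ?_, fun h => sm_act h g hg⟩
  have hu : IsUnit g.det := isUnit_iff_ne_zero.2 hg
  have h1 : act (act T g) g⁻¹ = T := by
    rw [act_act, Matrix.mul_nonsing_inv g hu, act_one]
  rw [← h1]
  apply sm_act h
  have h2 : (g⁻¹).det * g.det = 1 := by
    rw [← Matrix.det_mul, Matrix.nonsing_inv_mul g hu, Matrix.det_one]
  exact left_ne_zero_of_mul_eq_one h2

theorem sm_smul {T : T3} (h : Sm T) (s : ℂ) (hs : s ≠ 0) : Sm (s • T) := by
  refine ⟨isSym_smul h.1 s, fun p hp => ?_⟩
  obtain ⟨k, hk⟩ := h.2 p hp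
  refine ⟨k, ?_⟩
  have h1 : grad (s • T) p k = s * grad T p k := by
    simp only [grad, Pi.smul_apply, smul_eq_mul, Finset.mul_sum]
    refine Finset.sum_congr rfl fun a _ => Finset.sum_congr rfl fun b _ => ?_
    ring
  rw [h1]
  exact mul_ne_zero hs hk

theorem sm_ne_zero {T : T3} (h : Sm T) : T ≠ 0 := by
  intro h0
  obtain ⟨k, hk⟩ := h.2 (fun _ => 1) (by
    intro h1
    have := congrFun h1 0
    simp at this)
  apply hk
  rw [h0]
  simp [grad]

theorem continuous_act : Continuous fun x : T3 × M4 => act x.1 x.2 := by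
  refine continuous_pi fun i => continuous_pi fun j => continuous_pi fun k => ?_
  simp only [act]
  refine continuous_finsetSum _ fun a _ => continuous_finsetSum _ fun b _ =>
    continuous_finsetSum _ fun c _ => ?_
  have hT : Continuous fun x : T3 × M4 => x.1 a b c :=
    (continuous_apply c).comp ((continuous_apply b).comp ((continuous_apply a).comp continuous_fst))
  have hg : ∀ u v : Fin 4, Continuous fun x : T3 × M4 => x.2 u v := fun u v =>
    (continuous_apply v).comp ((continuous_apply u).comp continuous_snd)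
  exact ((hT.mul (hg a i)).mul (hg b j)).mul (hg c k)

theorem continuous_nsq : Continuous nsq := by
  unfold nsq
  refine continuous_finsetSum _ fun a _ => continuous_finsetSum _ fun b _ =>
    continuous_finsetSum _ fun c _ => ?_
  have hT : Continuous fun T : T3 => T a b c :=
    (continuous_apply c).comp ((continuous_apply b).comp (continuous_apply a))
  exact hT.norm.pow 2

theorem nsq_nonneg (T : T3) : 0 ≤ nsq T := by
  unfold nsq
  exact Finset.sum_nonneg fun a _ => Finset.sum_nonneg fun b _ => Finset.sum_nonneg fun c _ =>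
    sq_nonneg _

theorem nsq_pos {T : T3} (h : T ≠ 0) : 0 < nsq T := by
  rcases (nsq_nonneg T).lt_or_eq with h1 | h1
  · exact h1
  · exfalso
    apply h
    funext a b c
    have h2 := h1.symm
    unfold nsq at h2
    rw [Finset.sum_eq_zero_iff_of_nonneg (fun a _ => Finset.sum_nonneg fun b _ =>
      Finset.sum_nonneg fun c _ => sq_nonneg _)] at h2
    have h3 := h2 a (Finset.mem_univ a)
    rw [Finset.sum_eq_zero_iff_of_nonneg (fun b _ =>
      Finset.sum_nonneg fun c _ => sq_nonneg _)] at h3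
    have h4 := h3 b (Finset.mem_univ b)
    rw [Finset.sum_eq_zero_iff_of_nonneg (fun c _ => sq_nonneg _)] at h4
    have h5 := h4 c (Finset.mem_univ c)
    simpa using h5

theorem nsq_smul (s : ℂ) (T : T3) : nsq (s • T) = ‖s‖ ^ 2 * nsq T := by
  simp only [nsq, Pi.smul_apply, smul_eq_mul, Finset.mul_sum, norm_mul, mul_pow]

end Pool.Agent.ISO
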