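import Pool.Agent.ISO.Defs

/-!
# ISO / Svd: singular value decomposition of invertible matrices

PROOF. `H = g * gᴴ` is Hermitian and positive definite (`g` invertible).  Spectral theorem
(`Matrix.IsHermitian.spectral_theorem`): `H = U * diagonal lam * Uᴴ` with `U` unitary and `lam > 0`.
Put `r i = Real.log (lam i) / 2`, `D = dexp r` (so `D * D = diagonal lam`, `D` invertible and
Hermitian) and `W = D⁻¹ * Uᴴ * g`.  Then `W * Wᴴ = D⁻¹ * Uᴴ * H * U * D⁻¹ = 1`, so `W` is unitary
and `g = U * D * W`.  Finally `‖det g‖ = ‖det U‖ * det D * ‖det W‖ = det D = exp (∑ r i)`.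
-/

set_option autoImplicit false

noncomputable section

namespace Pool.Agent.ISO

open Matrix

theorem norm_det_of_isU (U : M4) (hU : IsU U) : ‖U.det‖ = 1 := by
  have h1 : star U * U = 1 := (Matrix.mem_unitaryGroup_iff').1 hU
  have h2 : star U.det * U.det = 1 := by
    rw [← Matrix.det_conjTranspose, ← Matrix.det_mul]
    change (star U * U).det = 1
    rw [h1, Matrix.det_one]
  have h3 : ‖U.det‖ * ‖U.det‖ = 1 := by
    have h4 := congrArg norm h2
    rw [norm_mul, norm_star, norm_one] at h4
    exact h4
  nlinarith [norm_nonneg U.det]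

theorem det_dexp (r : Fin 4 → ℝ) : (dexp r).det = ((Real.exp (∑ i, r i) : ℝ) : ℂ) := by
  unfold dexp
  rw [Matrix.det_diagonal, Real.exp_sum, Complex.ofReal_prod]

private theorem dexp_mul (r s : Fin 4 → ℝ) : dexp r * dexp s = dexp (fun i => r i + s i) := by
  unfold dexp
  rw [Matrix.diagonal_mul_diagonal]
  congr 1
  funext i
  rw [← Complex.ofReal_mul, ← Real.exp_add]

private theorem dexp_zero : dexp (fun _ => 0) = 1 := by
  unfold dexp
  simp

private theorem star_dexp (r : Fin 4 → ℝ) : star (dexp r) = dexp r := by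
  unfold dexp
  rw [Matrix.star_eq_conjTranspose, Matrix.diagonal_conjTranspose]
  congr 1
  funext i
  simp only [Pi.star_apply, Complex.star_def, Complex.conj_ofReal]

/-- Singular value decomposition of an invertible complex `4 × 4` matrix. -/
theorem svd (g : M4) (hg : g.det ≠ 0) :
    ∃ (U W : M4) (r : Fin 4 → ℝ), IsU U ∧ IsU W ∧ g = U * dexp r * W ∧
      ∑ i, r i = Real.log ‖g.det‖ := by
  have hH : (g * gᴴ).IsHermitian := isHermitian_mul_conjTranspose_self g
  have hnn : ∀ i, 0 ≤ hH.eigenvalues i := eigenvalues_self_mul_conjTranspose_nonneg g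
  have hdet : (g * gᴴ).det ≠ 0 := by
    rw [Matrix.det_mul, Matrix.det_conjTranspose]
    exact mul_ne_zero hg (star_ne_zero.2 hg)
  have hpos : ∀ i, 0 < hH.eigenvalues i := by
    intro i
    refine lt_of_le_of_ne (hnn i) fun h0 => hdet ?_
    rw [hH.det_eq_prod_eigenvalues]
    refine Finset.prod_eq_zero (Finset.mem_univ i) ?_
    rw [← h0]
    simp
  set U : M4 := (hH.eigenvectorUnitary : M4) with hUdef
  have hU : IsU U := hH.eigenvectorUnitary.2
  have hU1 : star U * U = 1 := (Matrix.mem_unitaryGroup_iff').1 hU
  have hU2 : U * star U = 1 := (Matrix.mem_unitaryGroup_iff).1 hU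
  set r : Fin 4 → ℝ := fun i => Real.log (hH.eigenvalues i) / 2 with hr
  have hspec : g * star g = U * (dexp r * dexp r) * star U := by
    have h1 := hH.spectral_theorem
    rw [Unitary.conjStarAlgAut_apply] at h1
    have h2 : (diagonal (RCLike.ofReal ∘ hH.eigenvalues) : M4) = dexp r * dexp r := by
      rw [dexp_mul]
      unfold dexp
      congr 1
      funext i
      have h3 : r i + r i = Real.log (hH.eigenvalues i) := by
        rw [hr]
        ring
      change ((hH.eigenvalues i : ℝ) : ℂ) = ((Real.exp (r i + r i) : ℝ) : ℂ)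
      rw [h3, Real.exp_log (hpos i)]
    rw [h2] at h1
    exact h1
  have hm : dexp (fun i => -r i) * dexp r = 1 := by
    rw [dexp_mul, ← dexp_zero]
    congr 1
    funext i
    ring
  have hm' : dexp r * dexp (fun i => -r i) = 1 := by
    rw [dexp_mul, ← dexp_zero]
    congr 1
    funext i
    ring
  set W : M4 := dexp (fun i => -r i) * star U * g with hW
  have hWU : IsU W := by
    refine (Matrix.mem_unitaryGroup_iff).2 ?_
    rw [hW, star_mul, star_mul, star_star, star_dexp]
    calc dexp (fun i => -r i) * star U * g * (star g * (U * dexp fun i => -r i))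
        = dexp (fun i => -r i) * star U * (g * star g) * U * dexp (fun i => -r i) := by
          simp only [mul_assoc]
      _ = dexp (fun i => -r i) * (star U * U) * dexp r * dexp r * (star U * U) *
            dexp (fun i => -r i) := by
          rw [hspec]
          simp only [mul_assoc]
      _ = 1 := by
          rw [hU1, mul_one, mul_one, hm, one_mul, hm']
  have hg2 : g = U * dexp r * W := by
    rw [hW]
    calc g = (U * star U) * g := by rw [hU2, one_mul]
      _ = U * (dexp r * dexp (fun i => -r i)) * star U * g := by rw [hm', mul_one]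
      _ = U * dexp r * (dexp (fun i => -r i) * star U * g) := by simp only [mul_assoc]
  refine ⟨U, W, r, hU, hWU, hg2, ?_⟩
  have h5 : ‖g.det‖ = Real.exp (∑ i, r i) := by
    rw [hg2, Matrix.det_mul, Matrix.det_mul, det_dexp, norm_mul, norm_mul, norm_det_of_isU U hU,
      norm_det_of_isU W hWU, one_mul, mul_one, Complex.norm_real, Real.norm_of_nonneg]
    exact (Real.exp_pos _).le
  rw [h5, Real.log_exp]

end Pool.Agent.ISO
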