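import Pool.Agent.ISO.Act

/-!
# ISO / Uni: unitary invariance of the norm and of the Hermitian product

PROOF. Write `act T U = s3 (s2 (s1 T U) U) U` with the slot actions `s1 T U i j k = ∑ a, T a j k *
U a i`; each slot action preserves `ip` because `∑ i, conj (U a i) * U b i = if a = b then 1 else 0`
(`U * Uᴴ = 1`).  `nsq T = (ip T T).re`.
-/

set_option autoImplicit false

noncomputable section

namespace Pool.Agent.ISO

open Matrix

theorem nsq_eq_ip (T : T3) : ((nsq T : ℝ) : ℂ) = ip T T := by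
  unfold nsq ip
  push_cast
  refine Finset.sum_congr rfl fun i _ => Finset.sum_congr rfl fun j _ =>
    Finset.sum_congr rfl fun k _ => ?_
  rw [Complex.conj_mul']

private theorem unitary_rows {U : M4} (hU : IsU U) (a b : Fin 4) :
    ∑ i, (starRingEnd ℂ) (U a i) * U b i = if a = b then 1 else 0 := by
  have h := Matrix.mem_unitaryGroup_iff.1 hU
  have h1 := congrFun (congrFun h b) a
  rw [Matrix.mul_apply, Matrix.one_apply] at h1
  have e : ∀ i, (starRingEnd ℂ) (U a i) * U b i = U b i * (star U) i a := fun i => by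
    rw [Matrix.star_apply, mul_comm]
    rfl
  rw [Finset.sum_congr rfl fun i _ => e i, h1]
  by_cases hab : a = b
  · rw [if_pos hab, if_pos hab.symm]
  · rw [if_neg hab, if_neg (Ne.symm hab)]

private theorem slot {U : M4} (hU : IsU U) (x y : Fin 4 → ℂ) :
    ∑ i, (starRingEnd ℂ) (∑ a, x a * U a i) * ∑ b, y b * U b i =
      ∑ a, (starRingEnd ℂ) (x a) * y a := by
  have e : ∀ i, (starRingEnd ℂ) (∑ a, x a * U a i) * ∑ b, y b * U b i =
      ∑ a, ∑ b, ((starRingEnd ℂ) (x a) * y b) * ((starRingEnd ℂ) (U a i) * U b i) := by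
    intro i
    rw [map_sum, Finset.sum_mul_sum]
    refine Finset.sum_congr rfl fun a _ => Finset.sum_congr rfl fun b _ => ?_
    rw [map_mul]
    ring
  rw [Finset.sum_congr rfl fun i _ => e i, Finset.sum_comm]
  refine Finset.sum_congr rfl fun a _ => ?_
  rw [Finset.sum_comm]
  have e2 : ∀ b, ∑ i, ((starRingEnd ℂ) (x a) * y b) * ((starRingEnd ℂ) (U a i) * U b i) =
      if a = b then (starRingEnd ℂ) (x a) * y b else 0 := by
    intro b
    rw [← Finset.mul_sum, unitary_rows hU]
    by_cases hab : a = b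
    · rw [if_pos hab, if_pos hab, mul_one]
    · rw [if_neg hab, if_neg hab, mul_zero]
  rw [Finset.sum_congr rfl fun b _ => e2 b, Finset.sum_ite_eq]
  simp

private theorem act_nested (T : T3) (U : M4) (i j k : Fin 4) :
    act T U i j k = ∑ a, (∑ b, (∑ c, T a b c * U c k) * U b j) * U a i := by
  unfold act
  refine Finset.sum_congr rfl fun a _ => ?_
  rw [Finset.sum_mul]
  refine Finset.sum_congr rfl fun b _ => ?_
  rw [Finset.sum_mul, Finset.sum_mul]
  refine Finset.sum_congr rfl fun c _ => ?_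
  ring

theorem ip_act_unitary (T T' : T3) (U : M4) (hU : IsU U) : ip (act T U) (act T' U) = ip T T' := by
  unfold ip
  simp only [act_nested]
  -- the first slot
  rw [Finset.sum_comm]
  have h1 : ∀ j : Fin 4, ∑ i, ∑ k,
      (starRingEnd ℂ) (∑ a, (∑ b, (∑ c, T a b c * U c k) * U b j) * U a i) *
        ∑ a, (∑ b, (∑ c, T' a b c * U c k) * U b j) * U a i =
      ∑ k, ∑ a, (starRingEnd ℂ) (∑ b, (∑ c, T a b c * U c k) * U b j) *
        ∑ b, (∑ c, T' a b c * U c k) * U b j := by
    intro j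
    rw [Finset.sum_comm]
    refine Finset.sum_congr rfl fun k _ => ?_
    exact slot hU _ _
  rw [Finset.sum_congr rfl fun j _ => h1 j, Finset.sum_comm]
  -- the second slot
  have h2 : ∀ k : Fin 4, ∑ j, ∑ a, (starRingEnd ℂ) (∑ b, (∑ c, T a b c * U c k) * U b j) *
        ∑ b, (∑ c, T' a b c * U c k) * U b j =
      ∑ a, ∑ b, (starRingEnd ℂ) (∑ c, T a b c * U c k) * ∑ c, T' a b c * U c k := by
    intro k
    rw [Finset.sum_comm]
    refine Finset.sum_congr rfl fun a _ => ?_
    exact slot hU _ _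
  rw [Finset.sum_congr rfl fun k _ => h2 k, Finset.sum_comm]
  refine Finset.sum_congr rfl fun a _ => ?_
  rw [Finset.sum_comm]
  refine Finset.sum_congr rfl fun b _ => ?_
  exact slot hU _ _

theorem nsq_act_unitary (T : T3) (U : M4) (hU : IsU U) : nsq (act T U) = nsq T := by
  apply Complex.ofReal_injective
  rw [nsq_eq_ip, nsq_eq_ip, ip_act_unitary T T U hU]

theorem nsq_add (T T' : T3) : nsq (T + T') = nsq T + 2 * (ip T T').re + nsq T' := by
  unfold nsq ip
  simp only [Complex.re_sum, Finset.mul_sum, ← Finset.sum_add_distrib]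
  refine Finset.sum_congr rfl fun i _ => Finset.sum_congr rfl fun j _ =>
    Finset.sum_congr rfl fun k _ => ?_
  simp only [Pi.add_apply, Complex.sq_norm, Complex.normSq_apply, Complex.add_re, Complex.add_im,
    Complex.mul_re, Complex.conj_re, Complex.conj_im]
  ring

theorem ip_add_right (T T' T'' : T3) : ip T (T' + T'') = ip T T' + ip T T'' := by
  unfold ip
  simp only [← Finset.sum_add_distrib, Pi.add_apply, mul_add]

theorem ip_smul_right (s : ℂ) (T T' : T3) : ip T (s • T') = s * ip T T' := by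
  unfold ip
  simp only [Finset.mul_sum, Pi.smul_apply, smul_eq_mul]
  refine Finset.sum_congr rfl fun i _ => Finset.sum_congr rfl fun j _ =>
    Finset.sum_congr rfl fun k _ => ?_
  ring

/-- Cauchy-Schwarz. -/
theorem norm_ip_le (T T' : T3) : ‖ip T T'‖ ^ 2 ≤ nsq T * nsq T' := by
  have e1 : ∀ f : Fin 4 → Fin 4 → Fin 4 → ℝ, ∑ i, ∑ j, ∑ k, f i j k =
      ∑ x : Fin 4 × Fin 4 × Fin 4, f x.1 x.2.1 x.2.2 := by
    intro f
    rw [Fintype.sum_prod_type]
    refine Finset.sum_congr rfl fun i _ => ?_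
    rw [Fintype.sum_prod_type]
  have h1 : ‖ip T T'‖ ≤ ∑ i, ∑ j, ∑ k, ‖T i j k‖ * ‖T' i j k‖ := by
    unfold ip
    refine (norm_sum_le _ _).trans (Finset.sum_le_sum fun i _ => ?_)
    refine (norm_sum_le _ _).trans (Finset.sum_le_sum fun j _ => ?_)
    refine (norm_sum_le _ _).trans (Finset.sum_le_sum fun k _ => ?_)
    rw [norm_mul, RCLike.norm_conj]
  have h2 : ‖ip T T'‖ ^ 2 ≤ (∑ i, ∑ j, ∑ k, ‖T i j k‖ * ‖T' i j k‖) ^ 2 :=
    pow_le_pow_left₀ (norm_nonneg _) h1 2
  refine h2.trans ?_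
  unfold nsq
  rw [e1 fun i j k => ‖T i j k‖ * ‖T' i j k‖, e1 fun i j k => ‖T i j k‖ ^ 2,
    e1 fun i j k => ‖T' i j k‖ ^ 2]
  exact Finset.sum_mul_sq_le_sq_mul_sq _ _ _

theorem nsq_act_dexp (T : T3) (r : Fin 4 → ℝ) :
    nsq (act T (dexp r)) = ∑ i, ∑ j, ∑ k, Real.exp (2 * (r i + r j + r k)) * ‖T i j k‖ ^ 2 := by
  unfold nsq dexp
  refine Finset.sum_congr rfl fun i _ => Finset.sum_congr rfl fun j _ =>
    Finset.sum_congr rfl fun k _ => ?_
  rw [act_diagonal, norm_mul, norm_mul, norm_mul, Complex.norm_real, Complex.norm_real,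
    Complex.norm_real, Real.norm_eq_abs, Real.norm_eq_abs, Real.norm_eq_abs, Real.abs_exp,
    Real.abs_exp, Real.abs_exp]
  have e : Real.exp (2 * (r i + r j + r k)) =
      (Real.exp (r i) * Real.exp (r j) * Real.exp (r k)) ^ 2 := by
    rw [← Real.exp_add, ← Real.exp_add, ← Real.exp_nat_mul]
    norm_num
  rw [e]
  ring

/-- Every unimodular (more generally invertible) matrix reduces to `U * dexp r` for the norm. -/
theorem nsq_act_svd (T : T3) (U W : M4) (r : Fin 4 → ℝ) (hW : IsU W) :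
    nsq (act T (U * dexp r * W)) =
      ∑ i, ∑ j, ∑ k, Real.exp (2 * (r i + r j + r k)) * ‖act T U i j k‖ ^ 2 := by
  rw [← act_act, nsq_act_unitary _ _ hW, ← act_act, nsq_act_dexp]

end Pool.Agent.ISO
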