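import Pool.Agent.ISO.Unif
import Pool.Agent.ISO.Svd
import Pool.Agent.ISO.Uni

/-!
# ISO / Grow: growth of the norm on orbits, minimal vectors

PROOF of `grow`.  `g = U * dexp r * W` with `∑ r = log ‖det g‖` (`svd`).  Put `m = (∑ r) / 4` and
`s = r - m`, so `∑ s = 0`, `ρ := ‖s‖`.  By `unif_scaled` there are `i j k` with
`c ≤ ‖act T U i j k‖`, `c ρ ≤ s i + s j + s k`; the term `i j k` of `nsq_act_svd` is
`≥ exp (2 (c ρ + 3 m)) c²`.

PROOF of `exists_minimal`.  By `grow` (with `det g = 1`, so `m = 0`) and `nsq_act_svd` the infimum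
`N T` is the infimum of the continuous function `φ (U, r) = nsq (act T (U * dexp r))` over
`{IsU U} × {∑ r = 0}`; by `grow` `φ > nsq T` outside a compact set `‖r‖ ≤ R`, so the infimum is
attained at some `(U, r)`; `g = U * dexp r * W` with a unitary `W` such that `det g = 1`
(take `W = diagonal (det U)⁻¹, 1, 1, 1`, note `‖det U‖ = 1`), and `nsq (act T g) = φ (U, r)`.
Positivity: `act T g ≠ 0`.

PROOF of `limit_orbit`: let `K = {G} ∪ {act T (g n) | n ≥ n0}` (compact as the set of terms and the limit of a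
convergent sequence, all smooth by `sm_act`) and `c` for `K ∪ {T}`.  With `g n = U D W`, `s, m, ρ` as
above: `nsq (act T (g n)) ≥ c² exp (2 c ρ + 6 m)`; applying the same to the inverse matrix
`(g n)⁻¹` and the tensor `act T (g n) ∈ K` (its log singular values are `- r`, so `m` changes sign and `ρ` is
the same sup norm): `nsq T ≥ c² exp (2 c ρ - 6 m)`.  The product bounds `ρ`, then both inequalities
bound `|m|`.  So `g n` stays in a compact set of matrices with `‖det‖` bounded below; a convergent
subsequence has a limit `g` with `det g ≠ 0` and `act T g = G`.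
-/

set_option autoImplicit false

noncomputable section

namespace Pool.Agent.ISO

open Matrix Filter Topology

private theorem le_nsq_of_term {f : Fin 4 → Fin 4 → Fin 4 → ℝ} (hf : ∀ i j k, 0 ≤ f i j k)
    (i j k : Fin 4) : f i j k ≤ ∑ i, ∑ j, ∑ k, f i j k := by
  calc f i j k ≤ ∑ k, f i j k :=
        Finset.single_le_sum (f := fun k => f i j k) (fun k _ => hf i j k) (Finset.mem_univ k)
    _ ≤ ∑ j, ∑ k, f i j k :=
        Finset.single_le_sum (f := fun j => ∑ k, f i j k)
          (fun j _ => Finset.sum_nonneg fun k _ => hf i j k) (Finset.mem_univ j)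
    _ ≤ ∑ i, ∑ j, ∑ k, f i j k :=
        Finset.single_le_sum (f := fun i => ∑ j, ∑ k, f i j k)
          (fun i _ => Finset.sum_nonneg fun j _ => Finset.sum_nonneg fun k _ => hf i j k)
          (Finset.mem_univ i)

theorem grow (K : Set T3) (hK : IsCompact K) (hs : ∀ T ∈ K, Sm T) :
    ∃ c : ℝ, 0 < c ∧ ∀ T ∈ K, ∀ (U W : M4) (r : Fin 4 → ℝ), IsU U → IsU W → ∀ m : ℝ,
      ∑ i, r i = 4 * m →
      c ^ 2 * Real.exp (2 * c * ‖fun i => r i - m‖ + 6 * m) ≤ nsq (act T (U * dexp r * W)) := by
  obtain ⟨c, hc, H⟩ := unif_scaled K hK hs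
  refine ⟨c, hc, ?_⟩
  intro T hT U W r hU hW m hm
  have h0 : ∑ i, (fun i => r i - m) i = 0 := by
    simp only [Finset.sum_sub_distrib, Finset.sum_const, Finset.card_univ, Fintype.card_fin,
      nsmul_eq_mul]
    rw [hm]
    push_cast
    ring
  obtain ⟨i, j, k, h1, h2⟩ := H T hT U hU (fun i => r i - m) h0
  rw [nsq_act_svd T U W r hW]
  refine le_trans ?_ (le_nsq_of_term
    (f := fun i j k => Real.exp (2 * (r i + r j + r k)) * ‖act T U i j k‖ ^ 2)
    (fun i j k => by positivity) i j k)
  have h3 : 2 * c * ‖fun i => r i - m‖ + 6 * m ≤ 2 * (r i + r j + r k) := by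
    linarith
  calc c ^ 2 * Real.exp (2 * c * ‖fun i => r i - m‖ + 6 * m)
      ≤ ‖act T U i j k‖ ^ 2 * Real.exp (2 * (r i + r j + r k)) :=
        mul_le_mul (pow_le_pow_left₀ hc.le h1 2) (Real.exp_le_exp.2 h3) (Real.exp_pos _).le
          (by positivity)
    _ = _ := mul_comm _ _

/-- The compact set of matrices with bounded logarithms of the singular values. -/
private def KR (R : ℝ) : Set M4 :=
  (fun x : M4 × (Fin 4 → ℝ) × M4 => x.1 * dexp x.2.1 * x.2.2) ''
    ({U : M4 | IsU U} ×ˢ (Metric.closedBall (0 : Fin 4 → ℝ) R ×ˢ {W : M4 | IsU W}))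

private theorem continuous_dexp : Continuous dexp := by
  unfold dexp
  exact Continuous.matrix_diagonal (by fun_prop)

private theorem isCompact_KR (R : ℝ) : IsCompact (KR R) := by
  refine (isCompact_unitary.prod ((isCompact_closedBall _ _).prod isCompact_unitary)).image ?_
  exact (continuous_fst.matrix_mul (continuous_dexp.comp (continuous_fst.comp
    continuous_snd))).matrix_mul (continuous_snd.comp continuous_snd)

private theorem det_udw (U W : M4) (r : Fin 4 → ℝ) (hU : IsU U) (hW : IsU W) :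
    (U * dexp r * W).det ≠ 0 := by
  have h1 : ‖(U * dexp r * W).det‖ = Real.exp (∑ i, r i) := by
    rw [Matrix.det_mul, Matrix.det_mul, norm_mul, norm_mul, norm_det_of_isU U hU,
      norm_det_of_isU W hW, det_dexp, Complex.norm_real, Real.norm_of_nonneg (Real.exp_pos _).le,
      one_mul, mul_one]
  intro h
  rw [h, norm_zero] at h1
  exact (Real.exp_pos _).ne h1

private theorem det_KR {R : ℝ} {x : M4} (hx : x ∈ KR R) : x.det ≠ 0 := by
  obtain ⟨⟨U, r, W⟩, ⟨hU, hr, hW⟩, rfl⟩ := hx
  exact det_udw U W r hU hW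

private theorem mem_KR {R : ℝ} {U W : M4} {r : Fin 4 → ℝ} (hU : IsU U) (hW : IsU W)
    (hr : ‖r‖ ≤ R) : U * dexp r * W ∈ KR R :=
  ⟨(U, r, W), ⟨hU, mem_closedBall_zero_iff.2 hr, hW⟩, rfl⟩

private theorem continuous_actT (T : T3) : Continuous fun g : M4 => act T g :=
  Continuous.comp (g := fun x : T3 × M4 => act x.1 x.2) (f := fun g : M4 => (T, g))
    continuous_act (Continuous.prodMk continuous_const continuous_id)

private theorem log_bound {c B x : ℝ} (hc : 0 < c) (h : c ^ 2 * Real.exp x ≤ B) :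
    x ≤ Real.log (B / c ^ 2) := by
  have h1 : Real.exp x ≤ B / c ^ 2 := by
    rw [le_div_iff₀ (by positivity), mul_comm]
    exact h
  have h2 := Real.log_le_log (Real.exp_pos x) h1
  rwa [Real.log_exp] at h2

/-- The infimum in `N` is attained and positive for smooth forms. -/
theorem exists_minimal {T : T3} (h : Sm T) :
    0 < N T ∧ ∃ g : M4, g.det = 1 ∧ nsq (act T g) = N T := by
  obtain ⟨c, hc, H⟩ := grow {T} isCompact_singleton (by
    intro T' hT'
    rw [Set.mem_singleton_iff.1 hT']
    exact h)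
  set R : ℝ := Real.log (nsq T / c ^ 2) / (2 * c) with hR
  set S : Set M4 := {g | g.det = 1 ∧ nsq (act T g) ≤ nsq T} with hS
  have hSc : IsClosed S := by
    have e : S = {g : M4 | g.det = 1} ∩ {g : M4 | nsq (act T g) ≤ nsq T} := rfl
    rw [e]
    refine IsClosed.inter ?_ ?_
    · exact isClosed_eq (Continuous.matrix_det continuous_id) continuous_const
    · exact isClosed_le (continuous_nsq.comp (continuous_actT T)) continuous_const
  have hSK : S ⊆ KR R := by
    intro g hg
    have hg0 : g.det ≠ 0 := by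
      rw [hg.1]
      exact one_ne_zero
    obtain ⟨U, W, r, hU, hW, hge, hr⟩ := svd g hg0
    rw [hg.1, norm_one, Real.log_one] at hr
    have h1 := H T (Set.mem_singleton T) U W r hU hW 0 (by rw [hr, mul_zero])
    rw [← hge] at h1
    have h2 := log_bound hc (h1.trans hg.2)
    simp only [sub_zero, mul_zero, add_zero] at h2
    rw [hge]
    refine mem_KR hU hW ?_
    rw [hR, le_div_iff₀ (by positivity)]
    linarith
  have hScomp : IsCompact S := (isCompact_KR R).of_isClosed_subset hSc hSK
  have h1S : (1 : M4) ∈ S := ⟨Matrix.det_one, by rw [act_one]⟩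
  obtain ⟨g, hgS, hgm⟩ := hScomp.exists_isMinOn ⟨1, h1S⟩
    (continuous_nsq.comp (continuous_actT T)).continuousOn
  have hmin : ∀ g' : M4, g'.det = 1 → nsq (act T g) ≤ nsq (act T g') := by
    intro g' hg'
    by_cases hle : nsq (act T g') ≤ nsq T
    · exact hgm ⟨hg', hle⟩
    · have h1 := hgS.2
      linarith [not_le.1 hle]
  have hN : N T = nsq (act T g) := by
    refine IsLeast.csInf_eq ⟨⟨g, hgS.1, rfl⟩, ?_⟩
    rintro y ⟨g', hg', rfl⟩
    exact hmin g' hg'
  refine ⟨?_, g, hgS.1, hN.symm⟩
  rw [hN]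
  refine nsq_pos (sm_ne_zero (sm_act h g ?_))
  rw [hgS.1]
  exact one_ne_zero

/-- Orbits of smooth forms are closed in the space of smooth forms. -/
theorem limit_orbit {T G : T3} (h : Sm T) (hG : Sm G) (g : ℕ → M4) (hg : ∀ n, (g n).det ≠ 0)
    (hlim : Tendsto (fun n => act T (g n)) atTop (𝓝 G)) : ∃ x : M4, x.det ≠ 0 ∧ G = act T x := by
  set K : Set T3 := {T} ∪ insert G (Set.range fun n => act T (g n)) with hKdef
  have hK : IsCompact K := isCompact_singleton.union hlim.isCompact_insert_range
  have hTK : T ∈ K := Or.inl rfl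
  have hgK : ∀ n, act T (g n) ∈ K := fun n => Or.inr (Or.inr ⟨n, rfl⟩)
  have hs : ∀ S ∈ K, Sm S := by
    rintro S (hS | hS | ⟨n, rfl⟩)
    · rw [Set.mem_singleton_iff.1 hS]
      exact h
    · rw [hS]
      exact hG
    · exact sm_act h (g n) (hg n)
  obtain ⟨c, hc, H⟩ := grow K hK hs
  obtain ⟨B, hB⟩ := (hK.image continuous_nsq).bddAbove
  have hB' : ∀ S ∈ K, nsq S ≤ B := fun S hS => hB ⟨S, hS, rfl⟩
  set L : ℝ := Real.log (B / c ^ 2) with hL
  set R : ℝ := L / (2 * c) + L / 6 with hR
  have hgR : ∀ n, g n ∈ KR R := by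
    intro n
    obtain ⟨U, W, r, hU, hW, hge, hr⟩ := svd (g n) (hg n)
    set m : ℝ := (∑ i, r i) / 4 with hm
    have hm4 : ∑ i, r i = 4 * m := by
      rw [hm]
      ring
    have h1 := H T hTK U W r hU hW m hm4
    rw [← hge] at h1
    have h1' := log_bound hc (h1.trans (hB' _ (hgK n)))
    have hUs : IsU (star U) := Unitary.star_mem hU
    have hWs : IsU (star W) := Unitary.star_mem hW
    have hm4' : ∑ i, (fun i => - r i) i = 4 * (-m) := by
      simp only [Finset.sum_neg_distrib]
      rw [hm4]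
      ring
    have h2 := H (act T (g n)) (hgK n) (star W) (star U) (fun i => - r i) hWs hUs (-m) hm4'
    have hdd : dexp r * dexp (fun i => - r i) = 1 := by
      unfold dexp
      rw [Matrix.diagonal_mul_diagonal, ← Matrix.diagonal_one]
      congr 1
      funext i
      rw [← Complex.ofReal_mul, ← Real.exp_add, add_neg_cancel, Real.exp_zero, Complex.ofReal_one]
    have hWW : W * star W = 1 := Matrix.mem_unitaryGroup_iff.1 hW
    have hUU : U * star U = 1 := Matrix.mem_unitaryGroup_iff.1 hU
    have hinv : g n * (star W * dexp (fun i => - r i) * star U) = 1 := by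
      rw [hge]
      calc U * dexp r * W * (star W * dexp (fun i => - r i) * star U)
          = U * dexp r * (W * star W) * dexp (fun i => - r i) * star U := by
            simp only [Matrix.mul_assoc]
        _ = U * (dexp r * dexp (fun i => - r i)) * star U := by
            rw [hWW, Matrix.mul_one, Matrix.mul_assoc U]
        _ = 1 := by rw [hdd, Matrix.mul_one, hUU]
    rw [act_act, hinv, act_one] at h2
    have h2' := log_bound hc (h2.trans (hB' _ hTK))
    have hnn : ‖fun i => (fun i => - r i) i - -m‖ = ‖fun i => r i - m‖ := by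
      rw [← norm_neg]
      congr 1
      funext i
      simp only [Pi.neg_apply]
      ring
    rw [hnn] at h2'
    set ρ : ℝ := ‖fun i => r i - m‖ with hρ
    have hρ0 : 0 ≤ ρ := norm_nonneg _
    have hcρ : 0 ≤ 2 * c * ρ := by positivity
    rw [← hL] at h1' h2'
    have ha : |m| ≤ L / 6 := by
      rw [abs_le]
      constructor <;> linarith
    have hb : ρ ≤ L / (2 * c) := by
      rw [le_div_iff₀ (by positivity)]
      linarith
    rw [hge]
    refine mem_KR hU hW ?_
    have hR0 : 0 ≤ R := by
      have := abs_nonneg m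
      rw [hR]
      linarith
    rw [pi_norm_le_iff_of_nonneg hR0]
    intro i
    have h3 : ‖r i - m‖ ≤ ρ := norm_le_pi_norm (fun i => r i - m) i
    rw [Real.norm_eq_abs] at h3 ⊢
    have h4 : |r i| ≤ |r i - m| + |m| := by
      have := abs_add_le (r i - m) m
      rwa [sub_add_cancel] at this
    rw [hR]
    linarith
  have hcl : IsClosed ((fun x : M4 => act T x) '' KR R) :=
    ((isCompact_KR R).image (continuous_actT T)).isClosed
  have hmem : G ∈ (fun x : M4 => act T x) '' KR R :=
    hcl.mem_of_tendsto hlim (Eventually.of_forall fun n => ⟨g n, hgR n, rfl⟩)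
  obtain ⟨x, hx, hxG⟩ := hmem
  exact ⟨x, det_KR hx, hxG.symm⟩

end Pool.Agent.ISO
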