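import Mathlib

/-!
# ISO / Bin: classification of binary cubic forms over `ℂ`

PROOF.  Let `f (y, z) = d0 y³ + d1 y² z + d2 y z² + d3 z³`.  If all `d i = 0`: case 0.  Otherwise `f`
is a product of three linear forms `l1 l2 l3` (dehomogenise; `ℂ` algebraically closed).  If all
three are proportional: `f = (c l)³`, case 1.  If exactly two are proportional: `f = l1² l2` after
scaling, take `l1, l2` as coordinates, case 2.  If no two are proportional: choose coordinates with
`l1 = y + z`, `l2 = y + ω z` up to scalars and then `l3 = a y + b z`; rescaling `y` and `z`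
one can achieve `f = c (y + z) (y + ω z) (y + ω² z) = c (y³ + z³)`: explicitly, since
`l1, l2, l3` are pairwise independent in a 2-dimensional space there are nonzero `a1, a2, a3` with
`a1 l1 + a2 l2 + a3 l3 = 0`; define `y, z` by `y + z = a1 l1`, `ω y + ω² z = a2 l2`, then
`ω² y + ω z = a3 l3`, and the product of the three left sides is `y³ + z³`; absorb the constant.
(Alternatively use the Hessian.)  The substitution in the statement is the inverse one.
-/

set_option autoImplicit false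

noncomputable section

namespace Pool.Agent.ISO

private theorem root3 (a b c : ℂ) : ∃ x : ℂ, x ^ 3 + a * x ^ 2 + b * x + c = 0 := by
  have hd : (Polynomial.X ^ 3 + Polynomial.C a * Polynomial.X ^ 2 + Polynomial.C b * Polynomial.X +
      Polynomial.C c : Polynomial ℂ).degree ≠ 0 := by
    have : (Polynomial.X ^ 3 + Polynomial.C a * Polynomial.X ^ 2 + Polynomial.C b * Polynomial.X +
      Polynomial.C c : Polynomial ℂ).degree = 3 := by
      compute_degree!
    rw [this]
    decide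
  obtain ⟨x, hx⟩ := IsAlgClosed.exists_root _ hd
  refine ⟨x, ?_⟩
  simpa [Polynomial.IsRoot] using hx

private theorem root2 (a b : ℂ) : ∃ x : ℂ, x ^ 2 + a * x + b = 0 := by
  have hd : (Polynomial.X ^ 2 + Polynomial.C a * Polynomial.X +
      Polynomial.C b : Polynomial ℂ).degree ≠ 0 := by
    have : (Polynomial.X ^ 2 + Polynomial.C a * Polynomial.X +
      Polynomial.C b : Polynomial ℂ).degree = 2 := by
      compute_degree!
    rw [this]
    decide
  obtain ⟨x, hx⟩ := IsAlgClosed.exists_root _ hd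
  refine ⟨x, ?_⟩
  simpa [Polynomial.IsRoot] using hx

/-- The normal form statement. -/
private def NF (d0 d1 d2 d3 : ℂ) : Prop :=
    ∃ α β γ δ : ℂ, α * δ - β * γ ≠ 0 ∧ ∃ e0 e1 e3 : ℂ,
      ((e0 = 0 ∧ e1 = 0 ∧ e3 = 0) ∨ (e0 = 1 ∧ e1 = 0 ∧ e3 = 0) ∨ (e0 = 0 ∧ e1 = 1 ∧ e3 = 0) ∨
        (e0 = 1 ∧ e1 = 0 ∧ e3 = 1)) ∧
      ∀ y z : ℂ, d0 * (α * y + β * z) ^ 3 + d1 * (α * y + β * z) ^ 2 * (γ * y + δ * z) +
        d2 * (α * y + β * z) * (γ * y + δ * z) ^ 2 + d3 * (γ * y + δ * z) ^ 3 =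
        e0 * y ^ 3 + e1 * y ^ 2 * z + e3 * z ^ 3

/-- Change of coordinates. -/
private theorem NF.subst {d0 d1 d2 d3 c0 c1 c2 c3 a b c d : ℂ} (h : NF c0 c1 c2 c3)
    (hdet : a * d - b * c ≠ 0)
    (hs : ∀ y z : ℂ, d0 * (a * y + b * z) ^ 3 + d1 * (a * y + b * z) ^ 2 * (c * y + d * z) +
        d2 * (a * y + b * z) * (c * y + d * z) ^ 2 + d3 * (c * y + d * z) ^ 3 =
        c0 * y ^ 3 + c1 * y ^ 2 * z + c2 * y * z ^ 2 + c3 * z ^ 3) : NF d0 d1 d2 d3 := by
  obtain ⟨α, β, γ, δ, h1, e0, e1, e3, h2, h3⟩ := h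
  refine ⟨a * α + b * γ, a * β + b * δ, c * α + d * γ, c * β + d * δ, ?_, e0, e1, e3, h2, ?_⟩
  · have : (a * α + b * γ) * (c * β + d * δ) - (a * β + b * δ) * (c * α + d * γ) =
        (a * d - b * c) * (α * δ - β * γ) := by ring
    rw [this]
    exact mul_ne_zero hdet h1
  · intro y z
    rw [← h3 y z, ← hs (α * y + β * z) (γ * y + δ * z)]
    ring

/-- Product of three linear forms with a leading coefficient. -/
private theorem nf_prod {d r1 r2 r3 : ℂ} (hd : d ≠ 0) :
    NF d (-d * (r1 + r2 + r3)) (d * (r1 * r2 + r1 * r3 + r2 * r3)) (-d * (r1 * r2 * r3)) := by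
  have key : ∀ Y Z : ℂ, d * Y ^ 3 + (-d * (r1 + r2 + r3)) * Y ^ 2 * Z +
      (d * (r1 * r2 + r1 * r3 + r2 * r3)) * Y * Z ^ 2 + (-d * (r1 * r2 * r3)) * Z ^ 3 =
      d * (Y - r1 * Z) * (Y - r2 * Z) * (Y - r3 * Z) := by
    intro Y Z
    ring
  have two : ∀ {u v : ℂ}, u ≠ v → (∀ Y Z : ℂ, d * (Y - r1 * Z) * (Y - r2 * Z) * (Y - r3 * Z) =
      d * (Y - u * Z) ^ 2 * (Y - v * Z)) →
      NF d (-d * (r1 + r2 + r3)) (d * (r1 * r2 + r1 * r3 + r2 * r3)) (-d * (r1 * r2 * r3)) := by
    intro u v huv h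
    have h0 : v - u ≠ 0 := sub_ne_zero.2 (Ne.symm huv)
    refine ⟨1 + u * (1 / (v - u)), u * (-1 / (d * (v - u))), 1 / (v - u), -1 / (d * (v - u)), ?_,
      0, 1, 0, Or.inr (Or.inr (Or.inl ⟨rfl, rfl, rfl⟩)), ?_⟩
    · have : (1 + u * (1 / (v - u))) * (-1 / (d * (v - u))) -
          u * (-1 / (d * (v - u))) * (1 / (v - u)) = -1 / (d * (v - u)) := by ring
      rw [this]
      exact div_ne_zero (neg_ne_zero.2 one_ne_zero) (mul_ne_zero hd h0)
    · intro y z
      rw [key, h]
      have g1 : (1 + u * (1 / (v - u))) * y + u * (-1 / (d * (v - u))) * z -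
          u * (1 / (v - u) * y + -1 / (d * (v - u)) * z) = y := by ring
      have g2 : d * ((1 + u * (1 / (v - u))) * y + u * (-1 / (d * (v - u))) * z -
          v * (1 / (v - u) * y + -1 / (d * (v - u)) * z)) = z := by
        field_simp
        ring
      rw [g1]
      linear_combination y ^ 2 * g2
  by_cases h12 : r1 = r2
  · by_cases h13 : r1 = r3
    · -- triple root
      subst h12 h13
      obtain ⟨c, hc⟩ := IsAlgClosed.exists_pow_nat_eq d (n := 3) (by norm_num)
      have hc0 : c ≠ 0 := by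
        rintro rfl
        apply hd
        rw [← hc]
        norm_num
      refine ⟨1 / c, r1, 0, 1, ?_, 1, 0, 0, Or.inr (Or.inl ⟨rfl, rfl, rfl⟩), ?_⟩
      · rw [mul_one, mul_zero, sub_zero]
        exact one_div_ne_zero hc0
      · intro y z
        rw [key, ← hc]
        field_simp
        ring
    · subst h12
      exact two h13 (fun Y Z => by ring)
  · by_cases h13 : r1 = r3
    · subst h13
      exact two h12 (fun Y Z => by ring)
    · by_cases h23 : r2 = r3
      · subst h23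
        exact two (Ne.symm h12) (fun Y Z => by ring)
      · -- three different roots
        obtain ⟨w, hw⟩ := root2 1 1
        have hw' : w ^ 2 + w + 1 = 0 := by linear_combination hw
        have a1 : r2 - r3 ≠ 0 := sub_ne_zero.2 h23
        have a2 : r3 - r1 ≠ 0 := sub_ne_zero.2 (Ne.symm h13)
        have a3 : r1 - r2 ≠ 0 := sub_ne_zero.2 h12
        obtain ⟨k, hk⟩ := IsAlgClosed.exists_pow_nat_eq
          (d / ((r2 - r3) * (r3 - r1) * (r1 - r2))) (n := 3) (by norm_num)
        have hk' : k ^ 3 * ((r2 - r3) * (r3 - r1) * (r1 - r2)) = d := by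
          rw [hk]
          field_simp
        have hk0 : k ≠ 0 := by
          rintro rfl
          apply hd
          rw [← hk']
          norm_num
        have hww : w - w ^ 2 ≠ 0 := by
          intro h
          have e1 : w * (1 - w) = 0 := by linear_combination h
          rcases mul_eq_zero.1 e1 with e2 | e2
          · rw [e2] at hw'
            norm_num at hw'
          · have e3 : w = 1 := by linear_combination -e2
            rw [e3] at hw'
            norm_num at hw'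
        have hr : r2 - r1 ≠ 0 := sub_ne_zero.2 (Ne.symm h12)
        obtain ⟨A, hA⟩ : ∃ A : ℂ, A = 1 / (k * (r2 - r3)) := ⟨_, rfl⟩
        obtain ⟨B, hB⟩ : ∃ B : ℂ, B = 1 / (k * (r3 - r1)) := ⟨_, rfl⟩
        obtain ⟨R, hR⟩ : ∃ R : ℂ, R = 1 / (r2 - r1) := ⟨_, rfl⟩
        have hA' : k * (r2 - r3) * A = 1 := by rw [hA]; field_simp
        have hB' : k * (r3 - r1) * B = 1 := by rw [hB]; field_simp
        have hR' : (r2 - r1) * R = 1 := by rw [hR]; field_simp
        have hA0 : A ≠ 0 := by rintro rfl; simp at hA'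
        have hB0 : B ≠ 0 := by rintro rfl; simp at hB'
        have hR0 : R ≠ 0 := by rintro rfl; simp at hR'
        refine ⟨r1 * ((A - w * B) * R) + A, r1 * ((A - w ^ 2 * B) * R) + A, (A - w * B) * R,
          (A - w ^ 2 * B) * R, ?_, 1, 0, 1, Or.inr (Or.inr (Or.inr ⟨rfl, rfl, rfl⟩)), ?_⟩
        · have : (r1 * ((A - w * B) * R) + A) * ((A - w ^ 2 * B) * R) -
              (r1 * ((A - w ^ 2 * B) * R) + A) * ((A - w * B) * R) =
              (w - w ^ 2) * (A * B * R) := by ring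
          rw [this]
          exact mul_ne_zero hww (mul_ne_zero (mul_ne_zero hA0 hB0) hR0)
        · intro y z
          rw [key]
          obtain ⟨Y, hY⟩ : ∃ Y : ℂ, Y = (r1 * ((A - w * B) * R) + A) * y +
            (r1 * ((A - w ^ 2 * B) * R) + A) * z := ⟨_, rfl⟩
          obtain ⟨Z, hZ⟩ : ∃ Z : ℂ, Z = (A - w * B) * R * y + (A - w ^ 2 * B) * R * z := ⟨_, rfl⟩
          rw [← hY, ← hZ]
          have l1 : Y - r1 * Z = A * (y + z) := by rw [hY, hZ]; ring
          have l2 : Y - r2 * Z = B * (w * y + w ^ 2 * z) := by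
            have e1 : (r2 - r1) * Z = A * (y + z) - B * (w * y + w ^ 2 * z) := by
              rw [hZ]
              linear_combination ((A - w * B) * y + (A - w ^ 2 * B) * z) * hR'
            linear_combination l1 - e1
          have m1 : k * (r2 - r3) * (Y - r1 * Z) = y + z := by
            rw [l1]
            linear_combination (y + z) * hA'
          have m2 : k * (r3 - r1) * (Y - r2 * Z) = w * y + w ^ 2 * z := by
            rw [l2]
            linear_combination (w * y + w ^ 2 * z) * hB'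
          have m3 : k * (r1 - r2) * (Y - r3 * Z) = w ^ 2 * y + w * z := by
            linear_combination -m1 - m2 - (y + z) * hw'
          have m4 : d * (Y - r1 * Z) * (Y - r2 * Z) * (Y - r3 * Z) =
              (k * (r2 - r3) * (Y - r1 * Z)) * (k * (r3 - r1) * (Y - r2 * Z)) *
              (k * (r1 - r2) * (Y - r3 * Z)) := by
            rw [← hk']
            ring
          rw [m4, m1, m2, m3]
          have w3 : w ^ 3 = 1 := by linear_combination (w - 1) * hw'
          linear_combination (y ^ 3 + z ^ 3) * w3 + w ^ 2 * (y ^ 2 * z + y * z ^ 2) * hw'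

/-- Normal forms of binary cubics: `0`, `y³`, `y² z`, `y³ + z³`. -/
theorem binary_cubic (d0 d1 d2 d3 : ℂ) :
    ∃ α β γ δ : ℂ, α * δ - β * γ ≠ 0 ∧ ∃ e0 e1 e3 : ℂ,
      ((e0 = 0 ∧ e1 = 0 ∧ e3 = 0) ∨ (e0 = 1 ∧ e1 = 0 ∧ e3 = 0) ∨ (e0 = 0 ∧ e1 = 1 ∧ e3 = 0) ∨
        (e0 = 1 ∧ e1 = 0 ∧ e3 = 1)) ∧
      ∀ y z : ℂ, d0 * (α * y + β * z) ^ 3 + d1 * (α * y + β * z) ^ 2 * (γ * y + δ * z) +
        d2 * (α * y + β * z) * (γ * y + δ * z) ^ 2 + d3 * (γ * y + δ * z) ^ 3 =
        e0 * y ^ 3 + e1 * y ^ 2 * z + e3 * z ^ 3 := by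
  change NF d0 d1 d2 d3
  -- reduction to `d0 ≠ 0`
  have lead : ∀ c0 c1 c2 c3 : ℂ, c0 ≠ 0 → NF c0 c1 c2 c3 := by
    intro c0 c1 c2 c3 h0
    obtain ⟨r1, hr1⟩ := root3 (c1 / c0) (c2 / c0) (c3 / c0)
    obtain ⟨r2, hr2⟩ := root2 (c1 / c0 + r1) (c2 / c0 + (c1 / c0 + r1) * r1)
    obtain ⟨r3, hr3⟩ : ∃ r3 : ℂ, r3 = -(c1 / c0 + r1) - r2 := ⟨_, rfl⟩
    obtain ⟨b1, hb1⟩ : ∃ b1 : ℂ, b1 = c1 / c0 := ⟨_, rfl⟩
    obtain ⟨b2, hb2⟩ : ∃ b2 : ℂ, b2 = c2 / c0 := ⟨_, rfl⟩
    obtain ⟨b3, hb3⟩ : ∃ b3 : ℂ, b3 = c3 / c0 := ⟨_, rfl⟩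
    rw [← hb1, ← hb2, ← hb3] at hr1
    rw [← hb1, ← hb2] at hr2
    rw [← hb1] at hr3
    have g1 : c1 = c0 * b1 := by rw [hb1]; field_simp
    have g2 : c2 = c0 * b2 := by rw [hb2]; field_simp
    have g3 : c3 = c0 * b3 := by rw [hb3]; field_simp
    have k1 : c1 = -c0 * (r1 + r2 + r3) := by rw [g1, hr3]; ring
    have k2 : c2 = c0 * (r1 * r2 + r1 * r3 + r2 * r3) := by
      rw [g2, hr3]
      linear_combination c0 * hr2
    have k3 : c3 = -c0 * (r1 * r2 * r3) := by
      rw [g3, hr3]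
      linear_combination c0 * hr1 - c0 * r1 * hr2
    rw [k1, k2, k3]
    exact nf_prod h0
  by_cases h0 : d0 = 0
  · by_cases h3 : d3 = 0
    · by_cases h12 : d1 + d2 = 0
      · by_cases h1 : d1 = 0
        · have h2 : d2 = 0 := by rw [h1, zero_add] at h12; exact h12
          subst h0 h3 h1 h2
          exact ⟨1, 0, 0, 1, by norm_num, 0, 0, 0, Or.inl ⟨rfl, rfl, rfl⟩, fun y z => by ring⟩
        · -- `f (1, -1) = - d1 + d2 = -2 d1`
          have h2 : d2 = -d1 := by linear_combination h12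
          refine (lead (-2 * d1) (3 * d1) (-d1) 0 ?_).subst (a := 1) (b := 0) (c := -1) (d := 1)
            (by norm_num) ?_
          · exact mul_ne_zero (by norm_num) h1
          · intro y z
            rw [h0, h2, h3]
            ring
      · refine (lead (d1 + d2) (d1 + 2 * d2) d2 0 h12).subst (a := 1) (b := 0) (c := 1) (d := 1)
            (by norm_num) ?_
        intro y z
        rw [h0, h3]
        ring
    · refine (lead d3 d2 d1 d0 h3).subst (a := 0) (b := 1) (c := 1) (d := 0) (by norm_num) ?_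
      intro y z
      ring
  · exact lead _ _ _ _ h0

end Pool.Agent.ISO
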