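import Pool.Agent.ISO.Main

/-!
# ISO / Bridge: polynomials and tensors

PROOF.  `toT F i j k = ∂_i ∂_j ∂_k F (0) / 6`.  For a homogeneous cubic polynomial `F` the third
derivatives are constants; check everything on monomials (`F = ∑ coeff m • monomial m`), or by Euler's
formula: `6 ev (toT F) p = eval p` of `∑ p_i p_j p_k ∂_i∂_j∂_k F`...  Symmetry: `pderiv` commute.
`of_fermat`: `eval p F = ev (act fermat x) p = ev fermat (x p) = ∑ i (x p)_i ^ 3` for all `p`, so
`F = ∑ l_i ^ 3` by `MvPolynomial.funext`, `l_i = ∑ j, C (x i j) * X j`.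
-/

set_option autoImplicit false

noncomputable section

namespace Pool.Agent.ISO

open MvPolynomial Matrix

/-- The symmetric tensor of a cubic form. -/
def toT (F : S4) : T3 := fun i j k => eval 0 (pderiv i (pderiv j (pderiv k F))) / 6

theorem toT_add (F G : S4) : toT (F + G) = toT F + toT G := by
  funext i j k
  simp only [toT, Pi.add_apply, map_add, add_div]

theorem toT_C_mul (a : ℂ) (F : S4) : toT (C a * F) = a • toT F := by
  funext i j k
  simp only [toT, Pi.smul_apply, pderiv_C_mul, map_mul, eval_C, smul_eq_mul, mul_div_assoc]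

private theorem pderiv_comm40 (i j : Fin 4) (F : S4) :
    pderiv i (pderiv j F) = pderiv j (pderiv i F) := by
  have h1 : ⁅(pderiv i : Derivation ℂ S4 S4), (pderiv j : Derivation ℂ S4 S4)⁆ = 0 := by
    apply derivation_ext
    intro k
    rw [Derivation.commutator_apply, pderiv_X, pderiv_X, Derivation.zero_apply]
    by_cases h2 : j = k
    · by_cases h3 : i = k
      · subst h2 h3
        simp
      · subst h2
        simp [Pi.single_apply, Ne.symm h3]
    · by_cases h3 : i = k
      · subst h3
        simp [Pi.single_apply, Ne.symm h2]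
      · simp [Pi.single_apply, Ne.symm h2, Ne.symm h3]
  have h2 := congrArg (fun D : Derivation ℂ S4 S4 => D F) h1
  simp only [Derivation.commutator_apply, Derivation.zero_apply] at h2
  exact sub_eq_zero.1 h2

theorem isSym_toT (F : S4) : IsSym (toT F) := by
  intro i j k
  unfold toT
  rw [pderiv_comm40 j i, pderiv_comm40 j k F]
  exact ⟨rfl, rfl⟩

private theorem const40 (F : S4) (hF : F.IsHomogeneous 3) (p : Fin 4 → ℂ) (i j k : Fin 4) :
    eval p (pderiv i (pderiv j (pderiv k F))) = 6 * toT F i j k := by
  have h1 : (pderiv i (pderiv j (pderiv k F))).IsHomogeneous 0 := ((hF.pderiv).pderiv).pderiv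
  have h2 := totalDegree_eq_zero_iff_eq_C.1 (Nat.le_zero.1 h1.totalDegree_le)
  unfold toT
  rw [h2, eval_C, eval_C]
  ring

theorem pol_toT (F : S4) (hF : F.IsHomogeneous 3) (p : Fin 4 → ℂ) (j k : Fin 4) :
    eval p (pderiv j (pderiv k F)) = 6 * pol (toT F) p j k := by
  have h1 : (pderiv j (pderiv k F)).IsHomogeneous 1 := (hF.pderiv).pderiv
  have h2 := congrArg (eval p) h1.sum_X_mul_pderiv
  simp only [map_sum, map_mul, eval_X, one_smul, const40 F hF p] at h2
  rw [← h2]
  unfold pol
  rw [Matrix.of_apply, Finset.mul_sum]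
  exact Finset.sum_congr rfl fun i _ => by ring

theorem grad_toT (F : S4) (hF : F.IsHomogeneous 3) (p : Fin 4 → ℂ) (k : Fin 4) :
    eval p (pderiv k F) = 3 * grad (toT F) p k := by
  have h1 : (pderiv k F).IsHomogeneous 2 := hF.pderiv
  have h2 := congrArg (eval p) h1.sum_X_mul_pderiv
  simp only [map_sum, map_mul, eval_X, nsmul_eq_mul, map_natCast, pol_toT F hF p] at h2
  have h3 : ∑ j, p j * (6 * pol (toT F) p j k) = 6 * grad (toT F) p k := by
    unfold grad pol
    rw [Finset.sum_comm, Finset.mul_sum]
    refine Finset.sum_congr rfl fun j _ => ?_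
    rw [Matrix.of_apply, ← mul_assoc, mul_comm (p j) 6, mul_assoc, Finset.mul_sum]
    congr 1
    exact Finset.sum_congr rfl fun i _ => by ring
  rw [h3] at h2
  push_cast at h2
  linear_combination -h2 / 2

theorem ev_toT (F : S4) (hF : F.IsHomogeneous 3) (p : Fin 4 → ℂ) : ev (toT F) p = eval p F := by
  have h2 := congrArg (eval p) hF.sum_X_mul_pderiv
  simp only [map_sum, map_mul, eval_X, nsmul_eq_mul, map_natCast, grad_toT F hF p] at h2
  have h3 : ∑ j, p j * (3 * grad (toT F) p j) = 3 * ev (toT F) p := by
    rw [ev_eq_grad, Finset.mul_sum]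
    exact Finset.sum_congr rfl fun i _ => by ring
  rw [h3] at h2
  push_cast at h2
  linear_combination h2 / 3

theorem of_fermat (F : S4) (hF : F.IsHomogeneous 3) (x : M4) (hx : x.det ≠ 0)
    (h : toT F = act fermat x) :
    ∃ l : Fin 4 → S4, (∀ i, (l i).IsHomogeneous 1) ∧ LinearIndependent ℂ l ∧ F = ∑ i, l i ^ 3 := by
  refine ⟨fun i => ∑ j, C (x i j) * X j, fun i => ?_, ?_, ?_⟩
  · refine IsHomogeneous.sum _ _ _ fun j _ => ?_
    have h1 := (isHomogeneous_C (Fin 4) (x i j)).mul (isHomogeneous_X ℂ j)
    rwa [zero_add] at h1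
  · rw [Fintype.linearIndependent_iff]
    intro g hg
    have h2 : Matrix.vecMul g x = 0 := by
      funext k
      have h3 := congrArg (eval (Pi.single k (1 : ℂ))) hg
      simp only [map_sum, smul_eval, map_mul, eval_C, eval_X, map_zero, Pi.single_apply, mul_ite,
        mul_one, mul_zero, Finset.sum_ite_eq, Finset.sum_ite_eq', Finset.mem_univ, if_true] at h3
      exact h3
    have h4 := Matrix.eq_zero_of_vecMul_eq_zero hx h2
    exact fun i => congrFun h4 i
  · apply MvPolynomial.funext
    intro p
    rw [← ev_toT F hF, h, ev_act]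
    have h5 : ev fermat (x.mulVec p) = ∑ i, (x.mulVec p) i ^ 3 := by
      rw [fermat]
      have h6 : ∀ (s : Finset (Fin 4)) (q : Fin 4 → ℂ),
          ev (∑ i ∈ s, mon3 i i i) q = ∑ i ∈ s, q i ^ 3 := by
        intro s q
        induction s using Finset.induction_on with
        | empty => simp [ev]
        | insert a s ha ih =>
          rw [Finset.sum_insert ha, Finset.sum_insert ha, ← ih]
          have h7 : ∀ T T' : T3, ev (T + T') q = ev T q + ev T' q := by
            intro T T'
            simp only [ev, Pi.add_apply, add_mul, Finset.sum_add_distrib]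
          rw [h7, ev_mon3]
          ring
      exact h6 _ _
    rw [h5, map_sum]
    refine Finset.sum_congr rfl fun i _ => ?_
    rw [map_pow, map_sum]
    congr 1
    simp [Matrix.mulVec, dotProduct]

end Pool.Agent.ISO
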