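import Mathlib

/-!
# ISO / CI0: ideals generated by the first `k` of four quadrics, regular sequences

PROOFS.  `mem_J`: `Ideal.mem_span_image_iff_exists_fun` or `Submodule.mem_ideal_span...`, extend by
zero.  `mem_J_homog`: take the homogeneous components of degree `d` of the coefficients `b i`
(`a = homogeneousComponent (d+2) a = ∑ homogeneousComponent (d+2) (b i * f i)`, and
`homogeneousComponent (d+2) (b * f) = homogeneousComponent d b * f` for `f` homogeneous of degree
`2`).  `eq_zero_of_mem_J`: every element of `J f k` has only monomials of degree `≥ 2`.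
-/

set_option autoImplicit false

noncomputable section

namespace Pool.Agent.ISO

open MvPolynomial

/-- The polynomial ring in four variables. -/
abbrev S4 : Type := MvPolynomial (Fin 4) ℂ

/-- The ideal generated by `f 0, …, f (k-1)`. -/
def J (f : Fin 4 → S4) (k : ℕ) : Ideal S4 := Ideal.span (f '' {i | (i : ℕ) < k})

/-- `f 0, …, f (k-1)` is a (weakly) regular sequence. -/
def Reg (f : Fin 4 → S4) (k : ℕ) : Prop :=
  ∀ i : Fin 4, (i : ℕ) < k → ∀ a : S4, f i * a ∈ J f i → a ∈ J f i

/-- the homogeneous components of a multiple of a quadric -/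
private theorem comp_mul {b f : S4} (hf : f.IsHomogeneous 2) (d : ℕ) :
    homogeneousComponent (d + 2) (b * f) = homogeneousComponent d b * f := by
  classical
  conv_lhs => rw [← sum_homogeneousComponent b, Finset.sum_mul, map_sum]
  have h1 : ∀ i ∈ Finset.range (b.totalDegree + 1),
      homogeneousComponent (d + 2) (homogeneousComponent i b * f) =
        if i = d then homogeneousComponent i b * f else 0 := by
    intro i _
    have h2 : (homogeneousComponent i b * f).IsHomogeneous (i + 2) :=
      (homogeneousComponent_isHomogeneous i b).mul hf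
    rw [homogeneousComponent_of_mem h2]
    by_cases h : i = d
    · subst h
      simp
    · rw [if_neg (by omega), if_neg h]
  rw [Finset.sum_congr rfl h1, Finset.sum_ite_eq']
  split_ifs with h
  · rfl
  · rw [Finset.mem_range, not_lt] at h
    rw [homogeneousComponent_eq_zero _ _ (by omega), zero_mul]

/-- the components of degree less than two of a multiple of a quadric vanish -/
private theorem comp_mul_lt {b f : S4} (hf : f.IsHomogeneous 2) {d : ℕ} (hd : d < 2) :
    homogeneousComponent d (b * f) = 0 := by
  classical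
  conv_lhs => rw [← sum_homogeneousComponent b, Finset.sum_mul, map_sum]
  refine Finset.sum_eq_zero fun i _ => ?_
  have h2 : (homogeneousComponent i b * f).IsHomogeneous (i + 2) :=
    (homogeneousComponent_isHomogeneous i b).mul hf
  rw [homogeneousComponent_of_mem h2, if_neg (by omega)]

theorem mem_J (f : Fin 4 → S4) (k : ℕ) (a : S4) :
    a ∈ J f k ↔ ∃ b : Fin 4 → S4, (∀ i : Fin 4, k ≤ (i : ℕ) → b i = 0) ∧ a = ∑ i, b i * f i := by
  classical
  constructor
  · intro h
    induction h using Submodule.span_induction with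
    | mem x hx =>
      obtain ⟨i, hi, rfl⟩ := hx
      refine ⟨Pi.single i 1, fun j hj => ?_, ?_⟩
      · have hi' : (i : ℕ) < k := hi
        have hne : j ≠ i := by
          rintro rfl
          omega
        rw [Pi.single_eq_of_ne hne]
      · rw [Finset.sum_eq_single i]
        · simp
        · intro j _ hj
          rw [Pi.single_eq_of_ne hj, zero_mul]
        · intro h
          exact absurd (Finset.mem_univ i) h
    | zero => exact ⟨0, fun _ _ => rfl, by simp⟩
    | add x y _ _ hx hy =>
      obtain ⟨b, hb, rfl⟩ := hx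
      obtain ⟨c, hc, rfl⟩ := hy
      refine ⟨b + c, fun i hi => by rw [Pi.add_apply, hb i hi, hc i hi, add_zero], ?_⟩
      simp only [Pi.add_apply, add_mul, Finset.sum_add_distrib]
    | smul r x _ hx =>
      obtain ⟨b, hb, rfl⟩ := hx
      refine ⟨fun i => r * b i, fun i hi => by simp only [hb i hi, mul_zero], ?_⟩
      rw [smul_eq_mul, Finset.mul_sum]
      exact Finset.sum_congr rfl fun i _ => (mul_assoc _ _ _).symm
  · rintro ⟨b, hb, rfl⟩
    refine Ideal.sum_mem _ fun i _ => ?_
    by_cases hi : (i : ℕ) < k
    · exact Ideal.mul_mem_left _ _ (Ideal.subset_span ⟨i, hi, rfl⟩)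
    · rw [hb i (not_lt.1 hi), zero_mul]
      exact Ideal.zero_mem _

theorem mem_J_homog (f : Fin 4 → S4) (hf : ∀ i, (f i).IsHomogeneous 2) (k d : ℕ) (a : S4)
    (ha : a.IsHomogeneous (d + 2)) (h : a ∈ J f k) :
    ∃ b : Fin 4 → S4, (∀ i : Fin 4, k ≤ (i : ℕ) → b i = 0) ∧ (∀ i, (b i).IsHomogeneous d) ∧
      a = ∑ i, b i * f i := by
  obtain ⟨b, hb, hab⟩ := (mem_J f k a).1 h
  refine ⟨fun i => homogeneousComponent d (b i), fun i hi => by simp only [hb i hi, map_zero],
    fun i => homogeneousComponent_isHomogeneous d (b i), ?_⟩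
  have h1 : homogeneousComponent (d + 2) a = a := by
    rw [homogeneousComponent_of_mem ha, if_pos rfl]
  rw [← h1]
  conv_lhs => rw [hab]
  rw [map_sum]
  exact Finset.sum_congr rfl fun i _ => comp_mul (hf i) d

theorem eq_zero_of_mem_J (f : Fin 4 → S4) (hf : ∀ i, (f i).IsHomogeneous 2) (k d : ℕ) (hd : d < 2)
    (a : S4) (ha : a.IsHomogeneous d) (h : a ∈ J f k) : a = 0 := by
  obtain ⟨b, -, hab⟩ := (mem_J f k a).1 h
  have h1 : homogeneousComponent d a = a := by
    rw [homogeneousComponent_of_mem ha, if_pos rfl]
  rw [← h1, hab, map_sum]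
  exact Finset.sum_eq_zero fun i _ => comp_mul_lt (hf i) hd

theorem J_succ (f : Fin 4 → S4) (i : Fin 4) (a : S4) :
    a ∈ J f ((i : ℕ) + 1) ↔ ∃ b : S4, a - b * f i ∈ J f i := by
  classical
  constructor
  · intro h
    obtain ⟨b, hb, rfl⟩ := (mem_J f _ a).1 h
    refine ⟨b i, (mem_J f _ _).2 ⟨Function.update b i 0, fun j hj => ?_, ?_⟩⟩
    · by_cases hji : j = i
      · rw [hji, Function.update_self]
      · rw [Function.update_of_ne hji]
        refine hb j ?_
        have h1 : (j : ℕ) ≠ (i : ℕ) := fun h2 => hji (Fin.ext h2)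
        omega
    · have h1 : ∀ j, Function.update b i 0 j * f j = b j * f j - (if j = i then b i * f i else 0) := by
        intro j
        by_cases hji : j = i
        · subst hji
          rw [Function.update_self, if_pos rfl]
          ring
        · rw [Function.update_of_ne hji, if_neg hji, sub_zero]
      rw [Finset.sum_congr rfl fun j _ => h1 j, Finset.sum_sub_distrib, Finset.sum_ite_eq',
        if_pos (Finset.mem_univ i)]
  · rintro ⟨b, hb⟩
    have h1 : J f i ≤ J f ((i : ℕ) + 1) := by
      refine Ideal.span_mono (Set.image_mono fun j hj => ?_)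
      have h2 : (j : ℕ) < i := hj
      exact (lt_trans h2 (Nat.lt_succ_self _) : (j : ℕ) < (i : ℕ) + 1)
    have h3 : b * f i ∈ J f ((i : ℕ) + 1) :=
      Ideal.mul_mem_left _ _ (Ideal.subset_span ⟨i, Nat.lt_succ_self _, rfl⟩)
    have h4 := Ideal.add_mem _ (h1 hb) h3
    rwa [sub_add_cancel] at h4

end Pool.Agent.ISO
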