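import Pool.Agent.ISO.CI0

/-!
# ISO / CI1: the maximal ideal is not associated to `S / (f_0, …, f_{k-1})` for `k < 4`

PROOF (depth).  The variables `X 0, …, X 3` are a regular sequence of length `4` in the maximal ideal
`m = (X 0, …, X 3)`, so by the Rees theorem of Mathlib (`ModuleCat.exists_isRegular_tfae`,
`ModuleCat.subsingleton_ext_of_exists_isRegular` in `Mathlib/RingTheory/Depth/Rees.lean`)
`Ext^i (S/m, S) = 0` for `i < 4`.  Let `M_j = S / (f_0, …, f_{j-1})`.  Multiplication by `f_j` on `M_j`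
is injective with cokernel `M_{j+1}`, so by the covariant long exact sequence
(`Ext.covariant_sequence_exact₃'` as in that file) `Ext^i (S/m, M_j) = 0` for `i < 4 - j`, by
induction on `j ≤ k`.  For `j = k ≤ 3`, `i = 0`: `Hom (S/m, M_k) = 0`, i.e. no nonzero element of
`M_k` is killed by all `X j`.
(Any other proof is fine, e.g. an explicit Koszul diagram chase.)
-/

set_option autoImplicit false

noncomputable section

namespace Pool.Agent.ISO

open MvPolynomial CategoryTheory Abelian

section general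

variable {R : Type} [CommRing R]

private abbrev Md (I : Ideal R) : ModuleCat.{0} R := ModuleCat.of R (R ⧸ I)

private theorem ses_exact {I I' : Ideal R} {r : R} (hII : I ≤ I')
    (h : ∀ a, a ∈ I' ↔ ∃ b, a - b * r ∈ I) :
    Function.Exact (LinearMap.lsmul R (R ⧸ I) r) (Submodule.factor hII) := by
  intro x
  obtain ⟨a, rfl⟩ := Submodule.Quotient.mk_surjective _ x
  constructor
  · intro hx
    have h1 : a ∈ I' := by
      rwa [← Submodule.mkQ_apply, Submodule.factor_mk, Submodule.mkQ_apply,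
        Submodule.Quotient.mk_eq_zero] at hx
    obtain ⟨b, hb⟩ := (h a).1 h1
    refine ⟨Submodule.Quotient.mk b, ?_⟩
    rw [LinearMap.lsmul_apply, ← Submodule.Quotient.mk_smul, eq_comm, Submodule.Quotient.eq,
      smul_eq_mul, mul_comm]
    exact hb
  · rintro ⟨y, hy⟩
    obtain ⟨b, rfl⟩ := Submodule.Quotient.mk_surjective _ y
    rw [← hy, LinearMap.lsmul_apply, ← Submodule.Quotient.mk_smul, ← Submodule.mkQ_apply,
      Submodule.factor_mk, Submodule.mkQ_apply, Submodule.Quotient.mk_eq_zero]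
    refine (h _).2 ⟨b, ?_⟩
    rw [smul_eq_mul, mul_comm, sub_self]
    exact I.zero_mem

private def ses {I I' : Ideal R} {r : R} (hII : I ≤ I')
    (h : ∀ a, a ∈ I' ↔ ∃ b, a - b * r ∈ I) : ShortComplex (ModuleCat.{0} R) :=
  ModuleCat.shortComplexOfCompEqZero (LinearMap.lsmul R (R ⧸ I) r) (Submodule.factor hII)
    (ses_exact hII h).linearMap_comp_eq_zero

private theorem ses_short {I I' : Ideal R} {r : R} (hII : I ≤ I')
    (h : ∀ a, a ∈ I' ↔ ∃ b, a - b * r ∈ I) (hr : ∀ a, r * a ∈ I → a ∈ I) :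
    (ses hII h).ShortExact where
  exact := ModuleCat.shortComplex_exact _ (ses_exact hII h)
  mono_f := by
    refine (ModuleCat.mono_iff_injective _).2 ?_
    intro x y hxy
    obtain ⟨a, rfl⟩ := Submodule.Quotient.mk_surjective _ x
    obtain ⟨b, rfl⟩ := Submodule.Quotient.mk_surjective _ y
    have h1 : (LinearMap.lsmul R (R ⧸ I) r) (Submodule.Quotient.mk a) =
      (LinearMap.lsmul R (R ⧸ I) r) (Submodule.Quotient.mk b) := hxy
    rw [LinearMap.lsmul_apply, LinearMap.lsmul_apply, ← Submodule.Quotient.mk_smul,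
      ← Submodule.Quotient.mk_smul, Submodule.Quotient.eq] at h1
    refine (Submodule.Quotient.eq I).2 (hr _ ?_)
    rw [mul_sub]
    exact h1
  epi_g := by
    refine (ModuleCat.epi_iff_surjective _).2 ?_
    exact Submodule.factor_surjective hII

private theorem descend {I I' : Ideal R} {r : R} (hII : I ≤ I')
    (h : ∀ a, a ∈ I' ↔ ∃ b, a - b * r ∈ I) (hr : ∀ a, r * a ∈ I → a ∈ I) (N : ModuleCat.{0} R)
    (i : ℕ) (h0 : Subsingleton (Ext N (Md I) i)) (h1 : Subsingleton (Ext N (Md I) (i + 1))) :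
    Subsingleton (Ext N (Md I') i) := by
  have zero1 := AddCommGrpCat.isZero_of_iff_subsingleton.mpr h0
  have zero2 := AddCommGrpCat.isZero_of_iff_subsingleton.mpr h1
  exact AddCommGrpCat.subsingleton_of_isZero <| ShortComplex.Exact.isZero_of_both_zeros
    ((Ext.covariant_sequence_exact₃' N (ses_short hII h hr)) i (i + 1) rfl)
    (zero1.eq_zero_of_src _) (zero2.eq_zero_of_tgt _)

private theorem ascend {I I' : Ideal R} {r : R} (hII : I ≤ I')
    (h : ∀ a, a ∈ I' ↔ ∃ b, a - b * r ∈ I) (hr : ∀ a, r * a ∈ I → a ∈ I) (N : ModuleCat.{0} R)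
    (hN : r ∈ Module.annihilator R N)
    (i : ℕ) (h0 : Subsingleton (Ext N (Md I') i)) :
    Subsingleton (Ext N (Md I) (i + 1)) := by
  have hmono : Mono (AddCommGrpCat.ofHom ((Ext.mk₀ (ses hII h).f).postcomp N
      (add_zero (i + 1)))) := by
    apply (Ext.covariant_sequence_exact₁' N (ses_short hII h hr) i (i + 1)
            rfl).mono_g ((AddCommGrpCat.isZero_of_iff_subsingleton.mpr h0).eq_zero_of_src _)
  have hz : AddCommGrpCat.ofHom ((Ext.mk₀ (ses hII h).f).postcomp N (add_zero (i + 1))) = 0 :=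
    Ext.postcomp_smul_id_eq_zero_of_mem_annihilator hN (i + 1)
  exact AddCommGrpCat.subsingleton_of_isZero (Limits.IsZero.of_mono_eq_zero _ hz)

private theorem base {I : Ideal R} {r : R} (hr : ∀ a, r * a ∈ I → a ∈ I) (N : ModuleCat.{0} R)
    (hN : r ∈ Module.annihilator R N) : Subsingleton (Ext N (Md I) 0) := by
  have : Subsingleton (N →ₗ[R] (R ⧸ I)) := by
    refine ⟨fun f g => LinearMap.ext fun x => ?_⟩
    have key : ∀ f : N →ₗ[R] (R ⧸ I), f x = 0 := by
      intro f
      obtain ⟨a, ha⟩ := Submodule.Quotient.mk_surjective _ (f x)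
      have h1 : r • f x = 0 := by
        rw [← map_smul, Module.mem_annihilator.1 hN x, map_zero]
      rw [← ha, ← Submodule.Quotient.mk_smul, Submodule.Quotient.mk_eq_zero, smul_eq_mul] at h1
      rw [← ha, Submodule.Quotient.mk_eq_zero]
      exact hr a h1
    rw [key f, key g]
  exact (Ext.addEquiv₀.trans ModuleCat.homAddEquiv).subsingleton

end general

private theorem J_mono (f : Fin 4 → S4) {a b : ℕ} (h : a ≤ b) : J f a ≤ J f b := by
  unfold J
  refine Ideal.span_mono (Set.image_mono fun i hi => ?_)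
  exact lt_of_lt_of_le hi h

private theorem J_zero (f : Fin 4 → S4) : J f 0 = ⊥ := by
  unfold J
  simp

private theorem regX (i : Fin 4) (a : S4) (h : X i * a ∈ J X i) : a ∈ J X i := by
  classical
  unfold J at h ⊢
  rw [mem_ideal_span_X_image] at h ⊢
  intro m hm
  have h1 : m + Finsupp.single i 1 ∈ (X i * a).support := by
    rw [mem_support_iff, mul_comm, coeff_mul_X]
    exact mem_support_iff.1 hm
  obtain ⟨l, hl, hl'⟩ := h _ h1
  refine ⟨l, hl, ?_⟩
  have hne : i ≠ l := by
    rintro rfl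
    exact lt_irrefl _ (show (i : ℕ) < i from hl)
  rw [Finsupp.add_apply, Finsupp.single_apply, if_neg hne, add_zero] at hl'
  exact hl'

private theorem X_ann (i : Fin 4) :
    (X i : S4) ∈ Module.annihilator S4 (Md (J (X : Fin 4 → S4) 4)) := by
  rw [Module.mem_annihilator]
  intro x
  obtain ⟨a, rfl⟩ := Submodule.Quotient.mk_surjective _ x
  have h1 : (X i : S4) • a ∈ J (X : Fin 4 → S4) 4 := by
    rw [smul_eq_mul]
    exact Ideal.mul_mem_right _ _ (Ideal.subset_span ⟨i, i.2, rfl⟩)
  exact (Submodule.Quotient.mk_eq_zero _).2 h1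

private theorem extX : ∀ d : ℕ, ∀ j, j + d = 4 → ∀ i, i < d →
    Subsingleton (Ext (Md (J (X : Fin 4 → S4) 4)) (Md (J (X : Fin 4 → S4) j)) i) := by
  intro d
  induction d with
  | zero => intro j _ i hi; omega
  | succ d ih =>
    intro j hj i hi
    have hj4 : j < 4 := by omega
    cases i with
    | zero => exact base (fun a ha => regX ⟨j, hj4⟩ a ha) _ (X_ann ⟨j, hj4⟩)
    | succ i =>
      exact ascend (r := (X ⟨j, hj4⟩ : S4)) (J_mono _ (Nat.le_succ j))
        (fun a => J_succ (X : Fin 4 → S4) ⟨j, hj4⟩ a) (fun a ha => regX ⟨j, hj4⟩ a ha) _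
        (X_ann ⟨j, hj4⟩) i (ih (j + 1) (by omega) i (by omega))

private theorem extf (f : Fin 4 → S4) (k : ℕ) (hk : k ≤ 4) (hreg : Reg f k) : ∀ j, j ≤ k →
    ∀ i, i + j < 4 → Subsingleton (Ext (Md (J (X : Fin 4 → S4) 4)) (Md (J f j)) i) := by
  intro j
  induction j with
  | zero =>
    intro _ i hi
    have h := extX 4 0 rfl i (by omega)
    rw [J_zero] at h ⊢
    exact h
  | succ j ih =>
    intro hj i hi
    have hj4 : j < 4 := by omega
    exact descend (r := f ⟨j, hj4⟩) (J_mono _ (Nat.le_succ j)) (fun a => J_succ f ⟨j, hj4⟩ a)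
      (fun a ha => hreg ⟨j, hj4⟩ (by simpa using hj) a ha) _ i (ih (by omega) i (by omega))
      (ih (by omega) (i + 1) (by omega))

theorem no_socle (f : Fin 4 → S4) (hf : ∀ i, (f i).IsHomogeneous 2) (k : ℕ) (hk : k < 4)
    (hreg : Reg f k) (G : S4) (h : ∀ j, X j * G ∈ J f k) : G ∈ J f k := by
  have h0 := extf f k hk.le hreg k le_rfl 0 (by omega)
  have h1 : Subsingleton ((Md (J (X : Fin 4 → S4) 4)) →ₗ[S4] (Md (J f k))) :=
    ((Ext.addEquiv₀ (X := Md (J (X : Fin 4 → S4) 4)) (Y := Md (J f k))).trans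
      ModuleCat.homAddEquiv).symm.toEquiv.subsingleton
  have h2 : J (X : Fin 4 → S4) 4 ≤ Submodule.comap (LinearMap.mulRight S4 G) (J f k) := by
    refine Ideal.span_le.2 ?_
    rintro _ ⟨j, _, rfl⟩
    exact h j
  have h3 : Submodule.mapQ _ _ (LinearMap.mulRight S4 G) h2 = 0 := h1.elim _ _
  have h4 := LinearMap.congr_fun h3 (Submodule.Quotient.mk 1)
  rw [Submodule.mapQ_apply, LinearMap.mulRight_apply, one_mul,
    LinearMap.zero_apply, Submodule.Quotient.mk_eq_zero] at h4
  exact h4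

end Pool.Agent.ISO
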