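import Pool.Agent.ISO.CI1

/-!
# ISO / CI2: four quadrics without common zero generate the ideal of a regular sequence

PROOF of `exists_next`.  Let `I = J f k`.  The associated primes of the module `S / I` are finitely
many (`associatedPrimes.finite`) and their union is the set of zero divisors on `S / I`
(`biUnion_associatedPrimes_eq_zero_divisors`).  No associated prime `p` contains all `q i`: if it
did, then, since the `q i` have only the common zero `0`, by the Nullstellensatz
(`MvPolynomial.vanishingIdeal_zeroLocus_eq_radical`) `X j ∈ radical (q) ⊆ p` for all `j`; but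
`p = {a | a G ∈ I}` for some `G ∉ I` and so `X j G ∈ I` for all `j`, contradicting `no_socle`.
So the subspaces `{c | ∑ c i • q i ∈ p}` of `ℂ^4` are proper; finitely many proper subspaces do not
cover `ℂ^4` (infinite field; e.g. `Subspace.biUnion_ne_univ_of_top_notMem` or
`Submodule.iUnion_ssubset...`).  (If `S / I` has no associated prime it is zero; impossible, but
then any `c` works too.)

PROOF of `exists_regular`.  Choose rows `C 0, C 1, C 2, C 3` successively by `exists_next` (the
ideals `J f k` depend only on the first `k` elements).  If `det C = 0`, some row is a linear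
combination of the preceding rows, so some `f i ∈ J f i`, `f i * 1 ∈ J f i`, hence `1 ∈ J f i`, which
is false (`eq_zero_of_mem_J` with `d = 0`).
-/

set_option autoImplicit false

noncomputable section

namespace Pool.Agent.ISO

open MvPolynomial

private theorem lin_homog (q : Fin 4 → S4) (hq : ∀ i, (q i).IsHomogeneous 2) (c : Fin 4 → ℂ) :
    (∑ j, C (c j) * q j).IsHomogeneous 2 := by
  refine IsHomogeneous.sum _ _ _ fun j _ => ?_
  have h := (isHomogeneous_C (Fin 4) (c j)).mul (hq j)
  rwa [zero_add] at h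

/-- the linear map `c ↦ ∑ c i • q i` -/
private def phi (q : Fin 4 → S4) : (Fin 4 → ℂ) →ₗ[ℂ] S4 where
  toFun c := ∑ i, C (c i) * q i
  map_add' c d := by
    rw [← Finset.sum_add_distrib]
    refine Finset.sum_congr rfl fun i _ => ?_
    rw [Pi.add_apply, C_add, add_mul]
  map_smul' r c := by
    rw [RingHom.id_apply, Finset.smul_sum]
    refine Finset.sum_congr rfl fun i _ => ?_
    rw [Pi.smul_apply, smul_eq_mul, C_mul, smul_eq_C_mul, mul_assoc]

private theorem phi_apply (q : Fin 4 → S4) (c : Fin 4 → ℂ) : phi q c = ∑ i, C (c i) * q i := rfl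

private theorem phi_single (q : Fin 4 → S4) (i : Fin 4) : phi q (Pi.single i 1) = q i := by
  classical
  rw [phi_apply, Finset.sum_eq_single i]
  · simp
  · intro j _ hj
    rw [Pi.single_eq_of_ne hj, C_0, zero_mul]
  · intro h
    exact absurd (Finset.mem_univ i) h

/-- no associated prime contains all the quadrics -/
private theorem not_all (q : Fin 4 → S4)
    (hz : ∀ p : Fin 4 → ℂ, (∀ i, eval p (q i) = 0) → p = 0)
    (f : Fin 4 → S4) (hf : ∀ i, (f i).IsHomogeneous 2) (k : ℕ) (hk : k < 4) (hreg : Reg f k)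
    (P : Ideal S4) (hP : P ∈ associatedPrimes S4 (S4 ⧸ J f k)) : ¬ ∀ i, q i ∈ P := by
  intro hall
  rw [AssociatedPrimes.mem_iff, isAssociatedPrime_iff] at hP
  obtain ⟨hpr, x, hx⟩ := hP
  have hX : ∀ j : Fin 4, (X j : S4) ∈ P := by
    intro j
    have h1 : (X j : S4) ∈ (Ideal.span (Set.range q)).radical := by
      rw [← vanishingIdeal_zeroLocus_eq_radical (K := ℂ), mem_vanishingIdeal_iff]
      intro y hy
      rw [zeroLocus_span] at hy
      have h2 : y = 0 := hz y fun i => by
        have := hy (q i) ⟨i, rfl⟩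
        rwa [aeval_eq_eval] at this
      rw [aeval_X, h2]
      rfl
    have h2 : (Ideal.span (Set.range q)).radical ≤ P := by
      rw [hpr.radical_le_iff, Ideal.span_le]
      rintro _ ⟨i, rfl⟩
      exact hall i
    exact h2 h1
  obtain ⟨G, rfl⟩ := Ideal.Quotient.mk_surjective x
  have h3 : ∀ j, X j * G ∈ J f k := by
    intro j
    have h4 := hX j
    rw [hx, Submodule.mem_colon_singleton, Submodule.mem_bot] at h4
    rw [← Ideal.Quotient.eq_zero_iff_mem, map_mul]
    exact h4
  have h5 := no_socle f hf k hk hreg G h3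
  have h6 : (1 : S4) ∈ P := by
    rw [hx, Submodule.mem_colon_singleton, Submodule.mem_bot, Ideal.Quotient.eq_zero_iff_mem.2 h5,
      smul_zero]
  exact hpr.ne_top ((Ideal.eq_top_iff_one _).2 h6)

theorem exists_next (q : Fin 4 → S4) (hq : ∀ i, (q i).IsHomogeneous 2)
    (hz : ∀ p : Fin 4 → ℂ, (∀ i, eval p (q i) = 0) → p = 0)
    (f : Fin 4 → S4) (hf : ∀ i, (f i).IsHomogeneous 2) (k : ℕ) (hk : k < 4) (hreg : Reg f k) :
    ∃ c : Fin 4 → ℂ, ∀ a : S4, (∑ i, C (c i) * q i) * a ∈ J f k → a ∈ J f k := by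
  have hfin : (associatedPrimes S4 (S4 ⧸ J f k)).Finite := associatedPrimes.finite S4 (S4 ⧸ J f k)
  have : Finite (associatedPrimes S4 (S4 ⧸ J f k)) := hfin
  let V : associatedPrimes S4 (S4 ⧸ J f k) → Subspace ℂ (Fin 4 → ℂ) := fun P =>
    (P.1.restrictScalars ℂ).comap (phi q)
  obtain ⟨c, hc⟩ : ∃ c, c ∉ ⋃ P, (V P : Set (Fin 4 → ℂ)) := by
    by_contra! hcon
    obtain ⟨P, hP⟩ := Subspace.exists_eq_top_of_iUnion_eq_univ (p := V)
      (Set.eq_univ_of_forall hcon)
    refine not_all q hz f hf k hk hreg P.1 P.2 fun i => ?_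
    have h1 : (Pi.single i 1 : Fin 4 → ℂ) ∈ V P := by
      rw [hP]
      trivial
    have h2 : phi q (Pi.single i 1) ∈ P.1 := h1
    rwa [phi_single] at h2
  refine ⟨c, fun a ha => ?_⟩
  by_contra hna
  have h1 : phi q c ∈ ⋃ p ∈ associatedPrimes S4 (S4 ⧸ J f k), (p : Set S4) := by
    rw [biUnion_associatedPrimes_eq_zero_divisors]
    refine ⟨Ideal.Quotient.mk _ a, fun h0 => hna (Ideal.Quotient.eq_zero_iff_mem.1 h0), ?_⟩
    have h2 : Ideal.Quotient.mk (J f k) (phi q c * a) = 0 := Ideal.Quotient.eq_zero_iff_mem.2 ha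
    rw [map_mul] at h2
    exact h2
  obtain ⟨P, hP, h2⟩ := Set.mem_iUnion₂.1 h1
  exact hc (Set.mem_iUnion.2 ⟨⟨P, hP⟩, h2⟩)

private theorem J_congr {f g : Fin 4 → S4} {k : ℕ} (h : ∀ i : Fin 4, (i : ℕ) < k → f i = g i) :
    J f k = J g k := by
  unfold J
  congr 1
  exact Set.image_congr fun i hi => h i hi

private theorem exists_reg (q : Fin 4 → S4) (hq : ∀ i, (q i).IsHomogeneous 2)
    (hz : ∀ p : Fin 4 → ℂ, (∀ i, eval p (q i) = 0) → p = 0) (k : ℕ) (hk : k ≤ 4) :
    ∃ A : Matrix (Fin 4) (Fin 4) ℂ, Reg (fun i => ∑ j, C (A i j) * q j) k := by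
  classical
  induction k with
  | zero => exact ⟨0, fun i hi => absurd hi (Nat.not_lt_zero _)⟩
  | succ k ih =>
    obtain ⟨A, hA⟩ := ih (by omega)
    obtain ⟨c, hc⟩ := exists_next q hq hz _ (fun i => lin_homog q hq (A i)) k (by omega) hA
    obtain ⟨i₀, hi₀⟩ : ∃ i₀ : Fin 4, (i₀ : ℕ) = k := ⟨⟨k, by omega⟩, rfl⟩
    refine ⟨Function.update A i₀ c, fun i hi a ha => ?_⟩
    have hJ : ∀ m : ℕ, m ≤ k → J (fun i => ∑ j, C (Function.update A i₀ c i j) * q j) m =
        J (fun i => ∑ j, C (A i j) * q j) m := by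
      intro m hm
      refine J_congr fun l hl => ?_
      have hne : l ≠ i₀ := by
        rintro rfl
        omega
      simp only [Function.update_of_ne hne]
    rw [hJ i (by omega)] at ha ⊢
    rcases Nat.lt_succ_iff_lt_or_eq.1 hi with h | h
    · have hne : i ≠ i₀ := by
        rintro rfl
        omega
      simp only [Function.update_of_ne hne] at ha
      exact hA i h a ha
    · have he : i = i₀ := Fin.ext (by omega)
      subst he
      simp only [Function.update_self] at ha
      rw [h] at ha ⊢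
      exact hc a ha

theorem exists_regular (q : Fin 4 → S4) (hq : ∀ i, (q i).IsHomogeneous 2)
    (hz : ∀ p : Fin 4 → ℂ, (∀ i, eval p (q i) = 0) → p = 0) :
    ∃ A : Matrix (Fin 4) (Fin 4) ℂ, A.det ≠ 0 ∧ Reg (fun i => ∑ j, C (A i j) * q j) 4 := by
  classical
  obtain ⟨A, hA⟩ := exists_reg q hq hz 4 le_rfl
  refine ⟨A, fun hdet => ?_, hA⟩
  obtain ⟨v, hv, hv0⟩ := Matrix.exists_vecMul_eq_zero_iff.2 hdet
  -- the last index with a nonzero coefficient
  have hne : (Finset.univ.filter fun i => v i ≠ 0).Nonempty := by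
    obtain ⟨i, hi⟩ := Function.ne_iff.1 hv
    exact ⟨i, Finset.mem_filter.2 ⟨Finset.mem_univ _, hi⟩⟩
  obtain ⟨i₀, hi₀, hmax⟩ := Finset.exists_max_image _ (fun i : Fin 4 => (i : ℕ)) hne
  have hvi : v i₀ ≠ 0 := (Finset.mem_filter.1 hi₀).2
  have hlast : ∀ i : Fin 4, (i₀ : ℕ) < (i : ℕ) → v i = 0 := by
    intro i hi
    by_contra hc
    have := hmax i (Finset.mem_filter.2 ⟨Finset.mem_univ _, hc⟩)
    omega
  have hsum : ∑ i, C (v i) * (∑ j, C (A i j) * q j) = 0 := by
    simp only [Finset.mul_sum]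
    rw [Finset.sum_comm]
    refine Finset.sum_eq_zero fun j _ => ?_
    have h1 := congrFun hv0 j
    rw [Matrix.vecMul, dotProduct] at h1
    have h2 : ∑ i, C (v i) * (C (A i j) * q j) = C (∑ i, v i * A i j) * q j := by
      rw [map_sum, Finset.sum_mul]
      refine Finset.sum_congr rfl fun i _ => ?_
      rw [C_mul, mul_assoc]
    rw [h2, h1]
    simp
  have hmem : (∑ j, C (A i₀ j) * q j) ∈ J (fun i => ∑ j, C (A i j) * q j) i₀ := by
    rw [mem_J]
    refine ⟨fun i => if i = i₀ then 0 else C (-(v i₀)⁻¹ * v i), fun i hi => ?_, ?_⟩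
    · dsimp only
      split_ifs with h
      · rfl
      · have : (i₀ : ℕ) ≠ (i : ℕ) := fun h' => h (Fin.ext h'.symm)
        rw [hlast i (by omega), mul_zero, C_0]
    · have h3 : ∀ i : Fin 4, (if i = i₀ then (0 : S4) else C (-(v i₀)⁻¹ * v i)) *
          (∑ j, C (A i j) * q j) = C (-(v i₀)⁻¹) * (C (v i) * (∑ j, C (A i j) * q j)) +
            if i = i₀ then (∑ j, C (A i j) * q j) else 0 := by
        intro i
        split_ifs with h
        · subst h
          rw [zero_mul, ← mul_assoc, ← C_mul, neg_mul, inv_mul_cancel₀ hvi, C_neg, C_1]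
          ring
        · rw [C_mul]
          ring
      rw [Finset.sum_congr rfl fun i _ => h3 i, Finset.sum_add_distrib, ← Finset.mul_sum, hsum,
        mul_zero, zero_add, Finset.sum_ite_eq', if_pos (Finset.mem_univ _)]
  have h1 : (1 : S4) ∈ J (fun i => ∑ j, C (A i j) * q j) i₀ :=
    hA i₀ i₀.2 1 (by rw [mul_one]; exact hmem)
  have h2 := eq_zero_of_mem_J _ (fun i => lin_homog q hq (A i)) i₀ 0 (by norm_num) 1
    (isHomogeneous_one _ _) h1
  exact one_ne_zero h2

end Pool.Agent.ISO
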