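import Mathlib

/-!
# ISO / HDim: dimensions of the spaces of quaternary forms

PROOF.  The monomials of degree `d` (e.g. the finset `Finset.finsuppAntidiag Finset.univ d`, or
`Sym (Fin 4) d`) are a basis of `homogeneousSubmodule (Fin 4) ℂ d`
(`homogeneousSubmodule_eq_finsupp_supported`, `Finsupp.supportedEquivFinsupp`), and there are
`(d+3).choose 3` of them.
-/

set_option autoImplicit false

noncomputable section

namespace Pool.Agent.ISO

open MvPolynomial

theorem finrank_forms (d : ℕ) :
    Module.finrank ℂ (homogeneousSubmodule (Fin 4) ℂ d) = (d + 3).choose 3 := by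
  classical
  have hset : ({e : Fin 4 →₀ ℕ | e.degree = d} : Set (Fin 4 →₀ ℕ)) =
      ((Finset.univ : Finset (Fin 4)).finsuppAntidiag d : Finset (Fin 4 →₀ ℕ)) := by
    ext e
    rw [Set.mem_ofPred_eq, Finset.mem_coe, Finset.mem_finsuppAntidiag, Finsupp.degree_eq_sum]
    constructor
    · intro h
      exact ⟨h, Finset.subset_univ _⟩
    · intro h
      exact h.1
  rw [homogeneousSubmodule_eq_finsupp_supported, hset,
    (AddMonoidAlgebra.supportedEquivFinsupp (R := ℂ) (S := ℂ) _).finrank_eq,
    Module.finrank_finsupp_self]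
  have hc : Fintype.card
      ((((Finset.univ : Finset (Fin 4)).finsuppAntidiag d : Finset (Fin 4 →₀ ℕ)) :
        Set (Fin 4 →₀ ℕ)) : Type) = ((Finset.univ : Finset (Fin 4)).finsuppAntidiag d).card := by
    exact Fintype.card_coe _
  rw [hc, Finset.card_finsuppAntidiag_nat_eq_choose, Finset.card_univ, Fintype.card_fin]
  have h1 : 4 + d - 1 = d + 3 := by omega
  rw [h1, Nat.choose_symm_add]

theorem finite_forms (d : ℕ) : Module.Finite ℂ (homogeneousSubmodule (Fin 4) ℂ d) := by
  exact Module.Finite.iff_fg.2 (homogeneousSubmodule_fg (Fin 4) ℂ d)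

end Pool.Agent.ISO
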