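import Pool.Agent.ISO.CI0
import Pool.Agent.ISO.HDim

/-!
# ISO / CI3: a regular sequence of four quadrics contains all quintics

PROOF of `rank_step`.  `V_d` = forms of degree `d`, `H k d` = dimension of `V_d ∩ J f k`.  The linear
map `V_d → (V_{d+2} ∩ J f (k+1)) / (V_{d+2} ∩ J f k)`, `b ↦ b * f k` (with `i : Fin 4`, `i = k`) is
surjective (`J_succ` and homogeneous components) with kernel `V_d ∩ J f k` (regularity).

PROOF of `quintic`.  `H 0 _ = 0`, `H k d = 0` for `d < 2` (`eq_zero_of_mem_J`), and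
`H (k+1) (d+2) = H k (d+2) + (d+3).choose 3 - H k d`.  So `H 1 3 = 4`, `H 1 5 = 20`, `H 2 3 = 8`,
`H 2 5 = 20 + 20 - 4 = 36`, `H 3 3 = 12`, `H 3 5 = 36 + 20 - 8 = 48`, `H 4 5 = 48 + 20 - 12 = 56 =
dim V_5`, so `V_5 ⊆ J f 4`; then `mem_J_homog`.
-/

set_option autoImplicit false

noncomputable section

namespace Pool.Agent.ISO

open MvPolynomial

/-- The dimension of the space of forms of degree `d` in the ideal `J f k`. -/
def Hf (f : Fin 4 → S4) (k d : ℕ) : ℕ :=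
  Module.finrank ℂ
    ↥(homogeneousSubmodule (Fin 4) ℂ d ⊓ (J f k).restrictScalars ℂ : Submodule ℂ S4)

/-- The space of forms of degree `d` in the ideal `J f k`. -/
private def Uf (f : Fin 4 → S4) (k d : ℕ) : Submodule ℂ S4 :=
  homogeneousSubmodule (Fin 4) ℂ d ⊓ (J f k).restrictScalars ℂ

private theorem mem_Uf (f : Fin 4 → S4) (k d : ℕ) (a : S4) :
    a ∈ Uf f k d ↔ a.IsHomogeneous d ∧ a ∈ J f k := by
  unfold Uf
  rw [Submodule.mem_inf, mem_homogeneousSubmodule, Submodule.restrictScalars_mem]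

private theorem Uf_finite (f : Fin 4 → S4) (k d : ℕ) : Module.Finite ℂ (Uf f k d) := by
  have := finite_forms d
  exact Submodule.finiteDimensional_of_le (inf_le_left : Uf f k d ≤ homogeneousSubmodule (Fin 4) ℂ d)

private theorem J_mono (f : Fin 4 → S4) {k l : ℕ} (h : k ≤ l) : J f k ≤ J f l := by
  apply Ideal.span_mono
  rintro _ ⟨i, hi, rfl⟩
  exact ⟨i, lt_of_lt_of_le hi h, rfl⟩

private theorem f_mem_J (f : Fin 4 → S4) {k : ℕ} {i : Fin 4} (h : (i : ℕ) < k) : f i ∈ J f k :=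
  Ideal.subset_span ⟨i, h, rfl⟩

theorem rank_step (f : Fin 4 → S4) (hf : ∀ i, (f i).IsHomogeneous 2) (k : ℕ) (hk : k < 4)
    (hreg : Reg f (k + 1)) (d : ℕ) :
    Hf f (k + 1) (d + 2) + Hf f k d = Hf f k (d + 2) + (d + 3).choose 3 := by
  have := finite_forms d
  have := Uf_finite f k (d + 2)
  obtain ⟨i, hi⟩ : ∃ i : Fin 4, (i : ℕ) = k := ⟨⟨k, hk⟩, rfl⟩
  let φ : (homogeneousSubmodule (Fin 4) ℂ d) × (Uf f k (d + 2)) →ₗ[ℂ] S4 :=
    ((LinearMap.mulRight ℂ (f i)).comp (homogeneousSubmodule (Fin 4) ℂ d).subtype).coprod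
      (Uf f k (d + 2)).subtype
  have hφ : ∀ x, φ x = x.1.1 * f i + x.2.1 := fun x => rfl
  have hr : LinearMap.range φ = Uf f (k + 1) (d + 2) := by
    ext a
    rw [LinearMap.mem_range, mem_Uf]
    constructor
    · rintro ⟨x, rfl⟩
      rw [hφ]
      have h1 : x.1.1.IsHomogeneous d := (mem_homogeneousSubmodule _ _).1 x.1.2
      obtain ⟨h2, h3⟩ := (mem_Uf _ _ _ _).1 x.2.2
      exact ⟨(h1.mul (hf i)).add h2,
        Ideal.add_mem _ (Ideal.mul_mem_left _ _ (f_mem_J f (by omega)))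
          (J_mono f (Nat.le_succ k) h3)⟩
    · rintro ⟨h1, h2⟩
      obtain ⟨b, hb1, hb2, hb3⟩ := mem_J_homog f hf (k + 1) d a h1 h2
      have h4 : ∑ j ∈ Finset.univ.erase i, b j * f j ∈ Uf f k (d + 2) := by
        refine Submodule.sum_mem _ fun j hj => ?_
        rw [mem_Uf]
        refine ⟨(hb2 j).mul (hf j), ?_⟩
        have hji : (j : ℕ) ≠ k := by
          rw [← hi]
          exact fun e => (Finset.mem_erase.1 hj).1 (Fin.ext e)
        rcases lt_or_gt_of_ne hji with h5 | h5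
        · exact Ideal.mul_mem_left _ _ (f_mem_J f h5)
        · rw [hb1 j h5, zero_mul]
          exact Ideal.zero_mem _
      refine ⟨(⟨b i, (mem_homogeneousSubmodule _ _).2 (hb2 i)⟩, ⟨_, h4⟩), ?_⟩
      rw [hφ, hb3]
      exact Finset.add_sum_erase _ (fun j => b j * f j) (Finset.mem_univ i)
  let ψ : LinearMap.ker φ →ₗ[ℂ] S4 :=
    ((homogeneousSubmodule (Fin 4) ℂ d).subtype.comp (LinearMap.fst ℂ _ _)).comp
      (LinearMap.ker φ).subtype
  have hψ : ∀ x, ψ x = x.1.1.1 := fun x => rfl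
  have hk' : ∀ x : LinearMap.ker φ, x.1.1.1 * f i + x.1.2.1 = 0 := fun x =>
    (hφ x.1).symm.trans (LinearMap.mem_ker.1 x.2)
  have hinj : Function.Injective ψ := by
    intro x y hxy
    rw [hψ, hψ] at hxy
    have h1 := hk' x
    have h2 := hk' y
    rw [hxy] at h1
    have h3 : x.1.2.1 = y.1.2.1 := add_left_cancel (h1.trans h2.symm)
    exact Subtype.ext (Prod.ext (Subtype.ext hxy) (Subtype.ext h3))
  have hr2 : LinearMap.range ψ = Uf f k d := by
    ext a
    rw [LinearMap.mem_range, mem_Uf]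
    constructor
    · rintro ⟨x, rfl⟩
      rw [hψ]
      refine ⟨(mem_homogeneousSubmodule _ _).1 x.1.1.2, ?_⟩
      have h1 := hreg i (by omega) x.1.1.1
      rw [hi] at h1
      refine h1 ?_
      rw [mul_comm, eq_neg_of_add_eq_zero_left (hk' x)]
      exact (J f k).neg_mem ((mem_Uf _ _ _ _).1 x.1.2.2).2
    · rintro ⟨h1, h2⟩
      have h4 : -(a * f i) ∈ Uf f k (d + 2) := by
        refine Submodule.neg_mem _ ((mem_Uf _ _ _ _).2 ⟨h1.mul (hf i), ?_⟩)
        exact Ideal.mul_mem_right _ _ h2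
      refine ⟨⟨(⟨a, (mem_homogeneousSubmodule _ _).2 h1⟩, ⟨_, h4⟩), ?_⟩, rfl⟩
      rw [LinearMap.mem_ker, hφ]
      exact add_neg_cancel _
  have h1 : Module.finrank ℂ (LinearMap.range φ) + Module.finrank ℂ (LinearMap.ker φ) =
      Module.finrank ℂ ((homogeneousSubmodule (Fin 4) ℂ d) × (Uf f k (d + 2))) :=
    LinearMap.finrank_range_add_finrank_ker φ
  have h2 : Module.finrank ℂ (LinearMap.ker φ) = Module.finrank ℂ (Uf f k d) := by
    rw [← hr2]
    exact (LinearMap.finrank_range_of_inj hinj).symm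
  rw [Module.finrank_prod, finrank_forms, h2, hr] at h1
  have e : ∀ k d, Hf f k d = Module.finrank ℂ (Uf f k d) := fun _ _ => rfl
  rw [e, e, e, h1, add_comm]

private theorem Hf_zero (f : Fin 4 → S4) (d : ℕ) : Hf f 0 d = 0 := by
  have h1 : Uf f 0 d = ⊥ := by
    rw [eq_bot_iff]
    intro a ha
    have h2 := ((mem_Uf _ _ _ _).1 ha).2
    obtain ⟨b, hb1, hb2⟩ := (mem_J f 0 a).1 h2
    rw [Submodule.mem_bot, hb2]
    exact Finset.sum_eq_zero fun i _ => by rw [hb1 i (Nat.zero_le _), zero_mul]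
  change Module.finrank ℂ (Uf f 0 d) = 0
  rw [h1]
  exact finrank_bot ℂ S4

private theorem Hf_one (f : Fin 4 → S4) (hf : ∀ i, (f i).IsHomogeneous 2) (k : ℕ) : Hf f k 1 = 0 := by
  have h1 : Uf f k 1 = ⊥ := by
    rw [eq_bot_iff]
    intro a ha
    obtain ⟨h2, h3⟩ := (mem_Uf _ _ _ _).1 ha
    exact (Submodule.mem_bot ℂ).2 (eq_zero_of_mem_J f hf k 1 (by norm_num) a h2 h3)
  change Module.finrank ℂ (Uf f k 1) = 0
  rw [h1]
  exact finrank_bot ℂ S4

theorem quintic (f : Fin 4 → S4) (hf : ∀ i, (f i).IsHomogeneous 2) (hreg : Reg f 4) (G : S4)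
    (hG : G.IsHomogeneous 5) :
    ∃ a : Fin 4 → S4, (∀ i, (a i).IsHomogeneous 3) ∧ G = ∑ i, a i * f i := by
  have hr : ∀ k, k ≤ 4 → Reg f k := fun k hk i hi => hreg i (lt_of_lt_of_le hi hk)
  have e1 := rank_step f hf 0 (by norm_num) (hr 1 (by norm_num)) 1
  have e2 := rank_step f hf 1 (by norm_num) (hr 2 (by norm_num)) 1
  have e3 := rank_step f hf 2 (by norm_num) (hr 3 (by norm_num)) 1
  have e5 := rank_step f hf 0 (by norm_num) (hr 1 (by norm_num)) 3
  have e6 := rank_step f hf 1 (by norm_num) (hr 2 (by norm_num)) 3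
  have e7 := rank_step f hf 2 (by norm_num) (hr 3 (by norm_num)) 3
  have e8 := rank_step f hf 3 (by norm_num) (hr 4 (by norm_num)) 3
  have c1 : (1 + 3).choose 3 = 4 := by decide
  have c2 : (3 + 3).choose 3 = 20 := by decide
  have c3 : (5 + 3).choose 3 = 56 := by decide
  rw [c1] at e1 e2 e3
  rw [c2] at e5 e6 e7 e8
  simp only [Nat.zero_add, Nat.reduceAdd, Hf_zero, Hf_one f hf] at e1 e2 e3 e5 e6 e7 e8
  have h56 : Module.finrank ℂ (Uf f 4 5) = 56 := by
    change Hf f 4 5 = 56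
    omega
  have h8 : Module.finrank ℂ (homogeneousSubmodule (Fin 4) ℂ 5) = 56 := by
    rw [finrank_forms, c3]
  have := finite_forms 5
  have heq : Uf f 4 5 = homogeneousSubmodule (Fin 4) ℂ 5 :=
    Submodule.eq_of_le_of_finrank_eq inf_le_left (h56.trans h8.symm)
  have hmem : G ∈ Uf f 4 5 := by
    rw [heq]
    exact (mem_homogeneousSubmodule _ _).2 hG
  obtain ⟨b, -, hb2, hb3⟩ := mem_J_homog f hf 4 3 G hG ((mem_Uf _ _ _ _).1 hmem).2
  exact ⟨b, hb2, hb3⟩

end Pool.Agent.ISO
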