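import Pool.Agent.ISO.CI0

/-!
# ISO / CI4: syzygies of a regular sequence of four quadrics

PROOF of `syz_lin`.  Suppose `∑ a i * f i = 0` with `a i` linear forms.  `a 3 * f 3 ∈ J f 3`, so
`a 3 ∈ J f 3`, so `a 3 = 0` (`eq_zero_of_mem_J`); then `a 2 * f 2 ∈ J f 2`, etc.

PROOF of `syz_cub`.  `a 3 ∈ J f 3`: `a 3 = ∑_{j<3} L3j f j` with
linear forms (`mem_J_homog`).  Put `L 3 j = L3j`, `L j 3 = - L3j`.  Then
`∑_{j<3} (a j + L3j f 3) f j = 0`; so `a 2 + L32 f 3 ∈ J f 2`, `a 2 + L32 f 3 = L20 f 0 + L21 f 1`;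
`L 2 0, L 2 1` and their negatives; `(a 0 + L30 f 3 + L20 f 2) f 0 + (a 1 + L31 f 3 + L21 f 2) f 1 =
0`; so `a 1 + L31 f 3 + L21 f 2 = L10 f 0` and `a 0 + L30 f 3 + L20 f 2 + L10 f 1 = 0` (`f 0 ≠ 0`).
So with `L` antisymmetric: `a i = ∑ j, L i j * f j`.
-/

set_option autoImplicit false

noncomputable section

namespace Pool.Agent.ISO

open MvPolynomial

private theorem fJ (f : Fin 4 → S4) (j : Fin 4) (k : ℕ) (hj : (j : ℕ) < k) (b : S4) :
    b * f j ∈ J f k :=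
  Ideal.mul_mem_left _ _ (Ideal.subset_span ⟨j, hj, rfl⟩)

theorem syz_lin (f : Fin 4 → S4) (hf : ∀ i, (f i).IsHomogeneous 2) (hreg : Reg f 4)
    (a : Fin 4 → S4) (ha : ∀ i, (a i).IsHomogeneous 1) (h : ∑ i, a i * f i = 0) (i : Fin 4) :
    a i = 0 := by
  rw [Fin.sum_univ_four] at h
  have h3 : a 3 = 0 := by
    refine eq_zero_of_mem_J f hf 3 1 (by norm_num) (a 3) (ha 3) (hreg 3 (by decide) (a 3) ?_)
    have e : f 3 * a 3 = (-a 0) * f 0 + (-a 1) * f 1 + (-a 2) * f 2 := by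
      linear_combination h
    rw [e]
    exact add_mem (add_mem (fJ f 0 3 (by decide) _) (fJ f 1 3 (by decide) _))
      (fJ f 2 3 (by decide) _)
  rw [h3] at h
  have h2 : a 2 = 0 := by
    refine eq_zero_of_mem_J f hf 2 1 (by norm_num) (a 2) (ha 2) (hreg 2 (by decide) (a 2) ?_)
    have e : f 2 * a 2 = (-a 0) * f 0 + (-a 1) * f 1 := by
      linear_combination h
    rw [e]
    exact add_mem (fJ f 0 2 (by decide) _) (fJ f 1 2 (by decide) _)
  rw [h2] at h
  have h1 : a 1 = 0 := by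
    refine eq_zero_of_mem_J f hf 1 1 (by norm_num) (a 1) (ha 1) (hreg 1 (by decide) (a 1) ?_)
    have e : f 1 * a 1 = (-a 0) * f 0 := by
      linear_combination h
    rw [e]
    exact fJ f 0 1 (by decide) _
  rw [h1] at h
  have h0 : a 0 = 0 := by
    refine eq_zero_of_mem_J f hf 0 1 (by norm_num) (a 0) (ha 0) (hreg 0 (by decide) (a 0) ?_)
    have e : f 0 * a 0 = 0 := by
      linear_combination h
    rw [e]
    exact zero_mem _
  fin_cases i
  · exact h0
  · exact h1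
  · exact h2
  · exact h3

theorem syz_cub (f : Fin 4 → S4) (hf : ∀ i, (f i).IsHomogeneous 2) (hreg : Reg f 4)
    (a : Fin 4 → S4) (ha : ∀ i, (a i).IsHomogeneous 3) (h : ∑ i, a i * f i = 0) :
    ∃ L : Fin 4 → Fin 4 → S4, (∀ i j, (L i j).IsHomogeneous 1) ∧ (∀ i j, L i j = - L j i) ∧
      ∀ i, a i = ∑ j, L i j * f j := by
  rw [Fin.sum_univ_four] at h
  have hprod : ∀ (b : S4) (j : Fin 4), b.IsHomogeneous 1 → (b * f j).IsHomogeneous 3 :=
    fun b j hb => hb.mul (hf j)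
  -- the last one
  have m3 : a 3 ∈ J f 3 := by
    refine hreg 3 (by decide) (a 3) ?_
    have e : f 3 * a 3 = (-a 0) * f 0 + (-a 1) * f 1 + (-a 2) * f 2 := by
      linear_combination h
    rw [e]
    exact add_mem (add_mem (fJ f 0 3 (by decide) _) (fJ f 1 3 (by decide) _))
      (fJ f 2 3 (by decide) _)
  obtain ⟨b, hb0, hb1, hb⟩ := mem_J_homog f hf 3 1 (a 3) (ha 3) m3
  rw [Fin.sum_univ_four, hb0 3 (by decide), zero_mul, add_zero] at hb
  have m2 : a 2 + b 2 * f 3 ∈ J f 2 := by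
    refine hreg 2 (by decide) _ ?_
    have e : f 2 * (a 2 + b 2 * f 3) =
        (-(a 0 + b 0 * f 3)) * f 0 + (-(a 1 + b 1 * f 3)) * f 1 := by
      linear_combination h - f 3 * hb
    rw [e]
    exact add_mem (fJ f 0 2 (by decide) _) (fJ f 1 2 (by decide) _)
  obtain ⟨c, hc0, hc1, hc⟩ := mem_J_homog f hf 2 1 (a 2 + b 2 * f 3)
    ((ha 2).add (hprod _ _ (hb1 2))) m2
  rw [Fin.sum_univ_four, hc0 3 (by decide), hc0 2 (by decide), zero_mul, add_zero, zero_mul,
    add_zero] at hc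
  have m1 : a 1 + b 1 * f 3 + c 1 * f 2 ∈ J f 1 := by
    refine hreg 1 (by decide) _ ?_
    have e : f 1 * (a 1 + b 1 * f 3 + c 1 * f 2) =
        (-(a 0 + b 0 * f 3 + c 0 * f 2)) * f 0 := by
      linear_combination h - f 3 * hb - f 2 * hc
    rw [e]
    exact fJ f 0 1 (by decide) _
  obtain ⟨d, hd0, hd1, hd⟩ := mem_J_homog f hf 1 1 (a 1 + b 1 * f 3 + c 1 * f 2)
    (((ha 1).add (hprod _ _ (hb1 1))).add (hprod _ _ (hc1 1))) m1
  rw [Fin.sum_univ_four, hd0 3 (by decide), hd0 2 (by decide), hd0 1 (by decide), zero_mul,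
    add_zero, zero_mul, add_zero, zero_mul, add_zero] at hd
  have m0 : a 0 + b 0 * f 3 + c 0 * f 2 + d 0 * f 1 ∈ J f 0 := by
    refine hreg 0 (by decide) _ ?_
    have e : f 0 * (a 0 + b 0 * f 3 + c 0 * f 2 + d 0 * f 1) = 0 := by
      linear_combination h - f 3 * hb - f 2 * hc - f 1 * hd
    rw [e]
    exact zero_mem _
  obtain ⟨e, he0, he⟩ := (mem_J f 0 _).1 m0
  have he' : a 0 + b 0 * f 3 + c 0 * f 2 + d 0 * f 1 = 0 := by
    rw [he]
    exact Finset.sum_eq_zero fun i _ => by rw [he0 i (Nat.zero_le _), zero_mul]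
  refine ⟨![![0, -d 0, -c 0, -b 0], ![d 0, 0, -c 1, -b 1], ![c 0, c 1, 0, -b 2],
    ![b 0, b 1, b 2, 0]], ?_, ?_, ?_⟩
  · have hz : (0 : S4).IsHomogeneous 1 := isHomogeneous_zero _ _ _
    intro i j
    fin_cases i <;> fin_cases j
    · exact hz
    · exact (hd1 0).neg
    · exact (hc1 0).neg
    · exact (hb1 0).neg
    · exact hd1 0
    · exact hz
    · exact (hc1 1).neg
    · exact (hb1 1).neg
    · exact hc1 0
    · exact hc1 1
    · exact hz
    · exact (hb1 2).neg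
    · exact hb1 0
    · exact hb1 1
    · exact hb1 2
    · exact hz
  · intro i j
    fin_cases i <;> fin_cases j <;> simp
  · intro i
    rw [Fin.sum_univ_four]
    fin_cases i
    · change a 0 = 0 * f 0 + (-d 0) * f 1 + (-c 0) * f 2 + (-b 0) * f 3
      linear_combination he'
    · change a 1 = d 0 * f 0 + 0 * f 1 + (-c 1) * f 2 + (-b 1) * f 3
      linear_combination hd
    · change a 2 = c 0 * f 0 + c 1 * f 1 + 0 * f 2 + (-b 2) * f 3
      linear_combination hc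
    · change a 3 = b 0 * f 0 + b 1 * f 1 + b 2 * f 2 + 0 * f 3
      linear_combination hb

end Pool.Agent.ISO
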