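import Pool.Agent.ISO.CI2
import Pool.Agent.ISO.CI3
import Pool.Agent.ISO.CI4

/-!
# ISO / CI5: quadrics without common zero: quintics and syzygies

PROOF.  `exists_regular` gives an invertible `A` with `f = A q` regular, `f i = ∑ j, A i j q j`,
`q i = ∑ j, A⁻¹ i j f j`.  `ci_surj`: `quintic` for `f` and substitute.  `ci_lin`: `∑ a i q i =
∑ j (∑ i, a i A⁻¹ i j) f j = 0`, so by `syz_lin` `∑ i, a i A⁻¹ i j = 0` for all `j`, so `a = 0`.
`ci_cub`: `b j = ∑ i, a i A⁻¹ i j`, `syz_cub` gives `b j = ∑ l, L j l f l`; `a i = ∑ j, b j A j i =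
∑ m (∑ j l, A j i L j l A l m) q m`, the new matrix `Aᵀ L A` is antisymmetric.  In characteristic
zero antisymmetric gives zero diagonal.
-/

set_option autoImplicit false

noncomputable section

namespace Pool.Agent.ISO

open MvPolynomial

private abbrev mc (A : Matrix (Fin 4) (Fin 4) ℂ) : Matrix (Fin 4) (Fin 4) S4 :=
  A.map (C : ℂ →+* MvPolynomial (Fin 4) ℂ)

private theorem mc_mul (A B : Matrix (Fin 4) (Fin 4) ℂ) : mc (A * B) = mc A * mc B :=
  Matrix.map_mul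

private theorem mc_one : mc 1 = 1 := by
  simp [mc]

private theorem hom_C_mul {d : ℕ} {g : S4} (c : ℂ) (hg : g.IsHomogeneous d) :
    ((C c : S4) * g).IsHomogeneous d := by
  have h := (isHomogeneous_C (Fin 4) c).mul hg
  rwa [zero_add] at h

private theorem hom_mul_C {d : ℕ} {g : S4} (c : ℂ) (hg : g.IsHomogeneous d) :
    (g * (C c : S4)).IsHomogeneous d := by
  rw [mul_comm]
  exact hom_C_mul c hg

private theorem hom_mulVec {d : ℕ} (A : Matrix (Fin 4) (Fin 4) ℂ) (q : Fin 4 → S4)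
    (hq : ∀ i, (q i).IsHomogeneous d) (i : Fin 4) : ((mc A).mulVec q i).IsHomogeneous d :=
  IsHomogeneous.sum _ _ _ fun j _ => hom_C_mul (A i j) (hq j)

private theorem hom_vecMul {d : ℕ} (A : Matrix (Fin 4) (Fin 4) ℂ) (q : Fin 4 → S4)
    (hq : ∀ i, (q i).IsHomogeneous d) (i : Fin 4) : (Matrix.vecMul q (mc A) i).IsHomogeneous d :=
  IsHomogeneous.sum _ _ _ fun j _ => hom_mul_C (A j i) (hq j)

private theorem setup (q : Fin 4 → S4) (hq : ∀ i, (q i).IsHomogeneous 2)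
    (hz : ∀ p : Fin 4 → ℂ, (∀ i, eval p (q i) = 0) → p = 0) :
    ∃ A B : Matrix (Fin 4) (Fin 4) ℂ, mc B * mc A = 1 ∧ (∀ i, ((mc A).mulVec q i).IsHomogeneous 2) ∧
      Reg ((mc A).mulVec q) 4 ∧ q = (mc B).mulVec ((mc A).mulVec q) := by
  obtain ⟨A, hA, hreg⟩ := exists_regular q hq hz
  have h1 : mc A⁻¹ * mc A = 1 := by
    rw [← mc_mul, Matrix.nonsing_inv_mul A (isUnit_iff_ne_zero.2 hA), mc_one]
  refine ⟨A, A⁻¹, h1, hom_mulVec A q hq, hreg, ?_⟩
  rw [Matrix.mulVec_mulVec, h1, Matrix.one_mulVec]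

theorem ci_surj (q : Fin 4 → S4) (hq : ∀ i, (q i).IsHomogeneous 2)
    (hz : ∀ p : Fin 4 → ℂ, (∀ i, eval p (q i) = 0) → p = 0) (G : S4) (hG : G.IsHomogeneous 5) :
    ∃ a : Fin 4 → S4, (∀ i, (a i).IsHomogeneous 3) ∧ G = ∑ i, a i * q i := by
  obtain ⟨A, B, h1, h2, h3, h4⟩ := setup q hq hz
  obtain ⟨a, ha, hG'⟩ := quintic ((mc A).mulVec q) h2 h3 G hG
  refine ⟨Matrix.vecMul a (mc A), hom_vecMul A a ha, ?_⟩
  have h5 : G = a ⬝ᵥ ((mc A).mulVec q) := hG'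
  rw [Matrix.dotProduct_mulVec] at h5
  exact h5

theorem ci_lin (q : Fin 4 → S4) (hq : ∀ i, (q i).IsHomogeneous 2)
    (hz : ∀ p : Fin 4 → ℂ, (∀ i, eval p (q i) = 0) → p = 0)
    (a : Fin 4 → S4) (ha : ∀ i, (a i).IsHomogeneous 1) (h : ∑ i, a i * q i = 0) (i : Fin 4) :
    a i = 0 := by
  obtain ⟨A, B, h1, h2, h3, h4⟩ := setup q hq hz
  have h5 : a ⬝ᵥ q = 0 := h
  rw [h4, Matrix.dotProduct_mulVec] at h5
  have h6 : ∀ j, Matrix.vecMul a (mc B) j = 0 :=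
    fun j => syz_lin _ h2 h3 (Matrix.vecMul a (mc B)) (hom_vecMul B a ha) h5 j
  have h7 : Matrix.vecMul a (mc B) = 0 := funext h6
  have h8 : a = Matrix.vecMul (Matrix.vecMul a (mc B)) (mc A) := by
    rw [Matrix.vecMul_vecMul, h1, Matrix.vecMul_one]
  rw [h8, h7, Matrix.zero_vecMul]
  rfl

theorem ci_cub (q : Fin 4 → S4) (hq : ∀ i, (q i).IsHomogeneous 2)
    (hz : ∀ p : Fin 4 → ℂ, (∀ i, eval p (q i) = 0) → p = 0)
    (a : Fin 4 → S4) (ha : ∀ i, (a i).IsHomogeneous 3) (h : ∑ i, a i * q i = 0) :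
    ∃ L : Fin 4 → Fin 4 → S4, (∀ i j, (L i j).IsHomogeneous 1) ∧ (∀ i j, L i j = - L j i) ∧
      ∀ i, a i = ∑ j, L i j * q j := by
  obtain ⟨A, B, h1, h2, h3, h4⟩ := setup q hq hz
  have h5 : a ⬝ᵥ q = 0 := h
  rw [h4, Matrix.dotProduct_mulVec] at h5
  obtain ⟨L, hL1, hL2, hL3⟩ := syz_cub _ h2 h3 (Matrix.vecMul a (mc B)) (hom_vecMul B a ha) h5
  let M : Matrix (Fin 4) (Fin 4) S4 := L
  have hM : M.transpose = -M := by
    ext1 i j
    exact hL2 j i
  have h7 : Matrix.vecMul a (mc B) = M.mulVec ((mc A).mulVec q) := funext hL3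
  have h8 : a = Matrix.vecMul (Matrix.vecMul a (mc B)) (mc A) := by
    rw [Matrix.vecMul_vecMul, h1, Matrix.vecMul_one]
  have h9 : a = ((mc A).transpose * M * mc A).mulVec q := by
    rw [h8, h7, ← Matrix.mulVec_transpose, Matrix.mulVec_mulVec, Matrix.mulVec_mulVec]
  have hanti : ((mc A).transpose * M * mc A).transpose = -((mc A).transpose * M * mc A) := by
    rw [Matrix.transpose_mul, Matrix.transpose_mul, Matrix.transpose_transpose, hM,
      Matrix.neg_mul, Matrix.mul_neg, Matrix.mul_assoc]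
  refine ⟨(mc A).transpose * M * mc A, fun i j => ?_, fun i j => ?_, fun i => ?_⟩
  · refine IsHomogeneous.sum _ _ _ fun k _ => hom_mul_C (A k j) ?_
    exact IsHomogeneous.sum _ _ _ fun l _ => hom_C_mul (A l i) (hL1 l k)
  · have h10 := congrFun (congrFun hanti j) i
    exact h10
  · exact congrFun h9 i

end Pool.Agent.ISO
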