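import Mathlib

/-!
# ISO / Defs: pencils of cubic surfaces without `A_n` points are isotrivial

Quaternary cubic forms are symmetric `3`-tensors `T : Fin 4 → Fin 4 → Fin 4 → ℂ`, the form being
`F(x) = ∑ T i j k x_i x_j x_k`.  Matrices act on the right, `(F · g)(x) = F(g x)`.
-/

set_option autoImplicit false

noncomputable section

namespace Pool.Agent.ISO

open Matrix

/-- Complex `4 × 4` matrices. -/
abbrev M4 : Type := Matrix (Fin 4) (Fin 4) ℂ

/-- `3`-tensors. -/
abbrev T3 : Type := Fin 4 → Fin 4 → Fin 4 → ℂ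

/-- The action of matrices on tensors (substitution `x ↦ g x` in the form). -/
def act (T : T3) (g : M4) : T3 :=
  fun i j k => ∑ a, ∑ b, ∑ c, T a b c * g a i * g b j * g c k

/-- The infinitesimal action. -/
def lie (T : T3) (Z : M4) : T3 :=
  fun i j k => ∑ a, (T a j k * Z a i + T i a k * Z a j + T i j a * Z a k)

/-- The square of the norm. -/
def nsq (T : T3) : ℝ := ∑ i, ∑ j, ∑ k, ‖T i j k‖ ^ 2

/-- The Hermitian inner product (conjugate linear in the first argument). -/
def ip (T T' : T3) : ℂ := ∑ i, ∑ j, ∑ k, (starRingEnd ℂ) (T i j k) * T' i j k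

/-- Symmetric tensors. -/
def IsSym (T : T3) : Prop := ∀ i j k, T i j k = T j i k ∧ T i j k = T i k j

/-- The value of the form at `p`. -/
def ev (T : T3) (p : Fin 4 → ℂ) : ℂ := ∑ i, ∑ j, ∑ k, T i j k * p i * p j * p k

/-- One third of the gradient of the form at `p` (for symmetric `T`). -/
def grad (T : T3) (p : Fin 4 → ℂ) (k : Fin 4) : ℂ := ∑ i, ∑ j, T i j k * p i * p j

/-- The matrix of the polar quadric of `p` (one sixth of the Hessian at `p`). -/
def pol (T : T3) (p : Fin 4 → ℂ) : M4 := Matrix.of fun j k => ∑ i, T i j k * p i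

/-- Smooth cubic forms. -/
def Sm (T : T3) : Prop := IsSym T ∧ ∀ p : Fin 4 → ℂ, p ≠ 0 → ∃ k, grad T p k ≠ 0

/-- The Kempf-Ness function: the infimum of the norms on the `SL_4`-orbit. -/
def N (T : T3) : ℝ := sInf {y | ∃ g : M4, g.det = 1 ∧ y = nsq (act T g)}

/-- Unitary matrices. -/
abbrev IsU (U : M4) : Prop := U ∈ Matrix.unitaryGroup (Fin 4) ℂ

/-- The real diagonal matrix with the entries `exp (r i)`. -/
def dexp (r : Fin 4 → ℝ) : M4 := Matrix.diagonal fun i => ((Real.exp (r i) : ℝ) : ℂ)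

/-- Infinitesimal mean value inequality (mean over the four points `t + i^k τ`). -/
def SubMean (v : ℂ → ℝ) (t : ℂ) : Prop :=
  ∃ C δ : ℝ, 0 < δ ∧ ∀ τ : ℂ, ‖τ‖ < δ →
    4 * v t - C * ‖τ‖ ^ 3 ≤ ∑ k : Fin 4, v (t + Complex.I ^ (k : ℕ) * τ)

end Pool.Agent.ISO
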