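import Pool.Agent.ISO.Near

/-!
# ISO / Fin: finitely many singular members

PROOF.  `B = {t | ¬ Sm (T0 + t T1)}` is bounded: for `t ≠ 0` `T0 + t T1 = t (T1 + t⁻¹ T0)` is smooth for
large `t` (`sm_open` at `T1`, `sm_smul`).  It is closed (`sm_open`).  Every `z ∈ B` is isolated in `B` by
`near_sing` (`T0 + t T1 = (T0 + z T1) + (t - z) T1`).  A compact set all of whose points are isolated
is finite (`IsCompact.finite` with `DiscreteTopology`, or accumulation points).
-/

set_option autoImplicit false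

noncomputable section

namespace Pool.Agent.ISO

open Matrix Filter Topology

theorem isSym_line_fin (T0 T1 : T3) (h0 : IsSym T0) (h1 : IsSym T1) (t : ℂ) :
    IsSym (T0 + t • T1) := by
  intro i j k
  refine ⟨?_, ?_⟩
  · change T0 i j k + t • T1 i j k = T0 j i k + t • T1 j i k
    rw [(h0 i j k).1, (h1 i j k).1]
  · change T0 i j k + t • T1 i j k = T0 i k j + t • T1 i k j
    rw [(h0 i j k).2, (h1 i j k).2]

theorem continuous_line_fin (T0 T1 : T3) : Continuous fun t : ℂ => T0 + t • T1 := by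
  fun_prop

theorem finite_sing {c : T3 → ℂ} (hc : CProp c) (T0 T1 : T3) (h0 : IsSym T0) (h1 : Sm T1)
    (hloc : ∀ z : ℂ, ¬ Sm (T0 + z • T1) → ∃ m G, LocalLim (T0 + z • T1) T1 m G) :
    {t : ℂ | ¬ Sm (T0 + t • T1)}.Finite := by
  have hcl : IsClosed {t : ℂ | ¬ Sm (T0 + t • T1)} := by
    have h2 : IsOpen {t : ℂ | Sm (T0 + t • T1)} := by
      rw [isOpen_iff_mem_nhds]
      intro t ht
      have h3 := ((continuous_line_fin T0 T1).tendsto t).eventually (sm_open ht)
      filter_upwards [h3] with t' ht'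
      exact ht' (isSym_line_fin T0 T1 h0 h1.1 t')
    exact h2.isClosed_compl
  have hbd : ∃ R : ℝ, ∀ t ∈ {t : ℂ | ¬ Sm (T0 + t • T1)}, ‖t‖ ≤ R := by
    have h2 : Tendsto (fun s : ℂ => T1 + s • T0) (𝓝 0) (𝓝 T1) := by
      have h3 := (continuous_line_fin T1 T0).tendsto 0
      rwa [zero_smul, add_zero] at h3
    obtain ⟨δ, hδ, hδ'⟩ := Metric.eventually_nhds_iff.1 (h2.eventually (sm_open h1))
    refine ⟨δ⁻¹, fun t ht => ?_⟩
    by_contra hcon
    rw [not_le] at hcon
    apply ht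
    have ht0 : 0 < ‖t‖ := lt_trans (inv_pos.2 hδ) hcon
    have htne : t ≠ 0 := norm_pos_iff.1 ht0
    have h3 : dist t⁻¹ 0 < δ := by
      rw [dist_zero_right, norm_inv]
      exact inv_lt_of_inv_lt₀ hδ hcon
    have h4 : Sm (T1 + t⁻¹ • T0) := hδ' h3 (isSym_line_fin T1 T0 h1.1 h0 t⁻¹)
    have h5 := sm_smul h4 t htne
    have h6 : t • (T1 + t⁻¹ • T0) = T0 + t • T1 := by
      rw [smul_add, smul_smul, mul_inv_cancel₀ htne, one_smul, add_comm]
    rwa [h6] at h5
  obtain ⟨R, hR⟩ := hbd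
  have hK : IsCompact {t : ℂ | ¬ Sm (T0 + t • T1)} := by
    refine Metric.isCompact_of_isClosed_isBounded hcl ?_
    refine (Metric.isBounded_closedBall (x := (0 : ℂ)) (r := R)).subset fun t ht => ?_
    rw [Metric.mem_closedBall, dist_zero_right]
    exact hR t ht
  by_contra hinf
  obtain ⟨z, hz, hacc⟩ := Set.Infinite.exists_accPt_of_subset_isCompact hinf hK subset_rfl
  obtain ⟨m, G, hG⟩ := hloc z hz
  obtain ⟨ε, A, A', B, hε, -, hnear⟩ := near_sing hc (T0 + z • T1) T1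
    (isSym_line_fin T0 T1 h0 h1.1 z) h1.1 m G hG
  rw [accPt_iff_frequently] at hacc
  obtain ⟨y, ⟨hyz, hyB⟩, hyε⟩ := (hacc.and_eventually (Metric.ball_mem_nhds z hε)).exists
  apply hyB
  have h3 : ‖y - z‖ < ε := by
    rw [← dist_eq_norm]
    exact hyε
  have h4 := (hnear (y - z) (sub_ne_zero.2 hyz) h3).1
  have h5 : T0 + z • T1 + (y - z) • T1 = T0 + y • T1 := by
    rw [sub_smul]
    abel
  rwa [h5] at h4

end Pool.Agent.ISO
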