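import Pool.Agent.ISO.Defs

/-!
# ISO / Four: four point means

PROOF of `four_log`.  `ψ τ = Complex.log (h τ / h 0)` is analytic at `0` with `ψ 0 = 0` and
`Real.log ‖h τ‖ = Real.log ‖h 0‖ + (ψ τ).re` near `0`.  Taylor: `ψ τ = a τ + b τ² + O(‖τ‖³)`, and
`∑_k I^k = 0`, `∑_k (I^k)² = 0`.

PROOF of `four_nsq`: expand `nsq` (sesquilinear): `nsq (T0 + τ u + τ² R) = nsq T0 + 2 Re (τ ip T0 u)
+ ‖τ‖² nsq u + 2 Re (τ² ip T0 R) + O(‖τ‖³)`; here `ip T0 u = 0` is assumed, and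
`ip T0 (R (I^k τ)) = ip T0 (R 0) + O(‖τ‖)`.

PROOF of `four_sq`: a direct computation.
-/

set_option autoImplicit false

noncomputable section

namespace Pool.Agent.ISO

open Complex

private theorem norm_Ik (k : ℕ) (τ : ℂ) : ‖I ^ k * τ‖ = ‖τ‖ := by
  rw [norm_mul, norm_pow, Complex.norm_I, one_pow, one_mul]

private theorem four_an (g : ℂ → ℂ) (hg : AnalyticAt ℂ g 0) :
    ∃ C δ : ℝ, 0 < δ ∧ ∀ τ : ℂ, ‖τ‖ < δ →
      ‖∑ k : Fin 4, g (I ^ (k : ℕ) * τ) - 4 * g 0‖ ≤ C * ‖τ‖ ^ 3 := by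
  obtain ⟨p, hp⟩ := hg
  obtain ⟨C, hC⟩ := (hp.isBigO_sub_partialSum_pow 3).bound
  obtain ⟨δ, hδ, hb⟩ := Metric.eventually_nhds_iff.1 hC
  have h0 : g 0 = p.coeff 0 := by
    have := hp.coeff_zero (fun _ => (1 : ℂ))
    rw [← this]
    simp [FormalMultilinearSeries.apply_eq_pow_smul_coeff]
  refine ⟨4 * C, δ, hδ, fun τ hτ => ?_⟩
  have hk : ∀ k : Fin 4, ‖g (I ^ (k : ℕ) * τ) - (p.coeff 0 + I ^ (k : ℕ) * τ * p.coeff 1 +
      (I ^ (k : ℕ) * τ) ^ 2 * p.coeff 2)‖ ≤ C * ‖τ‖ ^ 3 := by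
    intro k
    have h1 := hb (y := I ^ (k : ℕ) * τ) (by rwa [dist_zero_right, norm_Ik])
    have h2 : p.partialSum 3 (I ^ (k : ℕ) * τ) = p.coeff 0 + I ^ (k : ℕ) * τ * p.coeff 1 +
        (I ^ (k : ℕ) * τ) ^ 2 * p.coeff 2 := by
      simp [FormalMultilinearSeries.partialSum, Finset.sum_range_succ,
        FormalMultilinearSeries.apply_eq_pow_smul_coeff]
    rw [zero_add, h2, norm_pow, norm_norm, norm_Ik] at h1
    exact h1
  have hs : ∑ k : Fin 4, g (I ^ (k : ℕ) * τ) - 4 * g 0 =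
      ∑ k : Fin 4, (g (I ^ (k : ℕ) * τ) - (p.coeff 0 + I ^ (k : ℕ) * τ * p.coeff 1 +
      (I ^ (k : ℕ) * τ) ^ 2 * p.coeff 2)) := by
    rw [h0]
    simp only [Fin.sum_univ_four, Fin.val_zero, Fin.val_one, Fin.val_two]
    have e3 : ((3 : Fin 4) : ℕ) = 3 := rfl
    rw [e3]
    have hI2 : I ^ 2 = -1 := Complex.I_sq
    have hI3 : I ^ 3 = -I := by
      rw [pow_succ, hI2]
      ring
    rw [hI2, hI3, pow_zero, pow_one]
    linear_combination (2 * τ ^ 2 * p.coeff 2) * hI2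
  rw [hs]
  refine (norm_sum_le _ _).trans ?_
  refine (Finset.sum_le_sum fun k _ => hk k).trans (le_of_eq ?_)
  rw [Finset.sum_const, Finset.card_univ, Fintype.card_fin, nsmul_eq_mul]
  push_cast
  ring

theorem four_log (h : ℂ → ℂ) (hh : AnalyticAt ℂ h 0) (h0 : h 0 ≠ 0) :
    ∃ C δ : ℝ, 0 < δ ∧ ∀ τ : ℂ, ‖τ‖ < δ →
      |∑ k : Fin 4, Real.log ‖h (I ^ (k : ℕ) * τ)‖ - 4 * Real.log ‖h 0‖| ≤ C * ‖τ‖ ^ 3 := by
  have hg : AnalyticAt ℂ (fun τ => Complex.log (h τ / h 0)) 0 := by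
    refine AnalyticAt.clog (hh.div analyticAt_const h0) ?_
    rw [div_self h0]
    exact Complex.one_mem_slitPlane
  obtain ⟨C, δ, hδ, hb⟩ := four_an _ hg
  obtain ⟨δ', hδ', hb'⟩ := Metric.eventually_nhds_iff.1
    (hh.continuousAt.eventually_ne h0)
  refine ⟨C, min δ δ', lt_min hδ hδ', fun τ hτ => ?_⟩
  have h1 := hb τ (lt_of_lt_of_le hτ (min_le_left _ _))
  have hlog : ∀ k : Fin 4, Real.log ‖h (I ^ (k : ℕ) * τ)‖ =
      Real.log ‖h 0‖ + (Complex.log (h (I ^ (k : ℕ) * τ) / h 0)).re := by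
    intro k
    have hne : h (I ^ (k : ℕ) * τ) ≠ 0 := by
      refine hb' ?_
      rw [dist_zero_right, norm_Ik]
      exact lt_of_lt_of_le hτ (min_le_right _ _)
    rw [Complex.log_re, norm_div, Real.log_div (norm_ne_zero_iff.2 hne) (norm_ne_zero_iff.2 h0)]
    ring
  have h2 : ∑ k : Fin 4, Real.log ‖h (I ^ (k : ℕ) * τ)‖ - 4 * Real.log ‖h 0‖ =
      (∑ k : Fin 4, Complex.log (h (I ^ (k : ℕ) * τ) / h 0) -
        4 * Complex.log (h 0 / h 0)).re := by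
    rw [div_self h0, Complex.log_one, mul_zero, sub_zero, Complex.re_sum,
      Finset.sum_congr rfl fun k _ => hlog k, Finset.sum_add_distrib, Finset.sum_const,
      Finset.card_univ, Fintype.card_fin, nsmul_eq_mul]
    push_cast
    ring
  rw [h2]
  exact (Complex.abs_re_le_norm _).trans h1

/-- `log |t - z|` and `|t - z|²` and quadratic polynomials. -/
theorem subMean_log (z t : ℂ) (h : t ≠ z) : SubMean (fun s => Real.log ‖s - z‖) t := by
  obtain ⟨C, δ, hδ, hb⟩ := four_log (fun τ => t + τ - z)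
    ((analyticAt_const.add analyticAt_id).sub analyticAt_const)
    (by rw [add_zero]; exact sub_ne_zero.2 h)
  refine ⟨C, δ, hδ, fun τ hτ => ?_⟩
  have h1 := hb τ hτ
  rw [add_zero] at h1
  have h2 := (abs_le.1 h1).1
  linarith

/-- The four point mean of a real quadratic polynomial in `Re (β (t - p))`, `Im (β (t - p))`. -/
theorem four_quad (β p : ℂ) (a b c : ℝ) (hβ : ‖β‖ = 1) (t τ : ℂ) :
    ∑ k : Fin 4, (a * (β * (t + I ^ (k : ℕ) * τ - p)).re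
        + b * (β * (t + I ^ (k : ℕ) * τ - p)).re ^ 2
        + c * (β * (t + I ^ (k : ℕ) * τ - p)).im ^ 2)
      = 4 * (a * (β * (t - p)).re + b * (β * (t - p)).re ^ 2 + c * (β * (t - p)).im ^ 2)
        + 2 * (b + c) * ‖τ‖ ^ 2 := by
  have e3 : ((3 : Fin 4) : ℕ) = 3 := rfl
  have hI2 : I ^ 2 = -1 := Complex.I_sq
  have hI3 : I ^ 3 = -I := by
    rw [pow_succ, hI2]
    ring
  have hβ2 : β.re * β.re + β.im * β.im = 1 := by
    have h1 : ‖β‖ ^ 2 = 1 := by rw [hβ, one_pow]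
    rwa [Complex.sq_norm, Complex.normSq_apply] at h1
  have hτ : ‖τ‖ ^ 2 = τ.re * τ.re + τ.im * τ.im := by
    rw [Complex.sq_norm, Complex.normSq_apply]
  rw [hτ]
  simp only [Fin.sum_univ_four, Fin.val_zero, Fin.val_one, Fin.val_two, e3, hI2, hI3, pow_zero,
    pow_one, Complex.mul_re, Complex.mul_im, Complex.add_re, Complex.add_im, Complex.sub_re,
    Complex.sub_im, Complex.I_re, Complex.I_im, Complex.neg_re, Complex.neg_im, Complex.one_re,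
    Complex.one_im]
  linear_combination (2 * (b + c) * (τ.re * τ.re + τ.im * τ.im)) * hβ2

end Pool.Agent.ISO
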