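import Pool.Agent.ISO.Uni

/-!
# ISO / FourN: four point mean of the norm of a polynomial curve of tensors

PROOF.  Expand `nsq` (sesquilinear): `nsq (T0 + τ u + τ² R) = nsq T0 + 2 Re (τ ip T0 u) +
‖τ‖² nsq u + 2 Re (τ² ip T0 R) + O(‖τ‖³)`; here `ip T0 u = 0` is assumed, `∑_k (I^k)² = 0`, and
`‖R (I^k τ) - R0‖ ≤ B ‖τ‖`.
-/

set_option autoImplicit false

noncomputable section

namespace Pool.Agent.ISO

open Complex

private theorem fn_entry (T : T3) (i j k : Fin 4) : ‖T i j k‖ ≤ ‖T‖ :=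
  ((norm_le_pi_norm (T i j) k).trans (norm_le_pi_norm (T i) j)).trans (norm_le_pi_norm T i)

private theorem fn_ip_le (T T' : T3) : ‖ip T T'‖ ≤ 64 * (‖T‖ * ‖T'‖) := by
  unfold ip
  have h : ∀ i j k, ‖(starRingEnd ℂ) (T i j k) * T' i j k‖ ≤ ‖T‖ * ‖T'‖ := by
    intro i j k
    rw [norm_mul, RCLike.norm_conj]
    exact mul_le_mul (fn_entry T i j k) (fn_entry T' i j k) (norm_nonneg _) (norm_nonneg _)
  have h2 : ‖∑ i, ∑ j, ∑ k, (starRingEnd ℂ) (T i j k) * T' i j k‖ ≤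
      ∑ _i : Fin 4, ∑ _j : Fin 4, ∑ _k : Fin 4, ‖T‖ * ‖T'‖ := by
    refine norm_sum_le_of_le _ fun i _ => norm_sum_le_of_le _ fun j _ =>
      norm_sum_le_of_le _ fun k _ => h i j k
  refine h2.trans (le_of_eq ?_)
  simp only [Finset.sum_const, Finset.card_univ, Fintype.card_fin, nsmul_eq_mul]
  push_cast
  ring

private theorem fn_nsq_le (T : T3) : nsq T ≤ 64 * ‖T‖ ^ 2 := by
  unfold nsq
  have h2 : ∑ i, ∑ j, ∑ k, ‖T i j k‖ ^ 2 ≤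
      ∑ _i : Fin 4, ∑ _j : Fin 4, ∑ _k : Fin 4, ‖T‖ ^ 2 := by
    refine Finset.sum_le_sum fun i _ => Finset.sum_le_sum fun j _ =>
      Finset.sum_le_sum fun k _ => ?_
    exact pow_le_pow_left₀ (norm_nonneg _) (fn_entry T i j k) 2
  refine h2.trans (le_of_eq ?_)
  simp only [Finset.sum_const, Finset.card_univ, Fintype.card_fin, nsmul_eq_mul]
  push_cast
  ring

private theorem fn_nsq_nonneg (T : T3) : 0 ≤ nsq T :=
  Finset.sum_nonneg fun _ _ => Finset.sum_nonneg fun _ _ => Finset.sum_nonneg fun _ _ =>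
    sq_nonneg _

private theorem fn_nsq_smul (s : ℂ) (T : T3) : nsq (s • T) = ‖s‖ ^ 2 * nsq T := by
  unfold nsq
  simp only [Finset.mul_sum, Pi.smul_apply, smul_eq_mul, norm_mul, mul_pow]

private theorem fn_ip_smul_left (s : ℂ) (T T' : T3) :
    ip (s • T) T' = (starRingEnd ℂ) s * ip T T' := by
  unfold ip
  simp only [Finset.mul_sum, Pi.smul_apply, smul_eq_mul, map_mul, mul_assoc]

private theorem fn_expand (T0 u R : T3) (h : ip T0 u = 0) (τ : ℂ) :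
    nsq (T0 + τ • u + τ ^ 2 • R) - nsq T0 - ‖τ‖ ^ 2 * nsq u =
      2 * (τ ^ 2 * ip T0 R).re + 2 * ((starRingEnd ℂ) τ * (τ ^ 2 * ip u R)).re +
        ‖τ‖ ^ 4 * nsq R := by
  rw [add_assoc, nsq_add, nsq_add, ip_add_right, ip_smul_right, ip_smul_right, h, mul_zero,
    zero_add, fn_nsq_smul, fn_nsq_smul, fn_ip_smul_left, ip_smul_right, norm_pow]
  ring

theorem four_nsq (T0 u R0 : T3) (h : ip T0 u = 0) (R : ℂ → T3) (B : ℝ)
    (hR : ∀ τ : ℂ, ‖τ‖ ≤ 1 → ‖R τ - R0‖ ≤ B * ‖τ‖) :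
    ∃ C : ℝ, ∀ τ : ℂ, ‖τ‖ ≤ 1 →
      |nsq (T0 + τ • u + τ ^ 2 • R τ) - nsq T0| ≤ C * ‖τ‖ ^ 2 ∧
      |∑ k : Fin 4, nsq (T0 + (I ^ (k : ℕ) * τ) • u + (I ^ (k : ℕ) * τ) ^ 2 • R (I ^ (k : ℕ) * τ))
        - 4 * nsq T0 - 4 * ‖τ‖ ^ 2 * nsq u| ≤ C * ‖τ‖ ^ 3 := by
  have hB : 0 ≤ B := by
    have := hR 1 (by simp)
    rw [norm_one, mul_one] at this
    exact (norm_nonneg _).trans this
  set M : ℝ := ‖R0‖ + B with hM
  have hM0 : 0 ≤ M := by positivity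
  have hRM : ∀ τ : ℂ, ‖τ‖ ≤ 1 → ‖R τ‖ ≤ M := by
    intro τ hτ
    have h1 := hR τ hτ
    have h2 : ‖R τ‖ ≤ ‖R τ - R0‖ + ‖R0‖ := by
      simpa using norm_add_le (R τ - R0) R0
    have h3 : B * ‖τ‖ ≤ B := mul_le_of_le_one_right hB hτ
    linarith
  -- the three error terms
  set c1 : ℝ := 64 * (‖T0‖ * M) with hc1
  set c2 : ℝ := 64 * (‖u‖ * M) with hc2
  set c3 : ℝ := 64 * M ^ 2 with hc3
  set c4 : ℝ := 64 * (‖T0‖ * B) with hc4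
  have hc10 : 0 ≤ c1 := by positivity
  have hc20 : 0 ≤ c2 := by positivity
  have hc30 : 0 ≤ c3 := by positivity
  have hc40 : 0 ≤ c4 := by positivity
  have hu0 := fn_nsq_nonneg u
  have b1 : ∀ τ : ℂ, ‖τ‖ ≤ 1 → |2 * (τ ^ 2 * ip T0 (R τ)).re| ≤ 2 * c1 * ‖τ‖ ^ 2 := by
    intro τ hτ
    rw [abs_mul, abs_two]
    have h1 : |(τ ^ 2 * ip T0 (R τ)).re| ≤ ‖τ‖ ^ 2 * c1 := by
      refine (Complex.abs_re_le_norm _).trans ?_
      rw [norm_mul, norm_pow]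
      refine mul_le_mul_of_nonneg_left ((fn_ip_le _ _).trans ?_) (by positivity)
      exact mul_le_mul_of_nonneg_left (mul_le_mul_of_nonneg_left (hRM τ hτ) (norm_nonneg _))
        (by norm_num)
    nlinarith
  have b2 : ∀ τ : ℂ, ‖τ‖ ≤ 1 →
      |2 * ((starRingEnd ℂ) τ * (τ ^ 2 * ip u (R τ))).re| ≤ 2 * c2 * ‖τ‖ ^ 3 := by
    intro τ hτ
    rw [abs_mul, abs_two]
    have h1 : |((starRingEnd ℂ) τ * (τ ^ 2 * ip u (R τ))).re| ≤ ‖τ‖ ^ 3 * c2 := by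
      refine (Complex.abs_re_le_norm _).trans ?_
      rw [norm_mul, norm_mul, norm_pow, RCLike.norm_conj, ← mul_assoc, ← pow_succ']
      refine mul_le_mul_of_nonneg_left ((fn_ip_le _ _).trans ?_) (by positivity)
      exact mul_le_mul_of_nonneg_left (mul_le_mul_of_nonneg_left (hRM τ hτ) (norm_nonneg _))
        (by norm_num)
    nlinarith
  have b3 : ∀ τ : ℂ, ‖τ‖ ≤ 1 → |‖τ‖ ^ 4 * nsq (R τ)| ≤ c3 * ‖τ‖ ^ 3 := by
    intro τ hτ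
    rw [abs_of_nonneg (mul_nonneg (by positivity) (fn_nsq_nonneg _))]
    have h1 : nsq (R τ) ≤ c3 := (fn_nsq_le _).trans (mul_le_mul_of_nonneg_left
      (pow_le_pow_left₀ (norm_nonneg _) (hRM τ hτ) 2) (by norm_num))
    have h2 : ‖τ‖ ^ 4 ≤ ‖τ‖ ^ 3 := pow_le_pow_of_le_one (norm_nonneg _) hτ (by norm_num)
    calc ‖τ‖ ^ 4 * nsq (R τ) ≤ ‖τ‖ ^ 3 * c3 :=
          mul_le_mul h2 h1 (fn_nsq_nonneg _) (by positivity)
      _ = c3 * ‖τ‖ ^ 3 := mul_comm _ _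
  have b4 : ∀ τ : ℂ, ‖τ‖ ≤ 1 →
      |2 * (τ ^ 2 * ip T0 (R τ)).re - 2 * (τ ^ 2 * ip T0 R0).re| ≤ 2 * c4 * ‖τ‖ ^ 3 := by
    intro τ hτ
    have e : ip T0 (R τ) = ip T0 (R τ - R0) + ip T0 R0 := by
      rw [← ip_add_right, sub_add_cancel]
    have e2 : 2 * (τ ^ 2 * ip T0 (R τ)).re - 2 * (τ ^ 2 * ip T0 R0).re =
        2 * (τ ^ 2 * ip T0 (R τ - R0)).re := by
      rw [e, mul_add, Complex.add_re]
      ring
    rw [e2, abs_mul, abs_two]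
    have h1 : |(τ ^ 2 * ip T0 (R τ - R0)).re| ≤ ‖τ‖ ^ 2 * (c4 * ‖τ‖) := by
      refine (Complex.abs_re_le_norm _).trans ?_
      rw [norm_mul, norm_pow]
      refine mul_le_mul_of_nonneg_left ((fn_ip_le _ _).trans ?_) (by positivity)
      have h2 := mul_le_mul_of_nonneg_left (hR τ hτ) (norm_nonneg T0)
      rw [hc4]
      linarith
    nlinarith
  have hk : ∀ (k : Fin 4) (τ : ℂ), ‖I ^ (k : ℕ) * τ‖ = ‖τ‖ := by
    intro k τ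
    rw [norm_mul, norm_pow, Complex.norm_I, one_pow, one_mul]
  refine ⟨(2 * c1 + nsq u + 2 * c2 + c3) + 4 * (2 * c4 + 2 * c2 + c3), fun τ hτ => ⟨?_, ?_⟩⟩
  · have h1 := fn_expand T0 u (R τ) h τ
    have h2 : nsq (T0 + τ • u + τ ^ 2 • R τ) - nsq T0 = ‖τ‖ ^ 2 * nsq u +
        (2 * (τ ^ 2 * ip T0 (R τ)).re + 2 * ((starRingEnd ℂ) τ * (τ ^ 2 * ip u (R τ))).re +
        ‖τ‖ ^ 4 * nsq (R τ)) := by linarith
    rw [h2]
    have h3 : ‖τ‖ ^ 3 ≤ ‖τ‖ ^ 2 := pow_le_pow_of_le_one (norm_nonneg _) hτ (by norm_num)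
    have h4 := b1 τ hτ
    have h5 := (b2 τ hτ).trans (mul_le_mul_of_nonneg_left h3 (by positivity))
    have h6 := (b3 τ hτ).trans (mul_le_mul_of_nonneg_left h3 hc30)
    have h7 : |‖τ‖ ^ 2 * nsq u| ≤ nsq u * ‖τ‖ ^ 2 := by
      rw [abs_of_nonneg (by positivity), mul_comm]
    have h8 := abs_add_le (‖τ‖ ^ 2 * nsq u)
      (2 * (τ ^ 2 * ip T0 (R τ)).re + 2 * ((starRingEnd ℂ) τ * (τ ^ 2 * ip u (R τ))).re +
        ‖τ‖ ^ 4 * nsq (R τ))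
    have h9 := abs_add_three (2 * (τ ^ 2 * ip T0 (R τ)).re)
      (2 * ((starRingEnd ℂ) τ * (τ ^ 2 * ip u (R τ))).re) (‖τ‖ ^ 4 * nsq (R τ))
    have h10 : 0 ≤ 4 * (2 * c4 + 2 * c2 + c3) * ‖τ‖ ^ 2 := by positivity
    linarith
  · have hsum : ∑ k : Fin 4, 2 * ((I ^ (k : ℕ) * τ) ^ 2 * ip T0 R0).re = 0 := by
      have h1 : ∑ k : Fin 4, 2 * ((I ^ (k : ℕ) * τ) ^ 2 * ip T0 R0).re =
          2 * (∑ k : Fin 4, (I ^ (k : ℕ) * τ) ^ 2 * ip T0 R0).re := by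
        rw [Complex.re_sum, Finset.mul_sum]
      have h2 : ∑ k : Fin 4, (I ^ (k : ℕ) * τ) ^ 2 * ip T0 R0 = 0 := by
        rw [Fin.sum_univ_four]
        simp only [Fin.val_zero, Fin.val_one, Fin.val_two, pow_zero, pow_one, one_mul]
        have h3 : ((3 : Fin 4) : ℕ) = 3 := rfl
        rw [h3]
        have h4 : (I : ℂ) ^ 2 = -1 := Complex.I_sq
        have h5 : (I : ℂ) ^ 3 = -I := by rw [pow_succ, h4]; ring
        rw [h4, h5]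
        have h6 : (I * τ) ^ 2 = - τ ^ 2 := by rw [mul_pow, h4]; ring
        have h7 : (-I * τ) ^ 2 = - τ ^ 2 := by rw [mul_pow, neg_sq, h4]; ring
        rw [h6, h7]
        ring
      rw [h1, h2]
      simp
    have hE : ∀ k : Fin 4,
        |(nsq (T0 + (I ^ (k : ℕ) * τ) • u + (I ^ (k : ℕ) * τ) ^ 2 • R (I ^ (k : ℕ) * τ))
          - nsq T0 - ‖τ‖ ^ 2 * nsq u) - 2 * ((I ^ (k : ℕ) * τ) ^ 2 * ip T0 R0).re| ≤
          (2 * c4 + 2 * c2 + c3) * ‖τ‖ ^ 3 := by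
      intro k
      have hkτ : ‖I ^ (k : ℕ) * τ‖ ≤ 1 := by rw [hk]; exact hτ
      have h1 := fn_expand T0 u (R (I ^ (k : ℕ) * τ)) h (I ^ (k : ℕ) * τ)
      have h2 := b2 _ hkτ
      have h3 := b3 _ hkτ
      have h4 := b4 _ hkτ
      rw [hk] at h1 h2 h3 h4
      rw [h1]
      have h5 : 2 * ((I ^ (k : ℕ) * τ) ^ 2 * ip T0 (R (I ^ (k : ℕ) * τ))).re +
          2 * ((starRingEnd ℂ) (I ^ (k : ℕ) * τ) *
            ((I ^ (k : ℕ) * τ) ^ 2 * ip u (R (I ^ (k : ℕ) * τ)))).re +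
          ‖τ‖ ^ 4 * nsq (R (I ^ (k : ℕ) * τ)) - 2 * ((I ^ (k : ℕ) * τ) ^ 2 * ip T0 R0).re =
          (2 * ((I ^ (k : ℕ) * τ) ^ 2 * ip T0 (R (I ^ (k : ℕ) * τ))).re -
            2 * ((I ^ (k : ℕ) * τ) ^ 2 * ip T0 R0).re) +
          2 * ((starRingEnd ℂ) (I ^ (k : ℕ) * τ) *
            ((I ^ (k : ℕ) * τ) ^ 2 * ip u (R (I ^ (k : ℕ) * τ)))).re +
          ‖τ‖ ^ 4 * nsq (R (I ^ (k : ℕ) * τ)) := by ring
      rw [h5]
      have h6 := abs_add_three (2 * ((I ^ (k : ℕ) * τ) ^ 2 * ip T0 (R (I ^ (k : ℕ) * τ))).re -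
            2 * ((I ^ (k : ℕ) * τ) ^ 2 * ip T0 R0).re)
          (2 * ((starRingEnd ℂ) (I ^ (k : ℕ) * τ) *
            ((I ^ (k : ℕ) * τ) ^ 2 * ip u (R (I ^ (k : ℕ) * τ)))).re)
          (‖τ‖ ^ 4 * nsq (R (I ^ (k : ℕ) * τ)))
      linarith
    have hS : ∑ k : Fin 4, nsq (T0 + (I ^ (k : ℕ) * τ) • u +
          (I ^ (k : ℕ) * τ) ^ 2 • R (I ^ (k : ℕ) * τ)) - 4 * nsq T0 - 4 * ‖τ‖ ^ 2 * nsq u =
        ∑ k : Fin 4, ((nsq (T0 + (I ^ (k : ℕ) * τ) • u +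
          (I ^ (k : ℕ) * τ) ^ 2 • R (I ^ (k : ℕ) * τ)) - nsq T0 - ‖τ‖ ^ 2 * nsq u) -
          2 * ((I ^ (k : ℕ) * τ) ^ 2 * ip T0 R0).re) := by
      rw [Finset.sum_sub_distrib, hsum, Finset.sum_sub_distrib, Finset.sum_sub_distrib]
      simp only [Finset.sum_const, Finset.card_univ, Fintype.card_fin, nsmul_eq_mul]
      push_cast
      ring
    rw [hS]
    refine (Finset.abs_sum_le_sum_abs _ _).trans ((Finset.sum_le_sum fun k _ => hE k).trans ?_)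
    simp only [Finset.sum_const, Finset.card_univ, Fintype.card_fin, nsmul_eq_mul]
    push_cast
    have h10 : 0 ≤ (2 * c1 + nsq u + 2 * c2 + c3) * ‖τ‖ ^ 3 := by positivity
    linarith

end Pool.Agent.ISO
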