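import Pool.Agent.ISO.Act

/-!
# ISO / GForms: monomial tensors and the limit forms `G4`, `G5`, `G6`

`mon3 a b c` is the symmetric tensor of the cubic monomial `x_a x_b x_c`.

`G4 κ = x² w + y³ + z³ + κ w³`, `G5 γ κ = x² w + γ x z² + y² z + κ w³`,
`G6 γ κ = x² w + γ x z² + y³ + κ w³` (coordinates `x, y, z, w` = indices `0, 1, 2, 3`).

PROOFS.  `grad_mon3`, `pol_mon3`: direct.  Smoothness (gradient up to the factor 3):
G4: `2xw, 3y², 3z², x² + 3κw²`.  G5: `2xw + γz², 2yz, 2γxz + y², x² + 3κw²`: if `z = 0` then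
`y = 0`, `xw = 0`, so `x = w = 0`; if `y = 0`, `z ≠ 0` then `x = 0`, `γz² = 0`, contradiction.
G6: `2xw + γz², 3y², 2γxz, x² + 3κw²`: similar.

`PR1 T`: some polar quadric has rank `≤ 1` (all `2 × 2` minors of `pol T p` vanish, `p ≠ 0`).
`pr1_G6`: `p = e_1` (`pol` is the matrix of `y²`).  `not_pr1_G5`: the matrix (times `3`) of the polar
quadric of `p` has the entries `xx: p3, xz: γ p2, xw: p0, yy: p2, yz: p1, zz: γ p0, ww: 3κ p3`; the
minors `3κ p3² - p0²`, `3κ p2 p3`, `3κγ p0 p3`, `γ p3 p0 - γ² p2²`, `γ p2 p0 - p1²` give `p = 0`.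
`pr1_act`: `pol_act`; minors of `gᵀ M g` are combinations of minors of `M`
(or: all minors of `M` vanish iff `M j k = u j * v k`).
`fermat_G4`: `x² w + κ w³` is a binary cubic with distinct roots, a sum of two cubes of
independent linear forms: `a (w + b x)³ + a (w - b x)³ = 2 a w³ + 6 a b² w x²`, so
`a = κ / 2`, `b² = 1 / (3 κ)`; absorb `a` by a cube root.
-/

set_option autoImplicit false

noncomputable section

namespace Pool.Agent.ISO

open Matrix

/-- The symmetric tensor of the monomial `x_a x_b x_c`. -/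
def mon3 (a b c : Fin 4) : T3 := fun i j k =>
  ((if i = a ∧ j = b ∧ k = c then 1 else 0) + (if i = a ∧ j = c ∧ k = b then 1 else 0) +
   (if i = b ∧ j = a ∧ k = c then 1 else 0) + (if i = b ∧ j = c ∧ k = a then 1 else 0) +
   (if i = c ∧ j = a ∧ k = b then 1 else 0) + (if i = c ∧ j = b ∧ k = a then 1 else 0)) / 6

def G4 (κ : ℂ) : T3 := mon3 0 0 3 + mon3 1 1 1 + mon3 2 2 2 + κ • mon3 3 3 3

def G5 (γ κ : ℂ) : T3 := mon3 0 0 3 + γ • mon3 0 2 2 + mon3 1 1 2 + κ • mon3 3 3 3

def G6 (γ κ : ℂ) : T3 := mon3 0 0 3 + γ • mon3 0 2 2 + mon3 1 1 1 + κ • mon3 3 3 3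

/-- The Fermat cubic. -/
def fermat : T3 := ∑ i : Fin 4, mon3 i i i

/-- Some polar quadric has rank at most one. -/
def PR1 (T : T3) : Prop :=
  ∃ p : Fin 4 → ℂ, p ≠ 0 ∧ ∀ i j k l, pol T p i k * pol T p j l = pol T p i l * pol T p j k

/-- an elementary tensor -/
private def dt (a b c : Fin 4) : T3 := fun i j k =>
  (if i = a then 1 else 0) * (if j = b then 1 else 0) * (if k = c then 1 else 0)

private theorem mon3_dt (a b c : Fin 4) : mon3 a b c = (1 / 6 : ℂ) •
    (dt a b c + dt a c b + dt b a c + dt b c a + dt c a b + dt c b a) := by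
  have h : ∀ (P Q R : Prop) [Decidable P] [Decidable Q] [Decidable R],
      (if P ∧ Q ∧ R then (1 : ℂ) else 0) =
        (if P then 1 else 0) * (if Q then 1 else 0) * (if R then 1 else 0) := by
    intro P Q R _ _ _
    split_ifs with h1 h2 h3 h4 <;> simp_all
  funext i j k
  simp only [mon3, h, Pi.smul_apply, Pi.add_apply, dt, smul_eq_mul]
  ring

private theorem ev_dt (a b c : Fin 4) (p : Fin 4 → ℂ) : ev (dt a b c) p = p a * p b * p c := by
  simp [ev, dt]

private theorem ev_add (T T' : T3) (p : Fin 4 → ℂ) : ev (T + T') p = ev T p + ev T' p := by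
  simp only [ev, Pi.add_apply, add_mul, Finset.sum_add_distrib]

private theorem ev_smul (s : ℂ) (T : T3) (p : Fin 4 → ℂ) : ev (s • T) p = s * ev T p := by
  simp only [ev, Pi.smul_apply, smul_eq_mul, Finset.mul_sum, mul_assoc]

private theorem gr_dt (a b c : Fin 4) (p : Fin 4 → ℂ) (k : Fin 4) :
    grad (dt a b c) p k = p a * p b * (if k = c then 1 else 0) := by
  simp [grad, dt]

private theorem gr_add (T T' : T3) (p : Fin 4 → ℂ) : grad (T + T') p = grad T p + grad T' p := by
  funext k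
  simp only [grad, Pi.add_apply, add_mul, Finset.sum_add_distrib]

private theorem gr_smul (s : ℂ) (T : T3) (p : Fin 4 → ℂ) : grad (s • T) p = s • grad T p := by
  funext k
  simp only [grad, Pi.smul_apply, smul_eq_mul, Finset.mul_sum, mul_assoc]

private theorem po_dt (a b c : Fin 4) (p : Fin 4 → ℂ) (j k : Fin 4) :
    pol (dt a b c) p j k = p a * (if j = b then 1 else 0) * (if k = c then 1 else 0) := by
  simp [pol, dt]

private theorem po_add (T T' : T3) (p : Fin 4 → ℂ) : pol (T + T') p = pol T p + pol T' p := by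
  ext j k
  simp only [pol, Matrix.add_apply, Matrix.of_apply, Pi.add_apply, add_mul, Finset.sum_add_distrib]

private theorem po_smul (s : ℂ) (T : T3) (p : Fin 4 → ℂ) : pol (s • T) p = s • pol T p := by
  ext j k
  simp only [pol, Matrix.smul_apply, Matrix.of_apply, Pi.smul_apply, smul_eq_mul, Finset.mul_sum,
    mul_assoc]

private theorem po_mon3 (a b c : Fin 4) (p : Fin 4 → ℂ) (j k : Fin 4) :
    pol (mon3 a b c) p j k =
      (p a * ((if j = b then 1 else 0) * (if k = c then 1 else 0) +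
          (if j = c then 1 else 0) * (if k = b then 1 else 0)) +
        p b * ((if j = a then 1 else 0) * (if k = c then 1 else 0) +
          (if j = c then 1 else 0) * (if k = a then 1 else 0)) +
        p c * ((if j = a then 1 else 0) * (if k = b then 1 else 0) +
          (if j = b then 1 else 0) * (if k = a then 1 else 0))) / 6 := by
  rw [mon3_dt, po_smul]
  simp only [po_add, Matrix.smul_apply, Matrix.add_apply, po_dt, smul_eq_mul]
  ring

private theorem ac_dt (a b c : Fin 4) (g : M4) (i j k : Fin 4) :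
    act (dt a b c) g i j k = g a i * g b j * g c k := by
  simp [act, dt]

private theorem ac_mon3 (a : Fin 4) (g : M4) (i j k : Fin 4) :
    act (mon3 a a a) g i j k = g a i * g a j * g a k := by
  rw [mon3_dt, act_smul]
  simp only [act_add, Pi.smul_apply, Pi.add_apply, ac_dt, smul_eq_mul]
  ring

theorem isSym_mon3 (a b c : Fin 4) : IsSym (mon3 a b c) := by
  intro i j k
  rw [mon3_dt]
  simp only [Pi.smul_apply, Pi.add_apply, dt, smul_eq_mul]
  constructor <;> ring

theorem ev_mon3 (a b c : Fin 4) (p : Fin 4 → ℂ) : ev (mon3 a b c) p = p a * p b * p c := by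
  rw [mon3_dt, ev_smul]
  simp only [ev_add, ev_dt]
  ring

theorem grad_mon3 (a b c : Fin 4) (p : Fin 4 → ℂ) (k : Fin 4) :
    grad (mon3 a b c) p k = ((if k = a then p b * p c else 0) + (if k = b then p a * p c else 0)
      + (if k = c then p a * p b else 0)) / 3 := by
  rw [mon3_dt, gr_smul]
  simp only [gr_add, Pi.smul_apply, Pi.add_apply, gr_dt, smul_eq_mul]
  split_ifs <;> ring

theorem grad_add (T T' : T3) (p : Fin 4 → ℂ) : grad (T + T') p = grad T p + grad T' p := by
  exact gr_add T T' p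

theorem grad_smul (s : ℂ) (T : T3) (p : Fin 4 → ℂ) : grad (s • T) p = s • grad T p := by
  exact gr_smul s T p

private theorem sm_aux {κ x w : ℂ} (hκ : κ ≠ 0) (h : x * w = 0)
    (h' : x * x + 3 * κ * (w * w) = 0) : x = 0 ∧ w = 0 := by
  rcases mul_eq_zero.1 h with h1 | h1
  · refine ⟨h1, ?_⟩
    rw [h1] at h'
    have h2 : κ * (w * w) = 0 := by linear_combination (1 / 3) * h'
    rcases mul_eq_zero.1 h2 with h3 | h3
    · exact absurd h3 hκ
    · exact mul_self_eq_zero.1 h3
  · refine ⟨?_, h1⟩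
    rw [h1] at h'
    have h2 : x * x = 0 := by linear_combination h'
    exact mul_self_eq_zero.1 h2

theorem sm_G4 (κ : ℂ) (hκ : κ ≠ 0) : Sm (G4 κ) := by
  refine ⟨isSym_add (isSym_add (isSym_add (isSym_mon3 _ _ _) (isSym_mon3 _ _ _))
    (isSym_mon3 _ _ _)) (isSym_smul (isSym_mon3 _ _ _) κ), fun p hp => ?_⟩
  by_contra hn
  push Not at hn
  apply hp
  have h0 := hn 0
  have h1 := hn 1
  have h2 := hn 2
  have h3 := hn 3
  simp only [G4, grad_add, grad_smul, Pi.add_apply, Pi.smul_apply, grad_mon3, smul_eq_mul,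
    if_true, Fin.isValue, Fin.reduceEq, if_false] at h0 h1 h2 h3
  have e1 : p 1 = 0 := by
    have : p 1 * p 1 = 0 := by linear_combination h1
    exact mul_self_eq_zero.1 this
  have e2 : p 2 = 0 := by
    have : p 2 * p 2 = 0 := by linear_combination h2
    exact mul_self_eq_zero.1 this
  have e03 : p 0 * p 3 = 0 := by linear_combination (3 / 2) * h0
  have e3' : p 0 * p 0 + 3 * κ * (p 3 * p 3) = 0 := by linear_combination 3 * h3
  obtain ⟨e0, e3⟩ := sm_aux hκ e03 e3'
  funext i
  fin_cases i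
  · exact e0
  · exact e1
  · exact e2
  · exact e3

theorem sm_G5 (γ κ : ℂ) (hγ : γ ≠ 0) (hκ : κ ≠ 0) : Sm (G5 γ κ) := by
  refine ⟨isSym_add (isSym_add (isSym_add (isSym_mon3 _ _ _) (isSym_smul (isSym_mon3 _ _ _) γ))
    (isSym_mon3 _ _ _)) (isSym_smul (isSym_mon3 _ _ _) κ), fun p hp => ?_⟩
  by_contra hn
  push Not at hn
  apply hp
  have h0 := hn 0
  have h1 := hn 1
  have h2 := hn 2
  have h3 := hn 3
  simp only [G5, grad_add, grad_smul, Pi.add_apply, Pi.smul_apply, grad_mon3, smul_eq_mul,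
    if_true, Fin.isValue, Fin.reduceEq, if_false] at h0 h1 h2 h3
  have f0 : 2 * (p 0 * p 3) + γ * (p 2 * p 2) = 0 := by linear_combination 3 * h0
  have f1 : p 1 * p 2 = 0 := by linear_combination (3 / 2) * h1
  have f2 : 2 * γ * (p 0 * p 2) + p 1 * p 1 = 0 := by linear_combination 3 * h2
  have f3 : p 0 * p 0 + 3 * κ * (p 3 * p 3) = 0 := by linear_combination 3 * h3
  have e2 : p 2 = 0 := by
    by_contra hz
    have e1 : p 1 = 0 := (mul_eq_zero.1 f1).resolve_right hz
    have e0 : p 0 = 0 := by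
      have : γ * (p 0 * p 2) = 0 := by linear_combination (1 / 2) * f2 - (1 / 2) * p 1 * e1
      rcases mul_eq_zero.1 this with h | h
      · exact absurd h hγ
      · exact (mul_eq_zero.1 h).resolve_right hz
    have : γ * (p 2 * p 2) = 0 := by linear_combination f0 - 2 * p 3 * e0
    rcases mul_eq_zero.1 this with h | h
    · exact hγ h
    · exact hz (mul_self_eq_zero.1 h)
  have e1 : p 1 = 0 := by
    have : p 1 * p 1 = 0 := by linear_combination f2 - 2 * γ * p 0 * e2
    exact mul_self_eq_zero.1 this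
  have e03 : p 0 * p 3 = 0 := by linear_combination (1 / 2) * f0 - (1 / 2) * γ * p 2 * e2
  obtain ⟨e0, e3⟩ := sm_aux hκ e03 f3
  funext i
  fin_cases i
  · exact e0
  · exact e1
  · exact e2
  · exact e3

theorem sm_G6 (γ κ : ℂ) (hγ : γ ≠ 0) (hκ : κ ≠ 0) : Sm (G6 γ κ) := by
  refine ⟨isSym_add (isSym_add (isSym_add (isSym_mon3 _ _ _) (isSym_smul (isSym_mon3 _ _ _) γ))
    (isSym_mon3 _ _ _)) (isSym_smul (isSym_mon3 _ _ _) κ), fun p hp => ?_⟩
  by_contra hn
  push Not at hn
  apply hp
  have h0 := hn 0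
  have h1 := hn 1
  have h2 := hn 2
  have h3 := hn 3
  simp only [G6, grad_add, grad_smul, Pi.add_apply, Pi.smul_apply, grad_mon3, smul_eq_mul,
    if_true, Fin.isValue, Fin.reduceEq, if_false] at h0 h1 h2 h3
  have f0 : 2 * (p 0 * p 3) + γ * (p 2 * p 2) = 0 := by linear_combination 3 * h0
  have f1 : p 1 * p 1 = 0 := by linear_combination h1
  have f2 : γ * (p 0 * p 2) = 0 := by linear_combination (3 / 2) * h2
  have f3 : p 0 * p 0 + 3 * κ * (p 3 * p 3) = 0 := by linear_combination 3 * h3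
  have e1 : p 1 = 0 := mul_self_eq_zero.1 f1
  have e2 : p 2 = 0 := by
    by_contra hz
    have e0 : p 0 = 0 := by
      rcases mul_eq_zero.1 f2 with h | h
      · exact absurd h hγ
      · exact (mul_eq_zero.1 h).resolve_right hz
    have : γ * (p 2 * p 2) = 0 := by linear_combination f0 - 2 * p 3 * e0
    rcases mul_eq_zero.1 this with h | h
    · exact hγ h
    · exact hz (mul_self_eq_zero.1 h)
  have e03 : p 0 * p 3 = 0 := by linear_combination (1 / 2) * f0 - (1 / 2) * γ * p 2 * e2
  obtain ⟨e0, e3⟩ := sm_aux hκ e03 f3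
  funext i
  fin_cases i
  · exact e0
  · exact e1
  · exact e2
  · exact e3

theorem pr1_act (T : T3) (g : M4) (hg : g.det ≠ 0) (h : PR1 T) : PR1 (act T g) := by
  obtain ⟨p, hp, hm⟩ := h
  have hu : IsUnit g.det := isUnit_iff_ne_zero.2 hg
  have hgq : g.mulVec (g⁻¹.mulVec p) = p := by
    rw [Matrix.mulVec_mulVec, Matrix.mul_nonsing_inv g hu, Matrix.one_mulVec]
  refine ⟨g⁻¹.mulVec p, ?_, ?_⟩
  · intro h0
    rw [h0, Matrix.mulVec_zero] at hgq
    exact hp hgq.symm
  · rw [pol_act, hgq]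
    by_cases hz : ∀ a b, pol T p a b = 0
    · have hM : pol T p = 0 := by
        ext a b
        exact hz a b
      intro i j k l
      rw [hM]
      simp
    · push Not at hz
      obtain ⟨i0, k0, hne⟩ := hz
      have key : ∀ i k, (g.transpose * pol T p * g) i k * pol T p i0 k0 =
          (∑ a, g a i * pol T p a k0) * (∑ b, pol T p i0 b * g b k) := by
        intro i k
        rw [Matrix.mul_apply, Finset.sum_mul_sum, Finset.sum_mul, Finset.sum_comm]
        refine Finset.sum_congr rfl fun b _ => ?_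
        rw [Matrix.mul_apply, Finset.sum_mul, Finset.sum_mul]
        refine Finset.sum_congr rfl fun a _ => ?_
        rw [Matrix.transpose_apply]
        linear_combination g a i * g b k * hm a i0 b k0
      intro i j k l
      have h2 : pol T p i0 k0 * pol T p i0 k0 ≠ 0 := mul_ne_zero hne hne
      apply mul_right_cancel₀ h2
      calc (g.transpose * pol T p * g) i k * (g.transpose * pol T p * g) j l *
            (pol T p i0 k0 * pol T p i0 k0) =
          ((g.transpose * pol T p * g) i k * pol T p i0 k0) *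
            ((g.transpose * pol T p * g) j l * pol T p i0 k0) := by ring
        _ = ((g.transpose * pol T p * g) i l * pol T p i0 k0) *
            ((g.transpose * pol T p * g) j k * pol T p i0 k0) := by
          rw [key, key, key, key]
          ring
        _ = _ := by ring

theorem pr1_G6 (γ κ : ℂ) : PR1 (G6 γ κ) := by
  have hne : (Pi.single 1 1 : Fin 4 → ℂ) ≠ 0 := by
    intro h
    have := congrFun h 1
    simp at this
  refine ⟨Pi.single 1 1, hne, ?_⟩
  have key : ∀ j k : Fin 4, pol (G6 γ κ) (Pi.single 1 1) j k =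
      (if j = 1 then 1 else 0) * (if k = 1 then 1 else 0) := by
    intro j k
    simp only [G6, po_add, po_smul, Matrix.add_apply, Matrix.smul_apply, po_mon3, smul_eq_mul,
      Pi.single_eq_same]
    have e0 : (Pi.single 1 1 : Fin 4 → ℂ) 0 = 0 := by simp
    have e2 : (Pi.single 1 1 : Fin 4 → ℂ) 2 = 0 := by simp
    have e3 : (Pi.single 1 1 : Fin 4 → ℂ) 3 = 0 := by simp
    rw [e0, e2, e3]
    ring
  intro i j k l
  rw [key, key, key, key]
  ring

theorem not_pr1_G5 (γ κ : ℂ) (hγ : γ ≠ 0) (hκ : κ ≠ 0) : ¬ PR1 (G5 γ κ) := by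
  rintro ⟨p, hp, hm⟩
  apply hp
  have m1 := hm 0 3 0 3
  have m2 := hm 2 3 2 3
  have m3 := hm 0 2 0 2
  have m4 := hm 1 2 1 2
  simp only [G5, po_add, po_smul, Matrix.add_apply, Matrix.smul_apply, po_mon3, smul_eq_mul,
    if_true, Fin.isValue, Fin.reduceEq, if_false] at m1 m2 m3 m4
  have f1 : 3 * κ * (p 3 * p 3) = p 0 * p 0 := by linear_combination 9 * m1
  have f2 : γ * κ * (p 0 * p 3) = 0 := by linear_combination 3 * m2
  have f3 : γ * (p 0 * p 3) = γ * γ * (p 2 * p 2) := by linear_combination 9 * m3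
  have f4 : γ * (p 0 * p 2) = p 1 * p 1 := by linear_combination 9 * m4
  have e03 : p 0 * p 3 = 0 := (mul_eq_zero.1 f2).resolve_left (mul_ne_zero hγ hκ)
  have hd : p 0 = 0 ∧ p 3 = 0 := by
    rcases mul_eq_zero.1 e03 with h | h
    · refine ⟨h, ?_⟩
      have h2 : κ * (p 3 * p 3) = 0 := by linear_combination (1 / 3) * f1 + (1 / 3) * p 0 * h
      exact mul_self_eq_zero.1 ((mul_eq_zero.1 h2).resolve_left hκ)
    · refine ⟨?_, h⟩
      have h2 : p 0 * p 0 = 0 := by linear_combination 3 * κ * p 3 * h - f1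
      exact mul_self_eq_zero.1 h2
  obtain ⟨e0, e3⟩ := hd
  have e2 : p 2 = 0 := by
    have h2 : γ * γ * (p 2 * p 2) = 0 := by linear_combination γ * e03 - f3
    exact mul_self_eq_zero.1 ((mul_eq_zero.1 h2).resolve_left (mul_ne_zero hγ hγ))
  have e1 : p 1 = 0 := by
    have h2 : p 1 * p 1 = 0 := by linear_combination γ * p 0 * e2 - f4
    exact mul_self_eq_zero.1 h2
  funext i
  fin_cases i
  · exact e0
  · exact e1
  · exact e2
  · exact e3

theorem fermat_G4 (κ : ℂ) (hκ : κ ≠ 0) : ∃ g : M4, g.det ≠ 0 ∧ G4 κ = act fermat g := by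
  obtain ⟨s, hs⟩ := IsAlgClosed.exists_pow_nat_eq (κ / 2) (n := 3) (by norm_num)
  obtain ⟨b, hb⟩ := IsAlgClosed.exists_pow_nat_eq (1 / (3 * κ)) (n := 2) (by norm_num)
  have hs0 : s ≠ 0 := by
    rintro rfl
    have : κ / 2 = 0 := by rw [← hs]; norm_num
    exact hκ (by linear_combination 2 * this)
  have hb0 : b ≠ 0 := by
    rintro rfl
    have h1 : 1 / (3 * κ) = 0 := by rw [← hb]; norm_num
    exact one_div_ne_zero (mul_ne_zero (by norm_num) hκ) h1
  have hb' : 3 * κ * (b * b) = 1 := by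
    rw [← pow_two, hb]
    field_simp
  have hs' : 2 * (s * s * s) = κ := by
    have : s * s * s = s ^ 3 := by ring
    rw [this, hs]
    ring
  let g : M4 := !![s * b, 0, 0, s; 0, 1, 0, 0; 0, 0, 1, 0; -(s * b), 0, 0, s]
  refine ⟨g, ?_, ?_⟩
  · have hd : g.det = 2 * (s * s) * b := by
      simp only [g]
      rw [Matrix.det_succ_row_zero]
      simp [Fin.sum_univ_succ, Matrix.det_fin_three, Fin.succAbove]
      ring
    rw [hd]
    exact mul_ne_zero (mul_ne_zero two_ne_zero (mul_ne_zero hs0 hs0)) hb0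
  · have key : ∀ i j k, act fermat g i j k = g 0 i * g 0 j * g 0 k + g 1 i * g 1 j * g 1 k +
        g 2 i * g 2 j * g 2 k + g 3 i * g 3 j * g 3 k := by
      intro i j k
      simp only [fermat, Fin.sum_univ_four, act_add, Pi.add_apply, ac_mon3]
    funext i j k
    rw [key]
    have k2 : s * b * (s * b) * s + s * b * (s * b) * s = 1 / 3 := by
      linear_combination (b * b) * hs' + (1 / 3) * hb'
    fin_cases i <;> fin_cases j <;> fin_cases k <;> simp [G4, mon3, g]
    all_goals first
      | linear_combination (-1 : ℂ) * k2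
      | linear_combination (-1 : ℂ) * hs'
      | norm_num

end Pool.Agent.ISO
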