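import Mathlib

/-!
# ISO / IsC: the determinant of a short exact sequence `0 → ℂ^k → ℂ^n → ℂ^m → 0`

For an exact pair `(B, A)` there is exactly one `c ≠ 0` with
`det (A * P) = c * det [P | B]` for all `P`.

PROOFS.  `exists_isC`: let `P0` be a right inverse of `A` (`A * P0 = 1`, exists by surjectivity,
column by column).  For any `P`, the columns of `P - P0 * (A * P)` are in `ker A = im B`, so
`P = P0 * (A * P) + B * Q` for some `Q`, and `[P | B] = [P0 | B] * [[A * P, 0], [Q, 1]]`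
(`Matrix.fromBlocks`), so `det [P | B] = det [P0 | B] * det (A * P)`.  `[P0 | B]` is invertible: it
is injective (if `P0 x + B y = 0` apply `A`: `x = 0`, then `y = 0`).  `c = (det [P0 | B])⁻¹`.
`isC_unique`: evaluate at `P0` with `A * P0 = 1` (exists because some `P` with `det [P|B] ≠ 0`
exists?  use: `c ≠ 0` and, for `hA` surjective, `A * P0 = 1`).
`isC_trans`: `det (A' * P) = det S * det (A * (R⁻¹ * P)) = det S * c * det [R⁻¹ P | B]` and
`[P | B'] = R * [R⁻¹ P | B] * diag (1, Q⁻¹)` (the left multiplication by `R` has to be conjugated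
with the equivalence `e`).
-/

set_option autoImplicit false

noncomputable section

namespace Pool.Agent.ISO

open Matrix

variable {m n k : Type} [Fintype m] [DecidableEq m] [Fintype n] [DecidableEq n]
  [Fintype k] [DecidableEq k]

/-- The square matrix `[P | B]`. -/
def PB (e : m ⊕ k ≃ n) (P : Matrix n m ℂ) (B : Matrix n k ℂ) : Matrix (m ⊕ k) (m ⊕ k) ℂ :=
  (Matrix.fromCols P B).submatrix e id

/-- `c` is the determinant of the exact pair `(B, A)`. -/
def IsC (e : m ⊕ k ≃ n) (A : Matrix m n ℂ) (B : Matrix n k ℂ) (c : ℂ) : Prop :=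
  c ≠ 0 ∧ ∀ P : Matrix n m ℂ, (A * P).det = c * (PB e P B).det

private theorem right_inv (A : Matrix m n ℂ) (hA : Function.Surjective A.mulVec) :
    ∃ P : Matrix n m ℂ, A * P = 1 :=
  Matrix.mulVec_surjective_iff_exists_right_inverse.1 hA

private theorem sub_mul (e : m ⊕ k ≃ n) (M : Matrix n (m ⊕ k) ℂ) (N : Matrix (m ⊕ k) (m ⊕ k) ℂ) :
    (M * N).submatrix e id = M.submatrix e id * N := by
  ext i j
  simp [Matrix.mul_apply]

private theorem mul_sub (e : m ⊕ k ≃ n) (R : Matrix n n ℂ) (M : Matrix n (m ⊕ k) ℂ) :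
    (R * M).submatrix e id = R.submatrix e e * M.submatrix e id := by
  ext i j
  simp only [Matrix.mul_apply, Matrix.submatrix_apply, id]
  exact (e.sum_comp fun x => R (e i) x * M x j).symm

private theorem det_PB_ne (e : m ⊕ k ≃ n) (A : Matrix m n ℂ) (B : Matrix n k ℂ) (hAB : A * B = 0)
    (hB : Function.Injective B.mulVec) {P : Matrix n m ℂ} (hP : A * P = 1) :
    (PB e P B).det ≠ 0 := by
  intro h0
  obtain ⟨v, hv, h1⟩ := Matrix.exists_mulVec_eq_zero_iff.2 h0
  have h2 : (Matrix.fromCols P B).mulVec v = 0 := by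
    funext i
    have h3 := congrFun h1 (e.symm i)
    unfold PB at h3
    rw [Matrix.mulVec, dotProduct] at h3 ⊢
    simpa using h3
  rw [Matrix.fromCols_mulVec] at h2
  have h3 : A.mulVec (P.mulVec (v ∘ Sum.inl) + B.mulVec (v ∘ Sum.inr)) = 0 := by
    rw [h2, Matrix.mulVec_zero]
  rw [Matrix.mulVec_add, Matrix.mulVec_mulVec, Matrix.mulVec_mulVec, hP, hAB, Matrix.one_mulVec,
    Matrix.zero_mulVec, add_zero] at h3
  rw [h3, Matrix.mulVec_zero, zero_add] at h2
  have h4 : v ∘ Sum.inr = 0 := hB (by rw [h2, Matrix.mulVec_zero])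
  apply hv
  funext x
  rcases x with x | x
  · exact congrFun h3 x
  · exact congrFun h4 x

private theorem det_PB_mul (e : m ⊕ k ≃ n) (A : Matrix m n ℂ) (B : Matrix n k ℂ)
    (hex : ∀ v, A.mulVec v = 0 → ∃ u, v = B.mulVec u) {P0 : Matrix n m ℂ} (hP : A * P0 = 1)
    (P : Matrix n m ℂ) : (PB e P B).det = (PB e P0 B).det * (A * P).det := by
  have h1 : ∀ j, ∃ u, (P - P0 * (A * P)).mulVec (Pi.single j 1) = B.mulVec u := by
    intro j
    apply hex
    rw [Matrix.mulVec_mulVec, Matrix.mul_sub, ← Matrix.mul_assoc A P0, hP, Matrix.one_mul,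
      sub_self, Matrix.zero_mulVec]
  choose u hu using h1
  obtain ⟨Q, hQ⟩ : ∃ Q : Matrix k m ℂ, P = P0 * (A * P) + B * Q := by
    refine ⟨Matrix.of fun i j => u j i, ?_⟩
    rw [← sub_eq_iff_eq_add']
    ext i j
    have h2 := congrFun (hu j) i
    rw [Matrix.mulVec_single_one] at h2
    rw [Matrix.mul_apply]
    exact h2
  have h3 : Matrix.fromCols P B = Matrix.fromCols P0 B * Matrix.fromBlocks (A * P) 0 Q 1 := by
    rw [Matrix.fromCols_mul_fromBlocks, Matrix.mul_zero, zero_add, Matrix.mul_one, ← hQ]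
  unfold PB
  rw [h3, sub_mul, Matrix.det_mul, Matrix.det_fromBlocks_zero₁₂, Matrix.det_one, mul_one]

theorem exists_isC (e : m ⊕ k ≃ n) (A : Matrix m n ℂ) (B : Matrix n k ℂ) (hAB : A * B = 0)
    (hA : Function.Surjective A.mulVec) (hB : Function.Injective B.mulVec)
    (hex : ∀ v, A.mulVec v = 0 → ∃ u, v = B.mulVec u) : ∃ c, IsC e A B c := by
  obtain ⟨P0, hP0⟩ := right_inv A hA
  have h0 := det_PB_ne e A B hAB hB hP0
  refine ⟨(PB e P0 B).det⁻¹, inv_ne_zero h0, fun P => ?_⟩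
  rw [det_PB_mul e A B hex hP0 P, ← mul_assoc, inv_mul_cancel₀ h0, one_mul]

theorem isC_unique (e : m ⊕ k ≃ n) (A : Matrix m n ℂ) (B : Matrix n k ℂ)
    (hA : Function.Surjective A.mulVec) (c c' : ℂ) (h : IsC e A B c) (h' : IsC e A B c') :
    c = c' := by
  obtain ⟨P0, hP0⟩ := right_inv A hA
  have h1 := h.2 P0
  have h2 := h'.2 P0
  rw [hP0, Matrix.det_one] at h1 h2
  have h3 : (PB e P0 B).det ≠ 0 := by
    intro h0
    rw [h0, mul_zero] at h1
    exact one_ne_zero h1
  exact mul_right_cancel₀ h3 (h1.symm.trans h2)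

theorem isC_trans (e : m ⊕ k ≃ n) (A A' : Matrix m n ℂ) (B B' : Matrix n k ℂ)
    (R : Matrix n n ℂ) (Ss : Matrix m m ℂ) (Q : Matrix k k ℂ) (hR : R.det ≠ 0) (hS : Ss.det ≠ 0)
    (hQ : Q.det ≠ 0) (h1 : A' * R = Ss * A) (h2 : B' * Q = R * B) (c : ℂ) (h : IsC e A B c) :
    IsC e A' B' (c * Ss.det * Q.det / R.det) := by
  refine ⟨div_ne_zero (mul_ne_zero (mul_ne_zero h.1 hS) hQ) hR, fun P => ?_⟩
  have hRu : IsUnit R.det := isUnit_iff_ne_zero.2 hR
  have h3 : R * (R⁻¹ * P) = P := by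
    rw [← Matrix.mul_assoc, Matrix.mul_nonsing_inv R hRu, Matrix.one_mul]
  have h4 : (A' * P).det = Ss.det * (c * (PB e (R⁻¹ * P) B).det) := by
    rw [← h.2, ← Matrix.det_mul, ← Matrix.mul_assoc Ss, ← h1, Matrix.mul_assoc A', h3]
  have h5 : (PB e P B').det * Q.det = R.det * (PB e (R⁻¹ * P) B).det := by
    have h6 : Matrix.fromCols P B' * Matrix.fromBlocks (1 : Matrix m m ℂ) 0 0 Q =
        R * Matrix.fromCols (R⁻¹ * P) B := by
      rw [Matrix.fromCols_mul_fromBlocks, Matrix.mul_fromCols, Matrix.mul_zero, Matrix.mul_zero,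
        Matrix.mul_one, add_zero, zero_add, h2, h3]
    have h7 : ((Matrix.fromCols P B' * Matrix.fromBlocks (1 : Matrix m m ℂ) 0 0 Q).submatrix e id).det =
        (PB e P B').det * Q.det := by
      rw [sub_mul, Matrix.det_mul, Matrix.det_fromBlocks_zero₁₂, Matrix.det_one, one_mul]
      rfl
    have h8 : ((R * Matrix.fromCols (R⁻¹ * P) B).submatrix e id).det =
        R.det * (PB e (R⁻¹ * P) B).det := by
      rw [mul_sub, Matrix.det_mul, Matrix.det_submatrix_equiv_self]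
      rfl
    rw [← h7, h6, h8]
  rw [h4]
  have h9 : (PB e (R⁻¹ * P) B).det = (PB e P B').det * Q.det / R.det := by
    rw [h5, mul_div_cancel_left₀ _ hR]
  rw [h9]
  ring

/-- Local formula: near `(A, B)` the determinant is a quotient of two polynomials. -/
theorem isC_local (e : m ⊕ k ≃ n) (A : Matrix m n ℂ) (B : Matrix n k ℂ)
    (hA : Function.Surjective A.mulVec) (c : ℂ) (h : IsC e A B c) :
    ∃ P : Matrix n m ℂ, (A * P).det ≠ 0 ∧ (PB e P B).det ≠ 0 ∧
      ∀ (A' : Matrix m n ℂ) (B' : Matrix n k ℂ) (c' : ℂ), IsC e A' B' c' →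
        (PB e P B').det ≠ 0 → c' = (A' * P).det / (PB e P B').det := by
  obtain ⟨P0, hP0⟩ := right_inv A hA
  have h1 := h.2 P0
  rw [hP0, Matrix.det_one] at h1
  refine ⟨P0, by rw [hP0, Matrix.det_one]; exact one_ne_zero, ?_, fun A' B' c' h' h0 => ?_⟩
  · intro h0
    rw [h0, mul_zero] at h1
    exact one_ne_zero h1
  · rw [h'.2 P0, mul_div_cancel_right₀ _ h0]

end Pool.Agent.ISO
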