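import Pool.Agent.ISO.Pert
import Pool.Agent.ISO.Four
import Pool.Agent.ISO.FourN

/-!
# ISO / KN: `log N` is subharmonic along lines, strictly unless the direction is infinitesimal

PROOF.  `exists_minimal`: `g0` with `det g0 = 1`, `T0' = act T0 g0` minimal (`nsq T0' = N T0 =
N T0'`, `nsq T0' ≤ nsq (act T0' g)`), `T1' = act T1 g0`, `N (T0 + τ T1) = N (T0' + τ T1')`
(`N_act_sl`).  The complex subspace `W = {lie T0' Z}` of the space of tensors: orthogonal projection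
for `ip` gives `T1' = lie T0' Z + u`, `ip (lie T0' Z') u = 0` for all `Z'` (use e.g. the
`EuclideanSpace`/`WithLp` structure on the tensors, or a minimiser of `nsq (T1' - lie T0' Z)`;
`u` is symmetric).  In particular `ip T0' u = 0` (`lie_one`).  By `act_one_add`
`act (T0' + τ T1') (1 - τ Z) = T0' + τ u + τ² R τ`, `R` a polynomial in `τ` with symmetric
coefficients.  With `log_N_act`:
`log N (T0 + τ T1) = - 3/2 log ‖det (1 - τ Z)‖ + log N (T0' + τ u + τ² R τ)`.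
The first term has four point mean `O(‖τ‖³)` (`four_log` for the polynomial `det (1 - τ Z)`, value
`1` at `0`).  For the second: `N (...) ≥ nsq (...) - C ‖τ‖⁴` (`pert`), and with `four_nsq` and
`log (N0 + x) ≥ log N0 + x / N0 - (x / N0)²` for small `x`
(`x = nsq (...) - C ‖τ‖⁴ - N0 = O(‖τ‖²)`) the sum over the four points is
`≥ 4 log N0 + 4 ‖τ‖² nsq u / N0 - C' ‖τ‖³`.  So `κ = 4 nsq u / N0`; `κ = 0` iff `u = 0`, and then
`T1' = lie T0' Z` gives `T1 = lie T0 (g0 Z g0⁻¹)` (`lie_act`).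
-/

set_option autoImplicit false

noncomputable section

namespace Pool.Agent.ISO

open Complex

private def knE (T : T3) : EuclideanSpace ℂ (Fin 4 × Fin 4 × Fin 4) :=
  WithLp.toLp 2 fun x => T x.1 x.2.1 x.2.2

private theorem knE_inner (T T' : T3) : inner ℂ (knE T) (knE T') = ip T T' := by
  unfold knE ip
  rw [PiLp.inner_apply, Fintype.sum_prod_type]
  refine Finset.sum_congr rfl fun i _ => ?_
  rw [Fintype.sum_prod_type]
  refine Finset.sum_congr rfl fun j _ => Finset.sum_congr rfl fun k _ => ?_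
  change T' i j k * (starRingEnd ℂ) (T i j k) = (starRingEnd ℂ) (T i j k) * T' i j k
  ring

private theorem knE_add (T T' : T3) : knE (T + T') = knE T + knE T' := rfl

private theorem knE_smul (s : ℂ) (T : T3) : knE (s • T) = s • knE T := rfl

private theorem kn_proj (T0 T1 : T3) (h0 : IsSym T0) (h1 : IsSym T1) :
    ∃ (Z : M4) (u : T3), T1 = lie T0 Z + u ∧ IsSym u ∧ ∀ Z' : M4, ip (lie T0 Z') u = 0 := by
  let L : M4 →ₗ[ℂ] EuclideanSpace ℂ (Fin 4 × Fin 4 × Fin 4) :=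
    { toFun := fun Z => knE (lie T0 Z)
      map_add' := fun Z Z' => by rw [lie_add_right, knE_add]
      map_smul' := fun s Z => by rw [lie_smul_right, knE_smul, RingHom.id_apply] }
  obtain ⟨y, hy, z, hz, hyz⟩ := Submodule.exists_add_mem_mem_orthogonal (K := LinearMap.range L)
    (knE T1)
  obtain ⟨Z, rfl⟩ := hy
  refine ⟨Z, T1 + (-1 : ℂ) • lie T0 Z, ?_, ?_, ?_⟩
  · rw [neg_one_smul]
    abel
  · exact isSym_add h1 (isSym_smul (isSym_lie h0 Z) _)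
  · intro Z'
    have h2 : knE (T1 + (-1 : ℂ) • lie T0 Z) = z := by
      rw [knE_add, knE_smul, hyz]
      change L Z + z + (-1 : ℂ) • L Z = z
      rw [neg_one_smul]
      abel
    rw [← knE_inner, h2]
    exact Submodule.inner_right_of_mem_orthogonal (LinearMap.mem_range_self L Z') hz

private theorem kn_log {y : ℝ} (h : |y| ≤ 1 / 2) : y - 2 * y ^ 2 ≤ Real.log (1 + y) := by
  have h1 := Real.abs_log_sub_add_sum_range_le (x := -y) (by rw [abs_neg]; linarith) 1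
  rw [Finset.sum_range_one, abs_neg, sub_neg_eq_add] at h1
  have h2 : |y| ^ (1 + 1) / (1 - |y|) ≤ 2 * y ^ 2 := by
    rw [div_le_iff₀ (by linarith)]
    have h3 : |y| ^ (1 + 1) = y ^ 2 := by
      rw [show 1 + 1 = 2 from rfl, sq_abs]
    rw [h3]
    nlinarith [sq_nonneg y, abs_nonneg y]
  have h3 := (abs_le.1 (h1.trans h2)).1
  norm_num at h3
  linarith

private theorem kn_h (Z : M4) : AnalyticAt ℂ (fun τ : ℂ => (1 + (-τ) • Z).det) 0 := by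
  apply Differentiable.analyticAt
  have h : (fun τ : ℂ => (1 + (-τ) • Z).det) = fun τ : ℂ => ∑ σ : Equiv.Perm (Fin 4),
      ((Equiv.Perm.sign σ : ℤ) : ℂ) * ∏ i, ((1 : M4) (σ i) i + (-τ) * Z (σ i) i) := by
    funext τ
    rw [Matrix.det_apply']
    rfl
  rw [h]
  fun_prop

private theorem kn_I (k : Fin 4) (τ : ℂ) : ‖I ^ (k : ℕ) * τ‖ = ‖τ‖ := by
  rw [norm_mul, norm_pow, Complex.norm_I, one_pow, one_mul]

private theorem kn_Q {T : T3} (h : IsSym T) {Z : M4} {Q : T3}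
    (hQ : ∀ s : ℂ, act T (1 + s • Z) = T + s • lie T Z + s ^ 2 • Q + s ^ 3 • act T Z) :
    IsSym Q := by
  have h1 := hQ 1
  have h2 : Q = act T (1 + (1 : ℂ) • Z) + ((-1 : ℂ) • T + ((-1 : ℂ) • lie T Z +
      (-1 : ℂ) • act T Z)) := by
    rw [h1]
    simp only [one_pow, one_smul, neg_smul]
    abel
  rw [h2]
  exact isSym_add (isSym_act h _) (isSym_add (isSym_smul h _) (isSym_add
    (isSym_smul (isSym_lie h Z) _) (isSym_smul (isSym_act h Z) _)))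

private def knR (R0 R1 R2 : T3) (τ : ℂ) : T3 := R0 + (τ • R1 + τ ^ 2 • R2)

private theorem knR_def (R0 R1 R2 : T3) (τ : ℂ) :
    knR R0 R1 R2 τ = R0 + (τ • R1 + τ ^ 2 • R2) := rfl

private theorem knR_ex (R0 R1 R2 : T3) :
    ∃ R : ℂ → T3, ∀ τ, R τ = R0 + (τ • R1 + τ ^ 2 • R2) :=
  ⟨knR R0 R1 R2, knR_def R0 R1 R2⟩

theorem kn {T0 T1 : T3} (h0 : Sm T0) (h1 : IsSym T1) :
    ∃ κ C δ : ℝ, 0 ≤ κ ∧ 0 < δ ∧ (κ = 0 → ∃ Z : M4, T1 = lie T0 Z) ∧ ∀ τ : ℂ, ‖τ‖ < δ →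
      4 * Real.log (N T0) + κ * ‖τ‖ ^ 2 - C * ‖τ‖ ^ 3 ≤
        ∑ k : Fin 4, Real.log (N (T0 + (I ^ (k : ℕ) * τ) • T1)) := by
  obtain ⟨hN0, g0, hg0, hg0N⟩ := exists_minimal h0
  have hdet : g0.det ≠ 0 := by rw [hg0]; exact one_ne_zero
  obtain ⟨T0', hT0'⟩ : ∃ T0', T0' = act T0 g0 := ⟨_, rfl⟩
  obtain ⟨T1', hT1'⟩ : ∃ T1', T1' = act T1 g0 := ⟨_, rfl⟩
  have hS0 : Sm T0' := by rw [hT0']; exact sm_act h0 g0 hdet
  have hs1 : IsSym T1' := by rw [hT1']; exact isSym_act h1 g0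
  have hnsq0 : nsq T0' = N T0 := by rw [hT0', hg0N]
  have hmin : ∀ g : M4, g.det = 1 → nsq T0' ≤ nsq (act T0' g) := by
    intro g hg
    rw [hnsq0, hT0', act_act]
    exact N_le T0 (g0 * g) (by rw [Matrix.det_mul, hg0, hg, one_mul])
  obtain ⟨Z, u, hu, hus, hort⟩ := kn_proj T0' T1' hS0.1 hs1
  have hip : ip T0' u = 0 := by
    have h2 := hort 1
    have h3 : ip (lie T0' 1) u = 3 * ip T0' u := by
      rw [lie_one]
      unfold ip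
      simp only [Finset.mul_sum, Pi.smul_apply, smul_eq_mul, map_mul, mul_assoc]
      refine Finset.sum_congr rfl fun i _ => Finset.sum_congr rfl fun j _ =>
        Finset.sum_congr rfl fun k _ => ?_
      rw [show (starRingEnd ℂ) 3 = 3 from Complex.conj_ofNat 3]
    rw [h3] at h2
    exact (mul_eq_zero.1 h2).resolve_left (by norm_num)
  obtain ⟨Q0, hQ0⟩ := act_one_add T0' Z
  obtain ⟨Q1, hQ1⟩ := act_one_add T1' Z
  have hsQ0 := kn_Q hS0.1 hQ0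
  have hsQ1 := kn_Q hs1 hQ1
  obtain ⟨R0, hR0⟩ : ∃ R0, R0 = Q0 + (-1 : ℂ) • lie T1' Z := ⟨_, rfl⟩
  obtain ⟨R1, hR1⟩ : ∃ R1, R1 = Q1 + (-1 : ℂ) • act T0' Z := ⟨_, rfl⟩
  obtain ⟨R2, hR2⟩ : ∃ R2, R2 = (-1 : ℂ) • act T1' Z := ⟨_, rfl⟩
  have hsR0 : IsSym R0 := by
    rw [hR0]; exact isSym_add hsQ0 (isSym_smul (isSym_lie hs1 Z) _)
  have hsR1 : IsSym R1 := by
    rw [hR1]; exact isSym_add hsQ1 (isSym_smul (isSym_act hS0.1 Z) _)
  have hsR2 : IsSym R2 := by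
    rw [hR2]; exact isSym_smul (isSym_act hs1 Z) _
  obtain ⟨R, hR⟩ := knR_ex R0 R1 R2
  have hexp : ∀ τ : ℂ, act (T0' + τ • T1') (1 + (-τ) • Z) = T0' + τ • u + τ ^ 2 • R τ := by
    intro τ
    rw [act_add, act_smul, hQ0, hQ1, hR, hR0, hR1, hR2]
    funext i j k
    have huu : T1' i j k = lie T0' Z i j k + u i j k :=
      congrFun (congrFun (congrFun hu i) j) k
    simp only [Pi.add_apply, Pi.smul_apply, smul_eq_mul]
    linear_combination τ * huu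
  obtain ⟨B, hB⟩ : ∃ B : ℝ, B = ‖R0‖ + (‖R1‖ + ‖R2‖) := ⟨_, rfl⟩
  have hn0 := norm_nonneg R0
  have hn1 := norm_nonneg R1
  have hn2 := norm_nonneg R2
  have hRb : ∀ τ : ℂ, ‖τ‖ ≤ 1 → ‖τ • R1 + τ ^ 2 • R2‖ ≤ (‖R1‖ + ‖R2‖) * ‖τ‖ := by
    intro τ hτ
    refine (norm_add_le _ _).trans ?_
    rw [norm_smul, norm_smul, norm_pow]
    have h2 : ‖τ‖ ^ 2 ≤ ‖τ‖ := by
      rw [sq]
      exact mul_le_of_le_one_left (norm_nonneg _) hτ
    have h3 : ‖τ‖ ^ 2 * ‖R2‖ ≤ ‖τ‖ * ‖R2‖ := mul_le_mul_of_nonneg_right h2 hn2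
    linarith only [h3]
  have hRR : ∀ τ : ℂ, ‖τ‖ ≤ 1 → IsSym (R τ) ∧ ‖R τ‖ ≤ B := by
    intro τ hτ
    rw [hR]
    refine ⟨isSym_add hsR0 (isSym_add (isSym_smul hsR1 _) (isSym_smul hsR2 _)), ?_⟩
    refine (norm_add_le _ _).trans ?_
    have h2 := hRb τ hτ
    rw [hB]
    have h3 : (‖R1‖ + ‖R2‖) * ‖τ‖ ≤ (‖R1‖ + ‖R2‖) * 1 :=
      mul_le_mul_of_nonneg_left hτ (add_nonneg hn1 hn2)
    linarith only [h2, h3]
  have hRR' : ∀ τ : ℂ, ‖τ‖ ≤ 1 → ‖R τ - R0‖ ≤ B * ‖τ‖ := by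
    intro τ hτ
    rw [hR, add_sub_cancel_left]
    refine (hRb τ hτ).trans ?_
    rw [hB]
    have h3 : 0 ≤ ‖R0‖ * ‖τ‖ := mul_nonneg hn0 (norm_nonneg τ)
    linarith only [h3]
  obtain ⟨C1, δ1, hδ1, hpert⟩ := pert hS0 hmin hus hort R B hRR
  obtain ⟨C2, hfour⟩ := four_nsq T0' u R0 hip R B hRR'
  obtain ⟨C4, δ4, hδ4, hlog⟩ := four_log (fun τ : ℂ => (1 + (-τ) • Z).det) (kn_h Z) (by simp)
  have hl0 : Real.log ‖(1 + (-(0 : ℂ)) • Z).det‖ = 0 := by simp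
  -- nearby points
  have hev1 : ∀ᶠ t in nhds (0 : ℂ), Sm (T0 + t • T1) := by
    filter_upwards [log_N_usc h0 h1 (Real.log (N T0) + 1) (by linarith)] with t ht
    exact ht.1
  have hev2 : ∀ᶠ t in nhds (0 : ℂ), (1 + (-t) • Z).det ≠ 0 := by
    have h2 := (kn_h Z).continuousAt
    exact h2.eventually_ne (by simp)
  obtain ⟨δ5, hδ5, hev⟩ := Metric.eventually_nhds_iff.1 (hev1.and hev2)
  obtain ⟨C3, hC3⟩ : ∃ C3 : ℝ, C3 = |C2| + |C1| + 1 := ⟨_, rfl⟩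
  have hC30 : 0 < C3 := by
    have := abs_nonneg C1
    have := abs_nonneg C2
    linarith
  obtain ⟨N0, hN0e⟩ : ∃ N0, N0 = N T0 := ⟨_, rfl⟩
  have hN0p : 0 < N0 := by rw [hN0e]; exact hN0
  obtain ⟨δ6, hδ6⟩ : ∃ δ6 : ℝ, δ6 = N0 / (2 * C3) := ⟨_, rfl⟩
  have hδ6p : 0 < δ6 := by rw [hδ6]; positivity
  obtain ⟨δ, hδ⟩ : ∃ δ : ℝ, δ = min 1 (min δ1 (min δ4 (min δ5 δ6))) := ⟨_, rfl⟩
  have hδp : 0 < δ := by
    rw [hδ]
    exact lt_min one_pos (lt_min hδ1 (lt_min hδ4 (lt_min hδ5 hδ6p)))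
  have hpt : ∀ t : ℂ, ‖t‖ < δ →
      Real.log N0 + (nsq (T0' + t • u + t ^ 2 • R t) - C1 * ‖t‖ ^ 4 - N0) / N0 -
        2 * (C3 * ‖t‖ ^ 2 / N0) ^ 2 - 3 / 2 * Real.log ‖(1 + (-t) • Z).det‖ ≤
      Real.log (N (T0 + t • T1)) := by
    intro t ht
    rw [hδ, lt_min_iff, lt_min_iff, lt_min_iff, lt_min_iff] at ht
    obtain ⟨ht0, ht1, ht4, ht5, ht6⟩ := ht
    obtain ⟨hsm, hd⟩ := hev (show dist t 0 < δ5 by rwa [dist_zero_right])
    have e1 : T0' + t • T1' = act (T0 + t • T1) g0 := by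
      rw [hT0', hT1', act_add, act_smul]
    have hsm' : Sm (T0' + t • T1') := by
      rw [e1]
      exact sm_act hsm g0 hdet
    have e2 : N (T0' + t • T1') = N (T0 + t • T1) := by
      rw [e1, N_act_sl _ g0 hg0]
    have e3 := log_N_act hsm' (1 + (-t) • Z) hd
    rw [hexp, e2] at e3
    have e4 := hpert t ht1
    obtain ⟨x, hx⟩ : ∃ x, x = nsq (T0' + t • u + t ^ 2 • R t) - C1 * ‖t‖ ^ 4 - N0 := ⟨_, rfl⟩
    have hxb : |x| ≤ C3 * ‖t‖ ^ 2 := by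
      have h2 := (hfour t ht0.le).1
      rw [hnsq0, ← hN0e] at h2
      have h3 : x = (nsq (T0' + t • u + t ^ 2 • R t) - N0) + -(C1 * ‖t‖ ^ 4) := by
        rw [hx]; ring
      rw [h3]
      refine (abs_add_le _ _).trans ?_
      rw [abs_neg, abs_mul, abs_of_nonneg (by positivity : (0 : ℝ) ≤ ‖t‖ ^ 4)]
      have h4 : ‖t‖ ^ 4 ≤ ‖t‖ ^ 2 := pow_le_pow_of_le_one (norm_nonneg _) ht0.le (by norm_num)
      have h5 : C2 * ‖t‖ ^ 2 ≤ |C2| * ‖t‖ ^ 2 :=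
        mul_le_mul_of_nonneg_right (le_abs_self _) (by positivity)
      have h6 : |C1| * ‖t‖ ^ 4 ≤ |C1| * ‖t‖ ^ 2 :=
        mul_le_mul_of_nonneg_left h4 (abs_nonneg _)
      have h7 : 0 ≤ ‖t‖ ^ 2 := by positivity
      rw [hC3]
      have h9 : (|C2| + |C1| + 1) * ‖t‖ ^ 2 = |C2| * ‖t‖ ^ 2 + |C1| * ‖t‖ ^ 2 + ‖t‖ ^ 2 := by ring
      rw [h9]
      linarith only [h2, h5, h6, h7]
    have hyb : |x / N0| ≤ C3 * ‖t‖ ^ 2 / N0 := by
      rw [abs_div, abs_of_pos hN0p]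
      exact div_le_div_of_nonneg_right hxb hN0p.le
    have hsmall : C3 * ‖t‖ ^ 2 / N0 ≤ 1 / 2 := by
      rw [div_le_iff₀ hN0p]
      have h2 : ‖t‖ ^ 2 ≤ ‖t‖ := by
        rw [sq]
        exact mul_le_of_le_one_left (norm_nonneg _) ht0.le
      have h3 : C3 * ‖t‖ ≤ C3 * δ6 := mul_le_mul_of_nonneg_left ht6.le hC30.le
      have h4 : C3 * δ6 = N0 / 2 := by
        rw [hδ6]
        field_simp
      have h5 : C3 * ‖t‖ ^ 2 ≤ C3 * ‖t‖ := mul_le_mul_of_nonneg_left h2 hC30.le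
      linarith only [h3, h4, h5]
    have h8 := kn_log (hyb.trans hsmall)
    have h9 : (x / N0) ^ 2 ≤ (C3 * ‖t‖ ^ 2 / N0) ^ 2 := by
      rw [← sq_abs (x / N0)]
      exact pow_le_pow_left₀ (abs_nonneg _) hyb 2
    have h10 : 0 < 1 + x / N0 := by
      have := (abs_le.1 (hyb.trans hsmall)).1
      linarith
    have h11 : Real.log (N0 * (1 + x / N0)) = Real.log N0 + Real.log (1 + x / N0) :=
      Real.log_mul hN0p.ne' h10.ne'
    have h12 : N0 * (1 + x / N0) ≤ N (T0' + t • u + t ^ 2 • R t) := by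
      have h13 : N0 * (1 + x / N0) = N0 + x := by field_simp
      rw [h13, hx]
      linarith
    have h14 := Real.log_le_log (mul_pos hN0p h10) h12
    rw [h11] at h14
    rw [← hx]
    linarith
  refine ⟨4 * nsq u / N0, (|C2| + 4 * |C1|) / N0 + 8 * (C3 / N0) ^ 2 + 3 / 2 * |C4|, δ, ?_, hδp, ?_,
    ?_⟩
  · have := nsq_nonneg u
    positivity
  · intro hκ
    have hu0 : u = 0 := by
      by_contra hne
      have := nsq_pos hne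
      have h2 : 0 < 4 * nsq u / N0 := by positivity
      exact h2.ne' hκ
    rw [hu0, add_zero] at hu
    refine ⟨g0 * Z * g0⁻¹, ?_⟩
    have hunit : IsUnit g0.det := by rw [hg0]; exact isUnit_one
    have h2 : g0 * Z = (g0 * Z * g0⁻¹) * g0 := by
      rw [mul_assoc (g0 * Z), Matrix.nonsing_inv_mul g0 hunit, mul_one]
    have h3 := lie_act T0 g0 Z (g0 * Z * g0⁻¹) h2
    rw [hT1', hT0', h3] at hu
    have h4 := congrArg (fun T => act T g0⁻¹) hu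
    simp only [act_act, Matrix.mul_nonsing_inv g0 hunit, act_one] at h4
    exact h4
  · intro τ hτ
    have hτ' := hτ
    rw [hδ, lt_min_iff, lt_min_iff, lt_min_iff, lt_min_iff] at hτ'
    obtain ⟨ht0, ht1, ht4, ht5, ht6⟩ := hτ'
    have hsum := Finset.sum_le_sum fun (k : Fin 4) (_ : k ∈ Finset.univ) =>
      hpt (I ^ (k : ℕ) * τ) (by rw [kn_I]; exact hτ)
    have h2 := (hfour τ ht0.le).2
    have h3 := hlog τ ht4
    rw [hl0, mul_zero, sub_zero] at h3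
    refine le_trans ?_ hsum
    have e1 : ∑ k : Fin 4, (Real.log N0 + (nsq (T0' + (I ^ (k : ℕ) * τ) • u +
        (I ^ (k : ℕ) * τ) ^ 2 • R (I ^ (k : ℕ) * τ)) - C1 * ‖I ^ (k : ℕ) * τ‖ ^ 4 - N0) / N0 -
        2 * (C3 * ‖I ^ (k : ℕ) * τ‖ ^ 2 / N0) ^ 2 -
        3 / 2 * Real.log ‖(1 + (-(I ^ (k : ℕ) * τ)) • Z).det‖) =
        4 * Real.log N0 + (∑ k : Fin 4, nsq (T0' + (I ^ (k : ℕ) * τ) • u +
        (I ^ (k : ℕ) * τ) ^ 2 • R (I ^ (k : ℕ) * τ)) - 4 * N0) / N0 - 4 * C1 * ‖τ‖ ^ 4 / N0 -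
        8 * (C3 * ‖τ‖ ^ 2 / N0) ^ 2 -
        3 / 2 * ∑ k : Fin 4, Real.log ‖(1 + (-(I ^ (k : ℕ) * τ)) • Z).det‖ := by
      simp only [kn_I]
      simp only [Fin.sum_univ_four]
      ring
    rw [e1]
    rw [hnsq0, ← hN0e] at h2
    obtain ⟨Sn, hSn⟩ : ∃ Sn, Sn = ∑ k : Fin 4, nsq (T0' + (I ^ (k : ℕ) * τ) • u +
        (I ^ (k : ℕ) * τ) ^ 2 • R (I ^ (k : ℕ) * τ)) := ⟨_, rfl⟩
    obtain ⟨Sl, hSl⟩ : ∃ Sl, Sl = ∑ k : Fin 4, Real.log ‖(1 + (-(I ^ (k : ℕ) * τ)) • Z).det‖ :=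
      ⟨_, rfl⟩
    rw [← hSn] at h2 ⊢
    rw [← hSl] at h3 ⊢
    have hτ3 : 0 ≤ ‖τ‖ ^ 3 := by positivity
    have h4 : ‖τ‖ ^ 4 ≤ ‖τ‖ ^ 3 := pow_le_pow_of_le_one (norm_nonneg _) ht0.le (by norm_num)
    have h5 : (4 * ‖τ‖ ^ 2 * nsq u - |C2| * ‖τ‖ ^ 3) / N0 ≤ (Sn - 4 * N0) / N0 := by
      refine div_le_div_of_nonneg_right ?_ hN0p.le
      have h6 := (abs_le.1 h2).1
      have h7 : C2 * ‖τ‖ ^ 3 ≤ |C2| * ‖τ‖ ^ 3 :=
        mul_le_mul_of_nonneg_right (le_abs_self _) hτ3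
      linarith
    have h6 : 4 * C1 * ‖τ‖ ^ 4 / N0 ≤ 4 * |C1| * ‖τ‖ ^ 3 / N0 := by
      refine div_le_div_of_nonneg_right ?_ hN0p.le
      have h7 : C1 * ‖τ‖ ^ 4 ≤ |C1| * ‖τ‖ ^ 3 :=
        mul_le_mul (le_abs_self _) h4 (by positivity) (abs_nonneg _)
      linarith
    have h7 : (C3 * ‖τ‖ ^ 2 / N0) ^ 2 ≤ (C3 / N0) ^ 2 * ‖τ‖ ^ 3 := by
      have h8 : (C3 * ‖τ‖ ^ 2 / N0) ^ 2 = (C3 / N0) ^ 2 * ‖τ‖ ^ 4 := by ring
      rw [h8]
      exact mul_le_mul_of_nonneg_left h4 (sq_nonneg _)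
    have h8 : 3 / 2 * Sl ≤ 3 / 2 * (|C4| * ‖τ‖ ^ 3) := by
      have h9 := (abs_le.1 h3).2
      have h10 : C4 * ‖τ‖ ^ 3 ≤ |C4| * ‖τ‖ ^ 3 :=
        mul_le_mul_of_nonneg_right (le_abs_self _) hτ3
      linarith
    have e2 : (4 * ‖τ‖ ^ 2 * nsq u - |C2| * ‖τ‖ ^ 3) / N0 =
        4 * nsq u / N0 * ‖τ‖ ^ 2 - |C2| / N0 * ‖τ‖ ^ 3 := by ring
    have e3 : 4 * |C1| * ‖τ‖ ^ 3 / N0 = 4 * |C1| / N0 * ‖τ‖ ^ 3 := by ring
    rw [e2] at h5
    rw [e3] at h6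
    have e4 : ((|C2| + 4 * |C1|) / N0 + 8 * (C3 / N0) ^ 2 + 3 / 2 * |C4|) * ‖τ‖ ^ 3 =
        |C2| / N0 * ‖τ‖ ^ 3 + 4 * |C1| / N0 * ‖τ‖ ^ 3 + 8 * ((C3 / N0) ^ 2 * ‖τ‖ ^ 3) +
        3 / 2 * (|C4| * ‖τ‖ ^ 3) := by ring
    rw [e4, ← hN0e]
    linarith

end Pool.Agent.ISO
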