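import Pool.Agent.ISO.CI0
import Pool.Agent.ISO.Defs

/-!
# ISO / Mats: the Koszul matrices of a cubic form

`Mon d` are the exponents of the monomials of degree `d ≤ 5` in four variables; a function
`v : Mon d → ℂ` is the form `poly v`.  `AM T : (Fin 4 × Mon 3 → ℂ) → (Mon 5 → ℂ)` is
`(a_k) ↦ ∑ a_k q_k` and `BM T : (Pr × Mon 1 → ℂ) → (Fin 4 × Mon 3 → ℂ)` is
`L ↦ (∑_j L_ij q_j)_i`, where `q_k = qd T k` are the partial derivatives divided by `3` and `L` is the
antisymmetric matrix of linear forms with the given entries above the diagonal.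
-/

set_option autoImplicit false

noncomputable section

namespace Pool.Agent.ISO

open MvPolynomial Matrix

/-- Exponents of the monomials of degree `d ≤ 5`. -/
def Mon (d : ℕ) : Type := {m : Fin 4 → Fin 6 // ∑ i, (m i : ℕ) = d}

instance (d : ℕ) : DecidableEq (Mon d) := inferInstanceAs (DecidableEq {m : Fin 4 → Fin 6 // _})

instance (d : ℕ) : Fintype (Mon d) :=
  inferInstanceAs (Fintype {m : Fin 4 → Fin 6 // ∑ i, (m i : ℕ) = d})

/-- The pairs `i < j`. -/
def Pr : Type := {p : Fin 4 × Fin 4 // p.1 < p.2}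

instance : DecidableEq Pr := inferInstanceAs (DecidableEq {p : Fin 4 × Fin 4 // _})

instance : Fintype Pr := inferInstanceAs (Fintype {p : Fin 4 × Fin 4 // p.1 < p.2})

/-- The exponent as a finitely supported function. -/
def mexp {d : ℕ} (m : Mon d) : Fin 4 →₀ ℕ := Finsupp.equivFunOnFinite.symm fun i => (m.1 i : ℕ)

/-- The form with given coefficients. -/
def poly {d : ℕ} (v : Mon d → ℂ) : S4 := ∑ m, monomial (mexp m) (v m)

/-- The coefficients of degree `d` of a polynomial. -/
def coef (d : ℕ) (F : S4) : Mon d → ℂ := fun m => coeff (mexp m) F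

/-- The quadrics `q_k` (one third of the partial derivatives). -/
def qd (T : T3) (k : Fin 4) : S4 := ∑ i, ∑ j, C (T i j k) * X i * X j

/-- The antisymmetric matrix of linear forms with entries `poly (L (p, ·))` above the diagonal. -/
def asym (L : Pr × Mon 1 → ℂ) (i j : Fin 4) : S4 :=
  if h : i < j then poly (fun m => L (⟨(i, j), h⟩, m))
  else if h : j < i then - poly (fun m => L (⟨(j, i), h⟩, m)) else 0

/-- `(a_k) ↦ ∑ a_k q_k`. -/
def AF (T : T3) (a : Fin 4 × Mon 3 → ℂ) : Mon 5 → ℂ :=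
  coef 5 (∑ k, poly (fun m => a (k, m)) * qd T k)

/-- `L ↦ (∑_j L_ij q_j)_i`. -/
def BF (T : T3) (L : Pr × Mon 1 → ℂ) : Fin 4 × Mon 3 → ℂ :=
  fun x => coef 3 (∑ j, asym L x.1 j * qd T j) x.2

/-- The matrix of `AF`. -/
def AM (T : T3) : Matrix (Mon 5) (Fin 4 × Mon 3) ℂ :=
  Matrix.of fun x y => AF T (Pi.single y 1) x

/-- The matrix of `BF`. -/
def BM (T : T3) : Matrix (Fin 4 × Mon 3) (Pr × Mon 1) ℂ :=
  Matrix.of fun x y => BF T (Pi.single y 1) x

end Pool.Agent.ISO
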