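import Pool.Agent.ISO.Mats
import Pool.Agent.ISO.CI5

/-!
# ISO / Mats1: the Koszul complex of a smooth form is exact in degree `5`

PROOFS.  `poly_coef`: a homogeneous polynomial of degree `d ≤ 5` has only monomials with exponents
in `Mon d`.  `card_Mon`: `decide +kernel` / `rfl` or a bijection.  `AM_mulVec`, `BM_mulVec`: linearity of
`AF`, `BF` (`Pi.basisFun`, `LinearMap.toMatrix'`).  `qd_eval`: `eval p (qd T k) = grad T p k`, so the
four quadrics of a smooth form have no common zero and `ci_surj`, `ci_lin`, `ci_cub` apply.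
`AM_mul_BM`: `∑_i (∑_j L_ij q_j) q_i = 0` by antisymmetry; the components of degree `3` of
`∑_j L_ij q_j` are the whole polynomial (homogeneous of degree `3`).
-/

set_option autoImplicit false

noncomputable section

namespace Pool.Agent.ISO

open MvPolynomial Matrix

theorem mexp_apply {d : ℕ} (m : Mon d) (i : Fin 4) : mexp m i = (m.1 i : ℕ) := rfl

theorem mexp_inj {d : ℕ} {m m' : Mon d} (h : mexp m = mexp m') : m = m' := by
  apply Subtype.ext
  funext i
  apply Fin.ext
  exact DFunLike.congr_fun h i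

theorem coef_poly {d : ℕ} (v : Mon d → ℂ) : coef d (poly v) = v := by
  funext m
  unfold coef poly
  rw [coeff_sum, Finset.sum_eq_single m]
  · rw [coeff_monomial, if_pos rfl]
  · intro m' _ hne
    rw [coeff_monomial, if_neg fun h => hne (mexp_inj h)]
  · intro h
    exact absurd (Finset.mem_univ m) h

theorem degree_mexp {d : ℕ} (m : Mon d) : (mexp m).degree = d := by
  rw [Finsupp.degree_eq_sum]
  exact m.2

theorem poly_homog {d : ℕ} (v : Mon d → ℂ) : (poly v).IsHomogeneous d := by
  unfold poly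
  exact IsHomogeneous.sum _ _ _ fun m _ => isHomogeneous_monomial _ (degree_mexp m)

theorem poly_coef {d : ℕ} (hd : d ≤ 5) (F : S4) (hF : F.IsHomogeneous d) :
    poly (coef d F) = F := by
  ext s
  unfold poly coef
  rw [coeff_sum]
  by_cases hs : s.degree = d
  · have hsum : ∑ i, s i = d := by
      rw [← hs, Finsupp.degree_eq_sum]
    have hle : ∀ i, s i < 6 := by
      intro i
      have := Finset.single_le_sum (f := fun i => s i) (fun _ _ => Nat.zero_le _)
        (Finset.mem_univ i)
      rw [hsum] at this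
      omega
    obtain ⟨m, hm⟩ : ∃ m : Mon d, mexp m = s :=
      ⟨⟨fun i => ⟨s i, hle i⟩, hsum⟩, by ext i; rfl⟩
    rw [Finset.sum_eq_single m]
    · rw [coeff_monomial, if_pos hm, hm]
    · intro m' _ hne
      rw [coeff_monomial, if_neg]
      intro h
      exact hne (mexp_inj (h.trans hm.symm))
    · intro h
      exact absurd (Finset.mem_univ m) h
  · rw [hF.coeff_eq_zero hs]
    refine Finset.sum_eq_zero fun m _ => ?_
    rw [coeff_monomial, if_neg]
    intro h
    exact hs (by rw [← h, degree_mexp])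

theorem card_Mon5 : Fintype.card (Mon 5) = 56 := by
  decide +kernel

theorem card_Mon3 : Fintype.card (Mon 3) = 20 := by
  decide +kernel

theorem card_Mon1 : Fintype.card (Mon 1) = 4 := by
  decide +kernel

theorem card_Pr : Fintype.card Pr = 6 := by
  decide +kernel

theorem card_sum : Fintype.card (Mon 5 ⊕ (Pr × Mon 1)) = Fintype.card (Fin 4 × Mon 3) := by
  rw [Fintype.card_sum, Fintype.card_prod, Fintype.card_prod, card_Mon5, card_Mon3, card_Mon1,
    card_Pr, Fintype.card_fin]

theorem poly_add {d : ℕ} (v w : Mon d → ℂ) : poly (v + w) = poly v + poly w := by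
  unfold poly
  rw [← Finset.sum_add_distrib]
  exact Finset.sum_congr rfl fun m _ => by rw [Pi.add_apply, map_add]

theorem poly_smul {d : ℕ} (c : ℂ) (v : Mon d → ℂ) : poly (c • v) = c • poly v := by
  unfold poly
  rw [Finset.smul_sum]
  exact Finset.sum_congr rfl fun m _ => by rw [Pi.smul_apply, map_smul]

theorem poly_zero {d : ℕ} : poly (0 : Mon d → ℂ) = 0 := by
  have h := poly_smul (d := d) 0 0
  rwa [zero_smul, zero_smul] at h

theorem coef_add (d : ℕ) (F G : S4) : coef d (F + G) = coef d F + coef d G := by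
  funext m
  exact coeff_add _ _ _

theorem coef_smul (d : ℕ) (c : ℂ) (F : S4) : coef d (c • F) = c • coef d F := by
  funext m
  exact coeff_smul _ _ _

theorem coef_zero (d : ℕ) : coef d 0 = 0 := by
  funext m
  exact coeff_zero _

/-- a linear map of function spaces is given by its matrix -/
private theorem mulVec_lin {ι κ : Type} [Fintype ι] [DecidableEq ι]
    (f : (ι → ℂ) → κ → ℂ) (hadd : ∀ v w, f (v + w) = f v + f w)
    (hsmul : ∀ (c : ℂ) v, f (c • v) = c • f v) (a : ι → ℂ) :
    (Matrix.of fun (x : κ) (y : ι) => f (Pi.single y 1) x).mulVec a = f a := by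
  let F : (ι → ℂ) →ₗ[ℂ] (κ → ℂ) :=
    { toFun := f, map_add' := hadd, map_smul' := hsmul }
  have h1 : F a = ∑ y, a y • F (Pi.single y 1) := by
    conv_lhs => rw [pi_eq_sum_univ' a]
    rw [map_sum]
    refine Finset.sum_congr rfl fun y _ => ?_
    rw [map_smul]
  funext x
  have h2 := congrFun h1 x
  change f a x = _ at h2
  rw [h2, Matrix.mulVec, dotProduct, Finset.sum_apply]
  refine Finset.sum_congr rfl fun y _ => ?_
  rw [Matrix.of_apply, Pi.smul_apply, smul_eq_mul, mul_comm]
  rfl

theorem AF_add (T : T3) (a b : Fin 4 × Mon 3 → ℂ) : AF T (a + b) = AF T a + AF T b := by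
  unfold AF
  rw [← coef_add, ← Finset.sum_add_distrib]
  congr 1
  refine Finset.sum_congr rfl fun k _ => ?_
  rw [← add_mul, ← poly_add]
  rfl

theorem AF_smul (T : T3) (c : ℂ) (a : Fin 4 × Mon 3 → ℂ) : AF T (c • a) = c • AF T a := by
  unfold AF
  rw [← coef_smul, Finset.smul_sum]
  congr 1
  refine Finset.sum_congr rfl fun k _ => ?_
  rw [← smul_mul_assoc, ← poly_smul]
  rfl

theorem AM_mulVec (T : T3) (a : Fin 4 × Mon 3 → ℂ) : (AM T).mulVec a = AF T a :=
  mulVec_lin (AF T) (AF_add T) (AF_smul T) a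

theorem asym_add (L M : Pr × Mon 1 → ℂ) (i j : Fin 4) :
    asym (L + M) i j = asym L i j + asym M i j := by
  unfold asym
  split_ifs
  · rw [← poly_add]
    rfl
  · rw [← neg_add, ← poly_add]
    rfl
  · rw [add_zero]

theorem asym_smul (c : ℂ) (L : Pr × Mon 1 → ℂ) (i j : Fin 4) :
    asym (c • L) i j = c • asym L i j := by
  unfold asym
  split_ifs
  · rw [← poly_smul]
    rfl
  · rw [smul_neg, ← poly_smul]
    rfl
  · rw [smul_zero]

theorem asym_neg (L : Pr × Mon 1 → ℂ) (i j : Fin 4) : asym L i j = - asym L j i := by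
  unfold asym
  rcases lt_trichotomy i j with h | h | h
  · rw [dif_pos h, dif_neg (not_lt.2 h.le), dif_pos h, neg_neg]
  · subst h
    rw [dif_neg (lt_irrefl i), dif_neg (lt_irrefl i), neg_zero]
  · rw [dif_neg (not_lt.2 h.le), dif_pos h, dif_pos h]

theorem asym_homog (L : Pr × Mon 1 → ℂ) (i j : Fin 4) : (asym L i j).IsHomogeneous 1 := by
  unfold asym
  split_ifs
  · exact poly_homog _
  · exact (poly_homog _).neg
  · exact isHomogeneous_zero _ _ _

theorem BF_add (T : T3) (L M : Pr × Mon 1 → ℂ) : BF T (L + M) = BF T L + BF T M := by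
  funext x
  change coef 3 (∑ j, asym (L + M) x.1 j * qd T j) x.2 =
    coef 3 (∑ j, asym L x.1 j * qd T j) x.2 + coef 3 (∑ j, asym M x.1 j * qd T j) x.2
  have h := congrFun (coef_add 3 (∑ j, asym L x.1 j * qd T j) (∑ j, asym M x.1 j * qd T j)) x.2
  rw [Pi.add_apply] at h
  rw [← h, ← Finset.sum_add_distrib]
  refine congrFun (congrArg (coef 3) (Finset.sum_congr rfl fun j _ => ?_)) x.2
  rw [← add_mul, asym_add]

theorem BF_smul (T : T3) (c : ℂ) (L : Pr × Mon 1 → ℂ) : BF T (c • L) = c • BF T L := by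
  funext x
  change coef 3 (∑ j, asym (c • L) x.1 j * qd T j) x.2 =
    c • coef 3 (∑ j, asym L x.1 j * qd T j) x.2
  have h := congrFun (coef_smul 3 c (∑ j, asym L x.1 j * qd T j)) x.2
  rw [Pi.smul_apply] at h
  rw [← h, Finset.smul_sum]
  refine congrFun (congrArg (coef 3) (Finset.sum_congr rfl fun j _ => ?_)) x.2
  rw [← smul_mul_assoc, asym_smul]

theorem BM_mulVec (T : T3) (L : Pr × Mon 1 → ℂ) : (BM T).mulVec L = BF T L :=
  mulVec_lin (BF T) (BF_add T) (BF_smul T) L

theorem qd_homog (T : T3) (k : Fin 4) : (qd T k).IsHomogeneous 2 := by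
  unfold qd
  refine IsHomogeneous.sum _ _ _ fun i _ => IsHomogeneous.sum _ _ _ fun j _ => ?_
  exact ((isHomogeneous_C _ _).mul (isHomogeneous_X _ _)).mul (isHomogeneous_X _ _)

theorem eval_qd (T : T3) (k : Fin 4) (p : Fin 4 → ℂ) : eval p (qd T k) = grad T p k := by
  unfold qd grad
  simp only [map_sum, map_mul, eval_C, eval_X]

theorem asym_qd_homog (T : T3) (L : Pr × Mon 1 → ℂ) (i : Fin 4) :
    (∑ j, asym L i j * qd T j).IsHomogeneous 3 :=
  IsHomogeneous.sum _ _ _ fun j _ => (asym_homog L i j).mul (qd_homog T j)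

theorem AF_BF (T : T3) (L : Pr × Mon 1 → ℂ) : AF T (BF T L) = 0 := by
  unfold AF
  have h1 : ∀ k, poly (fun m => BF T L (k, m)) = ∑ j, asym L k j * qd T j := by
    intro k
    have h2 : (fun m => BF T L (k, m)) = coef 3 (∑ j, asym L k j * qd T j) := rfl
    rw [h2, poly_coef (by norm_num) _ (asym_qd_homog T L k)]
  have h3 : (∑ k, poly (fun m => BF T L (k, m)) * qd T k) = 0 := by
    obtain ⟨S, hS⟩ : ∃ S, S = ∑ k, poly (fun m => BF T L (k, m)) * qd T k := ⟨_, rfl⟩
    have h4 : S = ∑ k, ∑ j, asym L k j * qd T j * qd T k := by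
      rw [hS]
      refine Finset.sum_congr rfl fun k _ => ?_
      rw [h1, Finset.sum_mul]
    have h5 : S = - S := by
      conv_lhs => rw [h4, Finset.sum_comm]
      rw [h4, ← Finset.sum_neg_distrib]
      refine Finset.sum_congr rfl fun k _ => ?_
      rw [← Finset.sum_neg_distrib]
      refine Finset.sum_congr rfl fun j _ => ?_
      rw [asym_neg L j k]
      ring
    rw [← hS]
    have h6 : (2 : ℂ) • S = 0 := by
      rw [two_smul]
      nth_rewrite 1 [h5]
      exact neg_add_cancel S
    rcases smul_eq_zero.1 h6 with h7 | h7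
    · norm_num at h7
    · exact h7
  rw [h3, coef_zero]

theorem AM_mul_BM (T : T3) : AM T * BM T = 0 := by
  ext i j
  have h1 : (AM T * BM T).mulVec (Pi.single j 1) = 0 := by
    rw [← Matrix.mulVec_mulVec, BM_mulVec, AM_mulVec, AF_BF]
  have h2 := congrFun h1 i
  rw [Matrix.mulVec_single_one] at h2
  exact h2

private theorem no_zero {T : T3} (h : Sm T) (p : Fin 4 → ℂ) (hp : ∀ i, eval p (qd T i) = 0) :
    p = 0 := by
  by_contra hne
  obtain ⟨k, hk⟩ := h.2 p hne
  exact hk (by rw [← eval_qd]; exact hp k)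

theorem AM_surj {T : T3} (h : Sm T) : Function.Surjective (AM T).mulVec := by
  intro w
  obtain ⟨a, ha, hG⟩ := ci_surj (qd T) (qd_homog T) (no_zero h) (poly w) (poly_homog w)
  refine ⟨fun x => coef 3 (a x.1) x.2, ?_⟩
  rw [AM_mulVec]
  unfold AF
  have h1 : ∀ k, poly (fun m => coef 3 (a k) m) = a k := fun k =>
    poly_coef (by norm_num) _ (ha k)
  have h2 : (∑ k, poly (fun m => (fun x : Fin 4 × Mon 3 => coef 3 (a x.1) x.2) (k, m)) * qd T k) =
      poly w := by
    rw [hG]
    exact Finset.sum_congr rfl fun k _ => by rw [← h1 k]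
  rw [h2, coef_poly]

theorem BM_inj {T : T3} (h : Sm T) : Function.Injective (BM T).mulVec := by
  have key : ∀ L, (BM T).mulVec L = 0 → L = 0 := by
    intro L hL
    rw [BM_mulVec] at hL
    have h1 : ∀ i, ∑ j, asym L i j * qd T j = 0 := by
      intro i
      have h2 : coef 3 (∑ j, asym L i j * qd T j) = 0 := by
        funext m
        exact congrFun hL (i, m)
      rw [← poly_coef (by norm_num) _ (asym_qd_homog T L i), h2, poly_zero]
    have h3 : ∀ i j, asym L i j = 0 := fun i j =>
      ci_lin (qd T) (qd_homog T) (no_zero h) (asym L i) (asym_homog L i) (h1 i) j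
    funext x
    obtain ⟨⟨⟨i, j⟩, hij⟩, m⟩ := x
    have h4 := h3 i j
    unfold asym at h4
    rw [dif_pos hij] at h4
    have h5 := congrArg (coef 1) h4
    rw [coef_poly, coef_zero] at h5
    exact congrFun h5 m
  intro v w hvw
  have h1 := key (v - w) (by rw [Matrix.mulVec_sub]; exact sub_eq_zero.2 hvw)
  exact sub_eq_zero.1 h1

theorem exact_AM {T : T3} (h : Sm T) (v : Fin 4 × Mon 3 → ℂ) (hv : (AM T).mulVec v = 0) :
    ∃ u, v = (BM T).mulVec u := by
  rw [AM_mulVec] at hv
  have h1 : (∑ k, poly (fun m => v (k, m)) * qd T k).IsHomogeneous 5 :=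
    IsHomogeneous.sum _ _ _ fun k _ => (poly_homog _).mul (qd_homog T k)
  have h2 : ∑ k, poly (fun m => v (k, m)) * qd T k = 0 := by
    rw [← poly_coef le_rfl _ h1]
    have h3 : coef 5 (∑ k, poly (fun m => v (k, m)) * qd T k) = 0 := hv
    rw [h3, poly_zero]
  obtain ⟨L, hL1, hL2, hL3⟩ := ci_cub (qd T) (qd_homog T) (no_zero h)
    (fun k => poly (fun m => v (k, m))) (fun k => poly_homog _) h2
  refine ⟨fun x => coef 1 (L x.1.1.1 x.1.1.2) x.2, ?_⟩
  have hp : ∀ i j, poly (fun m => coef 1 (L i j) m) = L i j := fun i j =>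
    poly_coef (by norm_num) _ (hL1 i j)
  have h4 : ∀ i j, asym (fun x : Pr × Mon 1 => coef 1 (L x.1.1.1 x.1.1.2) x.2) i j = L i j := by
    intro i j
    unfold asym
    rcases lt_trichotomy i j with hij | hij | hij
    · rw [dif_pos hij]
      exact hp i j
    · subst hij
      rw [dif_neg (lt_irrefl i), dif_neg (lt_irrefl i)]
      have h5 := hL2 i i
      have h6 : (2 : ℂ) • L i i = 0 := by
        rw [two_smul]
        nth_rewrite 1 [h5]
        exact neg_add_cancel _
      rcases smul_eq_zero.1 h6 with h7 | h7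
      · norm_num at h7
      · exact h7.symm
    · rw [dif_neg (not_lt.2 hij.le), dif_pos hij]
      rw [hL2 i j]
      exact congrArg Neg.neg (hp j i)
  rw [BM_mulVec]
  funext x
  obtain ⟨i, m⟩ := x
  unfold BF
  simp only [h4]
  rw [← hL3 i, coef_poly]

end Pool.Agent.ISO
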