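import Pool.Agent.ISO.Mats1
import Pool.Agent.ISO.Act

/-!
# ISO / Mats2: equivariance of the Koszul matrices

`sig g p (x) = p (g x)`.  With `g' = g⁻¹`:
* `RF g b = (a_k)`, `a_k = ∑_c g' k c • sig g (b_c)` on `Fin 4 × Mon 3`;
* `QF g L' = L`, `L_ij = ∑_{a,b} g' i a • g' j b • sig g (L'_ab)` on `Pr × Mon 1`;
* `SF g F = sig g F` on `Mon 5`.

PROOFS.  `qd_act`: `qd (act T g) k = ∑_c g c k • sig g (qd T c)` (compare with `grad_act`, e.g. by
`MvPolynomial.funext`).  `AM_act`: `∑_k a_k qd (act T g) k = ∑_k ∑_c a_k g c k sig g (qd T c)` with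
`a = RF g b` is `∑_c sig g (b_c) sig g (qd T c) = sig g (∑_c b_c qd T c)` since `g' g = 1`... (use
`∑_k g c k * g' k d = δ`).  `BM_act`: `∑_j L_ij qd (act T g) j = ∑_j ∑_c L_ij g c j sig g (qd T c) =
∑_a g' i a sig g (∑_c L'_ac qd T c)`.  Invertibility: `sig g`, `RF g`, `QF g` have the inverses
`sig g'`, `RF g'`, `QF g'` (functoriality), so the determinants are nonzero.  The matrices are those of the linear maps
(`Matrix.of fun x y => RF g (Pi.single y 1) x`).
-/

set_option autoImplicit false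

noncomputable section

namespace Pool.Agent.ISO

open MvPolynomial Matrix

/-- Substitution `x ↦ g x`. -/
def sig (g : M4) : S4 →ₐ[ℂ] S4 := aeval fun a => ∑ b, C (g a b) * X b

def SF (g : M4) (v : Mon 5 → ℂ) : Mon 5 → ℂ := coef 5 (sig g (poly v))

def RF (g : M4) (b : Fin 4 × Mon 3 → ℂ) : Fin 4 × Mon 3 → ℂ :=
  fun x => coef 3 (∑ c, C (g⁻¹ x.1 c) * sig g (poly fun m => b (c, m))) x.2

def QF (g : M4) (L : Pr × Mon 1 → ℂ) : Pr × Mon 1 → ℂ :=
  fun x => coef 1 (∑ a, ∑ b, C (g⁻¹ x.1.1.1 a * g⁻¹ x.1.1.2 b) * sig g (asym L a b)) x.2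

def SM (g : M4) : Matrix (Mon 5) (Mon 5) ℂ := Matrix.of fun x y => SF g (Pi.single y 1) x

def RM (g : M4) : Matrix (Fin 4 × Mon 3) (Fin 4 × Mon 3) ℂ :=
  Matrix.of fun x y => RF g (Pi.single y 1) x

def QM (g : M4) : Matrix (Pr × Mon 1) (Pr × Mon 1) ℂ :=
  Matrix.of fun x y => QF g (Pi.single y 1) x

namespace MatsAux

theorem eval_sig (g : M4) (F : S4) (p : Fin 4 → ℂ) :
    eval p (sig g F) = eval (g.mulVec p) F := by
  have h : ((aeval p : S4 →ₐ[ℂ] ℂ).comp (sig g)) = (aeval (g.mulVec p) : S4 →ₐ[ℂ] ℂ) := by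
    apply algHom_ext
    intro a
    rw [AlgHom.comp_apply, sig, aeval_X, aeval_X, map_sum]
    simp only [map_mul, aeval_X, Matrix.mulVec, dotProduct]
    refine Finset.sum_congr rfl fun b _ => ?_
    rw [← algebraMap_eq, AlgHom.commutes]
    rfl
  have h2 := congrArg (fun f : S4 →ₐ[ℂ] ℂ => f F) h
  exact h2

theorem sig_sig (g h : M4) (F : S4) : sig g (sig h F) = sig (h * g) F := by
  refine MvPolynomial.funext fun p => ?_
  rw [eval_sig, eval_sig, eval_sig, Matrix.mulVec_mulVec]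

theorem sig_one (F : S4) : sig 1 F = F := by
  refine MvPolynomial.funext fun p => ?_
  rw [eval_sig, Matrix.one_mulVec]

theorem sig_C (g : M4) (c : ℂ) : sig g (C c) = C c := by
  rw [← algebraMap_eq, AlgHom.commutes]

theorem sig_homog (g : M4) {d : ℕ} {F : S4} (h : F.IsHomogeneous d) :
    (sig g F).IsHomogeneous d := by
  have h1 : ∀ a, (∑ b, C (g a b) * X b : S4).IsHomogeneous 1 := by
    intro a
    refine IsHomogeneous.sum _ _ _ fun b _ => ?_
    have h2 := (isHomogeneous_C (Fin 4) (g a b)).mul (isHomogeneous_X ℂ b)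
    rwa [zero_add] at h2
  have h2 := h.aeval (fun a => ∑ b, C (g a b) * X b) h1
  rw [one_mul] at h2
  exact h2

/-- the matrix over the polynomial ring -/
def Cm (g : M4) : Matrix (Fin 4) (Fin 4) S4 := g.map C

theorem Cm_mul (g h : M4) : Cm (g * h) = Cm g * Cm h := by
  unfold Cm
  exact Matrix.map_mul (f := (C : ℂ →+* S4))

theorem Cm_one : Cm 1 = 1 := by
  unfold Cm
  exact Matrix.map_one _ (map_zero _) (map_one _)

theorem Cm_sig (g h : M4) : (Cm g).map (sig h) = Cm g := by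
  ext i j
  rw [Matrix.map_apply, Cm, Matrix.map_apply, sig_C]

/-- substitution in a vector of polynomials -/
def sgv (g : M4) (v : Fin 4 → S4) : Fin 4 → S4 := fun c => sig g (v c)

theorem sgv_mulVec (g : M4) (M : Matrix (Fin 4) (Fin 4) S4) (v : Fin 4 → S4) :
    sgv g (M.mulVec v) = (M.map (sig g)).mulVec (sgv g v) := by
  funext i
  exact RingHom.map_mulVec (sig g : S4 →+* S4) M v i

theorem sig_dot (g : M4) (v w : Fin 4 → S4) : sig g (v ⬝ᵥ w) = sgv g v ⬝ᵥ sgv g w :=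
  RingHom.map_dotProduct (sig g : S4 →+* S4) v w

theorem map_sig_mul (g : M4) (M N : Matrix (Fin 4) (Fin 4) S4) :
    (M * N).map (sig g) = M.map (sig g) * N.map (sig g) :=
  Matrix.map_mul (f := (sig g : S4 →+* S4))

theorem qd_act' (T : T3) (g : M4) : qd (act T g) = (Cm g)ᵀ.mulVec (sgv g (qd T)) := by
  funext k
  refine MvPolynomial.funext fun p => ?_
  rw [eval_qd, grad_act, Matrix.mulVec, dotProduct, map_sum]
  refine Finset.sum_congr rfl fun c _ => ?_
  rw [map_mul, Matrix.transpose_apply, Cm, Matrix.map_apply, eval_C, sgv, eval_sig, eval_qd]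

theorem homog_C_mul {d : ℕ} (c : ℂ) {F : S4} (h : F.IsHomogeneous d) :
    (C c * F).IsHomogeneous d := by
  have h2 := (isHomogeneous_C (Fin 4) c).mul h
  rwa [zero_add] at h2

/-- the vector of cubic forms -/
def pv (b : Fin 4 × Mon 3 → ℂ) : Fin 4 → S4 := fun c => poly fun m => b (c, m)

theorem pv_homog (b : Fin 4 × Mon 3 → ℂ) (c : Fin 4) : (pv b c).IsHomogeneous 3 :=
  poly_homog _

theorem mulVec_homog {d : ℕ} (g : M4) {v : Fin 4 → S4} (h : ∀ c, (v c).IsHomogeneous d)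
    (k : Fin 4) : ((Cm g).mulVec v k).IsHomogeneous d := by
  rw [Matrix.mulVec, dotProduct]
  refine IsHomogeneous.sum _ _ _ fun c _ => ?_
  rw [Cm, Matrix.map_apply]
  exact homog_C_mul _ (h c)

theorem RF_eq (g : M4) (b : Fin 4 × Mon 3 → ℂ) (x : Fin 4 × Mon 3) :
    RF g b x = coef 3 ((Cm g⁻¹).mulVec (sgv g (pv b)) x.1) x.2 := by
  unfold RF
  rw [Matrix.mulVec, dotProduct]
  rfl

theorem pv_of (f : Fin 4 → S4) (hf : ∀ c, (f c).IsHomogeneous 3) :
    pv (fun x => coef 3 (f x.1) x.2) = f := by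
  funext c
  exact poly_coef (by norm_num) (f c) (hf c)

theorem pv_RF (g : M4) (b : Fin 4 × Mon 3 → ℂ) :
    pv (RF g b) = (Cm g⁻¹).mulVec (sgv g (pv b)) := by
  have h := pv_of ((Cm g⁻¹).mulVec (sgv g (pv b)))
    (mulVec_homog _ fun c => sig_homog g (pv_homog b c))
  rw [← h]
  congr 1

theorem AF_eq (T : T3) (a : Fin 4 × Mon 3 → ℂ) : AF T a = coef 5 (pv a ⬝ᵥ qd T) := rfl

theorem Cm_inv {g : M4} (hg : g.det ≠ 0) : Cm g * Cm g⁻¹ = 1 := by
  rw [← Cm_mul, Matrix.mul_nonsing_inv g (isUnit_iff_ne_zero.2 hg), Cm_one]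

theorem AF_act (T : T3) (g : M4) (hg : g.det ≠ 0) (b : Fin 4 × Mon 3 → ℂ) :
    AF (act T g) (RF g b) = SF g (AF T b) := by
  have h5 : (pv b ⬝ᵥ qd T).IsHomogeneous 5 := by
    rw [dotProduct]
    refine IsHomogeneous.sum _ _ _ fun c _ => ?_
    exact (pv_homog b c).mul (qd_homog T c)
  rw [AF_eq, AF_eq, SF, poly_coef (by norm_num) _ h5, sig_dot, pv_RF, qd_act',
    Matrix.dotProduct_mulVec, Matrix.vecMul_transpose, Matrix.mulVec_mulVec, Cm_inv hg,
    Matrix.one_mulVec]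

/-- the antisymmetric matrix -/
def am (L : Pr × Mon 1 → ℂ) : Matrix (Fin 4) (Fin 4) S4 := Matrix.of (asym L)

theorem asym_anti (L : Pr × Mon 1 → ℂ) (i j : Fin 4) : asym L j i = -asym L i j := by
  unfold asym
  rcases lt_trichotomy i j with h | h | h
  · rw [dif_neg (not_lt.2 h.le), dif_pos h, dif_pos h]
  · subst h
    rw [dif_neg (lt_irrefl i), dif_neg (lt_irrefl i), neg_zero]
  · rw [dif_pos h, dif_neg (not_lt.2 h.le), dif_pos h, neg_neg]

theorem am_transpose (L : Pr × Mon 1 → ℂ) : (am L)ᵀ = -am L := by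
  ext1 i j
  rw [Matrix.transpose_apply, Matrix.neg_apply, am, Matrix.of_apply, Matrix.of_apply,
    asym_anti]

theorem asym_homog (L : Pr × Mon 1 → ℂ) (i j : Fin 4) : (asym L i j).IsHomogeneous 1 := by
  unfold asym
  split_ifs
  · exact poly_homog _
  · exact (poly_homog _).neg
  · exact isHomogeneous_zero _ _ _

/-- an antisymmetric matrix of linear forms is given by its coefficients -/
theorem am_of (M : Matrix (Fin 4) (Fin 4) S4) (hM : Mᵀ = -M)
    (h1 : ∀ i j, (M i j).IsHomogeneous 1) :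
    am (fun x => coef 1 (M x.1.1.1 x.1.1.2) x.2) = M := by
  have hanti : ∀ i j, M j i = -M i j := by
    intro i j
    have := congrFun (congrFun hM i) j
    exact this
  ext1 i j
  rw [am, Matrix.of_apply]
  unfold asym
  rcases lt_trichotomy i j with h | h | h
  · rw [dif_pos h]
    exact poly_coef (by norm_num) (M i j) (h1 i j)
  · subst h
    rw [dif_neg (lt_irrefl i), dif_neg (lt_irrefl i)]
    have h2 := hanti i i
    have h3 : (2 : S4) * M i i = 0 := by
      linear_combination h2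
    have h4 : (2 : S4) ≠ 0 := two_ne_zero
    exact ((mul_eq_zero.1 h3).resolve_left h4).symm
  · rw [dif_neg (not_lt.2 h.le), dif_pos h]
    have h2 := poly_coef (by norm_num) (M j i) (h1 j i)
    have h3 : (-poly fun m => coef 1 (M j i) m : S4) = -M j i := congrArg Neg.neg h2
    rw [hanti j i]
    exact h3

theorem QF_eq (g : M4) (L : Pr × Mon 1 → ℂ) (x : Pr × Mon 1) :
    QF g L x = coef 1 ((Cm g⁻¹ * (am L).map (sig g) * (Cm g⁻¹)ᵀ) x.1.1.1 x.1.1.2) x.2 := by
  unfold QF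
  have h : ∑ a, ∑ b, C (g⁻¹ x.1.1.1 a * g⁻¹ x.1.1.2 b) * sig g (asym L a b) =
      (Cm g⁻¹ * (am L).map (sig g) * (Cm g⁻¹)ᵀ) x.1.1.1 x.1.1.2 := by
    rw [Matrix.mul_apply, Finset.sum_comm]
    refine Finset.sum_congr rfl fun b _ => ?_
    rw [Matrix.mul_apply, Finset.sum_mul]
    refine Finset.sum_congr rfl fun a _ => ?_
    rw [Matrix.transpose_apply, Cm, Matrix.map_apply, Matrix.map_apply, Matrix.map_apply, am,
      Matrix.of_apply, C_mul]
    ring
  rw [h]

theorem conj_anti (G M : Matrix (Fin 4) (Fin 4) S4) (hM : Mᵀ = -M) :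
    (G * M * Gᵀ)ᵀ = -(G * M * Gᵀ) := by
  rw [Matrix.transpose_mul, Matrix.transpose_mul, Matrix.transpose_transpose, hM,
    Matrix.neg_mul, Matrix.mul_neg, Matrix.mul_assoc]

theorem conj_homog (g : M4) {d : ℕ} {M : Matrix (Fin 4) (Fin 4) S4}
    (h : ∀ i j, (M i j).IsHomogeneous d) (i j : Fin 4) :
    ((Cm g * M * (Cm g)ᵀ) i j).IsHomogeneous d := by
  rw [Matrix.mul_apply]
  refine IsHomogeneous.sum _ _ _ fun b _ => ?_
  rw [Matrix.transpose_apply, Cm, Matrix.map_apply, mul_comm]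
  refine homog_C_mul _ ?_
  rw [Matrix.mul_apply]
  refine IsHomogeneous.sum _ _ _ fun a _ => ?_
  rw [Matrix.map_apply]
  exact homog_C_mul _ (h a b)

theorem am_QF (g : M4) (L : Pr × Mon 1 → ℂ) :
    am (QF g L) = Cm g⁻¹ * (am L).map (sig g) * (Cm g⁻¹)ᵀ := by
  have hT : ((am L).map (sig g))ᵀ = -(am L).map (sig g) := by
    have h := am_transpose L
    rw [← Matrix.transpose_map, h]
    ext1 i j
    rw [Matrix.map_apply, Matrix.neg_apply, Matrix.neg_apply, Matrix.map_apply, map_neg]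
  have h := am_of (Cm g⁻¹ * (am L).map (sig g) * (Cm g⁻¹)ᵀ) (conj_anti _ _ hT)
    (conj_homog _ fun i j => by
      rw [Matrix.map_apply]
      exact sig_homog g (asym_homog L i j))
  rw [← h]
  congr 1
  funext x
  rw [QF_eq]

theorem BF_eq (T : T3) (L : Pr × Mon 1 → ℂ) (x : Fin 4 × Mon 3) :
    BF T L x = coef 3 ((am L).mulVec (qd T) x.1) x.2 := rfl

theorem pv_BF (T : T3) (L : Pr × Mon 1 → ℂ) : pv (BF T L) = (am L).mulVec (qd T) := by
  have h := pv_of ((am L).mulVec (qd T)) fun c => by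
    rw [Matrix.mulVec, dotProduct]
    refine IsHomogeneous.sum _ _ _ fun b _ => ?_
    exact (asym_homog L c b).mul (qd_homog T b)
  have h2 : BF T L = fun x => coef 3 ((am L).mulVec (qd T) x.1) x.2 := by
    funext x
    exact BF_eq T L x
  rw [h2]
  exact h

theorem BF_act (T : T3) (g : M4) (hg : g.det ≠ 0) (L : Pr × Mon 1 → ℂ) :
    BF (act T g) (QF g L) = RF g (BF T L) := by
  funext x
  rw [BF_eq, RF_eq, pv_BF, sgv_mulVec, am_QF, qd_act', Matrix.mulVec_mulVec, Matrix.mul_assoc,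
    ← Matrix.transpose_mul, Cm_inv hg, Matrix.transpose_one, Matrix.mul_one,
    ← Matrix.mulVec_mulVec]

theorem SF_SF (g : M4) (hg : g.det ≠ 0) (v : Mon 5 → ℂ) : SF g (SF g⁻¹ v) = v := by
  unfold SF
  rw [poly_coef (by norm_num) _ (sig_homog _ (poly_homog v)), sig_sig,
    Matrix.nonsing_inv_mul g (isUnit_iff_ne_zero.2 hg), sig_one, coef_poly]

theorem inv_inv' (g : M4) (hg : g.det ≠ 0) : g⁻¹⁻¹ = g :=
  Matrix.nonsing_inv_nonsing_inv g (isUnit_iff_ne_zero.2 hg)

theorem sgv_sgv (g : M4) (hg : g.det ≠ 0) (v : Fin 4 → S4) : sgv g (sgv g⁻¹ v) = v := by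
  funext c
  unfold sgv
  rw [sig_sig, Matrix.nonsing_inv_mul g (isUnit_iff_ne_zero.2 hg), sig_one]

theorem Cm_inv' {g : M4} (hg : g.det ≠ 0) : Cm g⁻¹ * Cm g = 1 := by
  rw [← Cm_mul, Matrix.nonsing_inv_mul g (isUnit_iff_ne_zero.2 hg), Cm_one]

theorem RF_RF (g : M4) (hg : g.det ≠ 0) (b : Fin 4 × Mon 3 → ℂ) : RF g (RF g⁻¹ b) = b := by
  funext x
  rw [RF_eq, pv_RF, inv_inv' g hg, sgv_mulVec, Cm_sig, sgv_sgv g hg, Matrix.mulVec_mulVec,
    Cm_inv' hg, Matrix.one_mulVec]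
  have h := congrFun (coef_poly fun m => b (x.1, m)) x.2
  exact h

theorem am_map_sig (g : M4) (hg : g.det ≠ 0) (M : Matrix (Fin 4) (Fin 4) S4) :
    (M.map (sig g⁻¹)).map (sig g) = M := by
  ext1 i j
  rw [Matrix.map_apply, Matrix.map_apply, sig_sig,
    Matrix.nonsing_inv_mul g (isUnit_iff_ne_zero.2 hg), sig_one]

theorem QF_QF (g : M4) (hg : g.det ≠ 0) (L : Pr × Mon 1 → ℂ) : QF g (QF g⁻¹ L) = L := by
  funext x
  have h1 : Cm g⁻¹ * (am (QF g⁻¹ L)).map (sig g) * (Cm g⁻¹)ᵀ = am L := by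
    rw [am_QF, inv_inv' g hg, map_sig_mul, map_sig_mul, Cm_sig, am_map_sig g hg,
      Matrix.transpose_map, Cm_sig]
    have e : Cm g⁻¹ * (Cm g * am L * (Cm g)ᵀ) * (Cm g⁻¹)ᵀ =
        (Cm g⁻¹ * Cm g) * am L * ((Cm g)ᵀ * (Cm g⁻¹)ᵀ) := by
      simp only [Matrix.mul_assoc]
    rw [e, ← Matrix.transpose_mul, Cm_inv' hg, Matrix.transpose_one, Matrix.one_mul,
      Matrix.mul_one]
  rw [QF_eq, h1, am, Matrix.of_apply]
  obtain ⟨⟨⟨i, j⟩, hij⟩, m⟩ := x
  have hij' : i < j := hij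
  dsimp only
  unfold asym
  rw [dif_pos hij', coef_poly]

theorem poly_add {d : ℕ} (v w : Mon d → ℂ) : poly (v + w) = poly v + poly w := by
  unfold poly
  rw [← Finset.sum_add_distrib]
  refine Finset.sum_congr rfl fun m _ => ?_
  rw [Pi.add_apply, map_add]

theorem poly_smul {d : ℕ} (c : ℂ) (v : Mon d → ℂ) : poly (c • v) = c • poly v := by
  unfold poly
  rw [Finset.smul_sum]
  refine Finset.sum_congr rfl fun m _ => ?_
  rw [Pi.smul_apply, map_smul]

theorem coef_add {d : ℕ} (F G : S4) : coef d (F + G) = coef d F + coef d G := by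
  funext m
  exact coeff_add _ _ _

theorem coef_smul {d : ℕ} (c : ℂ) (F : S4) : coef d (c • F) = c • coef d F := by
  funext m
  exact coeff_smul _ _ _

/-- `SF` is linear -/
def SFl (g : M4) : (Mon 5 → ℂ) →ₗ[ℂ] (Mon 5 → ℂ) where
  toFun := SF g
  map_add' v w := by
    unfold SF
    rw [poly_add, map_add, coef_add]
  map_smul' c v := by
    unfold SF
    rw [poly_smul, map_smul, coef_smul]
    rfl

theorem pv_add (b b' : Fin 4 × Mon 3 → ℂ) : pv (b + b') = pv b + pv b' := by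
  funext c
  exact poly_add _ _

theorem pv_smul (c : ℂ) (b : Fin 4 × Mon 3 → ℂ) : pv (c • b) = c • pv b := by
  funext k
  exact poly_smul _ _

theorem sgv_add (g : M4) (v w : Fin 4 → S4) : sgv g (v + w) = sgv g v + sgv g w := by
  funext k
  exact map_add (sig g) (v k) (w k)

theorem sgv_smul (g : M4) (c : ℂ) (v : Fin 4 → S4) : sgv g (c • v) = c • sgv g v := by
  funext k
  exact map_smul (sig g) c (v k)

/-- `RF` is linear -/
def RFl (g : M4) : (Fin 4 × Mon 3 → ℂ) →ₗ[ℂ] (Fin 4 × Mon 3 → ℂ) where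
  toFun := RF g
  map_add' v w := by
    funext x
    rw [RF_eq, pv_add, sgv_add, Matrix.mulVec_add, Pi.add_apply, coef_add, Pi.add_apply,
      Pi.add_apply, RF_eq, RF_eq]
  map_smul' c v := by
    funext x
    rw [RF_eq, pv_smul, sgv_smul, Matrix.mulVec_smul, Pi.smul_apply, coef_smul, Pi.smul_apply,
      Pi.smul_apply, RF_eq]
    rfl

theorem asym_add (L L' : Pr × Mon 1 → ℂ) : am (L + L') = am L + am L' := by
  ext1 i j
  rw [Matrix.add_apply, am, am, am, Matrix.of_apply, Matrix.of_apply, Matrix.of_apply]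
  unfold asym
  split_ifs
  · exact poly_add _ _
  · rw [← neg_add]
    exact congrArg Neg.neg (poly_add _ _)
  · rw [add_zero]

theorem asym_smul (c : ℂ) (L : Pr × Mon 1 → ℂ) : am (c • L) = c • am L := by
  ext1 i j
  rw [Matrix.smul_apply, am, am, Matrix.of_apply, Matrix.of_apply]
  unfold asym
  split_ifs
  · exact poly_smul _ _
  · rw [smul_neg]
    exact congrArg Neg.neg (poly_smul _ _)
  · rw [smul_zero]

theorem am_sig_add (g : M4) (M N : Matrix (Fin 4) (Fin 4) S4) :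
    (M + N).map (sig g) = M.map (sig g) + N.map (sig g) := by
  ext1 i j
  exact map_add (sig g) (M i j) (N i j)

theorem am_sig_smul (g : M4) (c : ℂ) (M : Matrix (Fin 4) (Fin 4) S4) :
    (c • M).map (sig g) = c • M.map (sig g) := by
  ext1 i j
  exact map_smul (sig g) c (M i j)

/-- `QF` is linear -/
def QFl (g : M4) : (Pr × Mon 1 → ℂ) →ₗ[ℂ] (Pr × Mon 1 → ℂ) where
  toFun := QF g
  map_add' v w := by
    funext x
    rw [QF_eq, asym_add, am_sig_add, Matrix.mul_add, Matrix.add_mul, Matrix.add_apply, coef_add,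
      Pi.add_apply, Pi.add_apply, QF_eq, QF_eq]
  map_smul' c v := by
    funext x
    rw [QF_eq, asym_smul, am_sig_smul, Matrix.mul_smul, Matrix.smul_mul, Matrix.smul_apply,
      coef_smul, Pi.smul_apply, Pi.smul_apply, QF_eq]
    rfl

theorem of_mulVec {I J : Type*} [Fintype J] [DecidableEq J] (f : (J → ℂ) →ₗ[ℂ] (I → ℂ))
    (v : J → ℂ) : (Matrix.of fun x y => f (Pi.single y 1) x).mulVec v = f v := by
  have h := LinearMap.toMatrix'_mulVec f v
  exact h

theorem SM_mulVec (g : M4) (v : Mon 5 → ℂ) : (SM g).mulVec v = SF g v := of_mulVec (SFl g) v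

theorem RM_mulVec (g : M4) (v : Fin 4 × Mon 3 → ℂ) : (RM g).mulVec v = RF g v :=
  of_mulVec (RFl g) v

theorem QM_mulVec (g : M4) (v : Pr × Mon 1 → ℂ) : (QM g).mulVec v = QF g v :=
  of_mulVec (QFl g) v

theorem ext_mulVec {I J : Type*} [Fintype J] [DecidableEq J] {M N : Matrix I J ℂ}
    (h : ∀ v, M.mulVec v = N.mulVec v) : M = N :=
  Matrix.ext_of_mulVec_single fun i => h _

theorem det_ne {J : Type*} [Fintype J] [DecidableEq J] (M N : Matrix J J ℂ)
    (h : ∀ v, M.mulVec (N.mulVec v) = v) : M.det ≠ 0 := by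
  have h1 : M * N = 1 := ext_mulVec fun v => by
    rw [← Matrix.mulVec_mulVec, h, Matrix.one_mulVec]
  have h2 := congrArg Matrix.det h1
  rw [Matrix.det_mul, Matrix.det_one] at h2
  intro h0
  rw [h0, zero_mul] at h2
  exact zero_ne_one h2

end MatsAux

open MatsAux

theorem qd_act (T : T3) (g : M4) (k : Fin 4) :
    qd (act T g) k = ∑ c, C (g c k) * sig g (qd T c) := by
  rw [qd_act', Matrix.mulVec, dotProduct]
  rfl

theorem AM_act (T : T3) (g : M4) (hg : g.det ≠ 0) : AM (act T g) * RM g = SM g * AM T := by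
  refine ext_mulVec fun v => ?_
  rw [← Matrix.mulVec_mulVec, ← Matrix.mulVec_mulVec, RM_mulVec, SM_mulVec, AM_mulVec,
    AM_mulVec, AF_act T g hg]

theorem BM_act (T : T3) (g : M4) (hg : g.det ≠ 0) : BM (act T g) * QM g = RM g * BM T := by
  refine ext_mulVec fun v => ?_
  rw [← Matrix.mulVec_mulVec, ← Matrix.mulVec_mulVec, QM_mulVec, RM_mulVec, BM_mulVec,
    BM_mulVec, BF_act T g hg]

theorem det_SM (g : M4) (hg : g.det ≠ 0) : (SM g).det ≠ 0 :=
  det_ne (SM g) (SM g⁻¹) fun v => by rw [SM_mulVec, SM_mulVec, SF_SF g hg]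

theorem det_RM (g : M4) (hg : g.det ≠ 0) : (RM g).det ≠ 0 :=
  det_ne (RM g) (RM g⁻¹) fun v => by rw [RM_mulVec, RM_mulVec, RF_RF g hg]

theorem det_QM (g : M4) (hg : g.det ≠ 0) : (QM g).det ≠ 0 :=
  det_ne (QM g) (QM g⁻¹) fun v => by rw [QM_mulVec, QM_mulVec, QF_QF g hg]

end Pool.Agent.ISO
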