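import Pool.Agent.ISO.NProps
import Pool.Agent.ISO.Lie

/-!
# ISO / Moment: vanishing moment map at minimal vectors

PROOF of `moment`.  Let `T' = act T U`.  For real `s` the matrix `g = U * dexp (s r) * W` with a
diagonal unitary `W` making `det g = 1` (`det (dexp (s r)) = 1` since `∑ r = 0`, `‖det U‖ = 1`)
satisfies `nsq (act T g) = φ s := ∑ exp (2 s (r i + r j + r k)) ‖T' i j k‖ ^ 2`, and `φ s ≥ φ 0` by
minimality (`φ 0 = nsq T` by unitary invariance).  So `φ' (0) = 2 ∑ (r i + r j + r k) ‖T' i j k‖ ^ 2`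
vanishes.

PROOF of `cross`.  With `Z = U * diagonal r * Uᴴ` one has `U * diagonal r = Z * U`, so by `lie_act`
and `lie_diagonal` `(r i + r j + r k) * (act T U i j k) = (act (lie T Z) U) i j k`.  Hence
`∑ (r i + r j + r k) conj (act T U i j k) * act u U i j k = ip (act (lie T Z) U) (act u U) =
ip (lie T Z) u = 0` (the weights are real).
-/

set_option autoImplicit false

noncomputable section

namespace Pool.Agent.ISO

open Matrix

/-- a diagonal unitary matrix correcting the determinant -/
private theorem corr (U : M4) (hU : IsU U) : ∃ W : M4, IsU W ∧ U.det * W.det = 1 := by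
  have h1 : star U * U = 1 := (Matrix.mem_unitaryGroup_iff').1 hU
  have h2 : star U.det * U.det = 1 := by
    rw [← Matrix.det_conjTranspose, ← Matrix.det_mul]
    change (star U * U).det = 1
    rw [h1, Matrix.det_one]
  refine ⟨Matrix.diagonal (fun i : Fin 4 => if i = 0 then star U.det else 1), ?_, ?_⟩
  · refine (Matrix.mem_unitaryGroup_iff).2 ?_
    rw [Matrix.star_eq_conjTranspose, Matrix.diagonal_conjTranspose,
      Matrix.diagonal_mul_diagonal, ← Matrix.diagonal_one]
    congr 1
    funext i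
    by_cases hi : i = 0
    · rw [hi]
      simp only [if_true, Pi.star_apply, star_star]
      exact h2
    · simp only [Pi.star_apply, if_neg hi, star_one, mul_one]
  · rw [Matrix.det_diagonal, Fin.prod_univ_four]
    simp only [if_true]
    rw [if_neg (by decide), if_neg (by decide), if_neg (by decide), mul_one, mul_one, mul_one,
      mul_comm]
    exact h2

theorem moment {T : T3} (hmin : ∀ g : M4, g.det = 1 → nsq T ≤ nsq (act T g)) (U : M4) (hU : IsU U)
    (r : Fin 4 → ℝ) (hr : ∑ i, r i = 0) :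
    ∑ i, ∑ j, ∑ k, (r i + r j + r k) * ‖act T U i j k‖ ^ 2 = 0 := by
  obtain ⟨W, hW, hUW⟩ := corr U hU
  -- the function `φ`
  obtain ⟨φ, hφ⟩ : ∃ φ : ℝ → ℝ, ∀ s, φ s = ∑ i, ∑ j, ∑ k,
      Real.exp (2 * (s * r i + s * r j + s * r k)) * ‖act T U i j k‖ ^ 2 := ⟨_, fun s => rfl⟩
  have h1 : ∀ s, φ 0 ≤ φ s := by
    intro s
    have h2 : φ s = nsq (act T (U * dexp (fun i => s * r i) * W)) := by
      rw [hφ, ← act_act, nsq_act_unitary _ W hW, ← act_act, nsq_act_dexp]
    have h3 : φ 0 = nsq T := by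
      rw [hφ, ← nsq_act_unitary T U hU]
      unfold nsq
      refine Finset.sum_congr rfl fun i _ => Finset.sum_congr rfl fun j _ =>
        Finset.sum_congr rfl fun k _ => ?_
      simp
    rw [h2, h3]
    refine hmin _ ?_
    rw [Matrix.det_mul, Matrix.det_mul, det_dexp, ← Finset.mul_sum, hr, mul_zero, Real.exp_zero,
      Complex.ofReal_one, mul_one, hUW]
  have h2 : HasDerivAt φ (∑ i, ∑ j, ∑ k, 2 * (r i + r j + r k) * ‖act T U i j k‖ ^ 2) 0 := by
    have h3 : φ = fun s => ∑ i, ∑ j, ∑ k,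
        Real.exp (2 * (s * r i + s * r j + s * r k)) * ‖act T U i j k‖ ^ 2 := funext hφ
    rw [h3]
    refine HasDerivAt.fun_sum fun i _ => HasDerivAt.fun_sum fun j _ =>
      HasDerivAt.fun_sum fun k _ => ?_
    have h4 : HasDerivAt (fun s : ℝ => 2 * (s * r i + s * r j + s * r k))
        (2 * (r i + r j + r k)) 0 := by
      have h5 := (((hasDerivAt_id (0 : ℝ)).mul_const (r i + r j + r k))).const_mul 2
      have h6 : (fun s : ℝ => 2 * (s * r i + s * r j + s * r k)) =
          fun s : ℝ => 2 * (id s * (r i + r j + r k)) := by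
        funext s
        simp only [id]
        ring
      rw [h6]
      have h7 : 2 * (r i + r j + r k) = 2 * (1 * (r i + r j + r k)) := by ring
      rw [h7]
      exact h5
    have h8 := (h4.exp).mul_const (‖act T U i j k‖ ^ 2)
    have h9 : Real.exp (2 * (0 * r i + 0 * r j + 0 * r k)) = 1 := by
      rw [zero_mul, zero_mul, zero_mul, add_zero, add_zero, mul_zero, Real.exp_zero]
    rw [h9, one_mul] at h8
    exact h8
  have h3 : IsLocalMin φ 0 := Filter.Eventually.of_forall h1
  have h4 := h3.hasDerivAt_eq_zero h2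
  have h5 : ∑ i, ∑ j, ∑ k, 2 * (r i + r j + r k) * ‖act T U i j k‖ ^ 2 =
      2 * ∑ i, ∑ j, ∑ k, (r i + r j + r k) * ‖act T U i j k‖ ^ 2 := by
    simp only [Finset.mul_sum]
    refine Finset.sum_congr rfl fun i _ => Finset.sum_congr rfl fun j _ =>
      Finset.sum_congr rfl fun k _ => ?_
    ring
  rw [h5] at h4
  linarith

theorem cross {T u : T3} (hu : ∀ Z : M4, ip (lie T Z) u = 0) (U : M4) (hU : IsU U)
    (r : Fin 4 → ℝ) :
    ∑ i, ∑ j, ∑ k, ((r i + r j + r k : ℝ) : ℂ) * ((starRingEnd ℂ) (act T U i j k) *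
      act u U i j k) = 0 := by
  have hU1 : star U * U = 1 := (Matrix.mem_unitaryGroup_iff').1 hU
  obtain ⟨d, hd⟩ : ∃ d : Fin 4 → ℂ, d = fun i => ((r i : ℝ) : ℂ) := ⟨_, rfl⟩
  have h1 : U * Matrix.diagonal d = (U * Matrix.diagonal d * star U) * U := by
    rw [mul_assoc, hU1, mul_one]
  have h2 := lie_act T U (Matrix.diagonal d) (U * Matrix.diagonal d * star U) h1
  have h3 : ip (act (lie T (U * Matrix.diagonal d * star U)) U) (act u U) = 0 := by
    rw [ip_act_unitary _ _ U hU]
    exact hu _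
  rw [← h2] at h3
  rw [← h3]
  unfold ip
  refine Finset.sum_congr rfl fun i _ => Finset.sum_congr rfl fun j _ =>
    Finset.sum_congr rfl fun k _ => ?_
  rw [lie_diagonal, map_mul]
  have h4 : (starRingEnd ℂ) (d i + d j + d k) = ((r i + r j + r k : ℝ) : ℂ) := by
    rw [hd]
    simp only [map_add, Complex.conj_ofReal]
    push_cast
    ring
  rw [h4]
  ring

end Pool.Agent.ISO
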