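import Pool.Agent.ISO.GForms

/-!
# ISO / NF1: coordinates at a singular point with polar quadric of rank one

PROOF.  Let `M = pol T p` (symmetric, `M ≠ 0`, all `2 × 2` minors zero), so `M j k = u j * u k` for
some `u ≠ 0` (choose a nonzero entry; in fact some diagonal entry `M j j ≠ 0`, `u = M · j / s` with
`s² = M j j`).  `M p = grad T p = 0` gives `u · p = 0`.  Choose a basis `b 0, b 1, b 2, b 3 = p` of
`ℂ^4` with `u · b 1 = u · b 2 = 0` and `(u · b 0)² = 1/3` (the kernel of `u` has dimension `3` and contains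
`p`).  Let `g` be the matrix with the columns `b`, `T' = act T g`.  By `pol_act`
(`g e_3 = p`) `T' 3 j k = (pol T' e_3) j k = (u · b j) (u · b k)`, which is `1/3` for `j = k = 0` and
`0` otherwise.  Finally the substitution `w ↦ w - λ0 x - λ1 y - λ2 z`
(`h = 1 - E`, with row `3` modified) changes the coefficients of `x³, x² y, x² z` by
`- λ0, - λ1, - λ2` and no other coefficient without `w` (since `w` occurs only in `x² w`), so we can make
`T'' 0 0 0 = T'' 0 0 1 = T'' 0 0 2 = 0`.  `(g h) e_3 = p` still.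
A symmetric tensor is determined by its values at `i ≤ j ≤ k`.
-/

set_option autoImplicit false

noncomputable section

namespace Pool.Agent.ISO

open Matrix

/-- the substitution matrix `w ↦ w - l 0 x - l 1 y - l 2 z - l 3 w` -/
private def hm (l : Fin 4 → ℂ) : M4 :=
  Matrix.of fun a i => (if a = i then 1 else 0) - (if a = 3 then l i else 0)

private theorem hm_apply (l : Fin 4 → ℂ) (a i : Fin 4) :
    hm l a i = (if a = i then 1 else 0) - (if a = 3 then l i else 0) := rfl

private theorem sum_hm (F l : Fin 4 → ℂ) (i : Fin 4) :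
    ∑ a, F a * hm l a i = F i - l i * F 3 := by
  simp only [hm_apply, mul_sub, Finset.sum_sub_distrib, mul_ite, mul_one, mul_zero,
    Finset.sum_ite_eq', Finset.mem_univ, if_true]
  rw [mul_comm (F 3)]

private theorem act_hm (T : T3) (l : Fin 4 → ℂ) (i j k : Fin 4) :
    act T (hm l) i j k =
      (T i j k - l k * T i j 3) - l j * (T i 3 k - l k * T i 3 3) -
        l i * ((T 3 j k - l k * T 3 j 3) - l j * (T 3 3 k - l k * T 3 3 3)) := by
  unfold act
  have h1 : ∀ a b, ∑ c, T a b c * hm l a i * hm l b j * hm l c k =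
      (T a b k - l k * T a b 3) * hm l b j * hm l a i := by
    intro a b
    rw [← sum_hm (fun c => T a b c) l k, Finset.sum_mul, Finset.sum_mul]
    exact Finset.sum_congr rfl fun c _ => by ring
  have h2 : ∀ a, ∑ b, ∑ c, T a b c * hm l a i * hm l b j * hm l c k =
      ((T a j k - l k * T a j 3) - l j * (T a 3 k - l k * T a 3 3)) * hm l a i := by
    intro a
    simp only [h1]
    rw [← sum_hm (fun b => T a b k - l k * T a b 3) l j, Finset.sum_mul]
  simp only [h2]
  exact sum_hm (fun a => (T a j k - l k * T a j 3) - l j * (T a 3 k - l k * T a 3 3)) l i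

private theorem hm_single (l : Fin 4 → ℂ) (h3 : l 3 = 0) :
    (hm l).mulVec (Pi.single 3 1) = Pi.single 3 1 := by
  funext a
  rw [Matrix.mulVec_single_one]
  change hm l a 3 = _
  rw [hm_apply, h3, ite_self, sub_zero, Pi.single_apply]

private theorem hm_det (l : Fin 4 → ℂ) (h3 : l 3 = 0) : (hm l).det ≠ 0 := by
  intro h
  obtain ⟨v, hv, h1⟩ := Matrix.exists_mulVec_eq_zero_iff.2 h
  apply hv
  have h2 : ∀ a, v a - (if a = 3 then ∑ i, l i * v i else 0) = 0 := by
    intro a
    have h4 := congrFun h1 a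
    rw [Matrix.mulVec, dotProduct] at h4
    simp only [hm_apply, sub_mul, Finset.sum_sub_distrib, ite_mul, one_mul, zero_mul,
      Finset.sum_ite_eq, Finset.mem_univ, if_true] at h4
    by_cases ha : a = 3
    · simp only [ha, if_true] at h4 ⊢
      exact h4
    · simp only [ha, if_false, Finset.sum_const_zero] at h4 ⊢
      exact h4
  have e0 : v 0 = 0 := by simpa using h2 0
  have e1 : v 1 = 0 := by simpa using h2 1
  have e2 : v 2 = 0 := by simpa using h2 2
  have e3 : v 3 = 0 := by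
    have h4 := h2 3
    rw [if_pos rfl, Fin.sum_univ_four, e0, e1, e2, h3] at h4
    simpa using h4
  funext a
  fin_cases a
  · exact e0
  · exact e1
  · exact e2
  · exact e3

private theorem sym_ext {S S' : T3} (h : IsSym S) (h' : IsSym S')
    (he : ∀ i j k, i ≤ j → j ≤ k → S i j k = S' i j k) : S = S' := by
  have a1 : ∀ i j k, i ≤ j → S i j k = S' i j k := by
    intro i j k hij
    rcases le_total j k with h1 | h1
    · exact he i j k hij h1
    · rcases le_total i k with h2 | h2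
      · rw [(h i j k).2, (h' i j k).2]
        exact he i k j h2 h1
      · rw [(h i j k).2, (h' i j k).2, (h i k j).1, (h' i k j).1]
        exact he k i j h2 hij
  funext i j k
  rcases le_total i j with h1 | h1
  · exact a1 i j k h1
  · rw [(h i j k).1, (h' i j k).1]
    exact a1 j i k h1

private theorem nf_final (S : T3) (hS : IsSym S)
    (h3 : ∀ j k, S 3 j k = if j = 0 ∧ k = 0 then 1 / 3 else 0)
    (h0 : S 0 0 0 = 0) (h1 : S 0 0 1 = 0) (h2 : S 0 0 2 = 0) :
    S = mon3 0 0 3 + (3 * S 0 1 1) • mon3 0 1 1 + (6 * S 0 1 2) • mon3 0 1 2 +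
      (3 * S 0 2 2) • mon3 0 2 2 +
      (S 1 1 1 • mon3 1 1 1 + (3 * S 1 1 2) • mon3 1 1 2 + (3 * S 1 2 2) • mon3 1 2 2 +
        S 2 2 2 • mon3 2 2 2) := by
  have hk : ∀ i j, S i j 3 = if i = 0 ∧ j = 0 then 1 / 3 else 0 := by
    intro i j
    rw [(hS i j 3).2, (hS i 3 j).1, h3]
  refine sym_ext hS ?_ ?_
  · refine isSym_add (isSym_add (isSym_add (isSym_add (isSym_mon3 _ _ _)
      (isSym_smul (isSym_mon3 _ _ _) _)) (isSym_smul (isSym_mon3 _ _ _) _))
      (isSym_smul (isSym_mon3 _ _ _) _)) (isSym_add (isSym_add (isSym_add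
      (isSym_smul (isSym_mon3 _ _ _) _) (isSym_smul (isSym_mon3 _ _ _) _))
      (isSym_smul (isSym_mon3 _ _ _) _)) (isSym_smul (isSym_mon3 _ _ _) _))
  · intro i j k hij hjk
    simp only [Pi.add_apply, Pi.smul_apply, smul_eq_mul, mon3]
    by_cases hk3 : k = 3
    · subst hk3
      rw [hk]
      fin_cases i <;> fin_cases j <;> (simp; try norm_num)
    · fin_cases i <;> fin_cases j <;> fin_cases k <;>
        first
        | exact absurd rfl hk3
        | (exfalso; revert hij; decide)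
        | (exfalso; revert hjk; decide)
        | (simp [h0, h1, h2]; try ring)

private theorem nf_four (a b : Fin 4) (h : b ≠ a) : ∃ c d : Fin 4, c ≠ a ∧ c ≠ b ∧ d ≠ a ∧ d ≠ b ∧
    c ≠ d ∧ ∀ x, x = a ∨ x = b ∨ x = c ∨ x = d := by
  revert a b
  decide

/-- a basis adapted to the linear form `u` and to the vector `p` of its kernel -/
private theorem nf_basis (u p : Fin 4 → ℂ) (hu : ∃ j, u j ≠ 0) (hp : p ≠ 0)
    (hup : ∑ k, u k * p k = 0) (r : ℂ) (hr : r ≠ 0) :
    ∃ g : M4, g.det ≠ 0 ∧ g.mulVec (Pi.single 3 1) = p ∧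
      ∀ i, ∑ a, u a * g a i = if i = 0 then r else 0 := by
  obtain ⟨a, ha⟩ := hu
  obtain ⟨b, hba, hb⟩ : ∃ b, b ≠ a ∧ p b ≠ 0 := by
    by_contra hcon
    push Not at hcon
    apply hp
    have h1 : ∑ k, u k * p k = u a * p a :=
      Finset.sum_eq_single a (fun k _ hk => by rw [hcon k hk, mul_zero])
        (fun h => absurd (Finset.mem_univ a) h)
    rw [hup] at h1
    have h2 : p a = 0 := by
      rcases mul_eq_zero.1 h1.symm with h | h
      · exact absurd h ha
      · exact h
    funext k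
    by_cases hk : k = a
    · rw [hk]
      exact h2
    · exact hcon k hk
  obtain ⟨c, d, hca, hcb, hda, hdb, hcd, hall⟩ : ∃ c d : Fin 4, c ≠ a ∧ c ≠ b ∧ d ≠ a ∧ d ≠ b ∧
      c ≠ d ∧ ∀ x, x = a ∨ x = b ∨ x = c ∨ x = d := by
    exact nf_four a b hba
  obtain ⟨g, hg⟩ : ∃ g : M4, g = Matrix.of fun x i =>
    (![(if x = a then r / u a else 0),
      (if x = c then 1 else 0) - (if x = a then u c / u a else 0),
      (if x = d then 1 else 0) - (if x = a then u d / u a else 0), p x] : Fin 4 → ℂ) i := ⟨_, rfl⟩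
  have g0 : ∀ x, g x 0 = if x = a then r / u a else 0 := fun x => by rw [hg]; rfl
  have g1 : ∀ x, g x 1 = (if x = c then 1 else 0) - (if x = a then u c / u a else 0) :=
    fun x => by rw [hg]; rfl
  have g2 : ∀ x, g x 2 = (if x = d then 1 else 0) - (if x = a then u d / u a else 0) :=
    fun x => by rw [hg]; rfl
  have g3 : ∀ x, g x 3 = p x := fun x => by rw [hg]; rfl
  refine ⟨g, ?_, ?_, ?_⟩
  · intro h
    obtain ⟨v, hv, h1⟩ := Matrix.exists_mulVec_eq_zero_iff.2 h
    apply hv
    have h2 : ∀ x, g x 0 * v 0 + g x 1 * v 1 + g x 2 * v 2 + g x 3 * v 3 = 0 := by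
      intro x
      have h4 := congrFun h1 x
      rw [Matrix.mulVec, dotProduct, Fin.sum_univ_four] at h4
      exact h4
    have e3 : v 3 = 0 := by
      have h4 := h2 b
      rw [g0, g1, g2, g3, if_neg hba, if_neg hcb.symm, if_neg hba, if_neg hdb.symm, if_neg hba] at h4
      have h5 : p b * v 3 = 0 := by linear_combination h4
      rcases mul_eq_zero.1 h5 with h | h
      · exact absurd h hb
      · exact h
    have e1 : v 1 = 0 := by
      have h4 := h2 c
      rw [g0, g1, g2, g3, e3, if_neg hca, if_pos rfl, if_neg hca, if_neg hcd, if_neg hca] at h4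
      linear_combination h4
    have e2 : v 2 = 0 := by
      have h4 := h2 d
      rw [g0, g1, g2, g3, e3, if_neg hda, if_neg hcd.symm, if_neg hda, if_pos rfl, if_neg hda] at h4
      linear_combination h4
    have e0 : v 0 = 0 := by
      have h4 := h2 a
      rw [g0, e1, e2, e3, if_pos rfl] at h4
      have h5 : r / u a * v 0 = 0 := by linear_combination h4
      rcases mul_eq_zero.1 h5 with h | h
      · exact absurd h (div_ne_zero hr ha)
      · exact h
    funext x
    fin_cases x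
    · exact e0
    · exact e1
    · exact e2
    · exact e3
  · funext x
    rw [Matrix.mulVec_single_one]
    exact g3 x
  · intro i
    fin_cases i
    · change ∑ x, u x * g x 0 = if (0 : Fin 4) = 0 then r else 0
      simp only [g0, mul_ite, mul_zero, Finset.sum_ite_eq', Finset.mem_univ, if_true]
      field_simp
    · change ∑ x, u x * g x 1 = if (1 : Fin 4) = 0 then r else 0
      simp only [g1, mul_sub, mul_ite, mul_zero, mul_one, Finset.sum_sub_distrib,
        Finset.sum_ite_eq', Finset.mem_univ, if_true]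
      rw [if_neg (by decide)]
      field_simp
      ring
    · change ∑ x, u x * g x 2 = if (2 : Fin 4) = 0 then r else 0
      simp only [g2, mul_sub, mul_ite, mul_zero, mul_one, Finset.sum_sub_distrib,
        Finset.sum_ite_eq', Finset.mem_univ, if_true]
      rw [if_neg (by decide)]
      field_simp
      ring
    · change ∑ x, u x * g x 3 = if (3 : Fin 4) = 0 then r else 0
      simp only [g3]
      rw [if_neg (by decide), hup]

theorem nf1 (T : T3) (hT : IsSym T) (p : Fin 4 → ℂ) (hp : p ≠ 0) (h1 : grad T p = 0)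
    (h2 : pol T p ≠ 0)
    (h3 : ∀ i j k l, pol T p i k * pol T p j l = pol T p i l * pol T p j k) :
    ∃ g : M4, g.det ≠ 0 ∧ g.mulVec (Pi.single 3 1) = p ∧ ∃ a b c d0 d1 d2 d3 : ℂ,
      act T g = mon3 0 0 3 + a • mon3 0 1 1 + b • mon3 0 1 2 + c • mon3 0 2 2 +
        (d0 • mon3 1 1 1 + d1 • mon3 1 1 2 + d2 • mon3 1 2 2 + d3 • mon3 2 2 2) := by
  obtain ⟨M, hM⟩ : ∃ M, M = pol T p := ⟨_, rfl⟩
  rw [← hM] at h2 h3
  have hsym : ∀ j k, M j k = M k j := by
    intro j k
    rw [hM]
    change ∑ i, T i j k * p i = ∑ i, T i k j * p i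
    exact Finset.sum_congr rfl fun i _ => by rw [(hT i j k).2]
  -- the linear form `u`
  obtain ⟨j0, hj0⟩ : ∃ j, M j j ≠ 0 := by
    by_contra hcon
    push Not at hcon
    apply h2
    ext j k
    have h4 := h3 j k k j
    rw [hcon j, zero_mul, hsym k j] at h4
    exact mul_self_eq_zero.1 h4
  obtain ⟨s, hs⟩ := IsAlgClosed.exists_pow_nat_eq (M j0 j0) (n := 2) (by norm_num)
  have hs0 : s ≠ 0 := by
    rintro rfl
    apply hj0
    rw [← hs]
    norm_num
  obtain ⟨u, hu⟩ : ∃ u : Fin 4 → ℂ, u = fun k => M j0 k / s := ⟨_, rfl⟩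
  have hMu : ∀ j k, M j k = u j * u k := by
    intro j k
    have h4 := h3 j j0 j0 k
    rw [hsym j j0] at h4
    rw [hu]
    change M j k = M j0 j / s * (M j0 k / s)
    have h5 : M j0 j / s * (M j0 k / s) = (M j0 j * M j0 k) / s ^ 2 := by
      field_simp
    rw [h5, h4, hs]
    field_simp
  have hu0 : ∃ j, u j ≠ 0 := by
    refine ⟨j0, fun h => hj0 ?_⟩
    rw [hMu, h, zero_mul]
  have hup : ∑ k, u k * p k = 0 := by
    obtain ⟨j, hj⟩ := hu0
    have h4 := congrFun (grad_eq_pol hT p) j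
    rw [h1, ← hM, Matrix.mulVec, dotProduct] at h4
    have h5 : ∑ k, M j k * p k = u j * ∑ k, u k * p k := by
      rw [Finset.mul_sum]
      exact Finset.sum_congr rfl fun k _ => by rw [hMu, mul_assoc]
    rw [h5] at h4
    rcases mul_eq_zero.1 h4.symm with h | h
    · exact absurd h hj
    · exact h
  obtain ⟨r, hr⟩ := IsAlgClosed.exists_pow_nat_eq (1 / 3 : ℂ) (n := 2) (by norm_num)
  have hr0 : r ≠ 0 := by
    rintro rfl
    norm_num at hr
  obtain ⟨g, hg1, hg2, hg3⟩ := nf_basis u p hu0 hp hup r hr0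
  -- the transformed form
  obtain ⟨S, hS⟩ : ∃ S, S = act T g := ⟨_, rfl⟩
  have hSs : IsSym S := by
    rw [hS]
    exact isSym_act hT g
  have hS3 : ∀ j k, S 3 j k = if j = 0 ∧ k = 0 then 1 / 3 else 0 := by
    intro j k
    have e1 : pol S (Pi.single 3 1) j k = S 3 j k := by
      change ∑ i, S i j k * (Pi.single 3 1 : Fin 4 → ℂ) i = _
      simp [Pi.single_apply]
    have e2 : pol S (Pi.single 3 1) j k = (∑ a, u a * g a j) * (∑ b, u b * g b k) := by
      rw [hS, pol_act, hg2, ← hM]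
      rw [Matrix.mul_apply, Finset.mul_sum]
      refine Finset.sum_congr rfl fun b _ => ?_
      rw [← mul_assoc]
      congr 1
      rw [Matrix.mul_apply, Finset.sum_mul]
      refine Finset.sum_congr rfl fun a _ => ?_
      rw [Matrix.transpose_apply, hMu]
      ring
    rw [← e1, e2, hg3, hg3]
    by_cases hj : j = 0
    · by_cases hk : k = 0
      · rw [if_pos hj, if_pos hk, if_pos ⟨hj, hk⟩, ← hr, sq]
      · rw [if_neg hk, if_neg (fun h : j = 0 ∧ k = 0 => hk h.2), mul_zero]
    · rw [if_neg hj, if_neg (fun h : j = 0 ∧ k = 0 => hj h.1), zero_mul]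
  have hS3' : ∀ i j, S i j 3 = if i = 0 ∧ j = 0 then 1 / 3 else 0 := by
    intro i j
    rw [(hSs i j 3).2, (hSs i 3 j).1, hS3]
  have hS3'' : ∀ i k, S i 3 k = if i = 0 ∧ k = 0 then 1 / 3 else 0 := by
    intro i k
    rw [(hSs i 3 k).1, hS3]
  -- the second substitution
  obtain ⟨l, hl⟩ : ∃ l : Fin 4 → ℂ, l = ![S 0 0 0, 3 * S 0 0 1, 3 * S 0 0 2, 0] := ⟨_, rfl⟩
  have l0 : l 0 = S 0 0 0 := by rw [hl]; rfl
  have l1 : l 1 = 3 * S 0 0 1 := by rw [hl]; rfl
  have l2 : l 2 = 3 * S 0 0 2 := by rw [hl]; rfl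
  have l3 : l 3 = 0 := by rw [hl]; rfl
  have n30 : (3 : Fin 4) ≠ 0 := by decide
  have hact : ∀ i j k, act S (hm l) i j k = S i j k -
      l k * (if i = 0 ∧ j = 0 then 1 / 3 else 0) - l j * (if i = 0 ∧ k = 0 then 1 / 3 else 0) -
      l i * (if j = 0 ∧ k = 0 then 1 / 3 else 0) := by
    intro i j k
    rw [act_hm]
    have z1 : S i 3 3 = 0 := by rw [hS3'', if_neg (fun h => n30 h.2)]
    have z2 : S 3 j 3 = 0 := by rw [hS3, if_neg (fun h => n30 h.2)]
    have z3 : S 3 3 k = 0 := by rw [hS3, if_neg (fun h => n30 h.1)]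
    have z4 : S 3 3 3 = 0 := by rw [hS3, if_neg (fun h => n30 h.1)]
    rw [z1, z2, z3, z4, hS3', hS3'', hS3]
    ring
  obtain ⟨R, hR⟩ : ∃ R, R = act S (hm l) := ⟨_, rfl⟩
  have hRs : IsSym R := by
    rw [hR]
    exact isSym_act hSs _
  have hR3 : ∀ j k, R 3 j k = if j = 0 ∧ k = 0 then 1 / 3 else 0 := by
    intro j k
    rw [hR, hact, l3, hS3, if_neg (fun h : (3 : Fin 4) = 0 ∧ j = 0 => n30 h.1),
      if_neg (fun h : (3 : Fin 4) = 0 ∧ k = 0 => n30 h.1)]
    ring
  have hR0 : R 0 0 0 = 0 := by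
    rw [hR, hact, l0]
    simp only [and_self, if_true]
    ring
  have hR1 : R 0 0 1 = 0 := by
    rw [hR, hact, l1]
    simp only [and_self, if_true, one_ne_zero, and_false, if_false]
    ring
  have hR2 : R 0 0 2 = 0 := by
    rw [hR, hact, l2]
    have : ¬ ((2 : Fin 4) = 0) := by decide
    simp only [and_self, if_true, this, and_false, if_false]
    ring
  refine ⟨g * hm l, ?_, ?_, 3 * R 0 1 1, 6 * R 0 1 2, 3 * R 0 2 2, R 1 1 1, 3 * R 1 1 2,
    3 * R 1 2 2, R 2 2 2, ?_⟩
  · rw [Matrix.det_mul]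
    exact mul_ne_zero hg1 (hm_det l l3)
  · rw [← Matrix.mulVec_mulVec, hm_single l l3, hg2]
  · rw [← act_act, ← hS, ← hR]
    exact nf_final R hRs hR3 hR0 hR1 hR2

end Pool.Agent.ISO
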