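import Pool.Agent.ISO.NF1
import Pool.Agent.ISO.Bin

/-!
# ISO / NF2: normal forms `D4`, `D5`, `E6` or non-isolated

PROOF.  Apply `nf1`, then `binary_cubic` with the substitution
`y ↦ α y + β z`, `z ↦ γ y + δ z` (the matrix `h` is the identity in the coordinates `x, w`), which
preserves the shape `x² w + x q(y, z) + g(y, z)` and `e_3`.  To identify tensors use that a
symmetric tensor is determined by its cubic form `ev` (polarisation), or compute entries.
-/

set_option autoImplicit false

noncomputable section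

namespace Pool.Agent.ISO

open Matrix

private def tri (T : T3) (p q r : Fin 4 → ℂ) : ℂ := ∑ i, ∑ j, ∑ k, T i j k * p i * q j * r k

private theorem tri_add1 (T : T3) (p p' q r : Fin 4 → ℂ) :
    tri T (p + p') q r = tri T p q r + tri T p' q r := by
  unfold tri
  simp only [← Finset.sum_add_distrib, Pi.add_apply]
  exact Finset.sum_congr rfl fun i _ => Finset.sum_congr rfl fun j _ =>
    Finset.sum_congr rfl fun k _ => by ring

private theorem tri_swap12 {T : T3} (h : IsSym T) (p q r : Fin 4 → ℂ) :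
    tri T p q r = tri T q p r := by
  unfold tri
  rw [Finset.sum_comm]
  exact Finset.sum_congr rfl fun i _ => Finset.sum_congr rfl fun j _ =>
    Finset.sum_congr rfl fun k _ => by rw [(h i j k).1]; ring

private theorem tri_swap23 {T : T3} (h : IsSym T) (p q r : Fin 4 → ℂ) :
    tri T p q r = tri T p r q := by
  unfold tri
  refine Finset.sum_congr rfl fun i _ => ?_
  rw [Finset.sum_comm]
  exact Finset.sum_congr rfl fun j _ =>
    Finset.sum_congr rfl fun k _ => by rw [(h i j k).2]; ring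

private theorem tri_single (T : T3) (i j k : Fin 4) :
    tri T (Pi.single i 1) (Pi.single j 1) (Pi.single k 1) = T i j k := by
  unfold tri
  rw [Finset.sum_eq_single i, Finset.sum_eq_single j, Finset.sum_eq_single k]
  · simp
  · intro b _ hb
    rw [Pi.single_eq_of_ne hb, mul_zero]
  · intro hk
    exact absurd (Finset.mem_univ _) hk
  · intro b _ hb
    exact Finset.sum_eq_zero fun c _ => by rw [Pi.single_eq_of_ne hb, mul_zero, zero_mul]
  · intro hk
    exact absurd (Finset.mem_univ _) hk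
  · intro b _ hb
    exact Finset.sum_eq_zero fun c _ => Finset.sum_eq_zero fun d _ => by
      rw [Pi.single_eq_of_ne hb, mul_zero, zero_mul, zero_mul]
  · intro hk
    exact absurd (Finset.mem_univ _) hk

private theorem tri_pol {T : T3} (h : IsSym T) (p q r : Fin 4 → ℂ) :
    6 * tri T p q r = ev T (p + q + r) - ev T (p + q) - ev T (p + r) - ev T (q + r) +
      ev T p + ev T q + ev T r := by
  have he : ∀ x : Fin 4 → ℂ, ev T x = tri T x x x := fun x => rfl
  have add2 : ∀ x y y' z, tri T x (y + y') z = tri T x y z + tri T x y' z := by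
    intro x y y' z
    rw [tri_swap12 h, tri_add1, tri_swap12 h y, tri_swap12 h y']
  have add3 : ∀ x y z z', tri T x y (z + z') = tri T x y z + tri T x y z' := by
    intro x y z z'
    rw [tri_swap23 h, add2, tri_swap23 h x z, tri_swap23 h x z']
  simp only [he, tri_add1, add2, add3]
  linear_combination (tri_swap23 h p q r) + (tri_swap12 h p q r) +
    (tri_swap23 h q p r + tri_swap12 h p q r) + (tri_swap12 h p r q + tri_swap23 h p q r) +
    (tri_swap23 h r p q + tri_swap12 h p r q + tri_swap23 h p q r)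

/-- A symmetric tensor is determined by its cubic form. -/
theorem sym_ext {T T' : T3} (h : IsSym T) (h' : IsSym T') (he : ∀ p, ev T p = ev T' p) :
    T = T' := by
  funext i j k
  have h1 := tri_pol h (Pi.single i 1) (Pi.single j 1) (Pi.single k 1)
  have h2 := tri_pol h' (Pi.single i 1) (Pi.single j 1) (Pi.single k 1)
  rw [tri_single] at h1 h2
  simp only [he] at h1
  have h3 : (6 : ℂ) * T i j k = 6 * T' i j k := by rw [h1, h2]
  exact mul_left_cancel₀ (by norm_num) h3

private theorem ev_add (T T' : T3) (p : Fin 4 → ℂ) : ev (T + T') p = ev T p + ev T' p := by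
  unfold ev
  simp only [← Finset.sum_add_distrib, Pi.add_apply]
  exact Finset.sum_congr rfl fun i _ => Finset.sum_congr rfl fun j _ =>
    Finset.sum_congr rfl fun k _ => by ring

private theorem ev_smul (s : ℂ) (T : T3) (p : Fin 4 → ℂ) : ev (s • T) p = s * ev T p := by
  unfold ev
  simp only [Finset.mul_sum, Pi.smul_apply, smul_eq_mul]
  exact Finset.sum_congr rfl fun i _ => Finset.sum_congr rfl fun j _ =>
    Finset.sum_congr rfl fun k _ => by ring

private theorem ev_zero (p : Fin 4 → ℂ) : ev 0 p = 0 := by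
  unfold ev
  simp

/-- the substitution in the coordinates `y, z` -/
private def hm (α β γ δ : ℂ) : M4 := !![1, 0, 0, 0; 0, α, β, 0; 0, γ, δ, 0; 0, 0, 0, 1]

private theorem hm_det (α β γ δ : ℂ) : (hm α β γ δ).det = α * δ - β * γ := by
  unfold hm
  simp [Matrix.det_succ_row_zero, Fin.sum_univ_succ, Fin.succAbove]
  try ring

private theorem hm_mulVec (α β γ δ : ℂ) (p : Fin 4 → ℂ) :
    (hm α β γ δ).mulVec p = ![p 0, α * p 1 + β * p 2, γ * p 1 + δ * p 2, p 3] := by
  unfold hm
  ext i
  fin_cases i <;> simp [Matrix.mulVec, dotProduct, Fin.sum_univ_four]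

theorem nf2 (T : T3) (hT : IsSym T) (p : Fin 4 → ℂ) (hp : p ≠ 0) (h1 : grad T p = 0)
    (h2 : pol T p ≠ 0)
    (h3 : ∀ i j k l, pol T p i k * pol T p j l = pol T p i l * pol T p j k) :
    ∃ g : M4, g.det ≠ 0 ∧ g.mulVec (Pi.single 3 1) = p ∧ ∃ a b c : ℂ, ∃ B : T3,
      (B = 0 ∨ B = mon3 1 1 1 ∨ B = mon3 1 1 2 ∨ B = mon3 1 1 1 + mon3 2 2 2) ∧
      act T g = mon3 0 0 3 + a • mon3 0 1 1 + b • mon3 0 1 2 + c • mon3 0 2 2 + B := by
  obtain ⟨g, hg, hgp, a, b, c, d0, d1, d2, d3, hact⟩ := nf1 T hT p hp h1 h2 h3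
  obtain ⟨α, β, γ, δ, hdet, e0, e1, e3, hcases, hcub⟩ := binary_cubic d0 d1 d2 d3
  obtain ⟨B, hB⟩ : ∃ B : T3, B = e0 • mon3 1 1 1 + e1 • mon3 1 1 2 + e3 • mon3 2 2 2 := ⟨_, rfl⟩
  refine ⟨g * hm α β γ δ, ?_, ?_, a * α ^ 2 + b * (α * γ) + c * γ ^ 2,
    2 * a * α * β + b * (α * δ + β * γ) + 2 * c * γ * δ, a * β ^ 2 + b * (β * δ) + c * δ ^ 2, B,
    ?_, ?_⟩
  · rw [Matrix.det_mul, hm_det]
    exact mul_ne_zero hg hdet
  · rw [← Matrix.mulVec_mulVec]
    have e : (hm α β γ δ).mulVec (Pi.single 3 1) = Pi.single 3 1 := by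
      rw [hm_mulVec]
      ext i
      fin_cases i <;> simp
    rw [e, hgp]
  · rcases hcases with ⟨r0, r1, r3⟩ | ⟨r0, r1, r3⟩ | ⟨r0, r1, r3⟩ | ⟨r0, r1, r3⟩
    · left
      rw [hB, r0, r1, r3, zero_smul, zero_smul, zero_smul, add_zero, add_zero]
    · right; left
      rw [hB, r0, r1, r3, zero_smul, zero_smul, one_smul, add_zero, add_zero]
    · right; right; left
      rw [hB, r0, r1, r3, zero_smul, zero_smul, one_smul, zero_add, add_zero]
    · right; right; right
      rw [hB, r0, r1, r3, zero_smul, one_smul, one_smul, add_zero]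
  · refine sym_ext (isSym_act hT _) ?_ ?_
    · rw [hB]
      have hs := isSym_mon3
      exact isSym_add (isSym_add (isSym_add (isSym_add (hs _ _ _) (isSym_smul (hs _ _ _) _))
        (isSym_smul (hs _ _ _) _)) (isSym_smul (hs _ _ _) _))
        (isSym_add (isSym_add (isSym_smul (hs _ _ _) _) (isSym_smul (hs _ _ _) _))
          (isSym_smul (hs _ _ _) _))
    · intro v
      rw [← act_act, ev_act, hact, hB]
      simp only [ev_add, ev_smul, ev_mon3, hm_mulVec]
      have hc := hcub (v 1) (v 2)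
      have f0 : (![v 0, α * v 1 + β * v 2, γ * v 1 + δ * v 2, v 3] : Fin 4 → ℂ) 0 = v 0 := rfl
      have f1 : (![v 0, α * v 1 + β * v 2, γ * v 1 + δ * v 2, v 3] : Fin 4 → ℂ) 1 =
        α * v 1 + β * v 2 := rfl
      have f2 : (![v 0, α * v 1 + β * v 2, γ * v 1 + δ * v 2, v 3] : Fin 4 → ℂ) 2 =
        γ * v 1 + δ * v 2 := rfl
      have f3 : (![v 0, α * v 1 + β * v 2, γ * v 1 + δ * v 2, v 3] : Fin 4 → ℂ) 3 = v 3 := rfl
      rw [f0, f1, f2, f3]
      linear_combination hc

end Pool.Agent.ISO
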