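import Pool.Agent.ISO.NF2

/-!
# ISO / NF3: non-isolated singularities are excluded by a smooth base curve

Notation: `T` the singular member, `T1` the other generator of the pencil; `hbase` says that the
base curve is smooth.

PROOF of `nf3`.  By `nf2`.  Let `F = act T g`, `F1 = act T1 g`; the hypothesis `hbase` is invariant
under `g` (`ev_act`, `grad_act`).  At a singular point `v ≠ 0` of `F` (`grad F v = 0`, so
`ev F v = 0` by Euler) one has `ev F1 v ≠ 0` (otherwise `grad F v = 0` contradicts the linear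
independence).  At `v = e_3` this is `F1 3 3 3 ≠ 0`.  Suppose that (`B = 0`) or
(`B = mon3 1 1 1` or `B = mon3 1 1 2`, and `c = 0`).  Then `F` is singular at all points of a line:
for `B = 0` (`F = x (x w + q(y, z))`) choose `(y0, z0) ≠ 0` with `q (y0, z0) = 0` where
`q = a y² + b y z + c z²` and take the line spanned by `(0, y0, z0, 0)` and `e_3`; in the other cases
the line spanned by `e_2` and `e_3` (`x = y = 0`).  The restriction of `ev F1` to the line is a
binary cubic form, which has a zero `≠ 0` (`ℂ` algebraically closed): contradiction.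
-/

set_option autoImplicit false

noncomputable section

namespace Pool.Agent.ISO

open Matrix

theorem nf3_cubic_root (c0 c1 c2 c3 : ℂ) (h : c3 ≠ 0) :
    ∃ s : ℂ, c0 + s * c1 + s ^ 2 * c2 + s ^ 3 * c3 = 0 := by
  obtain ⟨s, hs⟩ := IsAlgClosed.exists_root
    (Polynomial.C c3 * Polynomial.X ^ 3 + Polynomial.C c2 * Polynomial.X ^ 2 +
      Polynomial.C c1 * Polynomial.X + Polynomial.C c0)
    (by rw [Polynomial.degree_cubic h]; norm_num)
  refine ⟨s, ?_⟩
  simp only [Polynomial.IsRoot, Polynomial.eval_add, Polynomial.eval_mul, Polynomial.eval_C,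
    Polynomial.eval_pow, Polynomial.eval_X] at hs
  linear_combination hs

theorem nf3_quad_zero (a b c : ℂ) :
    ∃ y z : ℂ, (y ≠ 0 ∨ z ≠ 0) ∧ a * y ^ 2 + b * y * z + c * z ^ 2 = 0 := by
  by_cases ha : a = 0
  · exact ⟨1, 0, Or.inl one_ne_zero, by simp [ha]⟩
  · obtain ⟨s, hs⟩ := IsAlgClosed.exists_root
      (Polynomial.C a * Polynomial.X ^ 2 + Polynomial.C b * Polynomial.X + Polynomial.C c)
      (by rw [Polynomial.degree_quadratic ha]; norm_num)
    refine ⟨s, 1, Or.inr one_ne_zero, ?_⟩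
    simp only [Polynomial.IsRoot, Polynomial.eval_add, Polynomial.eval_mul, Polynomial.eval_C,
      Polynomial.eval_pow, Polynomial.eval_X] at hs
    linear_combination hs

theorem nf3_ev_line (T : T3) (u v : Fin 4 → ℂ) (s : ℂ) :
    ev T (u + s • v) = ev T u +
      s * (∑ i, ∑ j, ∑ k, T i j k * (v i * u j * u k + u i * v j * u k + u i * u j * v k)) +
      s ^ 2 * (∑ i, ∑ j, ∑ k, T i j k * (u i * v j * v k + v i * u j * v k + v i * v j * u k)) +
      s ^ 3 * ev T v := by
  simp only [ev, Finset.mul_sum, ← Finset.sum_add_distrib]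
  refine Finset.sum_congr rfl fun i _ => Finset.sum_congr rfl fun j _ =>
    Finset.sum_congr rfl fun k _ => ?_
  simp only [Pi.add_apply, Pi.smul_apply, smul_eq_mul]
  ring

theorem nf3_ev_single (T : T3) : ev T (Pi.single 3 1) = T 3 3 3 := by
  simp [ev, Fin.sum_univ_four, Pi.single_apply]

theorem nf3 (T T1 : T3) (hT : IsSym T) (hT1 : IsSym T1)
    (hbase : ∀ v : Fin 4 → ℂ, v ≠ 0 → ev T v = 0 → ev T1 v = 0 →
      LinearIndependent ℂ ![grad T v, grad T1 v])
    (p : Fin 4 → ℂ) (hp : p ≠ 0) (h1 : grad T p = 0) (h2 : pol T p ≠ 0)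
    (h3 : ∀ i j k l, pol T p i k * pol T p j l = pol T p i l * pol T p j k) :
    ∃ g : M4, g.det ≠ 0 ∧ act T1 g 3 3 3 ≠ 0 ∧ ∃ a b c : ℂ, ∃ B : T3,
      ((c ≠ 0 ∧ B = mon3 1 1 1) ∨ (c ≠ 0 ∧ B = mon3 1 1 2) ∨ B = mon3 1 1 1 + mon3 2 2 2) ∧
      act T g = mon3 0 0 3 + a • mon3 0 1 1 + b • mon3 0 1 2 + c • mon3 0 2 2 + B := by
  obtain ⟨g, hg, hgp, a, b, c, B, hB, hF⟩ := nf2 T hT p hp h1 h2 h3
  -- singular points
  have key : ∀ v : Fin 4 → ℂ, v ≠ 0 → grad (act T g) v = 0 → ev (act T1 g) v ≠ 0 := by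
    intro v hv hgr hev
    have hw : g.mulVec v ≠ 0 := by
      intro h0
      exact hv (Matrix.eq_zero_of_mulVec_eq_zero hg h0)
    have hgw : grad T (g.mulVec v) = 0 := by
      have hT0 : g.transpose.mulVec (grad T (g.mulVec v)) = 0 := by
        funext k
        have := congrFun hgr k
        rw [grad_act] at this
        simpa [Matrix.mulVec, dotProduct, Matrix.transpose_apply] using this
      refine Matrix.eq_zero_of_mulVec_eq_zero ?_ hT0
      rwa [Matrix.det_transpose]
    have hev0 : ev T (g.mulVec v) = 0 := by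
      rw [ev_eq_grad, hgw]; simp
    rw [ev_act] at hev
    have := (hbase _ hw hev0 hev).ne_zero 0
    simp [hgw] at this
  have he3 : act T1 g 3 3 3 ≠ 0 := by
    rw [← nf3_ev_single (act T1 g)]
    refine key _ ?_ ?_
    · intro h
      have := congrFun h 3
      simp at this
    · funext k
      rw [grad_act, hgp, h1]
      simp
  refine ⟨g, hg, he3, ?_⟩
  -- no line of singular points through `e_3`
  have line : ∀ u : Fin 4 → ℂ, u 3 = 0 → u ≠ 0 →
      (∀ s : ℂ, grad (act T g) (u + s • Pi.single 3 1) = 0) → False := by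
    intro u hu3 hu hs
    have hne : ev (act T1 g) (Pi.single 3 1) ≠ 0 := by
      rw [nf3_ev_single]; exact he3
    have hex : ∃ s : ℂ, ev (act T1 g) (u + s • (Pi.single 3 1 : Fin 4 → ℂ)) = 0 := by
      obtain ⟨s, hs0⟩ := nf3_cubic_root (ev (act T1 g) u) (∑ i, ∑ j, ∑ k, (act T1 g) i j k *
        ((Pi.single 3 1 : Fin 4 → ℂ) i * u j * u k +
        u i * (Pi.single 3 1 : Fin 4 → ℂ) j * u k + u i * u j * (Pi.single 3 1 : Fin 4 → ℂ) k))
        (∑ i, ∑ j, ∑ k, (act T1 g) i j k * (u i * (Pi.single 3 1 : Fin 4 → ℂ) j *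
        (Pi.single 3 1 : Fin 4 → ℂ) k + (Pi.single 3 1 : Fin 4 → ℂ) i * u j *
        (Pi.single 3 1 : Fin 4 → ℂ) k + (Pi.single 3 1 : Fin 4 → ℂ) i *
        (Pi.single 3 1 : Fin 4 → ℂ) j * u k)) _ hne
      exact ⟨s, by rw [nf3_ev_line]; exact hs0⟩
    obtain ⟨s, hs0⟩ := hex
    refine key _ ?_ (hs s) hs0
    intro h0
    apply hu
    funext i
    have hi := congrFun h0 i
    by_cases h3 : i = 3
    · subst h3; exact hu3
    · simpa [Pi.single_apply, h3] using hi
  have gradF : ∀ v : Fin 4 → ℂ, grad (act T g) v = grad (mon3 0 0 3) v + a • grad (mon3 0 1 1) v +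
      b • grad (mon3 0 1 2) v + c • grad (mon3 0 2 2) v + grad B v := by
    intro v
    rw [hF]
    simp only [grad_add, grad_smul]
  refine ⟨a, b, c, B, ?_, hF⟩
  rcases hB with hB | hB | hB | hB
  · exfalso
    obtain ⟨y, z, hyz, hq⟩ := nf3_quad_zero a b c
    refine line ![0, y, z, 0] rfl ?_ ?_
    · intro h0
      rcases hyz with h | h
      · exact h (congrFun h0 1)
      · exact h (congrFun h0 2)
    · intro s
      rw [gradF, hB]
      have hB0 : grad (0 : T3) (![0, y, z, 0] + s • Pi.single 3 1) = 0 := by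
        funext k; simp [grad]
      rw [hB0]
      funext k
      simp only [Pi.add_apply, Pi.smul_apply, grad_mon3, Pi.zero_apply, smul_eq_mul]
      fin_cases k <;> simp [Pi.single_apply]
      linear_combination hq / 3
  · by_cases hc : c = 0
    · exfalso
      refine line ![0, 0, 1, 0] rfl ?_ ?_
      · intro h0
        exact one_ne_zero (congrFun h0 2)
      · intro s
        rw [gradF, hB, hc]
        funext k
        simp only [Pi.add_apply, Pi.smul_apply, grad_mon3, Pi.zero_apply, smul_eq_mul]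
        fin_cases k <;> simp [Pi.single_apply]
    · exact Or.inl ⟨hc, hB⟩
  · by_cases hc : c = 0
    · exfalso
      refine line ![0, 0, 1, 0] rfl ?_ ?_
      · intro h0
        exact one_ne_zero (congrFun h0 2)
      · intro s
        rw [gradF, hB, hc]
        funext k
        simp only [Pi.add_apply, Pi.smul_apply, grad_mon3, Pi.zero_apply, smul_eq_mul]
        fin_cases k <;> simp [Pi.single_apply]
    · exact Or.inr (Or.inl ⟨hc, hB⟩)
  · exact Or.inr (Or.inr hB)

end Pool.Agent.ISO
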