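import Pool.Agent.ISO.Grow

/-!
# ISO / NProps: properties of the Kempf-Ness function

PROOF.  `N_le`: `csInf_le` (bounded below by `0`).  `N_act_sl`: the two sets are equal by
`act_act` and `det (g * h) = 1`.  `N_smul`: `nsq_smul`.  `N_act`: write `g = s • g1` with
`s ^ 4 = det g`, `det g1 = 1`; `act T g = s^3 • act T g1`, so `N (act T g) = ‖s‖^6 N T =
‖det g‖^(3/2) N T`.  `N_usc`: for `y > N T` there is `g`, `det g = 1`, with `nsq (act T g) < y`, and
this remains true near `T` by continuity.  `log_N_usc`: for smooth `T`, `N T > 0`, nearby symmetric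
forms are smooth with `N > 0`, `Real.log` is monotone and continuous; along a line `T0 + t • T1`.
-/

set_option autoImplicit false

noncomputable section

namespace Pool.Agent.ISO

open Matrix Filter Topology

private theorem bdd (T : T3) : BddBelow {y | ∃ g : M4, g.det = 1 ∧ y = nsq (act T g)} := by
  refine ⟨0, ?_⟩
  rintro y ⟨g, -, rfl⟩
  exact nsq_nonneg _

private theorem nonem (T : T3) : {y | ∃ g : M4, g.det = 1 ∧ y = nsq (act T g)}.Nonempty :=
  ⟨nsq (act T 1), 1, Matrix.det_one, rfl⟩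

theorem N_le (T : T3) (g : M4) (hg : g.det = 1) : N T ≤ nsq (act T g) :=
  csInf_le (bdd T) ⟨g, hg, rfl⟩

theorem N_le_nsq (T : T3) : N T ≤ nsq T := by
  have h := N_le T 1 Matrix.det_one
  rwa [act_one] at h

open scoped Pointwise in
theorem N_smul (s : ℂ) (T : T3) : N (s • T) = ‖s‖ ^ 2 * N T := by
  have h : {y | ∃ g : M4, g.det = 1 ∧ y = nsq (act (s • T) g)} =
      (‖s‖ ^ 2 : ℝ) • {y : ℝ | ∃ g : M4, g.det = 1 ∧ y = nsq (act T g)} := by
    ext y
    rw [Set.mem_smul_set]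
    constructor
    · rintro ⟨g, hg, rfl⟩
      refine ⟨nsq (act T g), ⟨g, hg, rfl⟩, ?_⟩
      rw [act_smul, nsq_smul, smul_eq_mul]
    · rintro ⟨x, ⟨g, hg, rfl⟩, rfl⟩
      refine ⟨g, hg, ?_⟩
      rw [act_smul, nsq_smul, smul_eq_mul]
  unfold N
  rw [h, Real.sInf_smul_of_nonneg (by positivity), smul_eq_mul]

theorem N_act_sl (T : T3) (g : M4) (hg : g.det = 1) : N (act T g) = N T := by
  have h : {y | ∃ h : M4, h.det = 1 ∧ y = nsq (act (act T g) h)} =
      {y | ∃ h : M4, h.det = 1 ∧ y = nsq (act T h)} := by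
    ext y
    constructor
    · rintro ⟨k, hk, rfl⟩
      exact ⟨g * k, by rw [Matrix.det_mul, hg, hk, one_mul], by rw [act_act]⟩
    · rintro ⟨k, hk, rfl⟩
      have hu : IsUnit g.det := by
        rw [hg]
        exact isUnit_one
      refine ⟨g⁻¹ * k, ?_, ?_⟩
      · rw [Matrix.det_mul, Matrix.det_nonsing_inv, hg, hk, Ring.inverse_one, one_mul]
      · rw [act_act, ← mul_assoc, Matrix.mul_nonsing_inv g hu, one_mul]
  unfold N
  rw [h]

theorem log_N_act {T : T3} (h : Sm T) (g : M4) (hg : g.det ≠ 0) :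
    Real.log (N (act T g)) = 3 / 2 * Real.log ‖g.det‖ + Real.log (N T) := by
  obtain ⟨s, hs⟩ := IsAlgClosed.exists_pow_nat_eq g.det (by norm_num : 0 < 4)
  have hs0 : s ≠ 0 := by
    rintro rfl
    apply hg
    rw [← hs]
    norm_num
  have hdet : (s⁻¹ • g).det = 1 := by
    rw [Matrix.det_smul, Fintype.card_fin, ← hs, ← mul_pow, inv_mul_cancel₀ hs0, one_pow]
  have e1 : g = s • (s⁻¹ • g) := by
    rw [smul_smul, mul_inv_cancel₀ hs0, one_smul]
  have e2 : N (act T g) = ‖s‖ ^ 6 * N T := by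
    conv_lhs => rw [e1]
    rw [act_smul_mat, N_smul, N_act_sl T _ hdet, norm_pow, ← pow_mul]
  have hN := (exists_minimal h).1
  have hsn : 0 < ‖s‖ := norm_pos_iff.2 hs0
  rw [e2, Real.log_mul (by positivity) hN.ne', Real.log_pow, ← hs, norm_pow, Real.log_pow]
  push_cast
  ring

theorem log_N_smul {T : T3} (h : Sm T) (s : ℂ) (hs : s ≠ 0) :
    Real.log (N (s • T)) = 2 * Real.log ‖s‖ + Real.log (N T) := by
  have hN := (exists_minimal h).1
  have hsn : 0 < ‖s‖ := norm_pos_iff.2 hs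
  rw [N_smul, Real.log_mul (by positivity) hN.ne', Real.log_pow]
  push_cast
  ring

theorem N_usc (T : T3) (y : ℝ) (h : N T < y) : ∀ᶠ T' in 𝓝 T, N T' < y := by
  obtain ⟨g, hg, ha⟩ : ∃ g : M4, g.det = 1 ∧ nsq (act T g) < y := by
    unfold N at h
    obtain ⟨a, ⟨g, hg, hga⟩, ha⟩ := exists_lt_of_csInf_lt (nonem T) h
    exact ⟨g, hg, hga ▸ ha⟩
  have hi : Continuous fun T' : T3 => (T', g) := Continuous.prodMk continuous_id continuous_const
  have hc : Continuous (nsq ∘ (fun x : T3 × M4 => act x.1 x.2) ∘ fun T' : T3 => (T', g)) :=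
    continuous_nsq.comp (continuous_act.comp hi)
  have ht := hc.tendsto T
  have h1 : ∀ᶠ T' in 𝓝 T, nsq (act T' g) < y := Filter.Tendsto.eventually_lt_const ha ht
  exact h1.mono fun T' hT' => (N_le T' g hg).trans_lt hT'

/-- Upper semicontinuity of `log N` along lines, at smooth forms. -/
theorem log_N_usc {T0 T1 : T3} (h0 : Sm T0) (h1 : IsSym T1) (y : ℝ) (h : Real.log (N T0) < y) :
    ∀ᶠ t in 𝓝 (0 : ℂ), Sm (T0 + t • T1) ∧ Real.log (N (T0 + t • T1)) < y := by
  have hc : Continuous fun t : ℂ => T0 + t • T1 :=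
    continuous_const.add (continuous_id.smul continuous_const)
  have ht : Tendsto (fun t : ℂ => T0 + t • T1) (𝓝 0) (𝓝 T0) := by
    have h2 := hc.tendsto 0
    rwa [zero_smul, add_zero] at h2
  have hN := (exists_minimal h0).1
  have h3 : N T0 < Real.exp y := (Real.log_lt_iff_lt_exp hN).1 h
  have h4 := ht.eventually (sm_open h0)
  have h5 := ht.eventually (N_usc T0 (Real.exp y) h3)
  refine (h4.and h5).mono fun t h67 => ?_
  obtain ⟨h6, h7⟩ := h67
  have h8 : Sm (T0 + t • T1) := h6 (isSym_add h0.1 (isSym_smul h1 t))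
  exact ⟨h8, (Real.log_lt_iff_lt_exp (exists_minimal h8).1).2 h7⟩

end Pool.Agent.ISO
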