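import Pool.Agent.ISO.LocLim
import Pool.Agent.ISO.CInv
import Pool.Agent.ISO.NProps

/-!
# ISO / Near: behaviour of the discriminant and of `log N` near a singular member

PROOF.  Write `P σ = act (T + σ^e • T1) (g * diagonal (σ^n))`, `P σ → G` smooth.  By `sm_open` and
`hc.cont` there is `δ` such that for `0 < ‖σ‖ < δ` `P σ` is smooth (it is symmetric),
`A ≤ ‖c (P σ)‖ ≤ A'` with `A > 0` and `nsq (P σ) ≤ A''`.  Given `t` with `0 < ‖t‖ < ε := δ^e` choose `σ`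
with `σ^e = t` (`IsAlgClosed`); `σ ≠ 0`, `‖σ‖ < δ`.  `T + t T1` is smooth (`sm_act_iff`).
`c (P σ) = (∏ σ^(n i))^24 χ c (T + t T1) = σ^(24 ∑ n) χ c (T + t T1) = t^(-m) χ c (T + t T1)`
(`act_act`, `hc.act g`, `hc.diag`; `24 ∑ n = - m e`).  So `‖c (T + t T1)‖ = ‖t‖^m ‖c (P σ)‖ / ‖χ‖`.
`log_N_act`: `log N (P σ) = 3/2 log ‖det g‖ + 3/2 log ‖∏ σ^(n i)‖ + log N (T + t T1)` and
`3/2 log ‖∏ σ^(n i)‖ = 3/2 (∑ n) log ‖σ‖ = - (m e / 16) log ‖σ‖ = - (m/16) log ‖t‖`, so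
`log N (T + t T1) - 1/16 log ‖c (T + t T1)‖ = log N (P σ) - 1/16 log ‖c (P σ)‖ + const ≤ B`
(`N ≤ nsq`).
-/

set_option autoImplicit false

noncomputable section

namespace Pool.Agent.ISO

open Matrix Filter Topology

private theorem det_diag (n : Fin 4 → ℤ) (σ : ℂ) :
    (Matrix.diagonal fun i => σ ^ (n i) : M4).det = ∏ i, σ ^ (n i) := by
  rw [Matrix.det_diagonal]

private theorem prod_ne (n : Fin 4 → ℤ) {σ : ℂ} (hσ : σ ≠ 0) : ∏ i, σ ^ (n i) ≠ 0 :=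
  Finset.prod_ne_zero_iff.mpr fun _ _ => zpow_ne_zero _ hσ

private theorem prod_pow_mul (n : Fin 4 → ℤ) {σ : ℂ} (hσ : σ ≠ 0) {e m : ℕ}
    (hs : 24 * (∑ i, n i) = -((m : ℤ) * e)) : (∏ i, σ ^ (n i)) ^ 24 * (σ ^ e) ^ m = 1 := by
  have h1 : ∏ i, σ ^ (n i) = σ ^ (∑ i, n i) := by
    rw [Fin.prod_univ_four, Fin.sum_univ_four, zpow_add₀ hσ, zpow_add₀ hσ, zpow_add₀ hσ]
  have h2 : (σ ^ (∑ i, n i)) ^ 24 = σ ^ (24 * ∑ i, n i) := by
    rw [mul_comm, _root_.zpow_mul]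
    norm_cast
  rw [h1, h2, hs, ← pow_mul, ← zpow_natCast σ (e * m), ← zpow_add₀ hσ]
  have h3 : -((m : ℤ) * e) + ((e * m : ℕ) : ℤ) = 0 := by
    push_cast
    ring
  rw [h3, zpow_zero]

theorem near_sing {c : T3 → ℂ} (hc : CProp c) (T T1 : T3) (hT : IsSym T) (hT1 : IsSym T1) (m : ℕ)
    (G : T3) (h : LocalLim T T1 m G) :
    ∃ ε A A' B : ℝ, 0 < ε ∧ 0 < A ∧ ∀ t : ℂ, t ≠ 0 → ‖t‖ < ε → Sm (T + t • T1) ∧
      A * ‖t‖ ^ m ≤ ‖c (T + t • T1)‖ ∧ ‖c (T + t • T1)‖ ≤ A' * ‖t‖ ^ m ∧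
      Real.log (N (T + t • T1)) - 1 / 16 * Real.log ‖c (T + t • T1)‖ ≤ B := by
  obtain ⟨g, n, e, hg, he, hs, hG, hlim⟩ := h
  obtain ⟨χ, hχ, hχc⟩ := hc.act g hg
  have hcG : 0 < ‖c G‖ := norm_pos_iff.mpr (hc.ne_zero G hG)
  have hχ0 : 0 < ‖χ‖ := norm_pos_iff.mpr hχ
  -- the three eventual properties
  have e1 : ∀ᶠ σ : ℂ in 𝓝[≠] 0,
      Sm (act (T + σ ^ e • T1) (g * Matrix.diagonal fun i => σ ^ (n i))) := by
    filter_upwards [hlim.eventually (sm_open hG)] with σ hσ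
    exact hσ (isSym_act (isSym_add hT (isSym_smul hT1 _)) _)
  have e2 : Tendsto (fun σ : ℂ => c (act (T + σ ^ e • T1)
      (g * Matrix.diagonal fun i => σ ^ (n i)))) (𝓝[≠] 0) (𝓝 (c G)) :=
    (hc.cont G hG).tendsto.comp (tendsto_nhdsWithin_iff.mpr ⟨hlim, e1⟩)
  have e3 := e2.norm
  have e4 := e3.eventually (lt_mem_nhds (half_lt_self hcG))
  have e5 := e3.eventually (gt_mem_nhds (show ‖c G‖ < 2 * ‖c G‖ by linarith))
  have e6 := ((continuous_nsq.tendsto G).comp hlim).eventually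
    (gt_mem_nhds (show nsq G < nsq G + 1 by linarith))
  obtain ⟨δ, hδ, hall⟩ := Metric.eventually_nhds_iff.mp
    (eventually_nhdsWithin_iff.mp (e1.and (e4.and (e5.and e6))))
  refine ⟨δ ^ e, ‖c G‖ / 2 / ‖χ‖, 2 * ‖c G‖ / ‖χ‖,
    Real.log (nsq G + 1) - 3 / 2 * Real.log ‖g.det‖ - 1 / 16 * Real.log (‖c G‖ / 2) +
      1 / 16 * Real.log ‖χ‖, by positivity, by positivity, fun t ht htε => ?_⟩
  obtain ⟨σ, hσt⟩ := IsAlgClosed.exists_pow_nat_eq t he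
  have hσ : σ ≠ 0 := by
    rintro rfl
    rw [zero_pow he.ne'] at hσt
    exact ht hσt.symm
  have hσδ : ‖σ‖ < δ := by
    rw [← hσt, norm_pow] at htε
    exact lt_of_pow_lt_pow_left₀ e hδ.le htε
  obtain ⟨p1, p2, p3, p4⟩ := hall (by rw [dist_zero_right]; exact hσδ) hσ
  rw [hσt] at p1 p2 p3
  have p4' : nsq (act (T + t • T1) (g * Matrix.diagonal fun i => σ ^ (n i))) < nsq G + 1 := by
    rw [← hσt]
    exact p4
  obtain ⟨D, hD⟩ : ∃ D : M4, D = Matrix.diagonal fun i => σ ^ (n i) := ⟨_, rfl⟩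
  obtain ⟨d, hd⟩ : ∃ d : ℂ, d = ∏ i, σ ^ (n i) := ⟨_, rfl⟩
  have hDd : D.det = d := by rw [hD, hd, det_diag]
  have hd0 : d ≠ 0 := by rw [hd]; exact prod_ne n hσ
  have hdt : d ^ 24 * t ^ m = 1 := by
    rw [hd, ← hσt]
    exact prod_pow_mul n hσ hs
  have hdet : (g * D).det ≠ 0 := by
    rw [Matrix.det_mul, hDd]
    exact mul_ne_zero hg hd0
  rw [← hD] at p1 p2 p3 p4'
  have hSm : Sm (T + t • T1) := (sm_act_iff _ hdet).mp p1
  have hcP : c (act (T + t • T1) (g * D)) = d ^ 24 * (χ * c (T + t • T1)) := by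
    rw [← act_act, hD, hc.diag _ (fun i => zpow_ne_zero _ hσ) _ (sm_act hSm g hg), hχc _ hSm, hd]
  have hnt : 0 < ‖t‖ := norm_pos_iff.mpr ht
  have hneP := hc.ne_zero _ p1
  have hnea := hc.ne_zero _ hSm
  have l1 := log_N_act hSm (g * D) hdet
  have l5 : Real.log (N (act (T + t • T1) (g * D))) ≤ Real.log (nsq G + 1) := by
    refine Real.log_le_log (exists_minimal p1).1 ?_
    exact (N_le_nsq _).trans p4'.le
  refine ⟨hSm, ?_⟩
  generalize c (act (T + t • T1) (g * D)) = P at *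
  generalize c (T + t • T1) = a at *
  generalize N (act (T + t • T1) (g * D)) = NP at *
  generalize N (T + t • T1) = NT at *
  have hkey : ‖P‖ * ‖t‖ ^ m = ‖χ‖ * ‖a‖ := by
    have h1 : P * t ^ m = χ * a := by
      rw [hcP]
      linear_combination (χ * a) * hdt
    have h2 := congrArg norm h1
    rwa [norm_mul, norm_mul, norm_pow] at h2
  have hc' : ‖a‖ = ‖P‖ / ‖χ‖ * ‖t‖ ^ m := by
    rw [div_mul_eq_mul_div, hkey, mul_div_assoc, mul_comm, div_mul_cancel₀ _ hχ0.ne']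
  have htm : 0 < ‖t‖ ^ m := by positivity
  refine ⟨?_, ?_, ?_⟩
  · rw [hc']
    exact mul_le_mul_of_nonneg_right (div_le_div_of_nonneg_right p2.le hχ0.le) htm.le
  · rw [hc']
    exact mul_le_mul_of_nonneg_right (div_le_div_of_nonneg_right p3.le hχ0.le) htm.le
  · have l2 : Real.log ‖(g * D).det‖ = Real.log ‖g.det‖ + Real.log ‖d‖ := by
      rw [Matrix.det_mul, hDd, norm_mul, Real.log_mul (norm_ne_zero_iff.mpr hg)
        (norm_ne_zero_iff.mpr hd0)]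
    have l3 : 24 * Real.log ‖d‖ + m * Real.log ‖t‖ = 0 := by
      have := congrArg (fun z : ℂ => Real.log ‖z‖) hdt
      simp only [norm_mul, norm_pow, norm_one, Real.log_one] at this
      rw [Real.log_mul (pow_ne_zero _ (norm_ne_zero_iff.mpr hd0)) (pow_ne_zero _ hnt.ne'),
        Real.log_pow, Real.log_pow] at this
      push_cast at this
      exact this
    have l4 : Real.log ‖P‖ + m * Real.log ‖t‖ = Real.log ‖χ‖ + Real.log ‖a‖ := by
      have := congrArg Real.log hkey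
      rw [Real.log_mul (norm_ne_zero_iff.mpr hneP) (pow_ne_zero _ hnt.ne'),
        Real.log_mul hχ0.ne' (norm_ne_zero_iff.mpr hnea), Real.log_pow] at this
      exact this
    have l6 : Real.log (‖c G‖ / 2) ≤ Real.log ‖P‖ := Real.log_le_log (by positivity) p2.le
    rw [l2] at l1
    linarith

/-- The limit lies in the orbit of every form whose orbit contains all nearby members. -/
theorem limit_mem_orbit (T T1 F : T3) (hF : Sm F) (m : ℕ) (G : T3) (h : LocalLim T T1 m G)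
    (ε : ℝ) (hε : 0 < ε)
    (ho : ∀ t : ℂ, t ≠ 0 → ‖t‖ < ε → ∃ x : M4, x.det ≠ 0 ∧ T + t • T1 = act F x) :
    ∃ x : M4, x.det ≠ 0 ∧ G = act F x := by
  obtain ⟨g, n, e, hg, he, hs, hG, hlim⟩ := h
  have h1 : ∀ᶠ σ : ℂ in 𝓝[≠] 0, σ ≠ 0 ∧ ‖σ ^ e‖ < ε := by
    refine Filter.Eventually.and self_mem_nhdsWithin ?_
    have h2 : Tendsto (fun σ : ℂ => ‖σ ^ e‖) (𝓝 0) (𝓝 ‖(0 : ℂ) ^ e‖) :=
      Continuous.tendsto (by fun_prop) 0
    rw [zero_pow he.ne', norm_zero] at h2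
    exact (h2.mono_left nhdsWithin_le_nhds).eventually (gt_mem_nhds hε)
  obtain ⟨u, hu, hup⟩ := Filter.exists_seq_forall_of_frequently h1.frequently
  have h3 : ∀ k, ∃ x : M4, x.det ≠ 0 ∧ T + (u k) ^ e • T1 = act F x := fun k =>
    ho _ (pow_ne_zero _ (hup k).1) (hup k).2
  choose x hx hxe using h3
  refine limit_orbit hF hG (fun k => x k * (g * Matrix.diagonal fun i => (u k) ^ (n i)))
    (fun k => ?_) ?_
  · rw [Matrix.det_mul, Matrix.det_mul, det_diag]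
    exact mul_ne_zero (hx k) (mul_ne_zero hg (prod_ne n (hup k).1))
  · refine (hlim.comp hu).congr fun k => ?_
    rw [Function.comp_apply, hxe, act_act]

end Pool.Agent.ISO
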