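import Pool.Agent.ISO.Moment

/-!
# ISO / Pert: lower bound of `N` near a minimal vector

PROOF of `pert`.  Let `K` be a small closed ball around `T0` intersected with the symmetric tensors
(compact; all elements smooth by `sm_open`), `c > 0` from `unif_scaled K`.  For small `τ`,
`T = T0 + τ u + τ² R τ ∈ K`.  Let `det g = 1`; `g = U * dexp r * W`, `∑ r = 0` (`svd`), `ρ = ‖r‖`,
`w = r i + r j + r k` (so `|w| ≤ 3 ρ`), `T' = act T U`.  By `nsq_act_svd`, `exp x ≥ 1 + x`, and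
`exp x ≥ 1 + x + x²/2` for `x ≥ 0` used for one index with `w ≥ c ρ`, `‖T' i j k‖ ≥ c`:
`nsq (act T g) ≥ ∑ (1 + 2 w) ‖T'‖² + 2 c⁴ ρ² = nsq T + 2 ∑ w ‖T'‖² + 2 c⁴ ρ²`.
Expanding `T' = T0' + τ u' + τ² R'` the sum `∑ w ‖T'‖²` is the sum of `∑ w ‖T0'‖² = 0` (`moment`),
`2 Re (τ ∑ w conj T0' u') = 0` (`cross`) and terms bounded by `C1 ‖τ‖² ρ`.  Hence
`nsq (act T g) ≥ nsq T - 2 C1 ‖τ‖² ρ + 2 c⁴ ρ² ≥ nsq T - C1² ‖τ‖⁴ / (2 c⁴)`.
-/

set_option autoImplicit false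

noncomputable section

namespace Pool.Agent.ISO

open Matrix

private theorem sum3_le42 {f g : Fin 4 → Fin 4 → Fin 4 → ℝ} (h : ∀ i j k, f i j k ≤ g i j k) :
    ∑ i, ∑ j, ∑ k, f i j k ≤ ∑ i, ∑ j, ∑ k, g i j k :=
  Finset.sum_le_sum fun i _ => Finset.sum_le_sum fun j _ => Finset.sum_le_sum fun k _ => h i j k

private theorem sum3_add42 (f g : Fin 4 → Fin 4 → Fin 4 → ℝ) :
    ∑ i, ∑ j, ∑ k, (f i j k + g i j k) = ∑ i, ∑ j, ∑ k, f i j k + ∑ i, ∑ j, ∑ k, g i j k := by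
  simp only [Finset.sum_add_distrib]

private theorem sum3_mul42 (c : ℝ) (f : Fin 4 → Fin 4 → Fin 4 → ℝ) :
    ∑ i, ∑ j, ∑ k, c * f i j k = c * ∑ i, ∑ j, ∑ k, f i j k := by
  simp only [Finset.mul_sum]

private theorem sum3_ind42 (i0 j0 k0 : Fin 4) (x : ℝ) :
    ∑ i : Fin 4, ∑ j : Fin 4, ∑ k : Fin 4,
      (if i = i0 then (if j = j0 then (if k = k0 then x else 0) else 0) else 0) = x := by
  rw [Finset.sum_eq_single i0]
  · rw [Finset.sum_eq_single j0]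
    · rw [Finset.sum_eq_single k0]
      · rw [if_pos rfl, if_pos rfl, if_pos rfl]
      · intro k _ hk
        rw [if_pos rfl, if_pos rfl, if_neg hk]
      · intro h
        exact absurd (Finset.mem_univ _) h
    · intro j _ hj
      refine Finset.sum_eq_zero fun k _ => ?_
      rw [if_pos rfl, if_neg hj]
    · intro h
      exact absurd (Finset.mem_univ _) h
  · intro i _ hi
    refine Finset.sum_eq_zero fun j _ => Finset.sum_eq_zero fun k _ => ?_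
    rw [if_neg hi]
  · intro h
    exact absurd (Finset.mem_univ _) h

private theorem point42 {a b e τ : ℂ} (hτ : ‖τ‖ ≤ 1) {w ρ : ℝ} (hw : |w| ≤ 3 * ρ) :
    w * ‖a‖ ^ 2 + 2 * (τ * ((w : ℂ) * ((starRingEnd ℂ) a * b))).re -
      3 * ρ * ‖τ‖ ^ 2 * (‖a‖ ^ 2 + 2 * ‖b‖ ^ 2 + 3 * ‖e‖ ^ 2) ≤
      w * ‖a + τ * b + τ ^ 2 * e‖ ^ 2 := by
  set x : ℂ := τ * b + τ ^ 2 * e with hx
  have h1 : ‖a + τ * b + τ ^ 2 * e‖ ^ 2 = ‖a‖ ^ 2 + ‖x‖ ^ 2 +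
      2 * ((starRingEnd ℂ) a * x).re := by
    rw [add_assoc, ← hx, ← Complex.normSq_eq_norm_sq, ← Complex.normSq_eq_norm_sq,
      ← Complex.normSq_eq_norm_sq, add_comm a x, Complex.normSq_add, mul_comm x]
    ring
  have h2 : ((starRingEnd ℂ) a * x).re = (τ * ((starRingEnd ℂ) a * b)).re +
      ((starRingEnd ℂ) a * (τ ^ 2 * e)).re := by
    rw [← Complex.add_re, hx]
    congr 1
    ring
  have h3 : (τ * ((w : ℂ) * ((starRingEnd ℂ) a * b))).re = w * (τ * ((starRingEnd ℂ) a * b)).re := by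
    rw [← Complex.re_ofReal_mul]
    congr 1
    ring
  have ht0 : 0 ≤ ‖τ‖ := norm_nonneg τ
  have ha0 := norm_nonneg a
  have hb0 := norm_nonneg b
  have he0 := norm_nonneg e
  have h4 : |((starRingEnd ℂ) a * (τ ^ 2 * e)).re| ≤ ‖τ‖ ^ 2 * (‖a‖ * ‖e‖) := by
    refine (Complex.abs_re_le_norm _).trans ?_
    rw [norm_mul, norm_mul, norm_pow, RCLike.norm_conj]
    exact le_of_eq (by ring)
  have h5 : ‖x‖ ≤ ‖τ‖ * ‖b‖ + ‖τ‖ ^ 2 * ‖e‖ := by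
    rw [hx]
    refine (norm_add_le _ _).trans ?_
    rw [norm_mul, norm_mul, norm_pow]
  have ht2 : ‖τ‖ ^ 2 ≤ 1 := pow_le_one₀ ht0 hτ
  have ht2' : 0 ≤ ‖τ‖ ^ 2 := by positivity
  have h6 : ‖x‖ ^ 2 ≤ ‖τ‖ ^ 2 * (2 * ‖b‖ ^ 2 + 2 * ‖e‖ ^ 2) := by
    have h7 := pow_le_pow_left₀ (norm_nonneg x) h5 2
    refine h7.trans ?_
    have h8 : ‖τ‖ ^ 2 * ‖e‖ ^ 2 * ‖τ‖ ^ 2 ≤ ‖τ‖ ^ 2 * ‖e‖ ^ 2 * 1 :=
      mul_le_mul_of_nonneg_left ht2 (by positivity)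
    nlinarith [sq_nonneg (‖τ‖ * ‖b‖ - ‖τ‖ ^ 2 * ‖e‖)]
  have h9 : |‖x‖ ^ 2 + 2 * ((starRingEnd ℂ) a * (τ ^ 2 * e)).re| ≤
      ‖τ‖ ^ 2 * (‖a‖ ^ 2 + 2 * ‖b‖ ^ 2 + 3 * ‖e‖ ^ 2) := by
    refine (abs_add_le _ _).trans ?_
    rw [abs_of_nonneg (sq_nonneg ‖x‖), abs_mul, abs_two]
    have h10 : ‖τ‖ ^ 2 * (2 * (‖a‖ * ‖e‖)) ≤ ‖τ‖ ^ 2 * (‖a‖ ^ 2 + ‖e‖ ^ 2) :=
      mul_le_mul_of_nonneg_left (by nlinarith [sq_nonneg (‖a‖ - ‖e‖)]) ht2'
    nlinarith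
  have hρ : 0 ≤ 3 * ρ := (abs_nonneg w).trans hw
  have h11 : -(3 * ρ * (‖τ‖ ^ 2 * (‖a‖ ^ 2 + 2 * ‖b‖ ^ 2 + 3 * ‖e‖ ^ 2))) ≤
      w * (‖x‖ ^ 2 + 2 * ((starRingEnd ℂ) a * (τ ^ 2 * e)).re) := by
    refine (neg_le_neg ?_).trans (neg_abs_le _)
    rw [abs_mul]
    exact mul_le_mul hw h9 (abs_nonneg _) hρ
  rw [h1, h2, h3]
  linarith

private theorem sbound42 {a b e : T3} {τ : ℂ} (hτ : ‖τ‖ ≤ 1) {w : Fin 4 → Fin 4 → Fin 4 → ℝ}
    {ρ : ℝ} (hw : ∀ i j k, |w i j k| ≤ 3 * ρ)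
    (hm : ∑ i, ∑ j, ∑ k, w i j k * ‖a i j k‖ ^ 2 = 0)
    (hc : ∑ i, ∑ j, ∑ k, ((w i j k : ℝ) : ℂ) * ((starRingEnd ℂ) (a i j k) * b i j k) = 0) :
    -(3 * ρ * ‖τ‖ ^ 2 * (nsq a + 2 * nsq b + 3 * nsq e)) ≤
      ∑ i, ∑ j, ∑ k, w i j k * ‖a i j k + τ * b i j k + τ ^ 2 * e i j k‖ ^ 2 := by
  refine le_trans (le_of_eq ?_) (sum3_le42 fun i j k => point42 (a := a i j k) (b := b i j k)
    (e := e i j k) hτ (hw i j k))
  have h1 : ∀ i j k, w i j k * ‖a i j k‖ ^ 2 +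
      2 * (τ * ((w i j k : ℂ) * ((starRingEnd ℂ) (a i j k) * b i j k))).re -
      3 * ρ * ‖τ‖ ^ 2 * (‖a i j k‖ ^ 2 + 2 * ‖b i j k‖ ^ 2 + 3 * ‖e i j k‖ ^ 2) =
      (w i j k * ‖a i j k‖ ^ 2 +
        2 * (τ * ((w i j k : ℂ) * ((starRingEnd ℂ) (a i j k) * b i j k))).re) +
      (-(3 * ρ * ‖τ‖ ^ 2)) * (‖a i j k‖ ^ 2 + 2 * ‖b i j k‖ ^ 2 + 3 * ‖e i j k‖ ^ 2) := by
    intro i j k
    ring
  simp only [h1]
  rw [sum3_add42, sum3_add42, sum3_mul42, sum3_mul42, hm, sum3_add42, sum3_add42, sum3_mul42,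
    sum3_mul42]
  have h2 : ∑ i, ∑ j, ∑ k, (τ * ((w i j k : ℂ) * ((starRingEnd ℂ) (a i j k) * b i j k))).re = 0 := by
    have h3 : ∑ i, ∑ j, ∑ k, (τ * ((w i j k : ℂ) * ((starRingEnd ℂ) (a i j k) * b i j k))).re =
        (τ * ∑ i, ∑ j, ∑ k, ((w i j k : ℝ) : ℂ) * ((starRingEnd ℂ) (a i j k) * b i j k)).re := by
      simp only [Finset.mul_sum, Complex.re_sum]
    rw [h3, hc, mul_zero, Complex.zero_re]
  rw [h2]
  unfold nsq
  ring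

private theorem nsq_le42 {T : T3} {B : ℝ} (h : ‖T‖ ≤ B) : nsq T ≤ 64 * B ^ 2 := by
  have hB : 0 ≤ B := (norm_nonneg T).trans h
  have h1 : ∀ i j k, ‖T i j k‖ ^ 2 ≤ B ^ 2 := by
    intro i j k
    refine pow_le_pow_left₀ (norm_nonneg _) ?_ 2
    exact ((norm_le_pi_norm (T i j) k).trans (norm_le_pi_norm (T i) j)).trans
      ((norm_le_pi_norm T i).trans h)
  refine (sum3_le42 h1).trans (le_of_eq ?_)
  simp only [Finset.sum_const, Finset.card_univ, Fintype.card_fin, nsmul_eq_mul]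
  push_cast
  ring

private theorem closed_sym42 : IsClosed {T : T3 | IsSym T} := by
  have h : {T : T3 | IsSym T} = ⋂ i, ⋂ j, ⋂ k, {T : T3 | T i j k = T j i k ∧ T i j k = T i k j} := by
    ext T
    simp only [Set.mem_iInter, Set.mem_ofPred_eq, IsSym]
  rw [h]
  refine isClosed_iInter fun i => isClosed_iInter fun j => isClosed_iInter fun k => ?_
  have hc : ∀ i j k, Continuous fun T : T3 => T i j k := fun i j k => by fun_prop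
  exact (isClosed_eq (hc i j k) (hc j i k)).inter (isClosed_eq (hc i j k) (hc i k j))

theorem pert {T0 u : T3} (h0 : Sm T0) (hmin : ∀ g : M4, g.det = 1 → nsq T0 ≤ nsq (act T0 g))
    (hsu : IsSym u) (hu : ∀ Z : M4, ip (lie T0 Z) u = 0) (R : ℂ → T3) (B : ℝ)
    (hR : ∀ τ : ℂ, ‖τ‖ ≤ 1 → IsSym (R τ) ∧ ‖R τ‖ ≤ B) :
    ∃ C δ : ℝ, 0 < δ ∧ ∀ τ : ℂ, ‖τ‖ < δ →
      nsq (T0 + τ • u + τ ^ 2 • R τ) - C * ‖τ‖ ^ 4 ≤ N (T0 + τ • u + τ ^ 2 • R τ) := by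
  obtain ⟨ε, hε, hball⟩ := Metric.eventually_nhds_iff_ball.1 (sm_open h0)
  set K : Set T3 := Metric.closedBall T0 (ε / 2) ∩ {T | IsSym T} with hK
  have hKc : IsCompact K := (isCompact_closedBall T0 (ε / 2)).inter_right closed_sym42
  have hKs : ∀ T ∈ K, Sm T := by
    rintro T ⟨hT1, hT2⟩
    refine hball T (Metric.closedBall_subset_ball (by linarith) hT1) hT2
  obtain ⟨c, hc0, hc⟩ := unif_scaled K hKc hKs
  have hB : 0 ≤ B := (norm_nonneg _).trans (hR 0 (by rw [norm_zero]; exact zero_le_one)).2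
  have hnu := norm_nonneg u
  have hC0 := nsq_nonneg T0
  have hCu := nsq_nonneg u
  set C1 : ℝ := 3 * (nsq T0 + 2 * nsq u + 3 * (64 * B ^ 2)) with hC1
  have hC1n : 0 ≤ C1 := by positivity
  refine ⟨C1 ^ 2 / (2 * c ^ 4), min 1 (ε / 2 / (‖u‖ + B + 1)), lt_min one_pos (by positivity), ?_⟩
  intro τ hτ
  have hτ1 : ‖τ‖ ≤ 1 := (hτ.le).trans (min_le_left _ _)
  have hτ2 : ‖τ‖ ≤ ε / 2 / (‖u‖ + B + 1) := (hτ.le).trans (min_le_right _ _)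
  obtain ⟨hRs, hRB⟩ := hR τ hτ1
  set T : T3 := T0 + τ • u + τ ^ 2 • R τ with hT
  have hTK : T ∈ K := by
    refine ⟨?_, isSym_add (isSym_add h0.1 (isSym_smul hsu _)) (isSym_smul hRs _)⟩
    rw [Metric.mem_closedBall, dist_eq_norm]
    have h1 : T - T0 = τ • u + τ ^ 2 • R τ := by
      rw [hT, add_assoc, add_sub_cancel_left]
    rw [h1]
    refine (norm_add_le _ _).trans ?_
    rw [norm_smul, norm_smul, norm_pow]
    have h2 : ‖τ‖ ^ 2 ≤ ‖τ‖ := by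
      have := norm_nonneg τ
      nlinarith
    have h3 : ‖τ‖ * (‖u‖ + B + 1) ≤ ε / 2 := by
      rwa [le_div_iff₀ (by positivity)] at hτ2
    have h4 : ‖τ‖ ^ 2 * ‖R τ‖ ≤ ‖τ‖ * B := mul_le_mul h2 hRB (norm_nonneg _) (norm_nonneg _)
    have h5 := norm_nonneg τ
    nlinarith
  unfold N
  refine le_csInf ⟨_, 1, Matrix.det_one, rfl⟩ ?_
  rintro y ⟨g, hg, rfl⟩
  have hg0 : g.det ≠ 0 := by rw [hg]; exact one_ne_zero
  obtain ⟨U, W, r, hU, hW, hgd, hr⟩ := svd g hg0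
  rw [hg, norm_one, Real.log_one] at hr
  obtain ⟨i0, j0, k0, hi1, hi2⟩ := hc T hTK U hU r hr
  set ρ : ℝ := ‖r‖ with hρ
  have hρ0 : 0 ≤ ρ := norm_nonneg _
  have hw : ∀ i j k, |r i + r j + r k| ≤ 3 * ρ := by
    intro i j k
    have e1 : ∀ i, |r i| ≤ ρ := fun i => norm_le_pi_norm r i
    have e2 := abs_add_three (r i) (r j) (r k)
    have e3 := e1 i
    have e4 := e1 j
    have e5 := e1 k
    linarith
  have hT' : ∀ i j k, act T U i j k = act T0 U i j k + τ * act u U i j k +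
      τ ^ 2 * act (R τ) U i j k := by
    intro i j k
    rw [hT, act_add, act_add, act_smul, act_smul]
    rfl
  have hS := sbound42 (a := act T0 U) (b := act u U) (e := act (R τ) U) hτ1
    (w := fun i j k => r i + r j + r k) hw (moment hmin U hU r hr) (cross hu U hU r)
  simp only [← hT'] at hS
  rw [nsq_act_unitary _ U hU, nsq_act_unitary _ U hU, nsq_act_unitary _ U hU] at hS
  have hS2 : -(C1 * ‖τ‖ ^ 2 * ρ) ≤ ∑ i, ∑ j, ∑ k, (r i + r j + r k) * ‖act T U i j k‖ ^ 2 := by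
    refine le_trans ?_ hS
    have h1 := nsq_le42 hRB
    have h2 : 3 * ρ * ‖τ‖ ^ 2 * (nsq T0 + 2 * nsq u + 3 * nsq (R τ)) ≤
        3 * ρ * ‖τ‖ ^ 2 * (nsq T0 + 2 * nsq u + 3 * (64 * B ^ 2)) :=
      mul_le_mul_of_nonneg_left (by linarith) (by positivity)
    have h3 : C1 * ‖τ‖ ^ 2 * ρ = 3 * ρ * ‖τ‖ ^ 2 * (nsq T0 + 2 * nsq u + 3 * (64 * B ^ 2)) := by
      rw [hC1]
      ring
    rw [h3]
    linarith
  have hmain : nsq T + 2 * ∑ i, ∑ j, ∑ k, (r i + r j + r k) * ‖act T U i j k‖ ^ 2 +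
      2 * c ^ 4 * ρ ^ 2 ≤ nsq (act T g) := by
    rw [hgd, nsq_act_svd T U W r hW, ← nsq_act_unitary T U hU]
    have h1 := sum3_ind42 i0 j0 k0 (2 * c ^ 4 * ρ ^ 2)
    rw [← h1, ← sum3_mul42]
    unfold nsq
    rw [← sum3_add42, ← sum3_add42]
    refine sum3_le42 fun i j k => ?_
    have hn : 0 ≤ ‖act T U i j k‖ ^ 2 := by positivity
    have hexp : 1 + 2 * (r i + r j + r k) ≤ Real.exp (2 * (r i + r j + r k)) := by
      have := Real.add_one_le_exp (2 * (r i + r j + r k))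
      linarith
    have hgen : ‖act T U i j k‖ ^ 2 + 2 * ((r i + r j + r k) * ‖act T U i j k‖ ^ 2) ≤
        Real.exp (2 * (r i + r j + r k)) * ‖act T U i j k‖ ^ 2 := by
      have := mul_le_mul_of_nonneg_right hexp hn
      linarith
    by_cases hi : i = i0
    · rw [if_pos hi]
      by_cases hj : j = j0
      · rw [if_pos hj]
        by_cases hk : k = k0
        · rw [if_pos hk]
          subst hi hj hk
          have hw0 : 0 ≤ r i + r j + r k := le_trans (by positivity) hi2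
          have hq := Real.quadratic_le_exp_of_nonneg (x := 2 * (r i + r j + r k)) (by linarith)
          have h2 : c ^ 2 ≤ ‖act T U i j k‖ ^ 2 := pow_le_pow_left₀ hc0.le hi1 2
          have h3 : (c * ρ) ^ 2 ≤ (r i + r j + r k) ^ 2 := pow_le_pow_left₀ (by positivity) hi2 2
          have h4 : (c * ρ) ^ 2 * c ^ 2 ≤ (r i + r j + r k) ^ 2 * ‖act T U i j k‖ ^ 2 :=
            mul_le_mul h3 h2 (by positivity) (by positivity)
          have h5 := mul_le_mul_of_nonneg_right hq hn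
          nlinarith
        · rw [if_neg hk, add_zero]
          exact hgen
      · rw [if_neg hj, add_zero]
        exact hgen
    · rw [if_neg hi, add_zero]
      exact hgen
  have hfin : 0 ≤ 2 * c ^ 4 * ρ ^ 2 - 2 * (C1 * ‖τ‖ ^ 2 * ρ) + C1 ^ 2 / (2 * c ^ 4) * ‖τ‖ ^ 4 := by
    have h1 : 2 * c ^ 4 * ρ ^ 2 - 2 * (C1 * ‖τ‖ ^ 2 * ρ) + C1 ^ 2 / (2 * c ^ 4) * ‖τ‖ ^ 4 =
        2 * c ^ 4 * (ρ - C1 * ‖τ‖ ^ 2 / (2 * c ^ 4)) ^ 2 := by
      field_simp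
      ring
    rw [h1]
    positivity
  linarith

end Pool.Agent.ISO
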