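import Pool.Agent.ISO.Four

/-!
# ISO / SMax: strong maximum principle with the infinitesimal four point inequality

PROOF.  Let `E = {t ∈ U | v t = M}`.  `U \ E` is open (upper semicontinuity, `v ≤ M`).  Suppose
`E ≠ U`; since `U` is preconnected and `E` is nonempty, `E` is not open, so some point of `E` is a
limit of points of `U \ E`; choose `a ∈ U \ E` so close to `E` that the closed ball around `a`
with radius `ρ = dist a E > 0` is contained in `U`, and `p ∈ E` with `‖a - p‖ = ρ` (`E` is closed in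
`U`; compactness).  The open ball `ball a ρ` does not meet `E`.  Put `β = ‖a - p‖ / (p - a)`
(`‖β‖ = 1`), `x = Re (β (t - p))`, `y = Im (β (t - p))`, so `t ∈ ball a ρ` iff
`2 ρ x + x² + y² < 0`.  Barrier: `b t = - x - B y² + G x²` with `B = 1/ρ`, `G = 2/ρ`.
(1) `∑_k b (t + I^k τ) = 4 b t + 2 (G - B) ‖τ‖²` (`four_quad`).
(2) For `0 < ‖t - p‖ ≤ δ' := ρ/16` and `t ∉ ball a ρ` one has `b t < 0`: if `x ≥ 0` then
`b t ≤ - x (1 - G x) - B y² < 0`; if `x < 0` then `2 ρ |x| ≤ x² + y²`, so `|x| ≤ (16/31) y²/ρ`, and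
`b t ≤ |x| (1 + G |x|) - B y² < 0` because `(1 + 1/8) (16/31) < 1`.
Hence the compact set `{t | ‖t - p‖ = δ', b t ≥ 0}` lies in the open ball `ball a ρ` where
`v < M`, so `v ≤ M - ε` on it (upper semicontinuous functions attain their maximum on compact
sets).  Choose `η > 0` with `η b ≤ ε / 2` on the circle.  Then `v + η b < M` on the circle
`‖t - p‖ = δ'`, while `(v + η b) p = M`.  The upper semicontinuous function `v + η b` attains its
maximum over the closed disc at some `q`, which is an interior point.  For small `τ`,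
`∑_k (v + η b) (q + I^k τ) ≤ 4 (v + η b) q`, but `SubMean v q` and (1) give
`≥ 4 (v + η b) q - C ‖τ‖³ + 2 η (G - B) ‖τ‖²`: contradiction for small `τ ≠ 0`.
-/

set_option autoImplicit false

noncomputable section

namespace Pool.Agent.ISO

open Complex

/-- the four point mean of the barrier -/
private theorem quad_mean (β p : ℂ) (ρ : ℝ) (hβ : ‖β‖ = 1) (t τ : ℂ) :
    ∑ k : Fin 4, (-(β * (t + I ^ (k : ℕ) * τ - p)).re
        + 2 / ρ * (β * (t + I ^ (k : ℕ) * τ - p)).re ^ 2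
        - 1 / ρ * (β * (t + I ^ (k : ℕ) * τ - p)).im ^ 2)
      = 4 * (-(β * (t - p)).re + 2 / ρ * (β * (t - p)).re ^ 2
          - 1 / ρ * (β * (t - p)).im ^ 2) + 2 / ρ * ‖τ‖ ^ 2 := by
  have h := four_quad β p (-1) (2 / ρ) (-(1 / ρ)) hβ t τ
  have e1 : ∀ k : Fin 4, (-(β * (t + I ^ (k : ℕ) * τ - p)).re
        + 2 / ρ * (β * (t + I ^ (k : ℕ) * τ - p)).re ^ 2
        - 1 / ρ * (β * (t + I ^ (k : ℕ) * τ - p)).im ^ 2) =
      (-1) * (β * (t + I ^ (k : ℕ) * τ - p)).re
        + 2 / ρ * (β * (t + I ^ (k : ℕ) * τ - p)).re ^ 2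
        + (-(1 / ρ)) * (β * (t + I ^ (k : ℕ) * τ - p)).im ^ 2 := fun k => by ring
  rw [Finset.sum_congr rfl fun k _ => e1 k, h]
  ring

/-- the points of the circle where the barrier is nonnegative lie in the ball -/
private theorem circle_pt {x y ρ : ℝ} (hρ : 0 < ρ) (hs : x ^ 2 + y ^ 2 = (ρ / 16) ^ 2)
    (hb : 0 ≤ -x + 2 / ρ * x ^ 2 - 1 / ρ * y ^ 2) : (x + ρ) ^ 2 + y ^ 2 < ρ ^ 2 := by
  have h1 : 0 ≤ -(ρ * x) + 2 * x ^ 2 - y ^ 2 := by
    have h2 := mul_nonneg hρ.le hb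
    have h3 : ρ * (-x + 2 / ρ * x ^ 2 - 1 / ρ * y ^ 2) = -(ρ * x) + 2 * x ^ 2 - y ^ 2 := by
      field_simp
    rw [h3] at h2
    exact h2
  have hx1 : |x| ≤ ρ / 16 := by
    apply abs_le_of_sq_le_sq _ (by positivity)
    nlinarith [sq_nonneg y]
  obtain ⟨hx2, hx3⟩ := abs_le.1 hx1
  by_contra hcon
  push Not at hcon
  rcases lt_or_ge x 0 with hx | hx
  · nlinarith
  · have h4 : x = 0 := by
      by_contra h5
      have h6 : 0 < x := lt_of_le_of_ne hx (Ne.symm h5)
      nlinarith [sq_nonneg y]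
    subst h4
    nlinarith [sq_nonneg y]

theorem strong_max (U : Set ℂ) (hU : IsOpen U) (hc : IsPreconnected U) (v : ℂ → ℝ) (M : ℝ)
    (husc : ∀ t ∈ U, UpperSemicontinuousAt v t) (hsub : ∀ t ∈ U, SubMean v t)
    (hle : ∀ t ∈ U, v t ≤ M) (t0 : ℂ) (h0 : t0 ∈ U) (hM : v t0 = M) : ∀ t ∈ U, v t = M := by
  by_contra hcon
  push Not at hcon
  obtain ⟨t1, ht1, hv1⟩ := hcon
  have hv1' : v t1 < M := lt_of_le_of_ne (hle t1 ht1) hv1
  let N : Set ℂ := {t | t ∈ U ∧ v t < M}
  have hNo : IsOpen N := by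
    rw [isOpen_iff_mem_nhds]
    intro t ht
    have h1 := husc t ht.1 M ht.2
    filter_upwards [h1, hU.mem_nhds ht.1] with s hs1 hs2
    exact ⟨hs2, hs1⟩
  -- a boundary point
  obtain ⟨p0, hp0U, hp0M, hp0⟩ : ∃ p0 ∈ U, v p0 = M ∧ ∀ ε > 0, ∃ a ∈ N, dist a p0 < ε := by
    by_contra hno
    push Not at hno
    let E : Set ℂ := {t | t ∈ U ∧ v t = M}
    have hEo : IsOpen E := by
      rw [isOpen_iff_mem_nhds]
      intro t ht
      obtain ⟨ε, hε, h⟩ := hno t ht.1 ht.2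
      filter_upwards [hU.mem_nhds ht.1, Metric.ball_mem_nhds t hε] with s hs1 hs2
      refine ⟨hs1, ?_⟩
      by_contra h3
      have h4 : s ∈ N := ⟨hs1, lt_of_le_of_ne (hle s hs1) h3⟩
      exact absurd (Metric.mem_ball.1 hs2) (not_lt.2 (h s h4))
    obtain ⟨s, _, hs1, hs2⟩ := hc E N hEo hNo
      (fun t ht => (eq_or_lt_of_le (hle t ht)).imp (fun h => ⟨ht, h⟩) (fun h => ⟨ht, h⟩))
      ⟨t0, h0, h0, hM⟩ ⟨t1, ht1, ht1, hv1'⟩
    exact absurd hs1.2 hs2.2.ne
  -- a closed ball around `p0`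
  obtain ⟨R, hR, hRU⟩ : ∃ R > 0, Metric.closedBall p0 R ⊆ U :=
    Metric.nhds_basis_closedBall.mem_iff.1 (hU.mem_nhds hp0U)
  obtain ⟨a, haN, hap0⟩ := hp0 (R / 4) (by positivity)
  have hKc : IsCompact (Metric.closedBall p0 R ∩ Nᶜ) :=
    (isCompact_closedBall p0 R).inter_right hNo.isClosed_compl
  have hp0K : p0 ∈ Metric.closedBall p0 R ∩ Nᶜ :=
    ⟨Metric.mem_closedBall_self hR.le, fun h => absurd hp0M h.2.ne⟩
  obtain ⟨p, hpK, hpmin⟩ := hKc.exists_isMinOn ⟨p0, hp0K⟩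
    (f := fun t => dist a t) (continuous_const.dist continuous_id).continuousOn
  have hpU : p ∈ U := hRU hpK.1
  have hpM : v p = M := by
    by_contra h
    exact hpK.2 ⟨hpU, lt_of_le_of_ne (hle p hpU) h⟩
  have hap : a ≠ p := fun h => hpK.2 (h ▸ haN)
  obtain ⟨ρ, hρd⟩ : ∃ ρ : ℝ, ρ = dist a p := ⟨_, rfl⟩
  have hρ : 0 < ρ := hρd ▸ dist_pos.2 hap
  have hρp0 : ρ ≤ dist a p0 := hρd ▸ (isMinOn_iff.1 hpmin p0 hp0K)
  -- the open ball around `a`
  have hball : ∀ t, dist t a < ρ → v t < M := by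
    intro t ht
    have h1 : t ∈ Metric.closedBall p0 R := by
      rw [Metric.mem_closedBall]
      have := dist_triangle t a p0
      linarith
    by_contra h2
    have h3 : t ∈ Metric.closedBall p0 R ∩ Nᶜ := ⟨h1, fun h => h2 h.2⟩
    have h4 := isMinOn_iff.1 hpmin t h3
    rw [dist_comm t a] at ht
    have h5 : dist a p ≤ dist a t := h4
    linarith
  -- the closed disc around `p`
  have hdisc : ∀ t, dist t p ≤ ρ / 16 → t ∈ U := by
    intro t ht
    apply hRU
    rw [Metric.mem_closedBall]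
    have h1 := dist_triangle t p p0
    have h2 := dist_triangle p a p0
    rw [dist_comm p a, ← hρd] at h2
    linarith
  -- the barrier
  obtain ⟨β, hβ, hβρ⟩ : ∃ β : ℂ, ‖β‖ = 1 ∧ β * (p - a) = (ρ : ℂ) := by
    have h1 : p - a ≠ 0 := sub_ne_zero.2 hap.symm
    refine ⟨(ρ : ℂ) / (p - a), ?_, div_mul_cancel₀ _ h1⟩
    rw [norm_div, Complex.norm_real, Real.norm_of_nonneg hρ.le, hρd, dist_comm, dist_eq_norm,
      div_self (norm_ne_zero_iff.2 h1)]
  let b : ℂ → ℝ := fun t => -(β * (t - p)).re + 2 / ρ * (β * (t - p)).re ^ 2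
    - 1 / ρ * (β * (t - p)).im ^ 2
  have hbc : Continuous b := by
    have h1 : Continuous fun t : ℂ => β * (t - p) :=
      continuous_const.mul (continuous_id.sub continuous_const)
    exact ((Complex.continuous_re.comp h1).neg.add
      (continuous_const.mul ((Complex.continuous_re.comp h1).pow 2))).sub
      (continuous_const.mul ((Complex.continuous_im.comp h1).pow 2))
  have hbp : b p = 0 := by
    change -(β * (p - p)).re + 2 / ρ * (β * (p - p)).re ^ 2 - 1 / ρ * (β * (p - p)).im ^ 2 = 0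
    simp
  have hnsq : ∀ t, (β * (t - p)).re ^ 2 + (β * (t - p)).im ^ 2 = dist t p ^ 2 := by
    intro t
    have h1 : ‖β * (t - p)‖ ^ 2 = dist t p ^ 2 := by
      rw [norm_mul, hβ, one_mul, dist_eq_norm]
    rw [← h1, Complex.sq_norm, Complex.normSq_apply]
    ring
  have hbin : ∀ t, dist t p = ρ / 16 → 0 ≤ b t → dist t a < ρ := by
    intro t ht hbt
    have h1 := hnsq t
    rw [ht] at h1
    have h2 := circle_pt hρ h1 hbt
    have h3 : dist t a ^ 2 = ((β * (t - p)).re + ρ) ^ 2 + (β * (t - p)).im ^ 2 := by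
      have h4 : ‖β * (t - a)‖ ^ 2 = dist t a ^ 2 := by
        rw [norm_mul, hβ, one_mul, dist_eq_norm]
      have h5 : β * (t - a) = β * (t - p) + (ρ : ℂ) := by
        rw [← hβρ]
        ring
      rw [← h4, h5, Complex.sq_norm, Complex.normSq_apply, Complex.add_re, Complex.add_im,
        Complex.ofReal_re, Complex.ofReal_im]
      ring
    rw [← h3] at h2
    exact lt_of_pow_lt_pow_left₀ 2 hρ.le h2
  have hble : ∀ t, dist t p = ρ / 16 → b t ≤ ρ := by
    intro t ht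
    have h1 := hnsq t
    rw [ht] at h1
    have h2 : |(β * (t - p)).re| ≤ ρ / 16 := by
      apply abs_le_of_sq_le_sq _ (by positivity)
      nlinarith [sq_nonneg (β * (t - p)).im]
    obtain ⟨h3, h4⟩ := abs_le.1 h2
    have h5 : 2 / ρ * (β * (t - p)).re ^ 2 ≤ 2 / ρ * (ρ / 16) ^ 2 := by
      refine mul_le_mul_of_nonneg_left ?_ (by positivity)
      nlinarith [sq_nonneg (β * (t - p)).im]
    have h6 : 2 / ρ * (ρ / 16) ^ 2 = ρ / 128 := by
      field_simp
      norm_num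
    have h7 : 0 ≤ 1 / ρ * (β * (t - p)).im ^ 2 := by positivity
    change -(β * (t - p)).re + 2 / ρ * (β * (t - p)).re ^ 2 - 1 / ρ * (β * (t - p)).im ^ 2 ≤ ρ
    linarith
  -- `v ≤ M - ε` on the dangerous part of the circle
  obtain ⟨ε, hε, hεA⟩ : ∃ ε > 0, ∀ t, dist t p = ρ / 16 → 0 ≤ b t → v t ≤ M - ε := by
    let A : Set ℂ := Metric.sphere p (ρ / 16) ∩ b ⁻¹' Set.Ici 0
    have hA : IsCompact A := (isCompact_sphere p (ρ / 16)).inter_right
      (isClosed_Ici.preimage hbc)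
    rcases A.eq_empty_or_nonempty with hAe | hAn
    · refine ⟨1, one_pos, fun t ht hbt => ?_⟩
      have : t ∈ A := ⟨ht, hbt⟩
      rw [hAe] at this
      exact absurd this (Set.notMem_empty t)
    · have husA : UpperSemicontinuousOn v A := fun t ht =>
        UpperSemicontinuousAt.upperSemicontinuousWithinAt A (husc t (hdisc t (le_of_eq ht.1)))
      obtain ⟨m, hmA, hm⟩ := husA.exists_isMaxOn hAn hA
      refine ⟨M - v m, sub_pos.2 (hball m (hbin m hmA.1 hmA.2)), fun t ht hbt => ?_⟩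
      have := isMaxOn_iff.1 hm t ⟨ht, hbt⟩
      linarith
  -- the function with the barrier
  obtain ⟨η, hη, hηε⟩ : ∃ η : ℝ, 0 < η ∧ η * ρ ≤ ε / 2 :=
    ⟨ε / 2 / ρ, by positivity, le_of_eq (div_mul_cancel₀ _ hρ.ne')⟩
  let w : ℂ → ℝ := fun t => v t + η * b t
  have hww : ∀ t, w t = v t + η * b t := fun t => rfl
  have hbc2 : Continuous fun t => η * b t := continuous_const.mul hbc
  have husw : UpperSemicontinuousOn w (Metric.closedBall p (ρ / 16)) := fun t ht =>
    UpperSemicontinuousAt.upperSemicontinuousWithinAt _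
      ((husc t (hdisc t ht)).add hbc2.continuousAt.upperSemicontinuousAt)
  obtain ⟨q, hq, hqm⟩ := husw.exists_isMaxOn
    ⟨p, Metric.mem_closedBall_self (by positivity)⟩ (isCompact_closedBall p (ρ / 16))
  have hqM : M ≤ w q := by
    have h1 := isMaxOn_iff.1 hqm p (Metric.mem_closedBall_self (by positivity))
    rw [hww p, hbp, hpM] at h1
    linarith
  have hqU : q ∈ U := hdisc q hq
  have hqlt : dist q p < ρ / 16 := by
    refine lt_of_le_of_ne hq fun h => ?_
    rw [hww] at hqM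
    rcases lt_or_ge (b q) 0 with hb | hb
    · have h1 := hle q hqU
      have h2 := mul_neg_of_pos_of_neg hη hb
      linarith
    · have h1 := hεA q h hb
      have h2 := mul_le_mul_of_nonneg_left (hble q h) hη.le
      linarith
  obtain ⟨C, δ, hδ, hC⟩ := hsub q hqU
  obtain ⟨r, hr0, hrδ, hrε, hrC⟩ : ∃ r : ℝ, 0 < r ∧ r < δ ∧ r < ρ / 16 - dist q p ∧
      C * r < η * (2 / ρ) := by
    have hpos : 0 < ρ / 16 - dist q p := sub_pos.2 hqlt
    refine ⟨min (min (δ / 2) ((ρ / 16 - dist q p) / 2)) (η * (1 / ρ) / (|C| + 1)), ?_, ?_, ?_, ?_⟩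
    · positivity
    · exact lt_of_le_of_lt ((min_le_left _ _).trans (min_le_left _ _)) (by linarith)
    · exact lt_of_le_of_lt ((min_le_left _ _).trans (min_le_right _ _)) (by linarith)
    · obtain ⟨r, hr⟩ : ∃ r : ℝ, r = min (min (δ / 2) ((ρ / 16 - dist q p) / 2))
        (η * (1 / ρ) / (|C| + 1)) := ⟨_, rfl⟩
      rw [← hr]
      have hr0 : 0 < r := by rw [hr]; positivity
      have h1 : r ≤ η * (1 / ρ) / (|C| + 1) := by rw [hr]; exact min_le_right _ _
      have h2 : r * (|C| + 1) ≤ η * (1 / ρ) := by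
        rwa [le_div_iff₀ (by positivity)] at h1
      have h3 : C * r ≤ |C| * r := mul_le_mul_of_nonneg_right (le_abs_self C) hr0.le
      have h4 : η * (2 / ρ) = η * (1 / ρ) + η * (1 / ρ) := by ring
      have h5 : 0 < η * (1 / ρ) := by positivity
      nlinarith
  have hr : ‖(r : ℂ)‖ = r := by rw [Complex.norm_real, Real.norm_of_nonneg hr0.le]
  have h1 := hC (r : ℂ) (by rw [hr]; exact hrδ)
  have h2 : ∑ k : Fin 4, (v (q + I ^ (k : ℕ) * (r : ℂ)) + η * b (q + I ^ (k : ℕ) * (r : ℂ)))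
      ≤ ∑ k : Fin 4, (v q + η * b q) := by
    refine Finset.sum_le_sum fun k _ => ?_
    have h3 : q + I ^ (k : ℕ) * (r : ℂ) ∈ Metric.closedBall p (ρ / 16) := by
      rw [Metric.mem_closedBall]
      have h4 := dist_triangle (q + I ^ (k : ℕ) * (r : ℂ)) q p
      have h5 : dist (q + I ^ (k : ℕ) * (r : ℂ)) q = r := by
        rw [dist_eq_norm, add_sub_cancel_left, norm_mul, norm_pow, Complex.norm_I, one_pow,
          one_mul, hr]
      linarith
    exact isMaxOn_iff.1 hqm _ h3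
  have h3 : ∑ k : Fin 4, b (q + I ^ (k : ℕ) * (r : ℂ)) = 4 * b q + 2 / ρ * ‖(r : ℂ)‖ ^ 2 :=
    quad_mean β p ρ hβ q (r : ℂ)
  rw [Finset.sum_add_distrib, ← Finset.mul_sum, h3, hr] at h2
  rw [hr] at h1
  simp only [Finset.sum_const, Finset.card_univ, Fintype.card_fin, nsmul_eq_mul] at h2
  have h4 : C * r * r ^ 2 < η * (2 / ρ) * r ^ 2 := mul_lt_mul_of_pos_right hrC (by positivity)
  push_cast at h2
  nlinarith

end Pool.Agent.ISO
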